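import Pool.Agent.Lib.FI.Blue
import Pool.Agent.Lib.HS76.Diag

/-! Project fi, row LAG: a coefficient of the adjugate. -/

open scoped Classical ComplexOrder Matrix
open Set Polynomial

noncomputable section

namespace Pool.Agent.Lib.FI

open Pool.Agent.Lib.HS32 Pool.Agent.Lib.HS32.BCOH

namespace LAG

theorem nodes (n m : ℕ) (hm : m ≤ n) : ∃ c : Fin (n + 1) → ℝ, ∀ (K : Type) [CommRing K]
    [Algebra ℝ K] (f : K[X]), f.natDegree ≤ n →
    ∑ i, c i • f.eval (algebraMap ℝ K (((i : ℕ) : ℝ) + 1)) = f.coeff m := by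
  have hd : IsUnit (Matrix.vandermonde fun i : Fin (n + 1) => ((i : ℕ) : ℝ) + 1).det :=
    (Matrix.det_vandermonde_ne_zero_iff.2 fun i j h =>
      Fin.ext (Nat.cast_injective (R := ℝ) (add_right_cancel h))).isUnit
  refine ⟨Pi.single ⟨m, Nat.lt_succ_of_le hm⟩ 1 ᵥ*
    (Matrix.vandermonde fun i : Fin (n + 1) => ((i : ℕ) : ℝ) + 1)⁻¹, fun K _ _ f hf => ?_⟩
  have h := Matrix.vecMul_vecMul (Pi.single (⟨m, Nat.lt_succ_of_le hm⟩ : Fin (n + 1)) (1 : ℝ))
    (Matrix.vandermonde fun i : Fin (n + 1) => ((i : ℕ) : ℝ) + 1)⁻¹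
    (Matrix.vandermonde fun i : Fin (n + 1) => ((i : ℕ) : ℝ) + 1)
  rw [Matrix.nonsing_inv_mul _ hd, Matrix.vecMul_one] at h
  generalize _ ᵥ* (Matrix.vandermonde fun i : Fin (n + 1) => ((i : ℕ) : ℝ) + 1)⁻¹ = c at h ⊢
  simp only [eval_eq_sum_range' (Nat.lt_succ_of_le hf), Finset.smul_sum, Finset.sum_range]
  rw [Finset.sum_comm]
  have k : ∀ j : Fin (n + 1), ∑ i : Fin (n + 1),
      c i • (f.coeff j * algebraMap ℝ K (((i : ℕ) : ℝ) + 1) ^ (j : ℕ)) =
      (Pi.single (⟨m, Nat.lt_succ_of_le hm⟩ : Fin (n + 1)) (1 : ℝ) : Fin (n + 1) → ℝ) j •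
        f.coeff j := fun j => by
    rw [← congrFun h j, Matrix.vecMul, dotProduct, Finset.sum_smul]
    refine Finset.sum_congr rfl fun i _ => ?_
    rw [← map_pow, mul_comm, ← Algebra.smul_def, smul_smul, Matrix.vandermonde_apply]
  simp only [k]
  rw [Finset.sum_eq_single ⟨m, Nat.lt_succ_of_le hm⟩ (fun j _ hj => by
    rw [Pi.single_eq_of_ne hj, zero_smul]) fun h => absurd (Finset.mem_univ _) h,
    Pi.single_eq_same, one_smul]

theorem deg {n : ℕ} (T A : Mat n) : (pl T A).natDegree ≤ n :=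
  (natDegree_det_X_add_C_le A T).trans (Fintype.card_fin n).le

theorem adj {k : ℕ} (N R : Mat k) : ∃ g : ℂ[X], g.natDegree ≤ k ∧
    ∀ s : ℂ, g.eval s = ((s • (1 : Mat k) + N).adjugate * R).trace := by
  refine ⟨∑ i, ∑ j, pl (N.updateRow j (Pi.single i 1)) ((1 : Mat k).updateRow j 0) * C (R j i),
    natDegree_sum_le_of_forall_le _ _ fun i _ => natDegree_sum_le_of_forall_le _ _ fun j _ =>
      (natDegree_mul_C_le _ _).trans (deg _ _), fun s => ?_⟩
  simp only [eval_finsetSum, eval_mul, eval_C, pl_eval, Matrix.trace, Matrix.diag,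
    Matrix.mul_apply, Matrix.adjugate_apply]
  refine Finset.sum_congr rfl fun i _ => Finset.sum_congr rfl fun j _ =>
    congrArg (fun T : Mat k => T.det * R j i) ?_
  ext a b
  by_cases h : a = j
  · subst h
    simp
  · simp [Matrix.updateRow_ne h, add_comm]

theorem nn {ι : Type} (s : Finset ι) (l : ι → ℝ) (h : ∀ i, 0 ≤ l i) (m : ℕ) :
    0 ≤ (∏ i ∈ s, (X + C (l i))).coeff m := by
  refine Finset.prod_induction _ (fun f : ℝ[X] => ∀ m, 0 ≤ f.coeff m) (fun f g hf hg m => ?_)
    (fun m => ?_) (fun i _ m => ?_) m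
  · rw [coeff_mul]
    exact Finset.sum_nonneg fun _ _ => mul_nonneg (hf _) (hg _)
  · rw [coeff_one]
    split_ifs <;> norm_num
  · rw [coeff_add, coeff_X, coeff_C]
    have := h i
    split_ifs <;> linarith

end LAG

theorem bLAG (hSYL : St_SYL) : St_LAG := by
  intro n k k0 kn
  obtain ⟨c, hc⟩ := LAG.nodes n (n - k) (Nat.sub_le n k)
  refine ⟨c, fun A P B hA hB => ?_⟩
  have d0 : A.det ≠ 0 := hA.det_pos.ne'
  have sm : ∀ r : ℝ, r • A = algebraMap ℝ ℂ r • A := fun r => (algebraMap_smul ℂ r A).symm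
  refine ⟨?_, fun Θ => ?_, ?_⟩
  · have hQ := hB.conjTranspose_mul_mul_same P
    generalize Pᴴ * B * P = Q at hQ
    obtain ⟨W, l, h1, h2⟩ := HS76.simul_diag hA hQ.1
    have l0 : ∀ i, 0 ≤ l i := fun i => by
      have := (h2 ▸ hQ.conjTranspose_mul_mul_same W).diag_nonneg (i := i)
      simpa using this
    have w1 : IsUnit W.det := (Matrix.isUnit_det_of_left_inverse h1)
    have e : ∀ r : ℝ, (r • A + Q).adjugate = (W⁻¹).adjugate *
        Matrix.diagonal (fun a => ((∏ j ∈ Finset.univ.erase a, (X + C (l j))).eval r : ℝ) : Fin n → ℂ) *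
        (W⁻¹).adjugateᴴ := fun r => by
      have e1 : r • A + Q = W⁻¹ᴴ * Matrix.diagonal (fun a => ((r + l a : ℝ) : ℂ)) * W⁻¹ := by
        have e2 : Matrix.diagonal (fun a => ((r + l a : ℝ) : ℂ)) = Wᴴ * (r • A + Q) * W := by
          rw [Matrix.mul_add, Matrix.add_mul, Matrix.mul_smul, Matrix.smul_mul, h1, h2]
          ext a b
          by_cases h : a = b
          · subst h
            simp
          · simp [h]
        rw [e2, ← Matrix.mul_assoc, ← Matrix.mul_assoc, ← Matrix.conjTranspose_mul,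
          Matrix.mul_nonsing_inv _ w1, Matrix.conjTranspose_one, Matrix.one_mul, Matrix.mul_assoc,
          Matrix.mul_nonsing_inv _ w1, Matrix.mul_one]
      rw [e1, Matrix.adjugate_mul_distrib, Matrix.adjugate_mul_distrib, Matrix.adjugate_diagonal,
        Matrix.adjugate_conjTranspose, Matrix.mul_assoc]
      simp only [eval_prod, eval_add, eval_X, eval_C, Complex.ofReal_prod]
    have e3 : ∑ i : Fin (n + 1), c i • Matrix.diagonal (fun a => ((∏ j ∈ Finset.univ.erase a,
        (X + C (l j))).eval (((i : ℕ) : ℝ) + 1) : ℝ) : Fin n → ℂ) = Matrix.diagonal (fun a =>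
        ((∏ j ∈ Finset.univ.erase a, (X + C (l j))).coeff (n - k) : ℝ) : Fin n → ℂ) := by
      ext a b
      by_cases h : a = b
      · subst h
        rw [Matrix.diagonal_apply_eq, ← hc ℝ _ ((natDegree_prod_le _ _).trans (by
          simp only [natDegree_X_add_C, Finset.sum_const, smul_eq_mul, mul_one]
          exact (Finset.card_le_univ _).trans (Fintype.card_fin n).le))]
        simp [Matrix.sum_apply]
      · simp [Matrix.sum_apply, h]
    have e4 : ∀ (U V : Mat n) (T : Fin (n + 1) → Mat n),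
        ∑ i, c i • (U * T i * V) = U * (∑ i, c i • T i) * V := fun U V T => by
      simp only [Matrix.mul_sum, Matrix.sum_mul, Matrix.mul_smul, Matrix.smul_mul]
    simp only [e]
    rw [e4, e3]
    exact (Matrix.PosSemidef.diagonal fun a => Complex.zero_le_real.2
      (LAG.nn _ l l0 _)).mul_mul_conjTranspose_same _
  · obtain ⟨g, g1, g2⟩ := LAG.adj (B * (P * A⁻¹ * Pᴴ)) (Θ * (P * A⁻¹ * Pᴴ))
    have h := hc ℂ (X ^ (n - k) * (C A.det * g)) (natDegree_mul_le.trans (by
      have := (natDegree_C_mul_le A.det g).trans g1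
      rw [natDegree_X_pow]
      omega))
    rw [← zero_add (n - k), coeff_X_pow_mul', zero_add, if_pos le_rfl, Nat.sub_self, coeff_C_mul,
      coeff_zero_eq_eval_zero, g2, zero_smul, zero_add, Matrix.adjugate_mul_distrib,
      ← Matrix.mul_assoc, Matrix.trace_mul_comm, ← Matrix.mul_assoc, ← Matrix.mul_assoc,
      Matrix.mul_adjugate, Matrix.smul_mul, Matrix.smul_mul, Matrix.one_mul, Matrix.trace_smul,
      smul_eq_mul] at h
    rw [mul_assoc A.det, ← h]
    refine Finset.sum_congr rfl fun i _ => ?_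
    rw [sm, (hSYL n k A P B Θ _ kn d0).2, eval_mul, eval_mul, eval_pow, eval_X, eval_C, g2,
      mul_assoc]
  · have e : pl (Pᴴ * B * P) A = X ^ (n - k) * (C A.det * pl (B * (P * A⁻¹ * Pᴴ)) 1) :=
      Polynomial.funext fun s => by
        rw [pl_eval, add_comm, (hSYL n k A P B B s kn d0).1, eval_mul, eval_mul, eval_pow, eval_X,
          eval_C, pl_eval, add_comm, mul_assoc]
    have h := hc ℂ (derivative (pl (Pᴴ * B * P) A))
      ((natDegree_derivative_le _).trans ((Nat.sub_le _ _).trans (LAG.deg _ _)))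
    have h1 : (pl (B * (P * A⁻¹ * Pᴴ)) 1).coeff 1 =
        (B.adjugate * (P * A⁻¹ * Pᴴ).adjugate).trace := by
      have := pl_deriv (B * (P * A⁻¹ * Pᴴ)) 1 0
      rw [← coeff_zero_eq_eval_zero, coeff_derivative, zero_smul, add_zero, Matrix.mul_one,
        Matrix.adjugate_mul_distrib, Matrix.trace_mul_comm] at this
      simpa using this
    rw [coeff_derivative] at h
    conv_rhs at h => rw [e, add_comm (n - k), coeff_X_pow_mul, coeff_C_mul, h1]
    simp only [pl_deriv] at h
    simp only [sm, add_comm (_ • A)]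
    rw [h]
    push_cast
    ring

end Pool.Agent.Lib.FI
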