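import Pool.Agent.Lib.FI.Blue

/-! Project fi: the identities of Sylvester. -/

open scoped Classical Topology Matrix
open Set Filter

noncomputable section

namespace Pool.Agent.Lib.FI

open Pool.Agent.Lib.HS32

namespace SYL

variable {n k : ℕ} {A : Mat n}

theorem one (P : Matrix (Fin k) (Fin n) ℂ) (Q : Matrix (Fin n) (Fin k) ℂ) (B : Mat k) (h : k ≤ n)
    (hA : A.det ≠ 0) (s : ℂ) :
    (s • A + Q * B * P).det = s ^ (n - k) * A.det * (s • (1 : Mat k) + B * (P * A⁻¹ * Q)).det := by
  have u : A⁻¹ * A = 1 := Matrix.nonsing_inv_mul A (Ne.isUnit hA)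
  refine congrFun (Continuous.ext_on (dense_compl_singleton (0 : ℂ))
    (f := fun s => (s • A + Q * B * P).det)
    (g := fun s => s ^ (n - k) * A.det * (s • (1 : Mat k) + B * (P * A⁻¹ * Q)).det)
    ((continuous_id.smul continuous_const).add continuous_const).matrix_det
    (((continuous_id.pow _).mul continuous_const).mul
      ((continuous_id.smul continuous_const).add continuous_const).matrix_det) fun s hs => ?_) s
  have s0 : s ≠ 0 := hs
  have e1 : s • A + Q * B * P = s • ((1 + Q * (s⁻¹ • (B * P * A⁻¹))) * A) := by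
    rw [add_mul, one_mul, smul_add, Matrix.mul_smul, smul_mul_assoc, smul_smul,
      mul_inv_cancel₀ s0, one_smul]
    simp only [Matrix.mul_assoc, u, Matrix.mul_one]
  have e2 : s • (1 : Mat k) + B * (P * A⁻¹ * Q) = s • (1 + (s⁻¹ • (B * P * A⁻¹)) * Q) := by
    rw [smul_add, Matrix.smul_mul, smul_smul, mul_inv_cancel₀ s0, one_smul]
    simp only [Matrix.mul_assoc]
  beta_reduce
  rw [e1, e2, Matrix.det_smul, Matrix.det_smul, Matrix.det_mul, Matrix.det_one_add_mul_comm,
    Fintype.card_fin, Fintype.card_fin]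
  rw [show s ^ n = s ^ (n - k) * s ^ k by rw [← pow_add, Nat.sub_add_cancel h]]
  ring

theorem dense (X : Mat k) : Dense {s : ℂ | (s • (1 : Mat k) + X).det ≠ 0} := by
  have h := (Polynomial.finite_setOf_isRoot (-X).charpoly_monic.ne_zero).countable.dense_compl ℂ
  refine Dense.mono (fun s hs => ?_) h
  refine fun h0 => hs ?_
  rw [mem_setOf_eq, Polynomial.IsRoot, Matrix.eval_charpoly, sub_neg_eq_add, ← h0,
    Matrix.scalar_apply, Matrix.smul_one_eq_diagonal]

/-- The adjugate on the range of `Q`. -/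
theorem two (P : Matrix (Fin k) (Fin n) ℂ) (Q : Matrix (Fin n) (Fin k) ℂ) (B : Mat k) (h : k ≤ n)
    (hA : A.det ≠ 0) (s : ℂ) : (s • A + Q * B * P).adjugate * Q = (s ^ (n - k) * A.det) •
      (A⁻¹ * Q * (s • (1 : Mat k) + B * (P * A⁻¹ * Q)).adjugate) := by
  have u : A * A⁻¹ = 1 := Matrix.mul_nonsing_inv A (Ne.isUnit hA)
  refine congrFun (Continuous.ext_on (dense (B * (P * A⁻¹ * Q)))
    (f := fun s => (s • A + Q * B * P).adjugate * Q)
    (g := fun s => (s ^ (n - k) * A.det) •
      (A⁻¹ * Q * (s • (1 : Mat k) + B * (P * A⁻¹ * Q)).adjugate))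
    (((continuous_id.smul continuous_const).add continuous_const).matrix_adjugate.matrix_mul
      continuous_const)
    (((continuous_id.pow _).mul continuous_const).smul (continuous_const.matrix_mul
      ((continuous_id.smul continuous_const).add continuous_const).matrix_adjugate))
    fun s hs => ?_) s
  have e : (s • A + Q * B * P) * (A⁻¹ * Q) = Q * (s • (1 : Mat k) + B * (P * A⁻¹ * Q)) := by
    rw [Matrix.add_mul, Matrix.mul_add, Matrix.smul_mul, Matrix.mul_smul, ← Matrix.mul_assoc A, u,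
      Matrix.one_mul, Matrix.mul_one]
    simp only [Matrix.mul_assoc]
  have e2 := congrArg (fun Y => (s • A + Q * B * P).adjugate * Y *
    (s • (1 : Mat k) + B * (P * A⁻¹ * Q)).adjugate) e
  beta_reduce at e2 ⊢
  rw [← Matrix.mul_assoc, Matrix.adjugate_mul, Matrix.smul_mul, Matrix.one_mul, Matrix.smul_mul,
    Matrix.mul_assoc _ (Q * _), Matrix.mul_assoc Q (_ + _), Matrix.mul_adjugate, Matrix.mul_smul,
    Matrix.mul_one, Matrix.mul_smul, one P Q B h hA, mul_comm, mul_smul] at e2
  exact (smul_right_injective _ hs e2).symm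

end SYL

theorem bSYL : St_SYL := by
  intro n k A P B Θ s h hA
  refine ⟨SYL.one P Pᴴ B h hA s, ?_⟩
  rw [Matrix.mul_assoc Pᴴ Θ, ← Matrix.mul_assoc _ Pᴴ (Θ * P), SYL.two P Pᴴ B h hA s, Matrix.smul_mul,
    Matrix.trace_smul, smul_eq_mul, Matrix.mul_assoc (A⁻¹ * Pᴴ), Matrix.trace_mul_comm]
  simp only [Matrix.mul_assoc]

end Pool.Agent.Lib.FI
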