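import Pool.Agent.Lib.FI.Blue
import Pool.Agent.Lib.HS76.Pt

/-! Project fi, row ITG: integrability against test functions. -/

open scoped Classical Topology ContDiff ComplexOrder Matrix ENNReal
open Set MeasureTheory Complex Metric Filter

noncomputable section

namespace Pool.Agent.Lib.FI

open Pool.Agent.Lib.SV (E nsq)
open Pool.Agent.Lib.HS32

namespace ITG

theorem adj_entry {k : ℕ} {W : Mat k} (h : W.PosSemidef) (i j : Fin k) :
    ‖W.adjugate i j‖ ≤ W.adjugate.trace.re := by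
  have hc : Continuous fun t : ℝ => (W + (t : ℂ) • (1 : Mat k)).adjugate :=
    (continuous_const.add (continuous_ofReal.smul continuous_const)).matrix_adjugate
  have h1 : Tendsto (fun t : ℝ => ‖(W + (t : ℂ) • (1 : Mat k)).adjugate i j‖) (𝓝[>] 0)
      (𝓝 ‖W.adjugate i j‖) := by
    simpa using ((hc.matrix_elem i j).norm.tendsto 0).mono_left (nhdsWithin_le_nhds (s := Ioi 0))
  have h2 : Tendsto (fun t : ℝ => (W + (t : ℂ) • (1 : Mat k)).adjugate.trace.re) (𝓝[>] 0)
      (𝓝 W.adjugate.trace.re) := by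
    simpa [Function.comp_def] using ((continuous_re.comp hc.matrix_trace).tendsto 0).mono_left
      (nhdsWithin_le_nhds (s := Ioi 0))
  refine le_of_tendsto_of_tendsto h1 h2 (eventually_nhdsWithin_of_forall fun t ht => ?_)
  have hT : (W + (t : ℂ) • (1 : Mat k)).PosDef :=
    Matrix.PosDef.posSemidef_add h (Matrix.PosDef.one.smul (by exact_mod_cast ht))
  have e : (W + (t : ℂ) • (1 : Mat k)).adjugate =
      (W + (t : ℂ) • (1 : Mat k)).det • (W + (t : ℂ) • (1 : Mat k))⁻¹ := by
    rw [Matrix.inv_def, smul_smul, Ring.mul_inverse_cancel _ hT.det_pos.ne'.isUnit, one_smul]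
  refine HS76.entry_le_trace ?_ i j
  rw [e]
  exact hT.inv.posSemidef.smul hT.det_pos.le

theorem core {k : ℕ} {X : Type} [TopologicalSpace X] [MeasurableSpace X] [BorelSpace X]
    [CompactSpace X] {μ : Measure X} {O : Set X} (hO : IsOpen O) {z : X → E k}
    (hz : ContinuousOn z O) {φ : X → ℂ} {θ : E k → ℂ} (hφ : Continuous φ) (hθ : Continuous θ)
    (hs : HasCompactSupport θ) {a : X → ℂ} {b : X → ℝ} (ha : ContinuousOn a O)
    (hab : ∀ x ∈ O, ‖a x‖ ≤ b x)
    (hb : ∀ R : ℝ, 0 < R → ∫⁻ x in {x | x ∈ O ∧ nsq (z x - 0) ≤ R}, ENNReal.ofReal (b x) ∂μ < ⊤) :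
    IntegrableOn (fun x => φ x * θ (z x) * a x) O μ := by
  have hn : Continuous fun y : E k => nsq (y - 0) := by
    unfold nsq
    fun_prop
  obtain ⟨R, hR⟩ := hs.isCompact.bddAbove_image hn.continuousOn
  obtain ⟨c, hc⟩ := isCompact_univ.exists_bound_of_continuousOn hφ.continuousOn
  obtain ⟨d, hd⟩ := hθ.bounded_above_of_compact_support hs
  have hS : MeasurableSet {x | x ∈ O ∧ nsq (z x - 0) ≤ max R 1} := by
    have := ((hn.comp_continuousOn hz).isOpen_inter_preimage hO (isOpen_Ioi (a := max R 1)))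
    have e : {x | x ∈ O ∧ nsq (z x - 0) ≤ max R 1} =
        O \ (O ∩ (fun y : E k => nsq (y - 0)) ∘ z ⁻¹' Ioi (max R 1)) := by
      ext x
      simp only [mem_ofPred_eq, Set.mem_sdiff, mem_inter_iff, mem_preimage, Function.comp, mem_Ioi,
        not_and, not_lt]
      exact ⟨fun h => ⟨h.1, fun _ => h.2⟩, fun h => ⟨h.1, h.2 h.1⟩⟩
    rw [e]
    exact hO.measurableSet.diff this.measurableSet
  have hc' : ContinuousOn (fun x => φ x * θ (z x) * a x) O :=
    (hφ.continuousOn.mul (hθ.comp_continuousOn hz)).mul ha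
  refine IntegrableOn.of_forall_sdiff_eq_zero (s := {x | x ∈ O ∧ nsq (z x - 0) ≤ max R 1}) ?_
    hO.measurableSet fun x hx => ?_
  · refine ⟨(hc'.mono fun x hx => hx.1).aestronglyMeasurable hS, ?_⟩
    rw [hasFiniteIntegral_iff_norm]
    refine lt_of_le_of_lt (setLIntegral_mono' hS
      (g := fun x => ENNReal.ofReal (|c| * |d|) * ENNReal.ofReal (b x)) fun x hx => ?_) ?_
    · rw [← ENNReal.ofReal_mul (by positivity), norm_mul, norm_mul]
      refine ENNReal.ofReal_le_ofReal (mul_le_mul (mul_le_mul ((hc x trivial).trans (le_abs_self c))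
        ((hd _).trans (le_abs_self d)) (norm_nonneg _) (abs_nonneg _)) (hab x hx.1) (norm_nonneg _)
        (by positivity))
    · rw [lintegral_const_mul' _ _ ENNReal.ofReal_ne_top]
      exact ENNReal.mul_lt_top ENNReal.ofReal_lt_top (hb _ (lt_max_of_lt_right one_pos))
  · have : θ (z x) = 0 := by
      by_contra h
      exact hx.2 ⟨hx.1, le_max_of_le_left (hR ⟨z x, subset_tsupport _ h, rfl⟩)⟩
    rw [this, mul_zero, zero_mul]

end ITG

theorem bITG (hBAS : St_BAS) (hBAL : St_BAL) : St_ITG := by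
  intro n k M _ H p z C φ θ hF hφ hθ hs
  obtain ⟨h1, h2, h3, h4, -⟩ := hBAS n k M H p z C hF
  obtain ⟨c, -, h5⟩ := hBAL n k M H p z C hF
  have hp : ∀ x, 0 < p x → (hz H z x).PosSemidef := fun x hx =>
    (Mf.AllOn.ch h4 x (by rw [Mf.ch_symm]; exact hx)).2.1
  have hm : ContinuousOn (hz H z) {x | 0 < p x} :=
    continuousOn_pi.2 fun i => continuousOn_pi.2 fun j => h3 i j
  refine ⟨ITG.core h1 h2 hφ hθ hs (a := fun x => (dn H z x : ℂ)) (b := dn H z) ?_ (fun x hx => ?_)
    fun R hR => (h5 0 R hR).1.trans_lt ENNReal.ofReal_lt_top, fun i j =>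
    ITG.core h1 h2 hφ hθ hs (a := fun x => (hz H z x).adjugate i j)
      (b := fun x => (hz H z x).adjugate.trace.re) ?_ (fun x hx => ITG.adj_entry (hp x hx) i j)
      fun R hR => (h5 0 R hR).2.trans_lt ENNReal.ofReal_lt_top⟩
  · exact (continuous_ofReal.comp (continuous_re.comp continuous_id.matrix_det)).comp_continuousOn hm
  · rw [norm_real]
    exact (Real.norm_of_nonneg (Complex.le_def.1 (hp x hx).det_nonneg).1).le
  · exact (continuous_id.matrix_adjugate.matrix_elem i j).comp_continuousOn hm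

end Pool.Agent.Lib.FI
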