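import Pool.Agent.Lib.FI.Blue

/-! Project fi, row SMO: the smoothed fibre integrals. -/

open scoped Classical Topology ContDiff ComplexOrder Matrix ENNReal
open Set MeasureTheory Complex Metric Filter

noncomputable section

namespace Pool.Agent.Lib.FI

open Pool.Agent.Lib.SV (E nsq)
open Pool.Agent.Lib.HS32

namespace SMO

variable {k : ℕ}

theorem tst_sc {r : E k → ℝ} (h : Tst r) {e : ℝ} (he : 0 < e) : Tst (sc r e) :=
  ⟨contDiff_const.mul (h.sm.comp (contDiff_const_smul _)),
    (h.cs.comp_homeomorph (Homeomorph.smulOfNeZero ((e⁻¹ : ℝ) : ℂ)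
      (ofReal_ne_zero.2 (inv_pos.2 he).ne'))).mul_left⟩

theorem int_sc {r : E k → ℝ} {e : ℝ} (he : 0 < e) : ∫ w, sc r e w = ∫ w, r w := by
  simp only [sc, coe_smul]
  rw [integral_const_mul, Measure.integral_comp_inv_smul_of_nonneg volume r he.le]
  simp [Module.finrank_pi_fintype, finrank_real_complex, mul_comm, he.ne']

theorem hess_sub {f : E k → ℂ} (h : ContDiff ℝ ∞ f) (y w : E k) :
    hess (fun w => f (y - w)) w = hess f (y - w) := by
  have h1 : HolN (fun w : E k => y - w) w := .of_forall fun _ => by fun_prop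
  have h2 : jm (fun w : E k => y - w) w = -1 := by
    ext i j
    have h3 : HasFDerivAt (fun w : E k => y - w) _ w := (hasFDerivAt_id (𝕜 := ℂ) w).const_sub y
    rw [jm, h3.fderiv]
    simp [Pi.single_apply, Matrix.one_apply]
  have := (mCHN k _ w h1).2.2.2.2.2.2.2.2.2.2.2 f h.contDiffAt
  rw [h2] at this
  exact this.trans (by simp)

theorem cs_hess {f : E k → ℂ} (h : HasCompactSupport f) (i j : Fin k) :
    HasCompactSupport fun w => hess f w i j :=
  h.mono' fun w hw => by
    by_contra hn
    refine hw ?_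
    beta_reduce
    rw [hess_congr (notMem_tsupport_iff_eventuallyEq.1 hn)]
    have : dz j (0 : E k → ℂ) = 0 := by ext; simp [dz]
    simp [hess, this, dzb]

theorem bump (R : ℝ) : ∃ θ : E k → ℂ, Continuous θ ∧ HasCompactSupport θ ∧
    ∀ y, nsq y ≤ R → θ y = 1 := by
  obtain ⟨f, f1, -, f2, -⟩ := exists_continuous_one_zero_of_isCompact
    (isCompact_closedBall (0 : E k) √R) isClosed_empty (disjoint_empty _)
  refine ⟨fun y => (f y : ℂ), by fun_prop, f2.comp_left (g := fun t : ℝ => (t : ℂ)) rfl,
    fun y hy => ?_⟩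
  have : y ∈ closedBall (0 : E k) √R := by
    refine mem_closedBall_zero_iff.2 ((pi_norm_le_iff_of_nonneg (Real.sqrt_nonneg _)).2 fun i =>
      Real.le_sqrt_of_sq_le ?_)
    rw [← normSq_eq_norm_sq]
    exact (Finset.single_le_sum (f := fun i => normSq (y i)) (fun _ _ => normSq_nonneg _)
      (Finset.mem_univ i)).trans hy
  simp [f1 this]

end SMO

open SMO in
theorem bSMO (hB : St_BAS) (hI : St_ITG) (hC : St_CNV) : St_SMO := by
  intro n k M _ H p z C V r Ψ hF hV hR
  obtain ⟨hO, hz0, -, hA, -⟩ := hB n k M H p z C hF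
  have zm : AEMeasurable z ((M.mu H).restrict {x | 0 < p x}) := hz0.aemeasurable hO.measurableSet
  have d0 : ∀ x, 0 < p x → 0 ≤ dn H z x := fun x hx => by
    obtain ⟨e, he, h1⟩ := M.cov x
    have h2 := hA e he _ (e.map_source h1) (by rwa [e.left_inv h1])
    have h3 := h2.1
    rw [e.left_inv h1] at h3
    rw [dn, h3]
    exact (le_def.1 h2.2.1.det_nonneg).1
  have iC : ∀ {φ : M.X → ℝ} {K : E k → ℂ} (y : E k), Continuous φ → Continuous K →
      HasCompactSupport K → Integrable (fun x => K (y - z x) * ((φ x * dn H z x : ℝ) : ℂ))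
        ((M.mu H).restrict {x | 0 < p x}) := fun {φ K} y hφ hK hs =>
    ((hI n k M H p z C (fun x => φ x) (fun w => K (y - w)) hF (by fun_prop) (by fun_prop)
      (hs.comp_homeomorph (Homeomorph.subLeft y))).1).congr (.of_forall fun x => by
        push_cast; ring)
  have cC : ∀ {K : E k → ℝ}, Tst K → ContDiff ℝ ∞ (fun w => (K w : ℂ)) ∧
      HasCompactSupport fun w => (K w : ℂ) := fun h =>
    ⟨ofRealCLM.contDiff.comp h.sm, h.cs.comp_left (g := fun t : ℝ => (t : ℂ)) rfl⟩
  have iR : ∀ {φ : M.X → ℝ} {e : ℝ} (y : E k), Continuous φ → 0 < e →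
      Integrable (fun x => φ x * sc r e (y - z x) * dn H z x) ((M.mu H).restrict {x | 0 < p x}) :=
    fun {φ e} y hφ he => by
      have t := cC (tst_sc hR.tr he)
      refine (iC y hφ t.1.continuous t.2).re.congr (.of_forall fun x => ?_)
      simp only [← ofReal_mul, RCLike.re_to_complex, ofReal_re]
      ring
  have s0 : ∀ {e : ℝ} (w : E k), 0 < e → 0 ≤ sc r e w := fun w he =>
    mul_nonneg (by positivity) (hR.r0 _)
  have eC : ∀ (φ : M.X → ℝ) (K : E k → ℝ) (y : E k),
      ∫ x in {x | 0 < p x}, (K (y - z x) : ℂ) * ((φ x * dn H z x : ℝ) : ℂ) ∂M.mu H =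
      ((∫ x in {x | 0 < p x}, φ x * K (y - z x) * dn H z x ∂M.mu H : ℝ) : ℂ) := fun φ K y => by
    rw [← integral_complex_ofReal]
    exact integral_congr_ae (.of_forall fun x => by push_cast; ring)
  refine ⟨fun e y he => ⟨?_, fun φ ψ hφ hψ => ⟨fun a => ?_, fun h => ?_⟩⟩, fun φ hφ e he => ?_⟩
  · have t := tst_sc hR.tr he
    have i1 : Integrable fun w => sc r e (y - w) :=
      (t.sm.continuous.integrable_of_hasCompactSupport t.cs).comp_sub_left y
    have m1 : Measurable fun w => ENNReal.ofReal (sc r e (y - w)) :=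
      (t.sm.continuous.comp (continuous_const.sub continuous_id)).measurable.ennreal_ofReal
    have e1 := hV.2 _ m1
    rw [← ofReal_integral_eq_lintegral_ofReal i1 (.of_forall fun w => s0 _ he),
      integral_sub_left_eq_self (sc r e), int_sc he, hR.one, ENNReal.ofReal_one, mul_one] at e1
    rw [fi, integral_eq_lintegral_of_nonneg_ae ((ae_restrict_mem hO.measurableSet).mono fun x hx =>
      mul_nonneg (mul_nonneg zero_le_one (s0 _ he)) (d0 x hx))
      (iR y continuous_const he).aestronglyMeasurable]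
    simp only [one_mul, ENNReal.ofReal_mul (s0 _ he)]
    rw [e1, ENNReal.toReal_ofReal hV.1]
  · rw [fi, fi, fi, ← integral_const_mul, ← integral_add (iR y hφ he) ((iR y hψ he).const_mul a)]
    exact integral_congr_ae (.of_forall fun x => by ring)
  · exact integral_mono_ae (iR y hφ he) (iR y hψ he) ((ae_restrict_mem hO.measurableSet).mono
      fun x hx => mul_le_mul_of_nonneg_right (mul_le_mul_of_nonneg_right (h x) (s0 _ he)) (d0 x hx))
  obtain ⟨c1, c2⟩ := hC k M.X ((M.mu H).restrict {x | 0 < p x}) z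
    (fun x => ((φ x * dn H z x : ℝ) : ℂ)) zm fun R => by
      obtain ⟨θ, t1, t2, t3⟩ := bump (k := k) R
      have m : NullMeasurableSet {x | nsq (z x) ≤ R} ((M.mu H).restrict {x | 0 < p x}) :=
        nullMeasurableSet_le ((show Continuous (nsq : E k → ℝ) by
          unfold nsq; fun_prop).measurable.comp_aemeasurable zm) aemeasurable_const
      refine Integrable.congr (Integrable.restrict
        (hI n k M H p z C (fun x => φ x) θ hF (by fun_prop) t1 t2).1)
        ((ae_restrict_mem₀ m).mono fun x hx => ?_)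
      simp only [t3 _ hx]
      push_cast
      ring
  have t := cC (tst_sc hR.tr he)
  obtain ⟨a1, a2⟩ := c1 _ t.1 t.2
  have ef : (fun y => ∫ x in {x | 0 < p x}, (sc r e (y - z x) : ℂ) * ((φ x * dn H z x : ℝ) : ℂ)
      ∂M.mu H) = fun y => (fi H p z r φ e y : ℂ) := funext fun y => eC φ _ y
  rw [ef] at a1 a2
  refine ⟨reCLM.contDiff.comp a1, fun y => ⟨fun N => ?_, ?_⟩⟩
  · have ih := fun i j => iC (K := fun w => hess (fun w => (sc r e w : ℂ)) w i j) y hφ
      (continuous_iff_continuousAt.2 fun w => (smM_hess t.1.contDiffAt i j).continuousAt)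
      (cs_hess t.2 i j)
    have is := integrable_finsetSum Finset.univ fun i _ =>
      integrable_finsetSum Finset.univ fun j _ => (ih j i).const_mul (N i j)
    have e2 : (N * hr (fi H p z r φ e) y).trace = ∫ x in {x | 0 < p x}, ∑ i, ∑ j, N i j *
        (hess (fun w => (sc r e w : ℂ)) (y - z x) j i * ((φ x * dn H z x : ℝ) : ℂ)) ∂M.mu H := by
      rw [integral_finsetSum _ fun i _ =>
        integrable_finsetSum Finset.univ fun j _ => (ih j i).const_mul (N i j)]
      refine Finset.sum_congr rfl fun i _ => ?_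
      rw [integral_finsetSum _ fun j _ => (ih j i).const_mul (N i j), Matrix.diag, Matrix.mul_apply]
      refine Finset.sum_congr rfl fun j _ => ?_
      rw [integral_const_mul, ← (a2 y).2.2.1 j i]
      rfl
    rw [e2, ← RCLike.re_to_complex, ← integral_re is]
    refine integral_congr_ae (.of_forall fun x => ?_)
    simp only [hr, hess_sub t.1, ← mul_assoc, ← Finset.sum_mul, RCLike.re_to_complex, re_mul_ofReal,
      Matrix.trace, Matrix.diag, Matrix.mul_apply]
    ring
  · have d := c2 r (fun e y => e * (hr (sc Ψ e) y).trace.re) hR.tr hR.der y e he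
    simp only [eC φ (sc r _) y] at d
    rw [eC φ (fun y => e * (hr (sc Ψ e) y).trace.re) y] at d
    have d2 := reCLM.hasFDerivAt.comp_hasDerivAt e d
    rw [← integral_const_mul]
    refine (HasDerivAt.congr_deriv d2 ?_)
    simp only [reCLM_apply, ofReal_re, hr, hess_sub (cC (tst_sc hR.tp he)).1]
    exact integral_congr_ae (.of_forall fun x => by ring)

end Pool.Agent.Lib.FI
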