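import Pool.Agent.Lib.FI.PBlue
import Pool.Agent.Lib.FI.B_SMO
import Pool.Agent.Lib.FI.B_ITG

/-! Project fi, row POT: the potential of the current. -/

open scoped Classical Topology ContDiff ComplexOrder Matrix ENNReal
open Set MeasureTheory Complex Metric Filter

set_option linter.unusedVariables false

noncomputable section

namespace Pool.Agent.Lib.FI

open Pool.Agent.Lib.SV (E nsq)
open Pool.Agent.Lib.HS32

namespace POT

variable {k : ℕ} {Ω : Type} [MeasurableSpace Ω] {m : Measure Ω} {z : Ω → E k} {T : Ω → Mat k} {c : ℝ}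

theorem adj_psd {W : Mat k} (h : W.PosSemidef) : W.adjugate.PosSemidef := by
  refine Matrix.PosSemidef.of_dotProduct_mulVec_nonneg h.1.adjugate fun v => ?_
  have hc : Continuous fun t : ℝ => star v ⬝ᵥ (W + (t : ℂ) • (1 : Mat k)).adjugate *ᵥ v :=
    continuous_const.dotProduct ((continuous_const.add
      (continuous_ofReal.smul continuous_const)).matrix_adjugate.matrix_mulVec continuous_const)
  have h1 : Tendsto (fun t : ℝ => star v ⬝ᵥ (W + (t : ℂ) • (1 : Mat k)).adjugate *ᵥ v) (𝓝[>] 0)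
      (𝓝 (star v ⬝ᵥ W.adjugate *ᵥ v)) := by
    simpa using (hc.tendsto 0).mono_left (nhdsWithin_le_nhds (s := Ioi 0))
  refine ge_of_tendsto h1 (eventually_nhdsWithin_of_forall fun t ht => ?_)
  have hT : (W + (t : ℂ) • (1 : Mat k)).PosDef :=
    Matrix.PosDef.posSemidef_add h (Matrix.PosDef.one.smul (by exact_mod_cast ht))
  have e : (W + (t : ℂ) • (1 : Mat k)).adjugate =
      (W + (t : ℂ) • (1 : Mat k)).det • (W + (t : ℂ) • (1 : Mat k))⁻¹ := by
    rw [Matrix.inv_def, smul_smul, Ring.mul_inverse_cancel _ hT.det_pos.ne'.isUnit, one_smul]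
  rw [e]
  exact (hT.inv.posSemidef.smul hT.det_pos.le).dotProduct_mulVec_nonneg v

theorem nq0 (y : E k) : 0 ≤ nsq y := Finset.sum_nonneg fun _ _ => normSq_nonneg _

theorem nq_sub (a b : E k) : nsq a ≤ 2 * nsq (a - b) + 2 * nsq b := by
  simp only [nsq, Finset.mul_sum, ← Finset.sum_add_distrib]
  refine Finset.sum_le_sum fun j _ => ?_
  simp only [normSq_apply, Pi.sub_apply, sub_re, sub_im]
  nlinarith [sq_nonneg ((a j).re - 2 * (b j).re), sq_nonneg ((a j).im - 2 * (b j).im)]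

theorem nq_comm (a b : E k) : nsq (a - b) = nsq (b - a) := by
  simp only [nsq, Pi.sub_apply]
  exact Finset.sum_congr rfl fun j _ => by rw [← normSq_neg, neg_sub]

theorem sc_zero {K : E k → ℝ} (h : ∀ y, 1 ≤ nsq y → K y = 0) {t : ℝ} (ht : 0 < t) {w : E k}
    (hw : t ^ 2 ≤ nsq w) : sc K t w = 0 := by
  refine mul_eq_zero_of_right _ (h _ ?_)
  have : nsq (((t⁻¹ : ℝ) : ℂ) • w) = t⁻¹ ^ 2 * nsq w := by
    simp [nsq, Finset.mul_sum, normSq_mul, sq]
  rw [this, inv_pow, ← div_eq_inv_mul]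
  exact (one_le_div (by positivity)).2 hw

theorem cC {K : E k → ℝ} (h : Tst K) : ContDiff ℝ ∞ (fun w => (K w : ℂ)) ∧
    HasCompactSupport fun w => (K w : ℂ) :=
  ⟨ofRealCLM.contDiff.comp h.sm, h.cs.comp_left (g := fun t : ℝ => (t : ℂ)) rfl⟩

theorem sc_bd {K : E k → ℝ} (h : Tst K) (l : ℕ) : ∃ B : ℝ, 0 ≤ B ∧ ∀ a t : ℝ, 0 ≤ a → 0 < t → ∀ w,
    ‖iteratedFDeriv ℝ l (fun w => ((a * sc K t w : ℝ) : ℂ)) w‖ ≤ a * (t ^ (2 * k))⁻¹ * (B * t⁻¹ ^ l) := by
  obtain ⟨h1, h2⟩ := cC h
  have hl : (l : WithTop ℕ∞) ≤ ((⊤ : ℕ∞) : WithTop ℕ∞) := by exact_mod_cast le_top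
  obtain ⟨B, hB⟩ := (h1.continuous_iteratedFDeriv hl).bounded_above_of_compact_support
    (h2.iteratedFDeriv l)
  refine ⟨B, (norm_nonneg _).trans (hB 0), fun a t ha ht w => ?_⟩
  have e : (fun w => ((a * sc K t w : ℝ) : ℂ)) = fun w => (a * (t ^ (2 * k))⁻¹ : ℝ) •
      ((fun w => (K w : ℂ)) ∘ (t⁻¹ • ContinuousLinearMap.id ℝ (E k))) w := by
    funext w
    simp [sc, mul_assoc, ← Complex.coe_smul]
  have h3 := h1.comp (t⁻¹ • ContinuousLinearMap.id ℝ (E k)).contDiff
  rw [e, iteratedFDeriv_const_smul_apply' (h3.contDiffAt.of_le hl), norm_smul,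
    Real.norm_of_nonneg (by positivity), ContinuousLinearMap.iteratedFDeriv_comp_right _ h1 _ hl]
  refine mul_le_mul_of_nonneg_left ((ContinuousMultilinearMap.norm_compContinuousLinearMap_le _ _).trans
    (mul_le_mul (hB _) ?_ (by positivity) ((norm_nonneg _).trans (hB 0)))) (by positivity)
  rw [Finset.prod_const, Finset.card_univ, Fintype.card_fin]
  refine pow_le_pow_left₀ (norm_nonneg _) ?_ l
  rw [norm_smul, Real.norm_of_nonneg (by positivity)]
  exact mul_le_of_le_one_right (by positivity) ContinuousLinearMap.norm_id_le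

/-- The data. -/
structure Dt (m : Measure Ω) (z : Ω → E k) (T : Ω → Mat k) (c : ℝ) : Prop where
  k0 : 0 < k
  zm : AEMeasurable z m
  psd : ∀ᵐ x ∂m, (T x).PosSemidef
  ent : ∀ᵐ x ∂m, ∀ i j, ‖T x i j‖ ≤ (T x).trace.re
  tm : ∀ i j, AEStronglyMeasurable (fun x => T x i j) m
  itg : ∀ i j R, IntegrableOn (fun x => T x i j) {x | nsq (z x) ≤ R} m
  gr : ∀ y R, 0 < R → ∫ x in {x | nsq (z x - y) ≤ R}, ‖(((T x).trace.re : ℝ) : ℂ)‖ ∂m ≤ c * R ^ (k - 1)
  cl : ∀ θ, Tst θ → ∀ i j,
    ∫ x, T x i j * (hr θ (z x)).trace ∂m = ∫ x, (T x).trace * hr θ (z x) i j ∂m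

/-- Convolution with the trace. -/
def cv (m : Measure Ω) (z : Ω → E k) (T : Ω → Mat k) (K : E k → ℝ) (y : E k) : ℝ :=
  ∫ x, K (y - z x) * (T x).trace.re ∂m

/-- Convolution with the current. -/
def fm (m : Measure Ω) (z : Ω → E k) (T : Ω → Mat k) (r : E k → ℝ) (e : ℝ) (y : E k) : Mat k :=
  Matrix.of fun i j => ∫ x, (sc r e (y - z x) : ℂ) * T x i j ∂m

theorem cv_c (K : E k → ℝ) : (fun y => (cv m z T K y : ℂ)) =
    fun y => ∫ x, (K (y - z x) : ℂ) * (((T x).trace.re : ℝ) : ℂ) ∂m := by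
  funext y
  rw [cv, ← integral_complex_ofReal]
  simp

theorem Dt.is (D : Dt m z T c) (R : ℝ) : IntegrableOn (fun x => (T x).trace.re) {x | nsq (z x) ≤ R} m :=
  (integrable_finsetSum Finset.univ fun i _ => D.itg i i R).re

theorem Dt.is' (D : Dt m z T c) (y : E k) (R : ℝ) :
    IntegrableOn (fun x => (T x).trace.re) {x | nsq (z x - y) ≤ R} m :=
  (D.is (2 * R + 2 * nsq y)).mono_set fun x (hx : nsq (z x - y) ≤ R) =>
    (nq_sub (z x) y).trans (by linarith)

theorem Dt.sm (D : Dt m z T c) : AEStronglyMeasurable (fun x => (T x).trace.re) m :=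
  continuous_re.comp_aestronglyMeasurable (Finset.aestronglyMeasurable_fun_sum _ fun i _ => D.tm i i)

theorem Dt.s0 (D : Dt m z T c) : ∀ᵐ x ∂m, 0 ≤ (T x).trace.re ∧ (((T x).trace.re : ℝ) : ℂ) = (T x).trace :=
  D.psd.mono fun x h => ⟨(le_def.1 h.trace_nonneg).1, Complex.ext rfl (by
    simpa using (le_def.1 h.trace_nonneg).2)⟩

theorem Dt.cnv (D : Dt m z T c) (hC : St_CNV) {K : E k → ℝ} (h : Tst K) :
    ContDiff ℝ ∞ (fun y => (cv m z T K y : ℂ)) ∧ ∀ y,
      Integrable (fun x => K (y - z x) * (T x).trace.re) m ∧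
      (∀ i j, hr (cv m z T K) y i j = ∫ x, (hr K (y - z x)).trace * T x i j ∂m) ∧
      ∀ (l : ℕ) (b ρ : ℝ), 0 < ρ → (∀ w, ‖iteratedFDeriv ℝ l (fun w => (K w : ℂ)) w‖ ≤ b) →
        (∀ w, ρ ≤ nsq w → K w = 0) →
        ‖iteratedFDeriv ℝ l (fun y => (cv m z T K y : ℂ)) y‖ ≤ b * (c * ρ ^ (k - 1)) := by
  obtain ⟨h1, h2⟩ := (hC k Ω m z (fun x => (((T x).trace.re : ℝ) : ℂ)) D.zm
    fun R => (D.is R).ofReal).1 _ (cC h).1 (cC h).2
  refine ⟨by rwa [cv_c], fun y => ⟨?_, fun i j => ?_, fun l b ρ hρ hb h0 => ?_⟩⟩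
  · exact (h2 y).1.re.congr (.of_forall fun x => by simp)
  · have t : Tst fun w => K (y - w) :=
      ⟨h.sm.comp (contDiff_const.sub contDiff_id), h.cs.comp_homeomorph (Homeomorph.subLeft y)⟩
    have e : ∀ w, hr (fun w => K (y - w)) w = hr K (y - w) := fun w => SMO.hess_sub (cC h).1 y w
    have := D.cl _ t i j
    simp only [e] at this
    rw [hr, cv_c, (h2 y).2.2.1]
    refine Eq.trans (integral_congr_ae (D.s0.mono fun x hx => ?_)) (this.symm.trans ?_)
    · beta_reduce
      rw [hx.2, mul_comm]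
      rfl
    · simp only [mul_comm]
  · rw [cv_c]
    exact ((h2 y).2.2.2 l b ρ hb fun w hw => by simp [h0 w hw]).trans
      (mul_le_mul_of_nonneg_left (D.gr y ρ hρ) ((norm_nonneg _).trans (hb 0)))

theorem Dt.fi (D : Dt m z T c) (hC : St_CNV) {r : E k → ℝ} (h : Tst r) {t : ℝ} (ht : 0 < t) (y : E k)
    (i j : Fin k) : Integrable (fun x => (sc r t (y - z x) : ℂ) * T x i j) m :=
  (((hC k Ω m z _ D.zm (D.itg i j)).1 _ (cC (SMO.tst_sc h ht)).1 (cC (SMO.tst_sc h ht)).2).2 y).1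

theorem Dt.lim (D : Dt m z T c) (hC : St_CNV) {r Ψ : E k → ℝ} (h : Rad r Ψ) (y : E k) (i j : Fin k) :
    Tendsto (fun l : ℕ => fm m z T r (2 ^ l) y i j) atTop (𝓝 0) := by
  obtain ⟨B, B0, hB⟩ := sc_bd h.tr 0
  refine squeeze_zero_norm (a := fun l : ℕ => B * c * (1 / 4) ^ l) (fun l => ?_) (by
    simpa using (tendsto_pow_atTop_nhds_zero_of_lt_one (r := (1 / 4 : ℝ)) (by norm_num)
      (by norm_num)).const_mul (B * c))
  have t0 : (0 : ℝ) < 2 ^ l := by positivity
  have h1 := (((hC k Ω m z _ D.zm (D.itg i j)).1 _ (cC (SMO.tst_sc h.tr t0)).1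
    (cC (SMO.tst_sc h.tr t0)).2).2 y).2.2.2 0 _ ((2 ^ l) ^ 2) (by simpa using hB 1 _ zero_le_one t0)
    fun w hw => by simp [sc_zero (fun y a => (h.sr y a).1) t0 hw]
  rw [norm_iteratedFDeriv_zero] at h1
  refine h1.trans ((mul_le_mul_of_nonneg_left ((integral_mono_ae ((D.is' y _).mono'
    (D.tm i j).norm.restrict (ae_restrict_of_ae (D.ent.mono fun x hx => by simpa using hx i j)))
    (D.is' y _).ofReal.norm (ae_restrict_of_ae (D.ent.mono fun x hx => (hx i j).trans (by
      simpa using le_abs_self _)))).trans (D.gr y _ (by positivity))) (by positivity)).trans_eq ?_)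
  obtain ⟨q, rfl⟩ : ∃ q, k = q + 1 := ⟨k - 1, by have := D.k0; omega⟩
  have e4 : (1 / 4 : ℝ) ^ l = ((2 ^ l) ^ 2)⁻¹ := by
    rw [← pow_mul, mul_comm, pow_mul, ← inv_pow]
    norm_num
  rw [e4, Nat.add_sub_cancel, pow_mul, pow_succ]
  field_simp

theorem Dt.der (D : Dt m z T c) (hC : St_CNV) {r Ψ : E k → ℝ} (h : Rad r Ψ) {L : ℝ → E k → ℝ}
    (h1 : ∀ a, 0 < a → Tst (L a) ∧ ∀ w, HasDerivAt (fun t => L t w) (-(a * sc Ψ a w)) a)
    {e : ℝ} (he : 0 < e) (y : E k) :
    HasDerivAt (fun t => cv m z T (L t) y) (-(e * cv m z T (sc Ψ e) y)) e := by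
  obtain ⟨B, B0, hB⟩ := sc_bd h.tp 0
  have hs : NullMeasurableSet {x | nsq (z x - y) ≤ (2 * e) ^ 2} m := by
    have : Continuous fun w : E k => nsq (w - y) := by
      unfold nsq
      fun_prop
    exact nullMeasurableSet_le (this.measurable.comp_aemeasurable D.zm) aemeasurable_const
  have := (hasDerivAt_integral_of_dominated_loc_of_deriv_le (μ := m) (s := Ioo (e / 2) (2 * e))
    (F := fun t x => L t (y - z x) * (T x).trace.re)
    (F' := fun t x => -(t * sc Ψ t (y - z x)) * (T x).trace.re)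
    (bound := {x | nsq (z x - y) ≤ (2 * e) ^ 2}.indicator fun x =>
      2 * e * ((e / 2) ^ (2 * k))⁻¹ * B * ‖(T x).trace.re‖) (Ioo_mem_nhds (by linarith) (by linarith))
    ((eventually_gt_nhds he).mono fun t ht => ((D.cnv hC (h1 t ht).1).2 y).1.1)
    ((D.cnv hC (h1 e he).1).2 y).1
    ((((D.cnv hC (SMO.tst_sc h.tp he)).2 y).1.const_mul (-e)).1.congr (.of_forall fun x => by ring))
    (.of_forall fun x t ht => ?_) (IntegrableOn.integrable_indicator₀ ((D.is' y _).norm.const_mul _) hs)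
    (.of_forall fun x t ht => ((h1 t (by linarith [ht.1])).2 _).mul_const _)).2
  · refine this.congr_deriv ?_
    rw [cv, ← integral_const_mul, ← integral_neg]
    exact integral_congr_ae (.of_forall fun x => by ring)
  · have t0 : 0 < t := by linarith [ht.1]
    by_cases c : nsq (z x - y) ≤ (2 * e) ^ 2
    · rw [indicator_of_mem (by exact c), norm_mul, norm_neg]
      refine mul_le_mul_of_nonneg_right ?_ (norm_nonneg _)
      have := hB t t t0.le t0 (y - z x)
      rw [norm_iteratedFDeriv_zero, norm_real, pow_zero, mul_one] at this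
      refine this.trans ?_
      have := ht.1.le
      have := ht.2.le
      gcongr
    · rw [indicator_of_notMem (by exact c), sc_zero (fun y a => (h.sr y a).2) t0 (by
        rw [nq_comm]
        nlinarith [not_le.1 c, ht.2])]
      simp

theorem Dt.pot [SFinite m] (D : Dt m z T c) (hC : St_CNV) (hK : St_KER) (hS : St_SER) (hY : St_YNG)
    {r Ψ : E k → ℝ} (h : Rad r Ψ) : ∃ v, Pot (fm m z T r) v ∧
      ∀ e y, 0 < e → HasDerivAt (fun t => v t y) (e * cv m z T (sc Ψ e) y) e := by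
  obtain ⟨Λ, A, h1, h2⟩ := hK k r Ψ h
  have hh : ∀ a b, 0 < a → 0 < b → ∀ y i j, hr (cv m z T (Λ a b)) y i j =
      fm m z T r b y i j - fm m z T r a y i j := fun a b ha hb y i j => by
    rw [((D.cnv hC (h1 a b ha hb).1).2 y).2.1, fm, fm, Matrix.of_apply, Matrix.of_apply,
      ← integral_sub (D.fi hC h.tr hb y i j) (D.fi hC h.tr ha y i j)]
    refine integral_congr_ae (.of_forall fun x => ?_)
    beta_reduce
    rw [((h1 a b ha hb).2 _).1]
    push_cast
    ring
  have t0 : ∀ j : ℕ, (0 : ℝ) < 2 ^ j := fun j => by positivity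
  obtain ⟨g, hg⟩ : ∃ g : ℕ → E k → ℝ, g = fun j => cv m z T (Λ (2 ^ j) (2 ^ (j + 1))) := ⟨_, rfl⟩
  have g1 : ∀ j, ContDiff ℝ ∞ fun y => (g j y : ℂ) := fun j => by
    rw [hg]
    exact (D.cnv hC (h1 _ _ (t0 j) (t0 _)).1).1
  choose B B0 hB using sc_bd (h1 1 2 one_pos two_pos).1
  have c0 : 0 ≤ c := by
    simpa using (integral_nonneg fun x => norm_nonneg _).trans (D.gr 0 1 one_pos)
  have g2 : ∀ l j y, ‖iteratedFDeriv ℝ l (fun y => (g j y : ℂ)) y‖ ≤
      B l * c * 4 ^ (k - 1) * ((2 : ℝ) ^ j)⁻¹ ^ l := fun l j y => by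
    rw [hg]
    have e : Λ (2 ^ j) (2 ^ (j + 1)) = fun w => (2 ^ j) ^ 2 * sc (Λ 1 2) (2 ^ j) w := funext fun w => by
      rw [← ((h1 1 2 one_pos two_pos).2 w).2.2.2.2.2 _ (t0 j), mul_one, pow_succ]
    refine (((D.cnv hC (h1 _ _ (t0 j) (t0 _)).1).2 y).2.2 l _ ((2 ^ (j + 1)) ^ 2) (by positivity)
      (by rw [e]; exact hB l _ _ (by positivity) (t0 j)) fun w hw =>
        ((h1 _ _ (t0 j) (t0 _)).2 w).2.1 (le_trans (by gcongr <;> norm_num) hw) hw).trans_eq ?_
    obtain ⟨q, rfl⟩ : ∃ q, k = q + 1 := ⟨k - 1, by have := D.k0; omega⟩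
    have e4 : (((2 : ℝ) ^ (j + 1)) ^ 2) ^ q = 4 ^ q * ((2 ^ j) ^ 2) ^ q := by
      rw [← mul_pow, pow_succ 2 j, mul_pow]
      norm_num [mul_comm]
    rw [Nat.add_sub_cancel, e4, pow_mul, pow_succ _ q]
    field_simp
  obtain ⟨s1, s2, s3⟩ := hS k (fun j y => (g j y : ℂ) - g j 0) (fun l => B (l + 1) * c * 4 ^ (k - 1))
    (fun j => (g1 j).sub contDiff_const) (fun j => sub_self _) fun l j y => by
      have hl : ((l + 1 : ℕ) : WithTop ℕ∞) ≤ ((⊤ : ℕ∞) : WithTop ℕ∞) := by exact_mod_cast le_top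
      rw [fun_iteratedFDeriv_sub_apply ((g1 j).contDiffAt.of_le hl) contDiffAt_const,
        iteratedFDeriv_const_of_ne l.succ_ne_zero, Pi.zero_apply, sub_zero]
      refine (g2 _ j y).trans (mul_le_mul_of_nonneg_left ?_ (by have := B0 (l + 1); positivity))
      rw [one_div, inv_pow 2 j]
      exact pow_le_of_le_one (by positivity) (inv_le_one_of_one_le₀ (one_le_pow₀ one_le_two))
        l.succ_ne_zero
  obtain ⟨u, hu⟩ : ∃ u : E k → ℝ, u = fun y => ∑' j, (g j y - g j 0) := ⟨_, rfl⟩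
  have u1 : (fun y => (u y : ℂ)) = fun y => ∑' j, ((g j y : ℂ) - g j 0) := funext fun y => by
    rw [hu]
    push_cast
    rfl
  rw [← u1] at s1 s2
  have u2 : ∀ y i j, hr u y i j = -fm m z T r 1 y i j := fun y i j => by
    have e : ∀ l, hess (fun y => (g l y : ℂ) - g l 0) y i j =
        fm m z T r (2 ^ (l + 1)) y i j - fm m z T r (2 ^ l) y i j := fun l => by
      rw [← hh _ _ (t0 l) (t0 _), hr, hg]
      have : dz j (fun y => (cv m z T (Λ (2 ^ l) (2 ^ (l + 1))) y : ℂ) -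
          cv m z T (Λ (2 ^ l) (2 ^ (l + 1))) 0) =
          dz j fun y => (cv m z T (Λ (2 ^ l) (2 ^ (l + 1))) y : ℂ) := funext fun w => by
        simp only [dz, fderiv_sub_const]
      simp only [hess_apply, this]
    have := (s2 y i j).tendsto_sum_nat
    simp only [e, Finset.sum_range_sub fun l => fm m z T r (2 ^ l) y i j] at this
    simpa [hr] using tendsto_nhds_unique this ((D.lim hC h y i j).sub_const _)
  have re : ∀ {f : E k → ℝ}, ContDiff ℝ ∞ (fun y => (f y : ℂ)) → ContDiff ℝ ∞ f := fun hf =>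
    reCLM.contDiff.comp hf
  have dr : ∀ e y, 0 < e → HasDerivAt (fun t => -cv m z T (Λ t 1) y - u y)
      (e * cv m z T (sc Ψ e) y) e := fun e y he => by
    simpa using (D.der hC h (L := fun t => Λ t 1) (fun a ha => ⟨(h1 a 1 ha one_pos).1,
      fun w => ((h1 a 1 ha one_pos).2 w).2.2.2.1⟩) he y).neg.sub_const (u y)
  have p0 : ∀ {K : E k → ℝ}, (∀ w, 0 ≤ K w) → ∀ y, 0 ≤ cv m z T K y := fun hK y =>
    integral_nonneg_of_ae (D.s0.mono fun x hx => mul_nonneg (hK _) hx.1)
  refine ⟨fun e y => -cv m z T (Λ e 1) y - u y, ⟨fun e he => ?_, fun e e' y he hee => ?_, ?_,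
    fun R => ?_⟩, dr⟩
  · have a1 := (D.cnv hC (h1 e 1 he one_pos).1).1
    refine ⟨(re a1).neg.sub (re s1), fun y => Matrix.ext fun i j => ?_⟩
    have e1 : dz j (fun w => ((-cv m z T (Λ e 1) w - u w : ℝ) : ℂ)) = fun w =>
        -dz j (fun w => (cv m z T (Λ e 1) w : ℂ)) w - dz j (fun w => (u w : ℂ)) w := funext fun w => by
      push_cast
      rw [dz_sub (cd_diff a1.contDiffAt).fun_neg (cd_diff s1.contDiffAt), dz_neg]
    have e2 := hh e 1 he one_pos y i j
    have e3 := u2 y i j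
    rw [hr, hess_apply] at e2 e3 ⊢
    rw [e1, dzb_sub (cd_diff (cd_dz a1.contDiffAt j)).fun_neg (cd_diff (cd_dz s1.contDiffAt j)), dzb_neg,
      e2, e3]
    ring
  · refine monotoneOn_of_deriv_nonneg (convex_Ioi 0) (f := fun t => -cv m z T (Λ t 1) y - u y)
      (fun t ht => (dr t y ht).continuousAt.continuousWithinAt) (fun t ht => ?_) (fun t ht => ?_) he
      (he.trans_le hee) hee
    · rw [interior_Ioi] at ht
      exact (dr t y ht).differentiableAt.differentiableWithinAt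
    · rw [interior_Ioi] at ht
      rw [(dr t y ht).deriv]
      exact mul_nonneg (le_of_lt ht) (p0 (fun w => mul_nonneg (by have : 0 < t := ht; positivity)
        (h.p0 _)) y)
  · obtain ⟨c', hc⟩ := s3 (2 * (B 0 * c * 4 ^ (k - 1))) fun j y => (norm_sub_le _ _).trans (by
      have a1 := g2 0 j y
      have a2 := g2 0 j 0
      rw [norm_iteratedFDeriv_zero, pow_zero, mul_one] at a1 a2
      linarith)
    refine ⟨c', fun y => le_trans ?_ (hc y)⟩
    rw [← congrFun u1 y, norm_real]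
    have := p0 (fun w => ((h1 1 1 one_pos one_pos).2 w).2.2.1 le_rfl) y
    have := neg_le_abs (u y)
    rw [Real.norm_eq_abs]
    linarith
  · have hc : IsCompact {y : E k | nsq y ≤ R} := by
      refine (isCompact_closedBall (0 : E k) √R).of_isClosed_subset
        (isClosed_le (by unfold nsq; fun_prop) continuous_const) fun y hy => ?_
      refine mem_closedBall_zero_iff.2 ((pi_norm_le_iff_of_nonneg (Real.sqrt_nonneg _)).2 fun i =>
        Real.le_sqrt_of_sq_le ?_)
      rw [← normSq_eq_norm_sq]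
      exact (Finset.single_le_sum (f := fun i => normSq (y i)) (fun _ _ => normSq_nonneg _)
        (Finset.mem_univ i)).trans hy
    refine ⟨(A * ∫ x in {x | nsq (z x) ≤ 2 * R + 2}, (T x).trace.re ∂m) +
      ∫ y in {y | nsq y ≤ R}, u y, fun e he e1 => ?_⟩
    have a1 := (re (D.cnv hC (h1 e 1 he one_pos).1).1).continuous.continuousOn.integrableOn_compact
      (μ := volume) hc
    have a2 := hY k Ω m z _ (Λ e 1) R A D.zm D.sm.aemeasurable (D.s0.mono fun x hx => hx.1) (D.is _)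
      (h1 e 1 he one_pos).1.sm.continuous (fun w => ((h1 e 1 he one_pos).2 w).2.2.1 e1)
      (fun w hw => ((h1 e 1 he one_pos).2 w).2.1 (by nlinarith) (by linarith)) (h2 e he e1)
    rw [integral_sub (f := fun y => -cv m z T (Λ e 1) y) a1.neg ((re s1).continuous.continuousOn.integrableOn_compact hc), integral_neg]
    unfold cv
    linarith

theorem Dt.fpsd (D : Dt m z T c) (hC : St_CNV) {r Ψ : E k → ℝ} (h : Rad r Ψ) {e : ℝ} (he : 0 < e)
    (y : E k) : (fm m z T r e y).PosSemidef := by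
  refine Matrix.PosSemidef.of_dotProduct_mulVec_nonneg (Matrix.ext fun i j => ?_) fun v => ?_
  · rw [Matrix.conjTranspose_apply, fm, Matrix.of_apply, Matrix.of_apply, RCLike.star_def,
      ← integral_conj]
    refine integral_congr_ae (D.psd.mono fun x hx => ?_)
    beta_reduce
    rw [map_mul, conj_ofReal, ← hx.1.apply i j, RCLike.star_def]
  · have e1 : star v ⬝ᵥ fm m z T r e y *ᵥ v =
        ∫ x, (sc r e (y - z x) : ℂ) * (star v ⬝ᵥ T x *ᵥ v) ∂m := by
      simp only [dotProduct, Matrix.mulVec, fm, Matrix.of_apply, ← integral_mul_const,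
        ← integral_const_mul, Finset.mul_sum]
      have it : ∀ i j, Integrable (fun x => (sc r e (y - z x) : ℂ) * (star v i * (T x i j * v j))) m :=
        fun i j => (((D.fi hC h.tr he y i j).mul_const (v j)).const_mul (star v i)).congr
          (.of_forall fun x => by ring)
      rw [integral_finsetSum _ fun i _ => integrable_finsetSum _ fun j _ => it i j]
      refine Finset.sum_congr rfl fun i _ => ?_
      rw [integral_finsetSum _ fun j _ => it i j]
      exact Finset.sum_congr rfl fun j _ => integral_congr_ae (.of_forall fun x => by ring)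
    rw [e1]
    exact integral_nonneg_of_ae (D.psd.mono fun x hx => mul_nonneg
      (zero_le_real.2 (mul_nonneg (by positivity) (h.r0 _))) (hx.dotProduct_mulVec_nonneg v))

end POT

theorem bPOT (hBAS : St_BAS) (hBAL : St_BAL) (hITG : St_ITG) (hCNV : St_CNV) (hG3 : St_G3)
    (hKER : St_KER) (hSER : St_SER) (hYNG : St_YNG) : St_POT := by
  intro n k M _ H p z C r Ψ hF hR
  obtain ⟨hO, hz0, h1, hA, -⟩ := hBAS n k M H p z C hF
  obtain ⟨c, c0, hc⟩ := hBAL n k M H p z C hF
  have := (mMU n M H hF.kae.toMet).2.1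
  have ps : ∀ x, 0 < p x → (hz H z x).PosSemidef := fun x hx => by
    obtain ⟨e, he, h1⟩ := M.cov x
    have h2 := hA e he _ (e.map_source h1) (by rwa [e.left_inv h1])
    have h3 := h2.1
    rw [e.left_inv h1] at h3
    rw [h3]
    exact h2.2.1
  have ae := ae_restrict_mem (μ := M.mu H) hO.measurableSet
  have cm : Continuous fun x : {x | 0 < p x} => (hz H z x).adjugate := (continuous_matrix fun i j =>
    continuousOn_iff_continuous_domRestrict.1 (h1 i j)).matrix_adjugate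
  have tm : ∀ i j, AEStronglyMeasurable (fun x => (hz H z x).adjugate i j)
      ((M.mu H).restrict {x | 0 < p x}) := fun i j =>
    (continuousOn_iff_continuous_domRestrict.2 (cm.matrix_elem i j)).aestronglyMeasurable
      hO.measurableSet
  have zm := hz0.aemeasurable (μ := M.mu H) hO.measurableSet
  have nm : ∀ (y : E k) (R : ℝ), NullMeasurableSet {x | nsq (z x - y) ≤ R}
      ((M.mu H).restrict {x | 0 < p x}) := fun y R => by
    have : Continuous fun w : E k => nsq (w - y) := by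
      unfold nsq
      fun_prop
    exact nullMeasurableSet_le (this.measurable.comp_aemeasurable zm) aemeasurable_const
  have nm0 : ∀ R : ℝ, NullMeasurableSet {x | nsq (z x) ≤ R}
      ((M.mu H).restrict {x | 0 < p x}) := fun R => by
    have : Continuous fun w : E k => nsq w := by
      unfold nsq
      fun_prop
    exact nullMeasurableSet_le (this.measurable.comp_aemeasurable zm) aemeasurable_const
  have D : POT.Dt ((M.mu H).restrict {x | 0 < p x}) z (fun x => (hz H z x).adjugate) c := by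
    refine ⟨hF.k0, zm, ae.mono fun x hx => POT.adj_psd (ps x hx),
      ae.mono fun x hx => ITG.adj_entry (ps x hx), tm, fun i j R => ?_, fun y R hR => ?_,
      fun θ hθ => hG3 n k M H p z C θ hF hθ⟩
    · obtain ⟨θ, t1, t2, t3⟩ := SMO.bump (k := k) R
      refine (((hITG n k M H p z C (fun _ => 1) θ hF continuous_const t1 t2).2 i j).integrable.integrableOn
        (s := {x | nsq (z x) ≤ R})).congr ?_
      filter_upwards [ae_restrict_mem₀ (nm0 R)] with x hx
      rw [t3 _ hx, one_mul, one_mul]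
    · rw [integral_norm_eq_lintegral_enorm (f := fun x => (((hz H z x).adjugate.trace.re : ℝ) : ℂ))
        (continuous_ofReal.comp_aestronglyMeasurable (continuous_re.comp_aestronglyMeasurable
          (Finset.aestronglyMeasurable_fun_sum _ fun i _ => (tm i i).restrict)))]
      refine ENNReal.toReal_le_of_le_ofReal (by positivity) (le_trans (le_of_eq ?_) (hc y R hR).2)
      rw [Measure.restrict_restrict₀ (nm y R), inter_comm]
      refine lintegral_congr_ae ?_
      filter_upwards [ae_restrict_of_ae_restrict_of_subset inter_subset_left ae] with x hx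
      rw [← ofReal_norm, norm_real,
        Real.norm_of_nonneg (le_def.1 (POT.adj_psd (ps x hx)).trace_nonneg).1]
  obtain ⟨v, v1, v2⟩ := D.pot hCNV hKER hSER hYNG hR
  exact ⟨v, v1, fun e y he => D.fpsd hCNV hR he y, v2⟩

end Pool.Agent.Lib.FI
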