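import Pool.Agent.Lib.FI.Blue

/-! Project fi, row CON: continuity of the fibre integrals away from the critical set. -/

open scoped Classical Topology ContDiff ComplexOrder Matrix ENNReal
open Set MeasureTheory Complex Metric Filter

noncomputable section

namespace Pool.Agent.Lib.FI

open Pool.Agent.Lib.SV (E nsq)
open Pool.Agent.Lib.HS32

namespace CON

variable {n k : ℕ}

theorem int_sc (r : E k → ℝ) {e : ℝ} (he : 0 < e) : ∫ y, sc r e y = ∫ y, r y := by
  have h : Module.finrank ℝ (E k) = 2 * k := by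
    rw [Module.finrank_pi_fintype]
    simp [mul_comm]
  simp only [sc, Complex.coe_smul]
  rw [integral_const_mul, Measure.integral_comp_inv_smul_of_nonneg volume r he.le, h, smul_eq_mul,
    inv_mul_cancel_left₀ (pow_ne_zero _ he.ne')]

theorem tst_sc {r : E k → ℝ} (h : Tst r) {e : ℝ} (he : 0 < e) : Tst (sc r e) :=
  ⟨contDiff_const.mul (h.sm.comp (contDiff_id.const_smul _)),
    (h.cs.comp_homeomorph (Homeomorph.smulOfNeZero ((e⁻¹ : ℝ) : ℂ)
      (ofReal_ne_zero.2 (inv_ne_zero he.ne')))).mul_left⟩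

theorem tst_sub {r : E k → ℝ} (h : Tst r) (y : E k) : Tst fun w => r (y - w) :=
  ⟨h.sm.comp (contDiff_const.sub contDiff_id), h.cs.comp_homeomorph (Homeomorph.subLeft y)⟩

theorem sc_nn {r : E k → ℝ} (h : ∀ y, 0 ≤ r y) {e : ℝ} (he : 0 < e) (y : E k) : 0 ≤ sc r e y :=
  mul_nonneg (by positivity) (h _)

theorem sc_zero {r : E k → ℝ} (h : ∀ y, 1 ≤ nsq y → r y = 0) {e : ℝ} (he : 0 < e) {y : E k}
    (hy : e < ‖y‖) : sc r e y = 0 := by
  obtain ⟨j, hj⟩ : ∃ j, e < ‖y j‖ := by
    by_contra! c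
    exact absurd ((pi_norm_le_iff_of_nonneg he.le).2 c) hy.not_ge
  refine mul_eq_zero_of_right _ (h _ (le_trans ?_ (Finset.single_le_sum
    (f := fun j => normSq ((((e⁻¹ : ℝ) : ℂ) • y) j)) (fun _ _ => normSq_nonneg _) (Finset.mem_univ j))))
  rw [Complex.normSq_eq_norm_sq, Pi.smul_apply, norm_smul, norm_real, Real.norm_of_nonneg (by positivity),
    inv_mul_eq_div]
  exact one_le_pow₀ ((one_le_div he).2 hj.le)

/-- The approximate identity. -/
theorem apx {r Ψ : E k → ℝ} (h : Rad r Ψ) {θ : E k → ℝ} (hθ : Continuous θ) (hc : HasCompactSupport θ)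
    {η : ℝ} (hη : 0 < η) : ∃ δ > 0, ∀ e, 0 < e → e < δ → ∀ w, |(∫ y, sc r e (y - w) * θ y) - θ w| ≤ η := by
  obtain ⟨δ, d0, hd⟩ := Metric.uniformContinuous_iff.1 (hc.uniformContinuous_of_continuous hθ) η hη
  refine ⟨δ, d0, fun e he hed w => ?_⟩
  have t := tst_sc h.tr he
  have i0 : Integrable fun y => sc r e (y - w) :=
    (t.sm.continuous.integrable_of_hasCompactSupport t.cs).comp_sub_right w
  have i1 : Integrable fun y => sc r e (y - w) * θ y :=
    ((t.sm.continuous.comp (continuous_id.sub continuous_const)).mul hθ).integrable_of_hasCompactSupport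
      hc.mul_left
  have o : ∫ y, sc r e (y - w) = 1 := by rw [integral_sub_right_eq_self (sc r e), int_sc r he, h.one]
  have e1 : (∫ y, sc r e (y - w) * θ y) - θ w = ∫ y, (sc r e (y - w) * θ y - sc r e (y - w) * θ w) := by
    rw [integral_sub i1 (i0.mul_const _), integral_mul_const, o, one_mul]
  rw [e1, ← one_mul η, ← o, ← integral_mul_const, ← Real.norm_eq_abs]
  refine norm_integral_le_of_norm_le (i0.mul_const _) (Eventually.of_forall fun y => ?_)
  rw [← mul_sub, norm_mul, Real.norm_of_nonneg (sc_nn h.r0 he _)]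
  by_cases c : e < ‖y - w‖
  · rw [sc_zero (fun y a => (h.sr y a).1) he c, zero_mul, zero_mul]
  · exact mul_le_mul_of_nonneg_left (le_of_lt (by
      rw [← dist_eq_norm]
      exact hd (by rw [dist_eq_norm]; linarith))) (sc_nn h.r0 he _)

/-- The limit of a family that is Lipschitz in the scale. -/
theorem lim {Y : Type} [TopologicalSpace Y] {F : ℝ → Y → ℝ} {c : ℝ} (hc : ∀ e, 0 < e → Continuous (F e))
    (hd : ∀ e, 0 < e → e ≤ 1 → ∀ y, ∃ d, HasDerivAt (fun t => F t y) d e ∧ |d| ≤ c) :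
    ∃ I : Y → ℝ, Continuous I ∧ ∀ e, 0 < e → e ≤ 1 → ∀ y, |F e y - I y| ≤ c * e := by
  choose! d hd1 hd2 using hd
  have lip : ∀ y, ∀ s ∈ Ioc (0 : ℝ) 1, ∀ t ∈ Ioc (0 : ℝ) 1, ‖F t y - F s y‖ ≤ c * ‖t - s‖ :=
    fun y s hs t ht => (convex_Ioc (0 : ℝ) 1).norm_image_sub_le_of_norm_hasDerivWithin_le
      (f := fun t => F t y) (f' := fun t => d t y) (fun x hx => (hd1 x hx.1 hx.2 y).hasDerivWithinAt)
      (fun x hx => hd2 x hx.1 hx.2 y) hs ht
  have mem : ∀ j : ℕ, 1 / ((j : ℝ) + 1) ∈ Ioc (0 : ℝ) 1 := fun j =>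
    ⟨by positivity, (div_le_one (by positivity)).2 (by linarith [(Nat.cast_nonneg j : (0 : ℝ) ≤ j)])⟩
  have t0 : Tendsto (fun j : ℕ => 1 / ((j : ℝ) + 1)) atTop (𝓝 0) := tendsto_one_div_add_atTop_nhds_zero_nat
  have cau : ∀ y, ∃ l, Tendsto (fun j : ℕ => F (1 / ((j : ℝ) + 1)) y) atTop (𝓝 l) := fun y => by
    refine cauchySeq_tendsto_of_complete (cauchySeq_iff_tendsto_dist_atTop_0.2 (squeeze_zero
      (fun _ => dist_nonneg) (fun a => (dist_eq_norm _ _).trans_le (lip y _ (mem a.2) _ (mem a.1))) ?_))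
    rw [← prod_atTop_atTop_eq]
    simpa using (((t0.comp tendsto_fst).sub (t0.comp tendsto_snd)).norm.const_mul c)
  choose I hI using cau
  have bd : ∀ e, 0 < e → e ≤ 1 → ∀ y, |F e y - I y| ≤ c * e := fun e e0 e1 y => by
    have := le_of_tendsto_of_tendsto' ((hI y).const_sub (F e y)).norm
      ((t0.const_sub e).norm.const_mul c) fun j => lip y _ (mem j) e ⟨e0, e1⟩
    rwa [sub_zero, Real.norm_of_nonneg e0.le] at this
  refine ⟨I, ?_, bd⟩
  refine TendstoUniformly.continuous (F := fun j : ℕ => F (1 / ((j : ℝ) + 1))) (p := atTop)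
    (Metric.tendstoUniformly_iff.2 fun ε h0 => ?_) (Frequently.of_forall fun j => hc _ (mem j).1)
  have t1 := t0.const_mul c
  rw [mul_zero] at t1
  filter_upwards [t1.eventually (gt_mem_nhds h0)] with j hj y
  rw [dist_comm]
  exact (bd _ (mem j).1 (mem j).2 y).trans_lt hj

variable {M : Mf n} [M.Cpt] {H : M.Fam (Mat n)} {p : M.X → ℝ} {z : M.X → E k} {C V : ℝ}

theorem co_det (hB : St_BAS) (F : Fb H p z C) : ContinuousOn (dn H z) {x | 0 < p x} ∧
    ContinuousOn (fun x => (hz H z x).adjugate.trace.re) {x | 0 < p x} := by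
  have h : Continuous fun x : {x | 0 < p x} => hz H z x := continuous_matrix fun i j =>
    continuousOn_iff_continuous_domRestrict.1 ((hB n k M H p z C F).2.2.1 i j)
  exact ⟨continuousOn_iff_continuous_domRestrict.2 (continuous_re.comp h.matrix_det),
    continuousOn_iff_continuous_domRestrict.2 (continuous_re.comp h.matrix_adjugate.matrix_trace)⟩

theorem low (hB : St_BAS) (hG : St_G2) (F : Fb H p z C) (hV : Vol H p z V) {S : Set M.X} (hS : IsClosed S)
    (h1 : ∀ x ∈ S, 0 < p x ∧ 0 < dn H z x) {ψ : M.X → ℝ} (hψ : M.Sm ψ) (h2 : tsupport ψ ⊆ S) :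
    ∃ c : ℝ, ∀ θ : E k → ℝ, Tst θ → (∀ y, 0 ≤ θ y) → -(c * ∫ y, θ y) ≤
      ∫ x in {x | 0 < p x}, ψ x * (hr θ (z x)).trace.re * dn H z x ∂M.mu H := by
  obtain ⟨c, c0, -, hc⟩ := (mBD n M H F.kae.toMet).1 _ ((mHES n M).1 ψ hψ).toForm
  have := (mMU n M H F.kae.toMet).2.1
  have sub : S ⊆ {x | 0 < p x} := fun x hx => (h1 x hx).1
  obtain ⟨q1, q2⟩ := co_det hB F
  obtain ⟨b, hb⟩ := hS.isCompact.exists_bound_of_continuousOn
    ((q2.mono sub).div (q1.mono sub) fun x hx => (h1 x hx).2.ne')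
  refine ⟨c * (n - k + 1 : ℕ) * (max b 0 * V), fun θ ht t0 => ?_⟩
  have g := hG n k M H p z C c ψ θ 1 S F hψ c0.le (fun e he w hw => by
    have := hc e he w hw
    beta_reduce at this ⊢
    rw [Pi.neg_apply, Pi.neg_apply, sub_neg_eq_add, add_comm] at this
    simpa using this) hS h2 ht t0 Matrix.PosSemidef.one
  simp only [Matrix.one_mul] at g
  refine le_trans (neg_le_neg ?_) g
  rw [mul_assoc (c * _), inter_eq_right.2 sub]
  refine mul_le_mul_of_nonneg_left ?_ (by positivity)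
  have cz : ContinuousOn (fun x => θ (z x)) S :=
    ht.sm.continuous.comp_continuousOn ((hB n k M H p z C F).2.1.mono sub)
  have i1 : IntegrableOn (fun x => θ (z x) * dn H z x) S (M.mu H) :=
    (cz.mul (q1.mono sub)).integrableOn_compact hS.isCompact
  have i2 : IntegrableOn (fun x => θ (z x) * (hz H z x).adjugate.trace.re) S (M.mu H) :=
    (cz.mul (q2.mono sub)).integrableOn_compact hS.isCompact
  have iθ := ht.sm.continuous.integrable_of_hasCompactSupport (μ := volume) ht.cs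
  have k1 : ∫ x in S, θ (z x) * dn H z x ∂M.mu H ≤ V * ∫ y, θ y := by
    rw [← ENNReal.ofReal_le_ofReal_iff (mul_nonneg hV.1 (integral_nonneg t0)),
      ofReal_integral_eq_lintegral_ofReal i1 ((ae_restrict_iff' hS.measurableSet).2
        (Eventually.of_forall fun x hx => mul_nonneg (t0 _) (h1 x hx).2.le)),
      ENNReal.ofReal_mul hV.1, ofReal_integral_eq_lintegral_ofReal iθ (Eventually.of_forall t0),
      ← hV.2 _ ht.sm.continuous.measurable.ennreal_ofReal]
    refine le_trans (le_of_eq (lintegral_congr fun x => ENNReal.ofReal_mul (t0 _))) (lintegral_mono_set sub)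
  calc ∫ x in S, θ (z x) * (hz H z x).adjugate.trace.re ∂M.mu H
      ≤ ∫ x in S, max b 0 * (θ (z x) * dn H z x) ∂M.mu H := by
        refine setIntegral_mono_on i2 (i1.const_mul _) hS.measurableSet fun x hx => ?_
        rw [mul_left_comm]
        exact mul_le_mul_of_nonneg_left ((div_le_iff₀ (h1 x hx).2).1
          ((le_abs_self _).trans ((hb x hx).trans (le_max_left _ _)))) (t0 _)
    _ ≤ _ := by
        rw [integral_const_mul, mul_assoc]
        exact mul_le_mul_of_nonneg_left k1 (le_max_right _ _)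

/-- The theorem of Fubini. -/
theorem fub {Ω : Type} [MeasurableSpace Ω] {m : Measure Ω} [SFinite m] {a : Ω → ℝ} {z : Ω → E k}
    (ha : Integrable a m) (hz : AEStronglyMeasurable z m) {s θ : E k → ℝ} (hs : Tst s) (hθ : Integrable θ) :
    Integrable (fun x => a x * ∫ y, s (y - z x) * θ y) m ∧
    ∫ y, θ y * ∫ x, a x * s (y - z x) ∂m = ∫ x, a x * (∫ y, s (y - z x) * θ y) ∂m := by
  obtain ⟨b, hb⟩ := hs.sm.continuous.bounded_above_of_compact_support hs.cs
  have i : Integrable (fun q : Ω × E k => s (q.2 - z q.1) * (a q.1 * θ q.2)) (m.prod volume) :=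
    (ha.mul_prod hθ).bdd_mul (hs.sm.continuous.comp_aestronglyMeasurable
      (measurable_snd.aestronglyMeasurable.sub hz.comp_fst)) (Eventually.of_forall fun q => hb _)
  have e : ∀ x, ∫ y, s (y - z x) * (a x * θ y) = a x * ∫ y, s (y - z x) * θ y := fun x => by
    rw [← integral_const_mul]
    exact integral_congr_ae (Eventually.of_forall fun y => mul_left_comm _ _ _)
  refine ⟨i.integral_prod_left.congr (Eventually.of_forall e), ?_⟩
  rw [← integral_congr_ae (Eventually.of_forall e),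
    integral_integral_swap (f := fun x y => s (y - z x) * (a x * θ y)) i]
  refine integral_congr_ae (Eventually.of_forall fun y => ?_)
  beta_reduce
  rw [← integral_const_mul]
  exact integral_congr_ae (Eventually.of_forall fun x => by ring)

end CON

theorem bCON (hBAS : St_BAS) (hG2 : St_G2) (hSMO : St_SMO) : St_CON := by
  intro n k M _ H p z C V r Ψ J φ F hV hR hJ hφ hs
  have h1 : ∀ x ∈ tsupport φ, 0 < p x ∧ 0 < dn H z x := fun x hx => (hJ.pos x).1 (hs hx)
  obtain ⟨c1, l1⟩ := CON.low hBAS hG2 F hV (isClosed_tsupport φ) h1 hφ Subset.rfl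
  obtain ⟨c2, l2⟩ := CON.low hBAS hG2 F hV (isClosed_tsupport φ) h1 hφ.neg (tsupport_neg φ).le
  have sm := (hSMO n k M H p z C V r Ψ F hV hR).2 φ hφ.continuous
  obtain ⟨c, hc⟩ : ∃ c, c = |c1 * ∫ y, Ψ y| + |c2 * ∫ y, Ψ y| := ⟨_, rfl⟩
  have c0 : 0 ≤ c := by rw [hc]; positivity
  obtain ⟨I, I1, I2⟩ := CON.lim (F := fi H p z r φ) (c := c) (fun e he => (sm e he).1.continuous)
    fun e he e1 y => ⟨_, ((sm e he).2 y).2, by
      have t := CON.tst_sub (CON.tst_sc hR.tp he) y
      have a1 := l1 _ t fun w => CON.sc_nn hR.p0 he _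
      have a2 := l2 _ t fun w => CON.sc_nn hR.p0 he _
      simp only [neg_mul, integral_neg] at a2
      rw [integral_sub_left_eq_self (sc Ψ e), CON.int_sc Ψ he] at a1 a2
      rw [abs_mul, abs_of_pos he]
      refine (mul_le_of_le_one_left (abs_nonneg _) e1).trans (abs_le.2 ⟨?_, ?_⟩)
      · linarith [le_abs_self (c1 * ∫ y, Ψ y), abs_nonneg (c2 * ∫ y, Ψ y)]
      · linarith [le_abs_self (c2 * ∫ y, Ψ y), abs_nonneg (c1 * ∫ y, Ψ y)]⟩
  refine ⟨I, I1, fun y => ?_, fun θ hθ hc => ?_⟩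
  · have t1 : Tendsto (fun a : ℝ × E k => a.1) (nb y) (𝓝[>] 0) := tendsto_fst
    have t2 : Tendsto (fun a : ℝ × E k => I a.2) (nb y) (𝓝 (I y)) := (I1.tendsto y).comp tendsto_snd
    have t3 : Tendsto (fun a : ℝ × E k => c * a.1) (nb y) (𝓝 0) := by
      simpa using (t1.mono_right nhdsWithin_le_nhds).const_mul c
    have t4 : Tendsto (fun a : ℝ × E k => fi H p z r φ a.1 a.2 - I a.2) (nb y) (𝓝 0) :=
      squeeze_zero_norm' ((t1.eventually (Ioc_mem_nhdsGT one_pos)).mono fun a ha => I2 _ ha.1 ha.2 _) t3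
    simpa using t4.add t2
  have := (mMU n M H F.kae.toMet).2.1
  obtain ⟨o1, o2, -⟩ := hBAS n k M H p z C F
  have sub : tsupport φ ⊆ {x | 0 < p x} := fun x hx => (h1 x hx).1
  have ia : Integrable (fun x => φ x * dn H z x) ((M.mu H).restrict {x | 0 < p x}) :=
    Integrable.integrableOn ((integrableOn_iff_integrable_of_support_subset
      ((Function.support_mul_subset_left _ _).trans (subset_tsupport φ))).1
        ((hφ.continuous.continuousOn.mul ((CON.co_det hBAS F).1.mono sub)).integrableOn_compact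
          (isClosed_tsupport φ).isCompact))
  have mz : AEStronglyMeasurable z ((M.mu H).restrict {x | 0 < p x}) :=
    o2.aestronglyMeasurable o1.measurableSet
  have iθ := hθ.integrable_of_hasCompactSupport (μ := volume) hc
  obtain ⟨b, hb⟩ := hθ.bounded_above_of_compact_support hc
  have ib : Integrable (fun x => θ (z x) * (φ x * dn H z x)) ((M.mu H).restrict {x | 0 < p x}) :=
    ia.bdd_mul (hθ.comp_aestronglyMeasurable mz) (Eventually.of_forall fun x => hb _)
  obtain ⟨A, hA⟩ : ∃ A, A = ∫ x in {x | 0 < p x}, ‖φ x * dn H z x‖ ∂M.mu H := ⟨_, rfl⟩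
  obtain ⟨B, hB⟩ : ∃ B, B = ∫ y, ‖θ y‖ := ⟨_, rfl⟩
  have A0 : 0 ≤ A := hA ▸ integral_nonneg fun _ => norm_nonneg _
  have B0 : 0 ≤ B := hB ▸ integral_nonneg fun _ => norm_nonneg _
  refine eq_of_forall_dist_le fun ε h0 => ?_
  obtain ⟨η, e0, e1⟩ : ∃ η > 0, η * (A + B * c) ≤ ε := ⟨ε / (A + B * c + 1), by positivity, by
    rw [div_mul_eq_mul_div, div_le_iff₀ (by positivity)]
    nlinarith⟩
  obtain ⟨δ, d0, hd⟩ := CON.apx hR hθ hc e0
  obtain ⟨e, f0, f1, f2, f3⟩ : ∃ e > 0, e ≤ 1 ∧ e ≤ η ∧ e < δ := ⟨min 1 (min η (δ / 2)), by positivity,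
    min_le_left _ _, (min_le_right _ _).trans (min_le_left _ _),
    ((min_le_right _ _).trans (min_le_right _ _)).trans_lt (half_lt_self d0)⟩
  obtain ⟨u1, u2⟩ := CON.fub ia mz (CON.tst_sc hR.tr f0) iθ
  have w : ∀ y, fi H p z r φ e y = ∫ x in {x | 0 < p x}, φ x * dn H z x * sc r e (y - z x) ∂M.mu H :=
    fun y => integral_congr_ae (Eventually.of_forall fun x => mul_right_comm _ _ _)
  simp only [← w] at u2
  have v1 : dist (∫ x in {x | 0 < p x}, φ x * θ (z x) * dn H z x ∂M.mu H) (∫ y, θ y * fi H p z r φ e y) ≤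
      η * A := by
    rw [u2, integral_congr_ae (g := fun x => θ (z x) * (φ x * dn H z x))
      (Eventually.of_forall fun x => by ring), dist_comm, dist_eq_norm, ← integral_sub u1 ib, hA,
      ← integral_const_mul]
    refine norm_integral_le_of_norm_le (ia.norm.const_mul _) (Eventually.of_forall fun x => ?_)
    rw [mul_comm (θ _), ← mul_sub, norm_mul, mul_comm]
    exact mul_le_mul_of_nonneg_right (hd e f0 f3 _) (norm_nonneg _)
  have v2 : dist (∫ y, θ y * fi H p z r φ e y) (∫ y, θ y * I y) ≤ B * (c * η) := by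
    have j1 : Integrable fun y => θ y * fi H p z r φ e y :=
      (hθ.mul (sm e f0).1.continuous).integrable_of_hasCompactSupport hc.mul_right
    have j2 : Integrable fun y => θ y * I y := (hθ.mul I1).integrable_of_hasCompactSupport hc.mul_right
    rw [dist_eq_norm, ← integral_sub j1 j2, hB, ← integral_mul_const]
    refine norm_integral_le_of_norm_le (iθ.norm.mul_const _) (Eventually.of_forall fun y => ?_)
    rw [← mul_sub, norm_mul]
    exact mul_le_mul_of_nonneg_left ((I2 e f0 f1 y).trans (mul_le_mul_of_nonneg_left f2 c0)) (norm_nonneg _)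
  linarith [dist_triangle (∫ x in {x | 0 < p x}, φ x * θ (z x) * dn H z x ∂M.mu H)
    (∫ y, θ y * fi H p z r φ e y) (∫ y, θ y * I y)]

end Pool.Agent.Lib.FI
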