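import Pool.Agent.Lib.FI.Blue

/-! The second order inequality. -/

open scoped Classical Topology ContDiff ComplexOrder Matrix ENNReal
open Set MeasureTheory Complex Metric Filter

noncomputable section

namespace Pool.Agent.Lib.FI

open Pool.Agent.Lib.SV (E nsq)
open Pool.Agent.Lib.HS32 Pool.Agent.Lib.HS32.Mf

namespace G2

variable {n k : ℕ}

theorem quad90 {B : Mat k} (hB : B.PosSemidef) : ContDiff ℝ ∞ (nq B) ∧ ∀ y, hr (nq B) y = B := by
  have d : ∀ a, ContDiff ℝ ∞ fun w : E k => w a := fun a => contDiff_apply ℝ ℂ a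
  have d' : ∀ a, ContDiff ℝ ∞ fun w : E k => star (w a) := fun a => conjCLE.contDiff.comp (d a)
  have D : ∀ a w, DifferentiableAt ℝ (fun w : E k => w a) w := fun a w => cd_diff (d a).contDiffAt
  have D' : ∀ a w, DifferentiableAt ℝ (fun w : E k => star (w a)) w :=
    fun a w => cd_diff (d' a).contDiffAt
  have e : ∀ w : E k, star w ⬝ᵥ B *ᵥ w = ∑ a, ∑ b, B a b * (star (w a) * w b) := fun w => by
    simp only [dotProduct, Matrix.mulVec, Finset.mul_sum, Pi.star_apply]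
    exact Finset.sum_congr rfl fun a _ => Finset.sum_congr rfl fun b _ => by ring
  have e' : (fun w => (nq B w : ℂ)) = fun w => ∑ a, ∑ b, B a b * (star (w a) * w b) :=
    funext fun w => Eq.trans (Complex.ext (w := star w ⬝ᵥ B *ᵥ w) rfl
      (Complex.le_def.1 (hB.dotProduct_mulVec_nonneg w)).2) (e w)
  refine ⟨?_, fun y => ?_⟩
  · have : nq B = fun w => reCLM (∑ a, ∑ b, B a b * (star (w a) * w b)) :=
      funext fun w => congrArg re (e w)
    rw [this]
    exact reCLM.contDiff.comp (ContDiff.sum fun a _ => ContDiff.sum fun b _ =>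
      contDiff_const.mul ((d' a).mul (d b)))
  · ext i j
    have h : dz j (fun w : E k => ∑ a, ∑ b, B a b * (star (w a) * w b)) =
        fun w => ∑ a, B a j * star (w a) := funext fun w => by
      rw [dz_sum (s := Finset.univ) fun a _ => DifferentiableAt.fun_sum (u := Finset.univ)
        fun b _ => ((D' a w).fun_mul (D b w)).const_mul (B a b)]
      refine Finset.sum_congr rfl fun a _ => ?_
      rw [dz_sum fun b _ => ((D' a w).fun_mul (D b w)).const_mul (B a b)]
      simp only [dz_const_mul _ ((D' a w).fun_mul (D _ w)), dz_mul (D' a w) (D _ w),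
        dz_star (D a w), dz_coord, dzb_coord]
      simp
    rw [hr, e', hess_apply, h, dzb_sum fun a _ => (D' a y).const_mul (B a j)]
    simp only [dzb_const_mul _ (D' _ y), dzb_star (D _ y), dz_coord]
    simp [apply_ite]

theorem cut90 {B : Mat k} (hB : B.PosSemidef) {θ : E k → ℝ} (hθ : Tst θ) :
    ∃ β, Tst β ∧ ∀ y ∈ tsupport θ, hr β y = B := by
  obtain ⟨R, hR, h⟩ := hθ.cs.isCompact.isBounded.subset_ball_lt 0 0
  let χ : ContDiffBump (0 : E k) := ⟨R, R + 1, hR, by linarith⟩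
  refine ⟨fun y => χ y * nq B y, ⟨χ.contDiff.mul (quad90 hB).1, χ.hasCompactSupport.mul_right⟩,
    fun y hy => (hess_congr ?_).trans ((quad90 hB).2 y)⟩
  filter_upwards [χ.eventuallyEq_one_of_mem_ball (h hy)] with w hw
  rw [hw, Pi.one_apply, one_mul]

theorem off90 {θ : E k → ℝ} {y : E k} (hy : y ∉ tsupport θ) : hr θ y = 0 :=
  (hess_congr (g := fun _ => 0) ((notMem_tsupport_iff_eventuallyEq.1 hy).mono fun w hw => by
    rw [hw]; rfl)).trans (hess_const 0)

theorem sym90 {Q D A : Mat n} (hQ : Q.IsHermitian) (hA : A.PosDef) :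
    ((Q.adjugate * Dᴴ).trace / A.det).re = ((Q.adjugate * D).trace / A.det).re := by
  have : Q.adjugate * Dᴴ = (D * Q.adjugate)ᴴ := by rw [Matrix.conjTranspose_mul, hQ.adjugate.eq]
  rw [← herm_det hA.1, div_ofReal_re, div_ofReal_re, this, Matrix.trace_conjTranspose,
    Matrix.trace_mul_comm]
  rfl

theorem trp90 {Q T : Mat n} (hQ : Q.PosSemidef) (hT : T.PosSemidef) : 0 ≤ (Q * T).trace.re := by
  obtain ⟨W, hW⟩ := psd_factor hQ
  rw [hW, mul_assoc, Matrix.trace_mul_comm]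
  exact (Complex.nonneg_iff.1 (hT.mul_mul_conjTranspose_same W).trace_nonneg).1

theorem adj90 {N : Mat k} (hN : N.PosDef) : N⁻¹.adjugate = N⁻¹.det.re • N := by
  have h := Matrix.mul_nonsing_inv N (pd_det_ne hN).isUnit
  calc N⁻¹.adjugate = N * (N⁻¹ * N⁻¹.adjugate) := by rw [← mul_assoc, h, one_mul]
    _ = _ := by
      rw [Matrix.mul_adjugate, Matrix.mul_smul, mul_one, ← herm_det hN.inv.1, ofReal_re]
      rfl

variable {M : Mf n} {H : M.Fam (Mat n)} {p : M.X → ℝ} {z : M.X → E k} {C : ℝ} {x : M.X}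

theorem hol90 (F : Fb H p z C) (hx : 0 < p x) : HolN (z ∘ (M.ch x).symm) (M.ch x x) :=
  AllOn.ch F.hol x (by rwa [ch_symm])

theorem evh90 (hCHR : St_CHR) (F : Fb H p z C) (hx : 0 < p x) {β : E k → ℝ} (hβ : Tst β) :
    M.ev (M.hs (β ∘ z)) x = (jr (z ∘ (M.ch x).symm) (M.ch x x))ᴴ * hr β (z x) *
      jr (z ∘ (M.ch x).symm) (M.ch x x) := by
  have := (hCHR n k _ _ (hol90 F hx)).2.2.2.2.2 (fun w => (β w : ℂ)) (cd_ofReal hβ.sm.contDiffAt)
  rwa [Function.comp_apply, ch_symm] at this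

theorem so90 (hCHR : St_CHR) (F : Fb H p z C) {β : E k → ℝ} (hβ : Tst β) : So p (β ∘ z) :=
  fun e he w hw h => hβ.sm.contDiffAt.comp w (hCHR n k _ _ (F.hol e he w hw h)).1

theorem tc90 {β : E k → ℝ} (hβ : Tst β) :
    ContDiff ℝ ∞ (fun w => (β w : ℂ)) ∧ HasCompactSupport fun w => (β w : ℂ) :=
  ⟨ofRealCLM.contDiff.comp hβ.sm, hβ.cs.comp_left (g := ((↑) : ℝ → ℂ)) rfl⟩

theorem ire90 {μ : Measure M.X} {f g : M.X → ℂ} (hf : Integrable f μ) (hg : Integrable g μ)
    (h : ∫ x, f x ∂μ + ∫ x, g x ∂μ = 0) : ∫ x, (g x).re ∂μ = -∫ x, (f x).re ∂μ := by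
  have a : ∫ x, (f x).re ∂μ = (∫ x, f x ∂μ).re := integral_re hf
  have b : ∫ x, (g x).re ∂μ = (∫ x, g x ∂μ).re := integral_re hg
  have c := congrArg re h
  rw [add_re, zero_re] at c
  linarith

theorem green90 [M.Cpt] (hCHR : St_CHR) (hTAM : St_TAM) (hGRO : St_GRO) (F : Fb H p z C)
    {φ : M.X → ℝ} {β θ : E k → ℝ} (hφ : M.Sm φ) (hβ : Tst β) (hθ : Tst θ) (s : ℝ) :
    IntegrableOn (fun x => (φ x * ad H (s • H + M.hs (β ∘ z)) (M.hs (θ ∘ z)) x).re)
      {x | 0 < p x} (M.mu H) ∧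
    IntegrableOn (fun x => (θ (z x) * ad H (s • H + M.hs (β ∘ z)) (M.hs φ) x).re)
      {x | 0 < p x} (M.mu H) ∧
    ∫ x in {x | 0 < p x}, (φ x * ad H (s • H + M.hs (β ∘ z)) (M.hs (θ ∘ z)) x).re ∂M.mu H =
      ∫ x in {x | 0 < p x}, (θ (z x) * ad H (s • H + M.hs (β ∘ z)) (M.hs φ) x).re ∂M.mu H := by
  obtain ⟨-, t2, t3, -⟩ := hTAM n k M H p z C F
  obtain ⟨a1, a2, a3⟩ := t2 _ hφ.ofReal
  obtain ⟨b1, b2, b3⟩ := t3 _ (tc90 hθ).1 (tc90 hθ).2
  obtain ⟨c1, -, hc1⟩ := hφ.ofReal.exists_bound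
  obtain ⟨c2, hc2⟩ := (tc90 hθ).1.continuous.bounded_above_of_compact_support (tc90 hθ).2
  have m := (t3 _ (tc90 hβ).1 (tc90 hβ).2).2.1
  obtain ⟨g1, g2, g3⟩ := hGRO n k M H p z C (s • H) (β ∘ z) _ _ c1 F (F.kae.toClo.smul s)
    (so90 hCHR F hβ) m b1 b2 b3 a1 a3 fun x _ => hc1 x
  obtain ⟨k1, k2, k3⟩ := hGRO n k M H p z C (s • H) (β ∘ z) _ _ c2 F (F.kae.toClo.smul s)
    (so90 hCHR F hβ) m a1 a2 a3 b1 b3 fun x _ => hc2 _
  refine ⟨g2.re, k2.re, (ire90 g1 g2 g3).trans (Eq.trans (congrArg Neg.neg ?_) (ire90 k1 k2 k3).symm)⟩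
  refine setIntegral_congr_fun (isOpen_lt continuous_const F.sp.continuous).measurableSet
    fun x hx => ?_
  have hx' : 0 < p ((M.ch x).symm (M.ch x x)) := by rwa [ch_symm]
  have d1 := cd_diff (AllOn.ch a1 x hx')
  have d2 := cd_diff (AllOn.ch b1 x hx')
  have hQ : (M.ev (s • H + M.hs (β ∘ z)) x).IsHermitian :=
    (herm_rsmul (F.kae.toMet.ev_pos x).1 s).add (hess_herm (AllOn.ch (so90 hCHR F hβ) x hx'))
  have e : M.ev (dc ((fun w => (θ w : ℂ)) ∘ z) fun x => (φ x : ℂ)) x =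
      (M.ev (dc (fun x => (φ x : ℂ)) ((fun w => (θ w : ℂ)) ∘ z)) x)ᴴ := by
    ext i j
    rw [Matrix.conjTranspose_apply]
    refine Eq.trans ?_ (star_mul _ _).symm
    exact congrArg₂ (· * ·) (star_dz_ofReal (u := (θ ∘ z) ∘ (M.ch x).symm) d2).symm
      (star_dzb_ofReal (u := φ ∘ (M.ch x).symm) d1).symm
  exact (congrArg (fun D => (((M.ev (s • H + M.hs (β ∘ z)) x).adjugate * D).trace /
    (M.ev H x).det).re) e).trans (sym90 hQ (F.kae.toMet.ev_pos x))

theorem itg90 [M.Cpt] (hITG : St_ITG) (F : Fb H p z C) {φ : M.X → ℝ} {θ : E k → ℝ} (hφ : M.Sm φ)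
    (hθ : Tst θ) (N : Mat k) :
    IntegrableOn (fun x => θ (z x) * (N * (hz H z x).adjugate).trace.re) {x | 0 < p x} (M.mu H) ∧
    IntegrableOn (fun x => φ x * (N * hr θ (z x)).trace.re * dn H z x) {x | 0 < p x} (M.mu H) := by
  constructor
  · have h := (hITG n k M H p z C (fun _ => 1) _ F continuous_const (tc90 hθ).1.continuous
      (tc90 hθ).2).2
    refine (integrable_finsetSum Finset.univ fun i _ => integrable_finsetSum Finset.univ fun j _ =>
      (h j i).const_mul (N i j)).re.congr (Eventually.of_forall fun x => ?_)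
    have : (∑ i, ∑ j, N i j * (1 * (θ (z x) : ℂ) * (hz H z x).adjugate j i)) =
        θ (z x) * (N * (hz H z x).adjugate).trace := by
      simp only [Matrix.trace, Matrix.diag, Matrix.mul_apply, Finset.mul_sum]
      exact Finset.sum_congr rfl fun a _ => Finset.sum_congr rfl fun b _ => by ring
    exact (congrArg re this).trans (re_ofReal_mul _ _)
  · have c : Continuous fun y => (N * hr θ y).trace := (continuous_const.matrix_mul
      (continuous_matrix fun j i => continuous_iff_continuousAt.2 fun y =>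
        (smM_hess (tc90 hθ).1.contDiffAt j i).continuousAt)).matrix_trace
    have s : HasCompactSupport fun y => (N * hr θ y).trace :=
      HasCompactSupport.intro hθ.cs.isCompact fun y hy => by rw [off90 hy, mul_zero, Matrix.trace_zero]
    refine (hITG n k M H p z C _ _ F hφ.ofReal.continuous c s).1.re.congr
      (Eventually.of_forall fun x => ?_)
    exact (re_mul_ofReal _ _).trans (congrArg (· * _) (re_ofReal_mul _ _))

theorem pd90 [M.Cpt] (hLAG : St_LAG) (hCHR : St_CHR) (hTAM : St_TAM) (hGRO : St_GRO)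
    (hITG : St_ITG) (F : Fb H p z C) {c : ℝ} {φ : M.X → ℝ} {θ : E k → ℝ} {N : Mat k} {S : Set M.X}
    (hφ : M.Sm φ) (hL : M.Le 0 (c • H + M.hs φ)) (hS : IsClosed S) (hs : tsupport φ ⊆ S)
    (hθ : Tst θ) (h0 : ∀ y, 0 ≤ θ y) (hN : N.PosDef) :
    -(c * (n - k + 1 : ℕ) * ∫ x in {x | 0 < p x} ∩ S,
      θ (z x) * (N * (hz H z x).adjugate).trace.re ∂M.mu H) ≤
    ∫ x in {x | 0 < p x}, φ x * (N * hr θ (z x)).trace.re * dn H z x ∂M.mu H := by
  obtain ⟨a, ha⟩ := hLAG n k F.k0 F.kn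
  obtain ⟨β, hβ, hb⟩ := cut90 hN.inv.posSemidef hθ
  obtain ⟨i1, i2⟩ := itg90 hITG F hφ hθ N
  have g := fun i : Fin (n + 1) => green90 hCHR hTAM hGRO F hφ hβ hθ (((i : ℕ) : ℝ) + 1)
  have mO : MeasurableSet {x | 0 < p x} := (isOpen_lt continuous_const F.sp.continuous).measurableSet
  have hD := pd_det_re hN.inv
  set D := N⁻¹.det.re
  have key : ∀ (x : M.X) (T : M.Fam (Mat n)) (t : ℝ), ∑ i : Fin (n + 1), a i *
      (t * ad H ((((i : ℕ) : ℝ) + 1) • H + M.hs (β ∘ z)) T x).re = t * (∑ i : Fin (n + 1), a i •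
      (((((i : ℕ) : ℝ) + 1) • M.ev H x + M.ev (M.hs (β ∘ z)) x).adjugate * M.ev T x).trace).re /
        (M.ev H x).det.re := fun x T t => by
    rw [re_sum, Finset.mul_sum, Finset.sum_div]
    refine Finset.sum_congr rfl fun i _ => ?_
    have : ad H ((((i : ℕ) : ℝ) + 1) • H + M.hs (β ∘ z)) T x = (((((i : ℕ) : ℝ) + 1) • M.ev H x +
      M.ev (M.hs (β ∘ z)) x).adjugate * M.ev T x).trace / ((M.ev H x).det.re : ℝ) := by
      rw [herm_det (F.kae.toMet.ev_pos x).1]; rfl
    rw [this, re_ofReal_mul, div_ofReal_re, smul_re, smul_eq_mul]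
    ring
  have L : ∀ x ∈ {x | 0 < p x}, ∑ i : Fin (n + 1), a i *
      (φ x * ad H ((((i : ℕ) : ℝ) + 1) • H + M.hs (β ∘ z)) (M.hs (θ ∘ z)) x).re =
      D * (φ x * (N * hr θ (z x)).trace.re * dn H z x) := fun x hx => by
    have hA := F.kae.toMet.ev_pos x
    rw [key, evh90 hCHR F hx hβ, evh90 hCHR F hx hθ]
    by_cases h : z x ∈ tsupport θ
    · have q : (hz H z x).det = dn H z x :=
        (herm_det (hA.inv.posSemidef.mul_mul_conjTranspose_same _).1).symm
      rw [hb _ h, (ha _ _ _ hA hN.inv.posSemidef).2.1, adj90 hN, ← herm_det hA.1, ofReal_re]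
      rw [show (jr (z ∘ (M.ch x).symm) (M.ch x x) * (M.ev H x)⁻¹ *
        (jr (z ∘ (M.ch x).symm) (M.ch x x))ᴴ).det = dn H z x from q, ← ofReal_mul, re_ofReal_mul,
        Matrix.smul_mul, Matrix.trace_smul, smul_re, smul_eq_mul, div_eq_iff (pd_det_re hA).ne']
      ring
    · simp [off90 h]
  have R : ∀ x ∈ {x | 0 < p x}, -(D * (c * (n - k + 1 : ℕ))) *
      S.indicator (fun x => θ (z x) * (N * (hz H z x).adjugate).trace.re) x ≤ ∑ i : Fin (n + 1), a i *
      (θ (z x) * ad H ((((i : ℕ) : ℝ) + 1) • H + M.hs (β ∘ z)) (M.hs φ) x).re := fun x hx => by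
    have hA := F.kae.toMet.ev_pos x
    rw [key, evh90 hCHR F hx hβ]
    by_cases h' : x ∈ S
    swap
    · have : M.ev (M.hs φ) x = 0 := (hess_congr (g := fun _ => 0) ?_).trans (hess_const 0)
      · simp [this, indicator_of_notMem h']
      · filter_upwards [((M.ch x).tendsto_symm (mem_ch x)).eventually
          (notMem_tsupport_iff_eventuallyEq.1 fun c => h' (hs c))] with w hw
        exact congrArg ofReal hw
    rw [indicator_of_mem h']
    by_cases h : θ (z x) = 0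
    · simp [h]
    obtain ⟨l1, -, l3⟩ := ha _ (jr (z ∘ (M.ch x).symm) (M.ch x x)) _ hA hN.inv.posSemidef
    have u : (c • M.ev H x + M.ev (M.hs φ) x).PosSemidef := by
      have := AllOn.ch hL x
      rwa [Pi.zero_apply, Pi.zero_apply, sub_zero] at this
    have v := trp90 l1 u
    rw [mul_add, Matrix.mul_smul, Matrix.trace_add, Matrix.trace_smul, Finset.sum_mul,
      Finset.sum_mul, Matrix.trace_sum, Matrix.trace_sum] at v
    simp only [Matrix.smul_mul, Matrix.trace_smul] at v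
    rw [l3, adj90 hN, ← herm_det hA.1, ← ofReal_natCast, ← ofReal_mul, add_re, smul_re,
      re_ofReal_mul, Matrix.smul_mul, Matrix.trace_smul, smul_re, smul_eq_mul, smul_eq_mul] at v
    rw [hb _ (subset_tsupport _ h), le_div_iff₀ (pd_det_re hA)]
    have w := mul_nonneg (h0 (z x)) v
    refine le_of_sub_nonneg (w.trans_eq ?_)
    show _ = _ - -(D * (c * (n - k + 1 : ℕ))) * (θ (z x) * (N * (jr (z ∘ (M.ch x).symm) (M.ch x x) *
      (M.ev H x)⁻¹ * (jr (z ∘ (M.ch x).symm) (M.ch x x))ᴴ).adjugate).trace.re) * _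
    ring
  have I := setIntegral_mono_on ((i1.indicator hS.measurableSet).const_mul _)
    (integrable_finsetSum _ fun i _ => (g i).2.1.const_mul (a i)) mO R
  rw [integral_const_mul, integral_indicator hS.measurableSet, Measure.restrict_restrict
    hS.measurableSet, inter_comm, integral_finsetSum _ fun i _ => (g i).2.1.const_mul (a i)] at I
  simp only [integral_const_mul, ← fun i => (g i).2.2] at I
  have J := setIntegral_congr_fun (μ := M.mu H) mO L
  rw [integral_finsetSum _ fun i _ => (g i).1.const_mul (a i)] at J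
  simp only [integral_const_mul] at J
  refine le_of_mul_le_mul_left ?_ hD
  linarith

end G2

open G2 in
theorem bG2 (hLAG : St_LAG) (hCHR : St_CHR) (hTAM : St_TAM) (hGRO : St_GRO) (hITG : St_ITG) :
    St_G2 := by
  intro n k M _ H p z C c φ θ N S F hφ _ hL hS hs hθ h0 hN
  obtain ⟨i1, i2⟩ := itg90 hITG F hφ hθ N
  obtain ⟨j1, j2⟩ := itg90 hITG F hφ hθ 1
  have h : ∀ η : ℝ, 0 < η → _ := fun η hη => pd90 hLAG hCHR hTAM hGRO hITG F hφ hL hS hs hθ h0
    ((pd_rsmul Matrix.PosDef.one hη).posSemidef_add hN)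
  have e1 : ∀ η : ℝ, ∫ x in {x | 0 < p x} ∩ S,
      θ (z x) * ((N + η • (1 : Mat k)) * (hz H z x).adjugate).trace.re ∂M.mu H =
      ∫ x in {x | 0 < p x} ∩ S, θ (z x) * (N * (hz H z x).adjugate).trace.re ∂M.mu H + η *
      ∫ x in {x | 0 < p x} ∩ S, θ (z x) * (1 * (hz H z x).adjugate).trace.re ∂M.mu H := fun η => by
    rw [← integral_const_mul, ← integral_add (i1.mono_set inter_subset_left)
      ((j1.mono_set inter_subset_left).const_mul η)]
    refine integral_congr_ae (Eventually.of_forall fun x => ?_)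
    beta_reduce
    rw [add_mul, Matrix.smul_mul, Matrix.trace_add, Matrix.trace_smul, add_re, smul_re, smul_eq_mul]
    ring
  have e2 : ∀ η : ℝ, ∫ x in {x | 0 < p x},
      φ x * ((N + η • (1 : Mat k)) * hr θ (z x)).trace.re * dn H z x ∂M.mu H =
      ∫ x in {x | 0 < p x}, φ x * (N * hr θ (z x)).trace.re * dn H z x ∂M.mu H + η *
      ∫ x in {x | 0 < p x}, φ x * (1 * hr θ (z x)).trace.re * dn H z x ∂M.mu H := fun η => by
    rw [← integral_const_mul, ← integral_add i2 (j2.const_mul η)]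
    refine integral_congr_ae (Eventually.of_forall fun x => ?_)
    beta_reduce
    rw [add_mul, Matrix.smul_mul, Matrix.trace_add, Matrix.trace_smul, add_re, smul_re, smul_eq_mul]
    ring
  simp only [e1, e2] at h
  generalize ∫ x in {x | 0 < p x} ∩ S, θ (z x) * (N * (hz H z x).adjugate).trace.re ∂M.mu H = A at h ⊢
  generalize ∫ x in {x | 0 < p x} ∩ S, θ (z x) * (1 * (hz H z x).adjugate).trace.re ∂M.mu H = A' at h
  generalize ∫ x in {x | 0 < p x}, φ x * (N * hr θ (z x)).trace.re * dn H z x ∂M.mu H = B at h ⊢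
  generalize ∫ x in {x | 0 < p x}, φ x * (1 * hr θ (z x)).trace.re * dn H z x ∂M.mu H = B' at h
  have t : Tendsto (fun η : ℝ => B + η * B' + c * (n - k + 1 : ℕ) * (A + η * A')) (𝓝[>] 0)
      (𝓝 (B + 0 * B' + c * (n - k + 1 : ℕ) * (A + 0 * A'))) :=
    (Continuous.tendsto (by fun_prop) 0).mono_left nhdsWithin_le_nhds
  have := ge_of_tendsto t (eventually_mem_nhdsWithin.mono fun η hη =>
    show 0 ≤ _ by linarith [h η hη])
  linarith

end Pool.Agent.Lib.FI
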