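import Pool.Agent.Lib.FI.Blue
import Pool.Agent.Lib.EX.K62

/-! Project fi: the form of Fubini and Study. -/

open scoped Classical Topology ContDiff ComplexOrder Matrix
open Set Complex Filter

noncomputable section

namespace Pool.Agent.Lib.FI

open Pool.Agent.Lib.SV (E nsq)
open Pool.Agent.Lib.HS32

namespace FS

variable {k : ℕ}

theorem coe (a : E k) : (nsq a : ℂ) = ∑ i, a i * star (a i) := by
  simp only [nsq, ofReal_sum, star_def, mul_conj]

theorem sm (R : ℝ) (y w : E k) : ContDiffAt ℝ ∞ (fun w => R + nsq (w - y)) w := by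
  have : ∀ i, ContDiffAt ℝ ∞ (fun w : E k => w i - y i) w := fun i => by fun_prop
  refine contDiffAt_const.add (ContDiffAt.sum (f := fun i w => normSq ((w - y) i)) fun i _ => ?_)
  simpa only [star_def, mul_conj, ofReal_re, Pi.sub_apply] using
    cd_re ((this i).mul (cd_star (this i)))

theorem d1 (R : ℝ) (y w : E k) (j : Fin k) :
    dz j (fun w => ((R + nsq (w - y) : ℝ) : ℂ)) w = star (w j - y j) := by
  have h : ∀ i, DifferentiableAt ℝ (fun w : E k => w i - y i) w := fun i => by fun_prop
  have h1 : ∀ i, DifferentiableAt ℝ (fun w : E k => w i) w := fun i => by fun_prop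
  have h2 := fun i => (h i).fun_mul (diff_star (h i))
  simp only [ofReal_add, coe, Pi.sub_apply]
  rw [dz_add (differentiableAt_const _) (.fun_sum fun i _ => h2 i), dz_const, zero_add,
    dz_sum fun i _ => h2 i]
  simp only [dz_mul (h _) (diff_star (h _)), dz_star (h _), dz_sub (h1 _) (differentiableAt_const _),
    dzb_sub (h1 _) (differentiableAt_const _), dz_coord, dzb_coord, dz_const, dzb_const]
  simp

theorem he {R : ℝ} (hR : 0 < R) (y w : E k) : hr (fun w => Real.log (R + nsq (w - y))) w =
    (R + nsq (w - y))⁻¹ • (1 : Mat k) -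
      ((R + nsq (w - y)) ^ 2)⁻¹ • Matrix.vecMulVec (w - y) (star (w - y)) := by
  have q0 : ∀ w : E k, 0 < R + nsq (w - y) := fun w => by linarith [EX.K62.nsq_nn (w - y)]
  ext i j
  have e : dz j (fun w => (Real.log (R + nsq (w - y)) : ℂ)) =
      fun w => ((R + nsq (w - y) : ℝ) : ℂ)⁻¹ * star (w j - y j) := funext fun w => by
    rw [dz_comp_real (u := fun w => R + nsq (w - y)) (Real.hasDerivAt_log (q0 w).ne')
      (cd_diff (sm R y w)), d1, ofReal_inv]
  have h : DifferentiableAt ℝ (fun w : E k => w j - y j) w := by fun_prop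
  have h1 : DifferentiableAt ℝ (fun w : E k => w j) w := by fun_prop
  have hq := cd_diff (cd_ofReal (sm R y w))
  have q1 := ofReal_ne_zero.2 (q0 w).ne'
  rw [hr, hess, Matrix.of_apply, e, dzb_mul (hq.fun_inv q1) (diff_star h), dzb_inv hq q1,
    ← star_dz_ofReal hq, d1, dzb_star h, dz_sub h1 (differentiableAt_const _), dz_coord, dz_const]
  simp only [Matrix.sub_apply, Matrix.smul_apply, Matrix.one_apply, Matrix.vecMulVec_apply,
    real_smul, Pi.star_apply, Pi.sub_apply, star_star, ofReal_inv, ofReal_pow, eq_comm (a := j)]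
  split_ifs <;> simp only [sub_zero, star_one, star_zero] <;> ring

theorem quad (α β : ℝ) (a v : E k) : star v ⬝ᵥ (α • (1 : Mat k) -
    β • Matrix.vecMulVec a (star a)) *ᵥ v = (α * nsq v - β * normSq (star a ⬝ᵥ v) : ℝ) := by
  rw [Matrix.sub_mulVec, Matrix.smul_mulVec, Matrix.smul_mulVec, Matrix.one_mulVec,
    Matrix.vecMulVec_mulVec, op_smul_eq_smul, dotProduct_sub, dotProduct_smul, dotProduct_smul,
    dotProduct_smul, Matrix.star_dotProduct v a, smul_eq_mul, star_def, mul_conj, dotProduct_comm]
  simp only [real_smul, ofReal_sub, ofReal_mul, coe]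
  rfl

theorem herm (α β : ℝ) (a : E k) :
    (α • (1 : Mat k) - β • Matrix.vecMulVec a (star a)).IsHermitian := by
  rw [Matrix.IsHermitian, Matrix.conjTranspose_sub, Matrix.conjTranspose_smul,
    Matrix.conjTranspose_smul, Matrix.conjTranspose_one, Matrix.conjTranspose_vecMulVec, star_star,
    star_trivial, star_trivial]

theorem psd {α β : ℝ} {a : E k} (h0 : 0 ≤ β) (h : β * nsq a ≤ α) :
    (α • (1 : Mat k) - β • Matrix.vecMulVec a (star a)).PosSemidef :=
  .of_dotProduct_mulVec_nonneg (herm α β a) fun v => by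
    have c : normSq (star a ⬝ᵥ v) ≤ nsq a * nsq v := EX.K62.cs a v
    rw [quad, zero_le_real]
    nlinarith [mul_le_mul_of_nonneg_left c h0, mul_le_mul_of_nonneg_right h (EX.K62.nsq_nn v)]

end FS

open FS in
theorem bFS : St_FS := by
  intro k R y w hR
  have t0 := EX.K62.nsq_nn (w - y)
  have q0 : 0 < R + nsq (w - y) := by linarith
  have p : (hr (fun w => Real.log (R + nsq (w - y))) w -
      (R / (R + nsq (w - y)) ^ 2) • (1 : Mat k)).PosSemidef := by
    rw [he hR, sub_right_comm, ← sub_smul]
    exact psd (by positivity) (le_of_eq (by field_simp; ring))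
  refine ⟨(sm R y w).log q0.ne', ?_, ?_, p, ?_, fun v => ?_⟩
  · simpa only [add_sub_cancel] using (Matrix.PosDef.one.smul
      (show 0 < R / (R + nsq (w - y)) ^ 2 by positivity)).add_posSemidef p
  · have q1 := ofReal_ne_zero.2 q0.ne'
    have e : hr (fun w => Real.log (R + nsq (w - y))) w = ((R + nsq (w - y) : ℝ) : ℂ)⁻¹ •
        (1 + Matrix.replicateCol Unit (-((R + nsq (w - y) : ℝ) : ℂ)⁻¹ • (w - y)) *
          Matrix.replicateRow Unit (star (w - y))) := by
      rw [he hR, ← Matrix.vecMulVec_eq, Matrix.smul_vecMulVec]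
      ext i j
      simp only [Matrix.sub_apply, Matrix.smul_apply, Matrix.add_apply, real_smul, smul_eq_mul,
        ofReal_inv, ofReal_pow]
      ring
    have e2 : star (w - y) ⬝ᵥ (w - y) = (nsq (w - y) : ℝ) := by
      rw [coe, dotProduct_comm]; rfl
    rw [e, Matrix.det_smul, Matrix.det_one_add_replicateCol_mul_replicateRow, dotProduct_smul, e2,
      Fintype.card_fin, smul_eq_mul, ofReal_div, ofReal_pow, inv_pow, pow_succ]
    field_simp
    push_cast
    ring
  · rw [he hR, sub_sub_cancel]
    exact (Matrix.posSemidef_vecMulVec_self_star _).smul (by positivity)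
  · rw [he hR, nq, quad, ofReal_re]
    field_simp

end Pool.Agent.Lib.FI
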