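import Pool.Agent.Lib.FI.Blue

/-! Project fi, row GRO: the formula of Green on the open set. -/

open scoped Classical Topology ContDiff ComplexOrder Matrix ENNReal
open Set MeasureTheory Complex Metric Filter

noncomputable section

namespace Pool.Agent.Lib.FI

open Pool.Agent.Lib.SV (E nsq)
open Pool.Agent.Lib.HS32 Pool.Agent.Lib.HS32.Mf

namespace GRO

theorem st_der : ∃ K : ℝ, ∀ s, |deriv Real.smoothTransition s| ≤ K ∧
    (deriv Real.smoothTransition s ≠ 0 → 0 ≤ s ∧ s ≤ 1) := by
  have z : ∀ s, deriv Real.smoothTransition s ≠ 0 → 0 ≤ s ∧ s ≤ 1 := fun s h => by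
    refine ⟨not_lt.1 fun k => h ?_, not_lt.1 fun k => h ?_⟩
    · exact (EventuallyEq.deriv_eq (f := fun _ => 0) (mem_of_superset (Iio_mem_nhds k) fun t ht =>
        Real.smoothTransition.zero_of_nonpos (le_of_lt ht))).trans (deriv_const _ _)
    · exact (EventuallyEq.deriv_eq (f := fun _ => 1) (mem_of_superset (Ioi_mem_nhds k) fun t ht =>
        Real.smoothTransition.one_of_one_le (le_of_lt ht))).trans (deriv_const _ _)
  obtain ⟨K, hK⟩ := (isCompact_Icc (a := (0 : ℝ)) (b := 1)).exists_bound_of_continuousOn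
    ((Real.smoothTransition.contDiff (n := 1)).continuous_deriv le_rfl).continuousOn
  refine ⟨|K|, fun s => ⟨?_, z s⟩⟩
  by_cases h : deriv Real.smoothTransition s = 0
  · simp [h]
  · exact (hK s (z s h)).trans (le_abs_self K)

theorem st_lin (L a : ℝ) : HasDerivAt (fun r => Real.smoothTransition (r / L + 2))
    (deriv Real.smoothTransition (a / L + 2) / L) a := by
  have := HasDerivAt.comp (h₂ := Real.smoothTransition) a
    ((Real.smoothTransition.contDiff (n := 1)).differentiable one_ne_zero (a / L + 2)).hasDerivAt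
    (((hasDerivAt_id a).div_const L).add_const 2)
  rwa [mul_one_div] at this

theorem am {t α β κ a r : ℝ} (t0 : 0 < t) (a1 : α ^ 2 ≤ a) (a2 : κ ^ 2 ≤ t * r) :
    α * (κ * β) ≤ t * a + r * β ^ 2 := by
  refine le_of_mul_le_mul_left ?_ t0
  nlinarith [sq_nonneg (t * α - κ * β), mul_le_mul_of_nonneg_right a2 (sq_nonneg β),
    mul_le_mul_of_nonneg_left a1 (sq_nonneg t), sq_nonneg (t * α), sq_nonneg (κ * β)]

variable {n k : ℕ} {M : Mf n} {H T G A : M.Fam (Mat n)} {p q : M.X → ℝ} {u w : M.X → ℂ} {L : ℝ}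

/-- A smooth tensor on the open set. -/
structure To (p : M.X → ℝ) (A : M.Fam (Mat n)) : Prop where
  sm : Ao M p fun e w => SmM (A e) w
  cmp : M.Ov fun e e' x => 0 < p x → A e' (e' x) = (M.J e e' x)ᴴ * A e (e x) * M.J e e' x

theorem To.ten (h : M.Ten T) : To p T :=
  ⟨fun e he z hz _ => h.sm e he z hz, fun e he e' he' x hx hx' _ => h.cmp e he e' he' x hx hx'⟩

theorem To.add (h : To p G) (h' : To p A) : To p (G + A) :=
  ⟨fun e he z hz k => (h.sm e he z hz k).add (h'.sm e he z hz k),
    fun e he e' he' x hx hx' k => by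
      simp only [Pi.add_apply, h.cmp e he e' he' x hx hx' k, h'.cmp e he e' he' x hx hx' k,
        Matrix.mul_add, Matrix.add_mul]⟩

theorem to_both (hu : So p u) (hw : So p w) : To p (hc u) ∧ To p (dc u w) := by
  have key : M.Ov fun e e' x => 0 < p x →
      hc u e' (e' x) = (M.J e e' x)ᴴ * hc u e (e x) * M.J e e' x ∧
      dc u w e' (e' x) = (M.J e e' x)ᴴ * dc u w e (e x) * M.J e e' x := by
    intro e he e' he' x hx hx' h0
    obtain ⟨h1, -, -, h4, -⟩ := (mTR n M).2.1 e he e' he' x hx hx'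
    obtain ⟨-, -, -, -, -, -, -, -, -, -, c1, c2⟩ := mCHN n _ _ h1
    have a : (e ∘ e'.symm) (e' x) = e x := by simp only [Function.comp_apply, e'.left_inv hx']
    have ev : ∀ u : M.X → ℂ, u ∘ e'.symm =ᶠ[𝓝 (e' x)] (u ∘ e.symm) ∘ (e ∘ e'.symm) := fun u => by
      filter_upwards [h4] with w hw
      simp only [Function.comp_apply, hw.2.2.2.2.1]
    have s : ∀ u : M.X → ℂ, So p u → ContDiffAt ℝ ∞ (u ∘ e.symm) ((e ∘ e'.symm) (e' x)) :=
      fun u hu => by
        rw [a]
        exact hu e he _ (e.map_source hx) (by rwa [e.left_inv hx])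
    rw [hc, dc, hess_congr (ev u), dd_congr (ev u) (ev w), c1 _ _ (cd_diff (s u hu))
      (cd_diff (s w hw)), c2 _ (s u hu), a]
    exact ⟨rfl, rfl⟩
  exact ⟨⟨fun e he z hz k => smM_hess (hu e he z hz k),
    fun e he e' he' x hx hx' k => (key e he e' he' x hx hx' k).1⟩,
    fun e he z hz k => smM_dd (hu e he z hz k) (hw e he z hz k),
    fun e he e' he' x hx hx' k => (key e he e' he' x hx hx' k).2⟩

/-- The cut-off function. -/
def kap (p q : M.X → ℝ) (L : ℝ) (x : M.X) : ℝ :=
  if 0 < p x then Real.smoothTransition (Real.log (q x) / L + 2) else 0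

theorem kap0 (hq : M.Sm q) (h : ∀ x, 0 < p x → 0 < q x) (hL : 0 < L) {x : M.X}
    (hx : q x < Real.exp (-(2 * L))) : ∀ᶠ y in 𝓝 x, kap p q L y = 0 := by
  filter_upwards [hq.continuous.continuousAt.eventually_lt continuousAt_const hx] with y hy
  refine ite_eq_right_iff.2 fun k => Real.smoothTransition.zero_of_nonpos ?_
  have := (Real.log_lt_iff_lt_exp (h y k)).2 hy
  rw [← le_neg_iff_add_nonpos_right, div_le_iff₀ hL]
  linarith

theorem kap_ev (hp : M.Sm p) {x : M.X} (hx : 0 < p x) :
    ∀ᶠ y in 𝓝 x, kap p q L y = Real.smoothTransition (Real.log (q y) / L + 2) :=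
  (continuousAt_const.eventually_lt hp.continuous.continuousAt hx).mono fun _ hy => if_pos hy

theorem kap1 (hp : M.Sm p) (hq : M.Sm q) (hL : 0 < L) {x : M.X} (hx : 0 < p x)
    (hx' : Real.exp (-L) < q x) : ∀ᶠ y in 𝓝 x, kap p q L y = 1 := by
  filter_upwards [kap_ev (q := q) (L := L) hp hx,
    continuousAt_const.eventually_lt hq.continuous.continuousAt hx'] with y h1 h2
  refine h1.trans (Real.smoothTransition.one_of_one_le ?_)
  have := (Real.lt_log_iff_exp_lt ((Real.exp_pos _).trans h2)).2 h2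
  rw [← sub_le_iff_le_add, le_div_iff₀ hL]
  linarith

theorem ext {F : Type} [NormedAddCommGroup F] [NormedSpace ℝ F] {f : M.X → F} (hp : M.Sm p)
    (hq : M.Sm q) (h : ∀ x, 0 < p x → 0 < q x) (h' : ∀ x, ¬0 < p x → q x = 0) (hL : 0 < L)
    (hf : So p f) : M.Sm fun x => kap p q L x • f x := fun e he z hz => by
  by_cases k : 0 < p (e.symm z)
  · refine ContDiffAt.smul (ContDiffAt.congr_of_eventuallyEq ?_
      ((e.continuousAt_symm hz).eventually (kap_ev hp k))) (hf e he z hz k)
    exact Real.smoothTransition.contDiff.contDiffAt.comp z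
      ((((hq e he z hz).log (h _ k).ne').div_const L).add contDiffAt_const)
  · refine (contDiffAt_const (c := 0)).congr_of_eventuallyEq
      (((e.continuousAt_symm hz).eventually (kap0 hq h hL (x := e.symm z) ?_)).mono fun y hy => ?_)
    · rw [h' _ k]
      exact Real.exp_pos _
    · simp only [Function.comp_apply, hy, zero_smul]

theorem dz_kap (hp : M.Sm p) (sl : So p fun x => Real.log (q x)) {x : M.X} (hx : 0 < p x)
    (j : Fin n) : dz j ((fun y => (kap p q L y : ℂ)) ∘ (M.ch x).symm) (M.ch x x) =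
      (deriv Real.smoothTransition (Real.log (q x) / L + 2) / L : ℝ) *
        dz j (fun y => (Real.log (q ((M.ch x).symm y)) : ℂ)) (M.ch x x) := by
  have h : 0 < p ((M.ch x).symm (M.ch x x)) := by rwa [ch_symm]
  have a := ((M.ch x).continuousAt_symm (ch_tgt x)).eventually (kap_ev (L := L) (q := q) hp h)
  have b := dz_comp_real (j := j) (u := fun y => Real.log (q ((M.ch x).symm y)))
    (st_lin L _) (cd_diff (AllOn.ch sl x h))
  rw [ch_symm] at b
  exact (dz_congr (a.mono fun y hy => congrArg ofReal hy)).trans b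

theorem dd_qf (f g : E n → ℂ) (z v : E n) : star v ⬝ᵥ dd f g z *ᵥ v =
    (∑ j, star (v j) * dzb j f z) * ∑ j, v j * dz j g z := by
  simp only [dotProduct, Matrix.mulVec, dd, Matrix.of_apply, Pi.star_apply, Finset.sum_mul,
    Finset.mul_sum]
  rw [Finset.sum_comm]
  exact Finset.sum_congr rfl fun i _ => Finset.sum_congr rfl fun j _ => by ring

theorem nq_dd {f : E n → ℝ} {z : E n} (hf : ContDiffAt ℝ ∞ f z) (v : E n) :
    (dd (fun w => (f w : ℂ)) (fun w => (f w : ℂ)) z).IsHermitian ∧
    nq (dd (fun w => (f w : ℂ)) (fun w => (f w : ℂ)) z) v =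
      ‖∑ j, v j * dz j (fun w => (f w : ℂ)) z‖ ^ 2 := by
  have a := fun j => star_dz_ofReal (j := j) (cd_diff (cd_ofReal hf))
  refine ⟨Matrix.ext fun i j => ?_, ?_⟩
  · simp only [Matrix.conjTranspose_apply, dd, Matrix.of_apply, star_mul, ← a, star_star]
  · rw [nq, dd_qf, ← normSq_eq_norm_sq, ← ofReal_re (normSq _), normSq_eq_conj_mul_self,
      ← star_def, star_sum]
    simp only [star_mul', a]

theorem nq_lin (a b : ℝ) (A B : Mat n) (v : E n) : nq (a • A + b • B) v = a * nq A v + b * nq B v := by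
  simp only [nq, Matrix.add_mulVec, Matrix.smul_mulVec, dotProduct_add, dotProduct_smul, add_re,
    real_smul, re_ofReal_mul]

end GRO

open GRO in
theorem bGRO (hADJ : St_ADJ) (hBAS : St_BAS) (hTAM : St_TAM) (hMAS : St_MAS) : St_GRO := by
  intro n k M _ H p z C T b u w c hF hT sb ⟨cb, cb0, mb⟩ su ⟨ch, ch0, mu⟩ ⟨cu, cu0, gu⟩ sw
    ⟨cw, cw0, gw⟩ bw
  have hH := hF.kae.toMet
  obtain ⟨hO, -, -, b4, b5⟩ := hBAS n k M H p z C hF
  obtain ⟨cT, cT0, mT⟩ := (hTAM n k M H p z C hF).1 T hT.toTen
  obtain ⟨cm, cm0, m1, m2⟩ := hMAS n k M H p z C hF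
  have m1 := m1 1 0 one_pos
  obtain ⟨K, hK⟩ := st_der
  have mO := hO.measurableSet
  set q := qf p z 1 0 with hq
  set O := {x | 0 < p x} with hO'
  set G₀ := g0 H p z C with hG₀
  have sq : M.Sm q := hF.sq 1 0
  have q1 : ∀ x, 0 < p x → 0 < q x := fun x h => mul_pos h (add_pos_of_pos_of_nonneg one_pos
    (Finset.sum_nonneg fun _ _ => normSq_nonneg _))
  have q0 : ∀ x, ¬0 < p x → q x = 0 := fun x h =>
    mul_eq_zero_of_left ((hF.p0 x).eq_of_not_lt h).symm _
  have sl : So p fun x => Real.log (q x) := fun e he z hz h => (sq e he z hz).log (q1 _ h).ne'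
  have re : ∀ {f : M.X → ℝ}, So p f → So p fun x => (f x : ℂ) := fun h e he z hz k =>
    cd_ofReal (h e he z hz k)
  have tG : To p (T + M.hs b) := (To.ten hT.toTen).add (to_both (re sb) (re sb)).1
  have t0 : To p G₀ := (To.ten (hH.toTen.smul C)).add (to_both (re sl) (re sl)).1
  have ct : ∀ {G A}, To p G → To p A → ContinuousOn (ad H G A) O := fun h h' =>
    (b5 _ _ fun e he e' he' x hx hx' k => ⟨h.cmp e he e' he' x hx hx' k,
      h'.cmp e he e' he' x hx hx' k⟩).2 fun e he z hz k => ⟨h.sm e he z hz k, h'.sm e he z hz k⟩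
  have at' : ∀ {P : M.Ch → E n → Prop}, Ao M p P → ∀ x ∈ O, P (M.ch x) (M.ch x x) :=
    fun h x hx => AllOn.ch h x (by rwa [ch_symm])
  obtain ⟨D, hD⟩ : ∃ D, D = M.ds (fun x => Real.log (q x)) fun x => Real.log (q x) := ⟨_, rfl⟩
  obtain ⟨γ, γ0, key⟩ : ∃ γ : ℝ, 0 ≤ γ ∧ ∀ x ∈ O, ∀ (A : M.Fam (Mat n)) (s r : ℝ),
      (∀ v, ‖star v ⬝ᵥ M.ev A x *ᵥ v‖ ≤ s * nq (M.ev G₀ x) v + r * nq (M.ev D x) v) →
      ‖ad H (T + M.hs b) A x‖ ≤ γ * (s * (n * M.dq H G₀ x) + r * (ad H G₀ D x).re) := by
    refine ⟨(cT + cb) ^ (n - 1), by positivity, fun x hx A s r h => ?_⟩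
    have p0 : (M.ev G₀ x).PosDef := (at' b4 x hx).2.2.2.1
    have hd := pd_det_re (hH.ev_pos x)
    have k := hADJ n _ (M.ev (T + M.hs b) x) _ (s • M.ev G₀ x + r • M.ev D x) (cT + cb) p0
      ((hT.herm.ch x).add (hess_herm (at' sb x hx))) (by positivity) (fun v => by
        change ‖star v ⬝ᵥ (M.ev T x + M.ev (M.hs b) x) *ᵥ v‖ ≤ _
        rw [Matrix.add_mulVec, dotProduct_add, add_mul]
        exact (norm_add_le _ _).trans (add_le_add (at' mT x hx v) (at' mb x hx v)))
      ((herm_rsmul p0.1 s).add (herm_rsmul (hD ▸ (nq_dd (at' sl x hx) 0).1) r))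
      fun v => (nq_lin _ _ _ _ v).symm ▸ h v
    rw [Matrix.mul_add, Matrix.mul_smul, Matrix.mul_smul, Matrix.adjugate_mul, Matrix.trace_add,
      Matrix.trace_smul, Matrix.trace_smul, Matrix.trace_smul, Matrix.trace_one, add_re, smul_re,
      smul_re, smul_eq_mul, smul_eq_mul, smul_eq_mul, Fintype.card_fin, mul_comm (M.ev G₀ x).det,
      ← ofReal_natCast, re_ofReal_mul] at k
    change ‖((M.ev (T + M.hs b) x).adjugate * M.ev A x).trace / (M.ev H x).det‖ ≤ _ * (s * (n *
      ((M.ev G₀ x).det / (M.ev H x).det).re) + r *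
        (((M.ev G₀ x).adjugate * M.ev D x).trace / (M.ev H x).det).re)
    rw [← herm_det (hH.ev_pos x).1, norm_div, div_ofReal_re, div_ofReal_re, norm_real,
      Real.norm_of_nonneg hd.le, div_le_iff₀ hd]
    refine k.trans_eq ?_
    field_simp
  have dq0 : ∀ x ∈ O, 0 ≤ M.dq H G₀ x := fun x hx => by
    rw [Mf.dq, ← herm_det (hH.ev_pos x).1, div_ofReal_re]
    exact div_nonneg (pd_det_re (at' b4 x hx).2.2.2.1).le (pd_det_re (hH.ev_pos x)).le
  have cq : ContinuousOn (fun x => (n : ℝ) * M.dq H G₀ x) O :=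
    (continuous_re.comp_continuousOn (ct t0 t0)).congr fun x _ => by
      change _ = (((M.ev G₀ x).adjugate * M.ev G₀ x).trace / (M.ev H x).det).re
      rw [Matrix.adjugate_mul, Matrix.trace_smul, Matrix.trace_one, Fintype.card_fin, smul_eq_mul,
        mul_comm (M.ev G₀ x).det, mul_div_assoc, ← ofReal_natCast, re_ofReal_mul, Mf.dq]
  have lq : ∀ s : ℝ, 0 ≤ s → ∫⁻ x in O, ENNReal.ofReal (s * (n * M.dq H G₀ x)) ∂M.mu H ≤
      ENNReal.ofReal (s * (n * cm)) := fun s hs => by
    simp only [← mul_assoc, ENNReal.ofReal_mul (mul_nonneg hs n.cast_nonneg)]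
    rw [lintegral_const_mul' _ _ ENNReal.ofReal_ne_top]
    exact mul_le_mul_right m1 _
  have iq : IntegrableOn (fun x => (n : ℝ) * M.dq H G₀ x) O (M.mu H) :=
    ⟨cq.aestronglyMeasurable mO, (hasFiniteIntegral_iff_ofReal ((ae_restrict_iff' mO).2
      (.of_forall fun x hx => mul_nonneg n.cast_nonneg (dq0 x hx)))).2
      ((by simpa only [one_mul] using lq 1 zero_le_one : _ ≤ _).trans_lt ENNReal.ofReal_lt_top)⟩
  have ig : ∀ A (s : ℝ), To p A → (∀ x ∈ O, ∀ v, ‖star v ⬝ᵥ M.ev A x *ᵥ v‖ ≤ s * nq (M.ev G₀ x) v) →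
      IntegrableOn (ad H (T + M.hs b) A) O (M.mu H) := fun A s h h' =>
    Integrable.mono' ((iq.const_mul s).const_mul γ) ((ct tG h).aestronglyMeasurable mO)
      ((ae_restrict_iff' mO).2 (.of_forall fun x hx => by
        simpa using key x hx A s 0 (by simpa using h' x hx)))
  have i1 := ig _ (cu + cw) (to_both su sw).2 fun x hx v => by
    change ‖star v ⬝ᵥ dd _ _ _ *ᵥ v‖ ≤ _
    rw [dd_qf, norm_mul]
    have := (at' gu x hx v).2
    have := (at' gw x hx v).1
    change _ ≤ _ * nq (G₀ _ _) v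
    nlinarith [sq_nonneg (‖∑ j, star (v j) * dzb j (u ∘ (M.ch x).symm) (M.ch x x)‖ -
      ‖∑ j, v j * dz j (w ∘ (M.ch x).symm) (M.ch x x)‖)]
  have cw' : ContinuousOn w O := fun x hx => ContinuousAt.continuousWithinAt (by
    have := (at' sw x hx).continuousAt.comp ((M.ch x).continuousAt (mem_ch x))
    exact this.congr (((M.ch x).eventually_left_inverse (mem_ch x)).mono fun y hy => congrArg w hy))
  have i2 : IntegrableOn (fun x => w x * ad H (T + M.hs b) (hc u) x) O (M.mu H) :=
    (ig _ ch (to_both su sw).1 (at' mu)).bdd_mul (c := c) (cw'.aestronglyMeasurable mO)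
      ((ae_restrict_iff' mO).2 (.of_forall bw))
  refine ⟨i1, i2, ?_⟩
  rw [← integral_add i1 i2]
  set F := fun x => ad H (T + M.hs b) (dc u w) x + w x * ad H (T + M.hs b) (hc u) x with hF'
  have iF : IntegrableOn F O (M.mu H) := i1.add i2
  have ex := fun {E' : Type} [NormedAddCommGroup E'] [NormedSpace ℝ E'] {f : M.X → E'} {L : ℝ}
    (hL : 0 < L) (hf : So p f) => ext hF.sp sq q1 q0 hL hf
  have sk : ∀ {L : ℝ}, 0 < L → M.Sm (kap p q L) := fun hL => by
    simpa using ex (f := fun _ => (1 : ℝ)) hL fun _ _ _ _ _ => contDiffAt_const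
  have k01 : ∀ L x, ‖kap p q L x‖ ≤ 1 := fun L x => by
    unfold kap
    split_ifs
    · exact (Real.norm_of_nonneg (Real.smoothTransition.nonneg _)).trans_le
        (Real.smoothTransition.le_one _)
    · simp
  have ik : ∀ {L : ℝ}, 0 < L → IntegrableOn (fun x => kap p q L x • F x) O (M.mu H) := fun hL =>
    iF.bdd_smul 1 (sk hL).continuous.aestronglyMeasurable (.of_forall (k01 _))
  have main : ∀ L t : ℝ, 1 ≤ L → 0 < t → ‖∫ x in O, kap p q L x • F x ∂M.mu H‖ ≤
      |c| * γ * (t * cu) * (n * cm) + |c| * γ * (K ^ 2 / (t * L ^ 2)) * (cm * L) := by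
    intro L t L1 t0'
    have L0 : 0 < L := one_pos.trans_le L1
    have L3 : 0 < 3 * L := by positivity
    have hT' := hT.add ((mHES n M).1 _ (ex L3 sb))
    have su' := ex L3 su
    have sw' := ex L0 sw
    obtain ⟨g1, g2⟩ := (mGRN n M).1 H _ _ _ hH hT'.toTen hT'.cl su' sw'
    have g3 := g1.sm fun e he z hz => by
      simp only [div_eq_mul_inv]
      exact ((hT'.sm e he z hz).adjugate.mul ((smM_dd (su' e he z hz) (sw' e he z hz)).add
        ((smM_hess (su' e he z hz)).smul (sw' e he z hz)))).trace.mul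
        ((hH.sm e he z hz).det.inv (hH.det_ne e he z hz))
    generalize hI : M.ev _ = I at g2 g3
    have pt : ∀ x, (x ∉ O → I x = 0) ∧ (x ∈ O → I x - kap p q L x • F x =
        w x * ad H (T + M.hs b) (dc u fun y => kap p q L y) x) := fun x => by
      have tr : ∀ {P : M.X → Prop}, (∀ᶠ y in 𝓝 x, P y) →
          ∀ᶠ y in 𝓝 (M.ch x x), P ((M.ch x).symm y) := fun h =>
        ((M.ch x).continuousAt_symm (ch_tgt x)).eventually (by rwa [ch_symm])
      have z0 : q x < Real.exp (-(2 * L)) → I x = 0 ∧ kap p q L x = 0 ∧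
          ad H (T + M.hs b) (dc u fun y => kap p q L y) x = 0 := fun h => by
        have a := kap0 sq q1 L0 h
        have a0 : ∀ f : E n → ℂ, dd f (fun _ => 0) (M.ch x x) = 0 := fun f => by
          ext i j
          simp [dd]
        refine ⟨?_, a.self_of_nhds, ?_⟩
        · rw [← hI, Mf.ev, dd_congr .rfl (g' := fun _ => 0) ((tr a).mono fun y hy => by
            simp only [Function.comp_apply, hy, zero_smul]), a0, ch_symm, a.self_of_nhds]
          simp
        · rw [ad, Mf.ev, dc, dd_congr .rfl (g' := fun _ => 0) ((tr a).mono fun y hy => by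
            simp only [Function.comp_apply, hy, ofReal_zero]), a0]
          simp
      refine ⟨fun h => (z0 ((q0 x h).trans_lt (Real.exp_pos _))).1, fun hx => ?_⟩
      rcases lt_or_ge (q x) (Real.exp (-(2 * L))) with h | h
      · simp [z0 h]
      have a := tr (kap1 hF.sp sq L3 hx ((Real.exp_lt_exp.2 (by linarith)).trans_le h))
      have e1 : (fun y => kap p q (3 * L) y • u y) ∘ (M.ch x).symm =ᶠ[𝓝 (M.ch x x)]
          u ∘ (M.ch x).symm := a.mono fun y hy => by simp only [Function.comp_apply, hy, one_smul]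
      have e2 : M.hs (fun y => kap p q (3 * L) y • b y) (M.ch x) (M.ch x x) =
          M.hs b (M.ch x) (M.ch x x) :=
        hess_congr (a.mono fun y hy => by simp only [Mf.lc, hy, one_smul])
      have e3 : dd (u ∘ (M.ch x).symm) ((fun y => kap p q L y • w y) ∘ (M.ch x).symm) (M.ch x x) =
          (kap p q L x : ℂ) • dc u w (M.ch x) (M.ch x x) +
            w x • dc u (fun y => kap p q L y) (M.ch x) (M.ch x x) := by
        ext i j
        have := dz_mul (j := j) (cd_diff ((sk L0).ofReal _ (ch_mem x) _ (ch_tgt x)))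
          (cd_diff (at' sw x hx))
        simp only [Function.comp_def, ch_symm] at this
        simp only [dc, dd, Matrix.of_apply, Matrix.add_apply, Matrix.smul_apply, smul_eq_mul,
          Function.comp_def, real_smul, this]
        ring
      rw [← hI, Mf.ev, dd_congr e1 .rfl, hess_congr e1, e3, ch_symm, Pi.add_apply, Pi.add_apply, e2]
      simp only [hF', ad, Mf.ev, hc, Pi.add_apply, Matrix.mul_add, Matrix.mul_smul,
        Matrix.trace_add, Matrix.trace_smul, smul_eq_mul, real_smul]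
      ring
    have mS : MeasurableSet {x | 0 < p x ∧ -(2 * L) ≤ Real.log (q x) ∧ Real.log (q x) ≤ -L} :=
      mO.inter ((measurableSet_le measurable_const sq.continuous.measurable.log).inter
        (measurableSet_le sq.continuous.measurable.log measurable_const))
    have e0 : ∫ x in O, kap p q L x • F x ∂M.mu H =
        -∫ x in O, (I x - kap p q L x • F x) ∂M.mu H := by
      rw [integral_sub ((mMU n M H hH).2.2.2.2.1 ℂ _ g3.continuous).integrableOn (ik L0),
        setIntegral_eq_integral_of_forall_compl_eq_zero fun x hx => (pt x).1 hx, g2, zero_sub,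
        neg_neg]
    have r0 : 0 ≤ |c| * γ * (K ^ 2 / (t * L ^ 2)) := by positivity
    rw [e0, norm_neg]
    refine (norm_integral_le_lintegral_norm _).trans (ENNReal.toReal_le_of_le_ofReal
      (by positivity) ?_)
    calc _ ≤ ∫⁻ x in O, (ENNReal.ofReal (|c| * γ * (t * cu) * (n * M.dq H G₀ x)) +
          {x | 0 < p x ∧ -(2 * L) ≤ Real.log (q x) ∧ Real.log (q x) ≤ -L}.indicator (fun x =>
            ENNReal.ofReal (|c| * γ * (K ^ 2 / (t * L ^ 2))) *
              ENNReal.ofReal (ad H G₀ D x).re) x) ∂M.mu H := by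
          refine setLIntegral_mono' mO fun x hx => ?_
          set s := Real.log (q x) / L + 2 with hs
          have d1 := dz_kap (L := L) hF.sp sl hx
          have d2 : ∀ r : ℝ, deriv Real.smoothTransition s ^ 2 / (t * L ^ 2) ≤ r →
              ‖I x - kap p q L x • F x‖ ≤ |c| * γ * (t * cu) * (n * M.dq H G₀ x) +
                |c| * γ * r * (ad H G₀ D x).re := fun r hr => by
            rw [(pt x).2 hx, norm_mul]
            refine (mul_le_mul ((bw x hx).trans (le_abs_self c)) (key x hx _ (t * cu) r fun v => ?_)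
              (norm_nonneg _) (abs_nonneg c)).trans_eq (by ring)
            have a0 : nq (M.ev D x) v = ‖∑ j, v j * dz j (fun y =>
                (Real.log (q ((M.ch x).symm y)) : ℂ)) (M.ch x x)‖ ^ 2 := by
              rw [hD]
              exact (nq_dd (at' sl x hx) v).2
            rw [a0, Mf.ev, dc, dd_qf, norm_mul]
            simp only [d1, mul_left_comm (v _), ← Finset.mul_sum, norm_mul, norm_real,
              mul_assoc t]
            refine am t0' (at' gu x hx v).2 ?_
            rw [Real.norm_eq_abs, sq_abs, div_pow, div_le_iff₀ (by positivity)]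
            rw [div_le_iff₀ (by positivity)] at hr
            linarith
          by_cases h : deriv Real.smoothTransition s = 0
          · refine le_add_right (ENNReal.ofReal_le_ofReal ?_)
            simpa using d2 0 (by simp [h])
          · have a := (hK s).2 h
            rw [hs, ← neg_le_iff_add_nonneg, le_div_iff₀ L0, ← le_sub_iff_add_le,
              div_le_iff₀ L0] at a
            rw [indicator_of_mem (show x ∈ {x | 0 < p x ∧ -(2 * L) ≤ Real.log (q x) ∧
              Real.log (q x) ≤ -L} from ⟨hx, by linarith [a.1], by linarith [a.2]⟩),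
              ← ENNReal.ofReal_mul r0]
            exact (ENNReal.ofReal_le_ofReal (d2 _ (div_le_div_of_nonneg_right
              (sq_le_sq' (abs_le.1 (hK s).1).1 (abs_le.1 (hK s).1).2) (by positivity)))).trans
              ENNReal.ofReal_add_le
      _ ≤ _ := by
          rw [lintegral_add_left' ((cq.aemeasurable mO).const_mul _).ennreal_ofReal,
            ENNReal.ofReal_add (by positivity) (by positivity)]
          refine add_le_add (lq _ (by positivity)) ((setLIntegral_le_lintegral _ _).trans ?_)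
          rw [lintegral_indicator mS, lintegral_const_mul' _ _ ENNReal.ofReal_ne_top,
            ENNReal.ofReal_mul r0, hD]
          exact mul_le_mul_right (m2 L L1) _
  have lim : Tendsto (fun j : ℕ => ∫ x in O, kap p q (j + 1) x • F x ∂M.mu H) atTop
      (𝓝 (∫ x in O, F x ∂M.mu H)) := by
    refine tendsto_integral_of_dominated_convergence (fun x => ‖F x‖)
      (fun j => (ik j.cast_add_one_pos).1) iF.norm (fun j => .of_forall fun x => ?_)
      ((ae_restrict_iff' mO).2 (.of_forall fun x hx => tendsto_const_nhds.congr' ?_))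
    · rw [norm_smul]
      exact mul_le_of_le_one_left (norm_nonneg _) (k01 _ x)
    · filter_upwards [(Real.tendsto_exp_neg_atTop_nhds_zero.comp (tendsto_atTop_add_const_right _ 1
        tendsto_natCast_atTop_atTop)).eventually (gt_mem_nhds (q1 x hx))] with j hj
      rw [(kap1 hF.sp sq j.cast_add_one_pos hx hj).self_of_nhds, one_smul]
  have fin : ∀ t : ℝ, 0 < t → ‖∫ x in O, F x ∂M.mu H‖ ≤ |c| * γ * (t * cu) * (n * cm) + 0 :=
    fun t ht => le_of_tendsto_of_tendsto' lim.norm (tendsto_const_nhds.add (by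
      have := (tendsto_one_div_add_atTop_nhds_zero_nat (𝕜 := ℝ)).const_mul
        (|c| * γ * (K ^ 2 / t) * cm)
      rw [mul_zero] at this
      exact this.congr fun j => by field_simp)) fun j =>
        main (j + 1) t (le_add_of_nonneg_left j.cast_nonneg) ht
  refine norm_le_zero_iff.1 (ge_of_tendsto (f := fun t : ℝ => |c| * γ * (t * cu) * (n * cm) + 0)
    (x := 𝓝[>] 0) ?_ (eventually_mem_nhdsWithin.mono fin))
  refine tendsto_nhdsWithin_of_tendsto_nhds (Continuous.tendsto' (by fun_prop) _ _ (by simp))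

end Pool.Agent.Lib.FI
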