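import Pool.Agent.Lib.FI.Blue
import Pool.Agent.Lib.HS76.Diag

/-! Project fi: the mass of the balls. -/

open scoped Classical Topology ContDiff ComplexOrder Matrix ENNReal
open Set MeasureTheory Complex Metric Filter

noncomputable section

namespace Pool.Agent.Lib.FI

open Pool.Agent.Lib.SV (E nsq)
open Pool.Agent.Lib.HS32

namespace BAL

theorem alg {k : ℕ} {S : Mat k} (hS : S.PosSemidef) {b : ℝ} (hb : 0 ≤ b) :
    b ^ k * S.det.re ≤ (1 + b • S).det.re ∧
    b ^ (k - 1) * S.adjugate.trace.re ≤ k * (1 + b • S).det.re := by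
  obtain ⟨W, lam, h1, h2⟩ := HS76.simul_diag (Matrix.PosDef.one (n := Fin k) (R := ℂ)) hS.1
  rw [Matrix.mul_one] at h1
  have h3 : W * Wᴴ = 1 := mul_eq_one_comm.1 h1
  have l0 : ∀ i, 0 ≤ lam i := fun i => by
    have := (hS.conjTranspose_mul_mul_same W).diag_nonneg (i := i)
    rw [h2, Matrix.diagonal_apply_eq] at this
    exact_mod_cast this
  have dt : ∀ A : Mat k, (Wᴴ * A * W).det = A.det := fun A => by
    rw [Matrix.det_mul_comm, ← Matrix.mul_assoc, h3, Matrix.one_mul]
  have e1 : S.det.re = ∏ i, lam i := by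
    rw [← dt, h2, Matrix.det_diagonal, ← ofReal_prod, ofReal_re]
  have e2 : (1 + b • S).det.re = ∏ i, (1 + b * lam i) := by
    rw [← dt, Matrix.mul_add, Matrix.add_mul, Matrix.mul_one, h1, Matrix.mul_smul, Matrix.smul_mul, h2,
      ← Matrix.diagonal_smul, ← Matrix.diagonal_one, Matrix.diagonal_add, Matrix.det_diagonal,
      ← ofReal_re (∏ i, (1 + b * lam i)), ofReal_prod]
    simp
  have e3 : S.adjugate.trace.re = ∑ i, ∏ j ∈ Finset.univ.erase i, lam j := by
    have : (Wᴴ * S * W).adjugate.trace = S.adjugate.trace := by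
      rw [Matrix.adjugate_mul_distrib, Matrix.adjugate_mul_distrib, Matrix.trace_mul_comm,
        Matrix.mul_assoc, ← Matrix.adjugate_mul_distrib, h3, Matrix.adjugate_one, Matrix.mul_one]
    rw [← this, h2, Matrix.adjugate_diagonal, Matrix.trace_diagonal, re_sum]
    exact Finset.sum_congr rfl fun i _ => by rw [← ofReal_prod, ofReal_re]
  have l1 : ∀ i, 0 ≤ b * lam i := fun i => mul_nonneg hb (l0 i)
  rw [e1, e2, e3]
  constructor
  · calc b ^ k * ∏ i, lam i = ∏ i, b * lam i := by simp [Finset.prod_mul_distrib]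
      _ ≤ _ := Finset.prod_le_prod (fun i _ => l1 i) fun i _ => by linarith
  · rw [Finset.mul_sum]
    refine (Finset.sum_le_card_nsmul _ _ (∏ i, (1 + b * lam i)) fun i _ => ?_).trans_eq (by simp)
    calc b ^ (k - 1) * ∏ j ∈ Finset.univ.erase i, lam j = ∏ j ∈ Finset.univ.erase i, b * lam j := by
          simp [Finset.prod_mul_distrib]
      _ ≤ ∏ j ∈ Finset.univ.erase i, (1 + b * lam j) :=
          Finset.prod_le_prod (fun j _ => l1 j) fun j _ => by linarith
      _ ≤ _ := by
          rw [← Finset.mul_prod_erase _ _ (Finset.mem_univ i)]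
          exact le_mul_of_one_le_left (Finset.prod_nonneg fun j _ => by linarith [l1 j])
            (by linarith [l1 i])

theorem nsq0 {k : ℕ} (v : E k) : 0 ≤ nsq v := Finset.sum_nonneg fun _ _ => normSq_nonneg _

variable {n k : ℕ} {M : Mf n} {H : M.Fam (Mat n)} {p : M.X → ℝ} {z : M.X → E k} {C : ℝ}

theorem dec (hCHR : St_CHR) (hFS : St_FS) (h : Fb H p z C) {R : ℝ} (hR : 0 < R) (y : E k)
    {e : M.Ch} (he : e ∈ M.C) {w : E n} (hw : w ∈ e.target) (hp : 0 < p (e.symm w)) :
    M.hs (fun x => Real.log (qf p z R y x)) e w = M.hs (fun x => Real.log (p x)) e w +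
      (jr (z ∘ e.symm) w)ᴴ * hr (fun v => Real.log (R + nsq (v - y))) (z (e.symm w)) *
        jr (z ∘ e.symm) w := by
  obtain ⟨c1, -, -, -, -, c6⟩ := hCHR n k _ w (h.hol e he w hw hp)
  have f1 := cd_ofReal (hFS k R y (z (e.symm w)) hR).1
  have s1 := h.sp e he w hw
  have s2 := cd_ofReal (s1.log hp.ne')
  have := c6 _ f1
  rw [hr]
  refine Eq.trans ?_ (congrArg (_ + ·) this)
  refine Eq.trans (hess_congr ?_) (hess_add s2 (f1.comp w c1))
  filter_upwards [s1.continuousAt.eventually (lt_mem_nhds hp)] with v (hv : 0 < p (e.symm v))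
  have : 0 < R + nsq (z (e.symm v) - y) := add_pos_of_pos_of_nonneg hR (nsq0 _)
  simp only [Mf.lc, qf, Function.comp]
  rw [Real.log_mul (ne_of_gt hv) this.ne', ofReal_add]

end BAL

theorem bBAL (hSYL : St_SYL) (hCHR : St_CHR) (hFS : St_FS) (hBAS : St_BAS) (hMAS : St_MAS) :
    St_BAL := by
  intro n k M _ H p z C h
  obtain ⟨c, c0, m1, -⟩ := hMAS n k M H p z C h
  obtain ⟨b1, b2, -, b4, -⟩ := hBAS n k M H p z C h
  have k1 : (1 : ℝ) ≤ k := by exact_mod_cast h.k0
  refine ⟨c * (k * 4 ^ k), by positivity, fun y R hR => ?_⟩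
  have ms : MeasurableSet {x | 0 < p x ∧ nsq (z x - y) ≤ R} := by
    have c1 : Continuous fun v : E k => nsq (v - y) := by
      unfold nsq
      fun_prop
    have := b1.measurableSet.diff (b2.isOpen_inter_preimage b1
      (isOpen_lt (continuous_const (y := R)) c1)).measurableSet
    refine (congrArg MeasurableSet ?_).mp this
    ext x
    simp only [mem_diff, mem_inter_iff, mem_preimage, mem_ofPred_eq, not_and, not_lt]
    tauto
  have pt : ∀ x ∈ {x | 0 < p x ∧ nsq (z x - y) ≤ R}, (1 + (4 * R)⁻¹ • hz H z x).det.re ≤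
      M.dq H (C • H + M.hs fun x => Real.log (qf p z R y x)) x ∧ (hz H z x).PosSemidef := by
    intro x hx
    obtain ⟨he, hs⟩ := (mTR n M).1 x
    have hw := (M.ch x).map_source hs
    have ex := (M.ch x).left_inv hs
    have hp : 0 < p ((M.ch x).symm (M.ch x x)) := by rw [ex]; exact hx.1
    obtain ⟨-, a2, a3, -⟩ := b4 _ he _ hw hp
    refine ⟨?_, a2⟩
    have d1 := BAL.dec hCHR hFS h one_pos 0 he hw hp
    have d2 := BAL.dec hCHR hFS h hR y he hw hp
    have f4 := (hFS k R y (z x) hR).2.2.2.1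
    have hH := h.kae.pos _ he _ hw
    simp only [sub_zero] at d1
    simp only [g0, Pi.add_apply, d1] at a3
    rw [ex] at d2
    have sy := (hSYL n k (H _ _) (jr (z ∘ (M.ch x).symm) (M.ch x x)) ((4 * R)⁻¹ • (1 : Mat k)) 0 1 h.kn
      hH.det_pos.ne').1
    simp only [Mf.dq, Mf.ev, hz, hzc, Pi.add_apply, d2]
    generalize jr (z ∘ (M.ch x).symm) (M.ch x x) = P at a3 sy ⊢
    have n0 := BAL.nsq0 (z x - y)
    have f5 : ((R / (R + nsq (z x - y)) ^ 2 - (4 * R)⁻¹) • (1 : Mat k)).PosSemidef := by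
      refine Matrix.PosSemidef.one.smul (sub_nonneg.2 ?_)
      rw [inv_eq_one_div, div_le_div_iff₀ (by positivity) (by positivity)]
      nlinarith [hx.2]
    have f6 := a3.add ((f4.add f5).conjTranspose_mul_mul_same P)
    have f7 : (H (M.ch x) (M.ch x x) + Pᴴ * ((4 * R)⁻¹ • (1 : Mat k)) * P).PosDef :=
      hH.add_posSemidef ((Matrix.PosSemidef.one.smul (by positivity)).conjTranspose_mul_mul_same P)
    have f8 := HS76.det_mono f7 (B := (C • H) (M.ch x) (M.ch x x) +
      (M.hs (fun x => Real.log (p x)) (M.ch x) (M.ch x x) +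
        Pᴴ * hr (fun v => Real.log (R + nsq (v - y))) (z x) * P)) (by
      refine (congrArg Matrix.PosSemidef ?_).mp f6
      simp only [sub_smul, Matrix.mul_sub, Matrix.sub_mul, Matrix.mul_add, Matrix.add_mul]
      abel)
    rw [one_smul, one_pow, one_mul, one_smul, Matrix.smul_mul, Matrix.one_mul] at sy
    rw [sy, HS76.det_eq_re hH.posSemidef, re_ofReal_mul] at f8
    rw [HS76.det_eq_re hH.posSemidef, div_ofReal_re, le_div_iff₀' (HS76.det_re_pos hH)]
    exact f8
  have fin : ∀ (f : M.X → ℝ) (a : ℝ) (l : ℕ), 0 ≤ a → a ≤ k → l ≤ k →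
      (∀ x, (hz H z x).PosSemidef → (4 * R)⁻¹ ^ l * f x ≤ a * (1 + (4 * R)⁻¹ • hz H z x).det.re) →
      ∫⁻ x in {x | 0 < p x ∧ nsq (z x - y) ≤ R}, ENNReal.ofReal (f x) ∂M.mu H ≤
        ENNReal.ofReal (c * (k * 4 ^ k) * R ^ l) := fun f a l a0 ak hl hf => by
    have t0 : 0 ≤ (4 * R) ^ l * a := by positivity
    refine (setLIntegral_mono' ms (g := fun x => ENNReal.ofReal ((4 * R) ^ l * a) * ENNReal.ofReal
      (M.dq H (C • H + M.hs fun x => Real.log (qf p z R y x)) x)) fun x hx => ?_).trans ?_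
    · rw [← ENNReal.ofReal_mul t0]
      refine ENNReal.ofReal_le_ofReal ?_
      have := (hf x (pt x hx).2).trans (mul_le_mul_of_nonneg_left (pt x hx).1 a0)
      rwa [inv_pow, inv_mul_le_iff₀ (by positivity), ← mul_assoc] at this
    · rw [lintegral_const_mul' _ _ ENNReal.ofReal_ne_top]
      refine (mul_le_mul_right ((lintegral_mono_set fun x hx => hx.1).trans (m1 R y hR)) _).trans ?_
      rw [← ENNReal.ofReal_mul t0]
      refine ENNReal.ofReal_le_ofReal ?_
      have : (4 : ℝ) ^ l * a ≤ k * 4 ^ k := by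
        rw [mul_comm]
        exact mul_le_mul ak (pow_le_pow_right₀ (by norm_num) hl) (by positivity) (by positivity)
      calc (4 * R) ^ l * a * c = c * (4 ^ l * a) * R ^ l := by ring
        _ ≤ _ := by gcongr
  exact ⟨fin _ 1 k zero_le_one k1 le_rfl fun x hx => by
      simpa only [one_mul, dn] using (BAL.alg hx (by positivity)).1,
    fin _ k (k - 1) (by positivity) le_rfl (Nat.sub_le _ _) fun x hx => (BAL.alg hx (by positivity)).2⟩

end Pool.Agent.Lib.FI
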