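import Pool.Agent.Lib.FI.Blue

/-! Project fi: the basic properties of the open set. -/

open scoped Classical Topology ContDiff ComplexOrder Matrix ENNReal
open Set MeasureTheory Complex Metric Filter

set_option linter.unusedVariables false

noncomputable section

namespace Pool.Agent.Lib.FI

open Pool.Agent.Lib.SV (E nsq)
open Pool.Agent.Lib.HS32

namespace BAS

variable {n k : ℕ}

theorem hlog {V : E n → ℝ} {z : E n} (hV : ContDiffAt ℝ ∞ V z) (d : ℝ) (h0 : V z + d ≠ 0) :
    hess (fun w => ((Real.log (V w + d) : ℝ) : ℂ)) z =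
      (V z + d)⁻¹ • hess (fun w => (V w : ℂ)) z -
        ((V z + d)⁻¹ ^ 2) • dd (fun w => (V w : ℂ)) (fun w => (V w : ℂ)) z := by
  ext i j
  have hc := cd_ofReal hV
  have hd : ContDiffAt ℝ ∞ (fun w => (V w : ℂ) + d) z := hc.add contDiffAt_const
  have h0' : (V z : ℂ) + d ≠ 0 := by exact_mod_cast h0
  have e : dz j (fun w => ((Real.log (V w + d) : ℝ) : ℂ)) =ᶠ[𝓝 z]
      fun w => ((V w : ℂ) + d)⁻¹ * dz j (fun w => (V w : ℂ)) w := by
    filter_upwards [cd_ev_diff hV,
      (hV.continuousAt.add continuousAt_const).eventually_ne h0] with w h1 h2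
    rw [dz_comp_real (φ := fun t => Real.log (t + d))
      (((hasDerivAt_id' (V w)).add_const d).log h2) h1]
    push_cast
    rw [one_div]
  have h1 : DifferentiableAt ℝ (fun w => ((V w : ℂ) + d)⁻¹) z := cd_diff (hd.inv h0')
  simp only [hess_apply, Matrix.sub_apply, Matrix.smul_apply, dd_apply, real_smul]
  rw [dzb_congr e, dzb_mul h1 (cd_diff (cd_dz hc j)), dzb_inv (cd_diff hd) h0',
    dzb_add (cd_diff hc) (differentiableAt_const _), dzb_const]
  push_cast
  field_simp
  ring

theorem psd_lim {ι : Type} {l : Filter ι} [l.NeBot] {A : ι → Mat n} {B : Mat n}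
    (h : Tendsto A l (𝓝 B)) (hA : ∀ᶠ a in l, (A a).PosSemidef) : B.PosSemidef := by
  rw [Matrix.posSemidef_iff_dotProduct_mulVec]
  refine ⟨?_, fun x => ?_⟩
  · exact tendsto_nhds_unique (((continuous_id.matrix_conjTranspose.tendsto B).comp h).congr'
      (hA.mono fun a ha => ha.1)) h
  · have h1 : Continuous fun C : Mat n => star x ⬝ᵥ C *ᵥ x :=
      continuous_const.dotProduct (continuous_id.matrix_mulVec continuous_const)
    exact ge_of_tendsto ((h1.tendsto B).comp h)
      (hA.mono fun a ha => ha.dotProduct_mulVec_nonneg x)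

/-- The limit of the regularised logarithms. -/
theorem psd_log {V : E n → ℝ} {z : E n} (hV : ContDiffAt ℝ ∞ V z) (h0 : 0 < V z) (A B : Mat n)
    (h : ∀ d : ℝ, 0 < d →
      (A + hess (fun w => ((Real.log (V w + d) : ℝ) : ℂ)) z - B).PosSemidef) :
    (A + hess (fun w => ((Real.log (V w) : ℝ) : ℂ)) z - B).PosSemidef := by
  have c : ContinuousAt (fun d : ℝ => (V z + d)⁻¹) 0 :=
    (continuousAt_const.add continuousAt_id).inv₀ (by simpa using h0.ne')
  have t : ContinuousAt (fun d : ℝ => A + ((V z + d)⁻¹ • hess (fun w => (V w : ℂ)) z -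
      ((V z + d)⁻¹ ^ 2) • dd (fun w => (V w : ℂ)) (fun w => (V w : ℂ)) z) - B) 0 :=
    (continuousAt_const.add ((c.smul continuousAt_const).sub
      ((c.pow 2).smul continuousAt_const))).sub continuousAt_const
  have := psd_lim (l := 𝓝[>] (0 : ℝ)) (t.tendsto.mono_left nhdsWithin_le_nhds)
    (eventually_mem_nhdsWithin.mono fun d (hd : 0 < d) => by
      rw [← hlog hV d (by positivity)]
      exact h d hd)
  rw [← hlog hV 0 (by simpa using h0.ne')] at this
  simpa only [add_zero] using this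

theorem jr_congr {φ ψ : E n → E k} {w : E n} (h : φ =ᶠ[𝓝 w] ψ) : jr φ w = jr ψ w := by
  rw [jr, jr, h.fderiv_eq]

theorem gram_pb {J : Mat n} (hJ : J.det ≠ 0) (A : Mat n) (P : Matrix (Fin k) (Fin n) ℂ) :
    P * J * (Jᴴ * A * J)⁻¹ * (P * J)ᴴ = P * A⁻¹ * Pᴴ := by
  have h : Jᴴ.det ≠ 0 := by
    rw [Matrix.det_conjTranspose]
    exact star_ne_zero.2 hJ
  rw [Matrix.mul_inv_rev, Matrix.mul_inv_rev, Matrix.conjTranspose_mul]
  calc P * J * (J⁻¹ * (A⁻¹ * Jᴴ⁻¹)) * (Jᴴ * Pᴴ)
      = P * ((J * J⁻¹) * (A⁻¹ * ((Jᴴ⁻¹ * Jᴴ) * Pᴴ))) := by simp only [Matrix.mul_assoc]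
    _ = _ := by
      rw [Matrix.mul_nonsing_inv _ hJ.isUnit, Matrix.nonsing_inv_mul _ h.isUnit, Matrix.one_mul,
        Matrix.one_mul, Matrix.mul_assoc]

theorem adj_pb {J : Mat n} (hJ : J.det ≠ 0) (G A H : Mat n) :
    ((Jᴴ * G * J).adjugate * (Jᴴ * A * J)).trace / (Jᴴ * H * J).det =
      (G.adjugate * A).trace / H.det := by
  have h : Jᴴ.det ≠ 0 := by
    rw [Matrix.det_conjTranspose]
    exact star_ne_zero.2 hJ
  have e : ((Jᴴ * G * J).adjugate * (Jᴴ * A * J)).trace =
      Jᴴ.det * J.det * (G.adjugate * A).trace := by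
    rw [Matrix.adjugate_mul_distrib, Matrix.adjugate_mul_distrib, ← mul_assoc _ _ J,
      Matrix.trace_mul_comm]
    calc (J * (J.adjugate * (G.adjugate * Jᴴ.adjugate) * (Jᴴ * A))).trace
        = ((J * J.adjugate) * (G.adjugate * ((Jᴴ.adjugate * Jᴴ) * A))).trace := by
          simp only [mul_assoc]
      _ = _ := by
        rw [Matrix.mul_adjugate, Matrix.adjugate_mul]
        simp only [Matrix.smul_mul, Matrix.mul_smul, one_mul, Matrix.trace_smul, smul_eq_mul]
        ring
  rw [e, Matrix.det_mul, Matrix.det_mul, mul_right_comm Jᴴ.det H.det,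
    mul_div_mul_left _ _ (mul_ne_zero h hJ)]

variable {M : Mf n} {p : M.X → ℝ}

/-- An invariant family is read in every chart. -/
theorem rep {F : Type} {Φ : M.Fam F}
    (h : M.Ov fun e e' x => 0 < p x → Φ e' (e' x) = Φ e (e x)) :
    Ao M p fun e w => M.ev Φ (e.symm w) = Φ e w := fun e he w hw h0 => by
  have := h e he _ (Mf.ch_mem (e.symm w)) _ (e.map_target hw) (Mf.mem_ch _) h0
  rwa [e.right_inv hw] at this

/-- Continuity on the open set. -/
theorem cont {F : Type} [TopologicalSpace F] {f : M.X → F} {Φ : M.Fam F}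
    (ho : IsOpen {x | 0 < p x}) (h : Ao M p fun e w => f (e.symm w) = Φ e w)
    (hc : Ao M p fun e w => ContinuousAt (Φ e) w) : ContinuousOn f {x | 0 < p x} := fun x hx => by
  have h1 := hc _ (Mf.ch_mem x) _ (Mf.ch_tgt x) (by rw [Mf.ch_symm]; exact hx)
  refine ((h1.comp ((M.ch x).continuousAt (Mf.mem_ch x))).congr ?_).continuousWithinAt
  filter_upwards [ho.mem_nhds hx, (M.ch x).open_source.mem_nhds (Mf.mem_ch x)] with y h2 h3
  have := h _ (Mf.ch_mem x) _ ((M.ch x).map_source h3) (by rw [(M.ch x).left_inv h3]; exact h2)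
  beta_reduce at this
  rw [(M.ch x).left_inv h3] at this
  exact this.symm

/-- The differentials under a change of chart. -/
theorem jr_pb (hCHR : St_CHR) {z : M.X → E k} (hz : Ao M p fun e w => HolN (z ∘ e.symm) w) :
    M.Ov fun e e' x => 0 < p x →
      jr (z ∘ e'.symm) (e' x) = jr (z ∘ e.symm) (e x) * M.J e e' x :=
  fun e he e' he' x hx hx' h0 => by
    obtain ⟨t1, -, -, t4, -⟩ := (mTR n M).2.1 e he e' he' x hx hx'
    have a := hz e he _ (e.map_source hx) (by rw [e.left_inv hx]; exact h0)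
    rw [Mf.J, ← (hCHR n k _ _ a).2.2.1 _ _ t1 (congrArg e (e'.left_inv hx'))]
    exact jr_congr (t4.mono fun w hw => (congrArg z hw.2.2.2.2.1).symm)

end BAS

theorem bBAS (hCHR : St_CHR) (hFS : St_FS) : St_BAS := by
  intro n k M _ H p z C h
  have ho : IsOpen {x | 0 < p x} := isOpen_lt continuous_const h.sp.continuous
  have hm := h.kae.toMet
  have r1 : Ao M p fun e w => hz H z (e.symm w) = hzc H z e w :=
    BAS.rep fun e he e' he' x hx hx' h0 => by
      rw [hzc, hzc, BAS.jr_pb hCHR h.hol e he e' he' x hx hx' h0, hm.cmp e he e' he' x hx hx']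
      exact BAS.gram_pb ((mTR n M).2.1 e he e' he' x hx hx').2.1 _ _
  refine ⟨ho, BAS.cont (Φ := fun e => z ∘ e.symm) ho (fun _ _ _ _ _ => rfl)
      fun e he w hw h0 => (h.hol e he w hw h0).self_of_nhds.continuousAt,
    fun i j => BAS.cont (Φ := fun e w => hzc H z e w i j) ho
      (fun e he w hw h0 => congrFun (congrFun (r1 e he w hw h0) i) j) fun e he w hw h0 => ?_,
    fun e he w hw h0 => ?_, fun G A hc => ?_⟩
  · have c1 : ContinuousAt (jr (z ∘ e.symm)) w := continuousAt_pi.2 fun a => continuousAt_pi.2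
      fun b => ((hCHR n k _ _ (h.hol e he w hw h0)).2.1 a b).self_of_nhds.continuousAt
    have c2 := ((hm.sm e he w hw).inv (hm.det_ne e he w hw)).continuousAt
    have c3 : Continuous fun a : Matrix (Fin k) (Fin n) ℂ × Mat n => (a.1 * a.2 * a.1ᴴ) i j :=
      ((continuous_fst.matrix_mul continuous_snd).matrix_mul
        continuous_fst.matrix_conjTranspose).matrix_elem i j
    exact ContinuousAt.comp (f := fun v => (jr (z ∘ e.symm) v, (H e v)⁻¹)) (x := w)
      c3.continuousAt (c1.prodMk c2)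
  · obtain ⟨f1, f2, -⟩ := hFS k 1 0 (z (e.symm w)) one_pos
    simp only [sub_zero] at f1 f2
    obtain ⟨z1, -, -, -, -, z6⟩ := hCHR n k _ _ (h.hol e he w hw h0)
    have sp := h.sp e he w hw
    have n1 : ∀ y : E k, 0 < 1 + nsq y := fun y =>
      add_pos_of_pos_of_nonneg one_pos (Finset.sum_nonneg fun _ _ => normSq_nonneg _)
    have e1 : g0 H p z C e w = C • H e w +
        (hess (fun v => ((Real.log ((p ∘ e.symm) v) : ℝ) : ℂ)) w + (jr (z ∘ e.symm) w)ᴴ *
          hr (fun y => Real.log (1 + nsq y)) (z (e.symm w)) * jr (z ∘ e.symm) w) := by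
      refine congrArg (C • H e w + ·) (((hess_congr ?_).trans (hess_add (cd_ofReal (sp.log h0.ne'))
        ((cd_ofReal f1).comp w z1))).trans (congrArg (_ + ·) (z6 _ (cd_ofReal f1))))
      filter_upwards [sp.continuousAt.eventually_ne h0.ne'] with v hv
      simp only [Mf.lc, qf, sub_zero, Function.comp_apply]
      rw [Real.log_mul (show p (e.symm v) ≠ 0 from hv) (n1 _).ne', ofReal_add]
    have p1 := BAS.psd_log sp h0 (C • H e w) (H e w) fun d hd => h.pp d hd e he w hw
    have p2 := f2.posSemidef.conjTranspose_mul_mul_same (jr (z ∘ e.symm) w)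
    refine ⟨r1 e he w hw h0, (hm.pos e he w hw).inv.posSemidef.mul_mul_conjTranspose_same _,
      ?_, ?_, ?_⟩
    · rw [e1, ← add_assoc, add_sub_right_comm, add_sub_cancel_right]
      exact p1
    · have := ((hm.pos e he w hw).add_posSemidef p1).add_posSemidef p2
      rwa [add_sub_cancel, add_assoc, ← e1] at this
    · exact (SmM.rsmul contDiffAt_const (hm.sm e he w hw)).add (smM_hess (cd_ofReal
        ((h.sq 1 0 e he w hw).log (mul_pos h0 (n1 _)).ne')))
  · have r2 : Ao M p fun e w =>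
        ad H G A (e.symm w) = ((G e w).adjugate * A e w).trace / (H e w).det :=
      BAS.rep (Φ := fun e w => ((G e w).adjugate * A e w).trace / (H e w).det)
        fun e he e' he' x hx hx' h0 => by
          rw [(hc e he e' he' x hx hx' h0).1, (hc e he e' he' x hx hx' h0).2,
            hm.cmp e he e' he' x hx hx']
          exact BAS.adj_pb ((mTR n M).2.1 e he e' he' x hx hx').2.1 _ _ _
    exact ⟨r2, fun hs => BAS.cont ho r2 fun e he w hw h0 =>
      ((hs e he w hw h0).1.adjugate.mul (hs e he w hw h0).2).trace.continuousAt.div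
        (hm.sm e he w hw).det.continuousAt (hm.det_ne e he w hw)⟩

end Pool.Agent.Lib.FI
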