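import Pool.Agent.Lib.FI.Blue

/-! Project fi, row CNV: convolution of a test function with a locally finite density. -/

open scoped Classical Topology ContDiff ComplexOrder Matrix ENNReal
open Set MeasureTheory Complex Metric Filter

noncomputable section

namespace Pool.Agent.Lib.FI

open Pool.Agent.Lib.SV (E nsq)
open Pool.Agent.Lib.HS32

namespace CNV

variable {k : ℕ} {Ω : Type} [MeasurableSpace Ω] {m : Measure Ω} {z : Ω → E k} {a : Ω → ℂ}
  {G : Type} [NormedAddCommGroup G] [NormedSpace ℂ G]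

/-- The hypotheses. -/
structure Hy (m : Measure Ω) (z : Ω → E k) (a : Ω → ℂ) : Prop where
  hz : AEMeasurable z m
  ha : ∀ R : ℝ, IntegrableOn a {x | nsq (z x) ≤ R} m

theorem nsq_le (w : E k) : nsq w ≤ k * ‖w‖ ^ 2 := by
  have h : nsq w ≤ ∑ _j : Fin k, ‖w‖ ^ 2 := Finset.sum_le_sum fun j _ => by
    rw [Complex.normSq_eq_norm_sq]
    exact pow_le_pow_left₀ (norm_nonneg _) (norm_le_pi_norm w j) 2
  simpa using h

theorem le_nsq {w : E k} {ρ : ℝ} (h : nsq w ≤ ρ) : ‖w‖ ≤ |ρ| + 1 :=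
  (pi_norm_le_iff_of_nonneg (by positivity)).2 fun j => by
    have h1 : normSq (w j) ≤ nsq w :=
      Finset.single_le_sum (fun i _ => normSq_nonneg (w i)) (Finset.mem_univ j)
    rw [Complex.normSq_eq_norm_sq] at h1
    nlinarith [le_abs_self ρ, sq_nonneg (‖w j‖ - 1), abs_nonneg ρ]

theorem cont_nsq : Continuous (nsq : E k → ℝ) :=
  continuous_finsetSum _ fun j _ => continuous_normSq.comp (continuous_apply j)

theorem Hy.ball (h : Hy m z a) (y : E k) (ρ : ℝ) : IntegrableOn a {x | ‖y - z x‖ ≤ ρ} m :=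
  (h.ha (k * (‖y‖ + ρ) ^ 2)).mono_set fun x (hx : ‖y - z x‖ ≤ ρ) => (nsq_le _).trans (by
    have h1 : ‖z x‖ ≤ ‖y‖ + ρ := by
      have h2 := norm_sub_le y (y - z x)
      rw [sub_sub_cancel] at h2
      linarith
    exact mul_le_mul_of_nonneg_left (pow_le_pow_left₀ (norm_nonneg _) h1 2) (Nat.cast_nonneg k))

theorem Hy.ms (h : Hy m z a) : AEStronglyMeasurable a m := by
  have h1 : (⋃ i : ℕ, {x | nsq (z x) ≤ i}) = univ :=
    eq_univ_of_forall fun x => mem_iUnion.2 (exists_nat_ge (nsq (z x)))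
  rw [← Measure.restrict_univ (μ := m), ← h1]
  exact aestronglyMeasurable_iUnion_iff.2 fun i => (h.ha i).aestronglyMeasurable

theorem Hy.bd (h : Hy m z a) (y : E k) (ρ c : ℝ) :
    Integrable (indicator {x | ‖y - z x‖ ≤ ρ} fun x => c * ‖a x‖) m :=
  IntegrableOn.integrable_indicator₀ ((h.ball y ρ).norm.const_mul c)
    (h.hz.nullMeasurableSet_preimage (s := {w | ‖y - w‖ ≤ ρ})
      (isClosed_le (by fun_prop) continuous_const).measurableSet)

omit [NormedSpace ℂ G] in
theorem ex {K : E k → G} (hK : Continuous K) (hc : HasCompactSupport K) :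
    ∃ c ρ : ℝ, (∀ w, ‖K w‖ ≤ c) ∧ ∀ w, ρ < ‖w‖ → K w = 0 := by
  obtain ⟨c, h1⟩ := hK.bounded_above_of_compact_support hc
  obtain ⟨ρ, h2⟩ := hc.isCompact.isBounded.subset_closedBall 0
  exact ⟨c, ρ, h1, fun w hw => image_eq_zero_of_notMem_tsupport fun h =>
    absurd (mem_closedBall_zero_iff.1 (h2 h)) (not_le.2 hw)⟩

omit [MeasurableSpace Ω] in
theorem le_bd {K : E k → G} {c ρ : ℝ} (h1 : ∀ w, ‖K w‖ ≤ c) (h2 : ∀ w, ρ < ‖w‖ → K w = 0)
    {y y' : E k} (hy : y' ∈ ball y 1) (x : Ω) :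
    ‖a x • K (y' - z x)‖ ≤ indicator {x | ‖y - z x‖ ≤ ρ + 1} (fun x => c * ‖a x‖) x := by
  by_cases hx : x ∈ {x | ‖y - z x‖ ≤ ρ + 1}
  · rw [indicator_of_mem hx, norm_smul, mul_comm]
    exact mul_le_mul_of_nonneg_right (h1 _) (norm_nonneg _)
  · rw [indicator_of_notMem hx, h2, smul_zero, norm_zero]
    have h3 : ρ + 1 < ‖y - z x‖ := not_le.1 hx
    have h4 := norm_sub_le_norm_sub_add_norm_sub y y' (z x)
    have h5 : ‖y - y'‖ < 1 := mem_ball_iff_norm'.1 hy
    linarith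

theorem Hy.am (h : Hy m z a) {K : E k → G} (hK : Continuous K) (y : E k) :
    AEStronglyMeasurable (fun x => a x • K (y - z x)) m :=
  h.ms.smul ((hK.comp (continuous_const.sub continuous_id)).comp_aestronglyMeasurable
    h.hz.aestronglyMeasurable)

theorem Hy.itg (h : Hy m z a) {K : E k → G} (hK : Continuous K) (hc : HasCompactSupport K)
    (y : E k) : Integrable (fun x => a x • K (y - z x)) m := by
  obtain ⟨c, ρ, h1, h2⟩ := ex hK hc
  exact (h.bd y (ρ + 1) c).mono' (h.am hK y)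
    (Eventually.of_forall (le_bd h1 h2 (mem_ball_self one_pos)))

/-- The convolution. -/
def cv (m : Measure Ω) (z : Ω → E k) (a : Ω → ℂ) (K : E k → ℂ) (y : E k) : ℂ :=
  ∫ x, a x • K (y - z x) ∂m

/-- Test functions. -/
def Ts (K : E k → ℂ) : Prop := ContDiff ℝ ∞ K ∧ HasCompactSupport K

variable {K : E k → ℂ}

theorem Ts.d (hK : Ts K) (v : E k) : Ts fun w => fderiv ℝ K w v :=
  ⟨(hK.1.fderiv_right (m := ∞) le_rfl).clm_apply contDiff_const, hK.2.fderiv_apply ℝ v⟩

theorem Ts.it (hK : Ts K) (l : ℕ) (u : Fin l → E k) : Ts fun w => iteratedFDeriv ℝ l K w u :=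
  ⟨(ContinuousMultilinearMap.apply ℝ (fun _ : Fin l => E k) ℂ u).contDiff.comp
    (hK.1.iteratedFDeriv_right (m := ∞) (i := l) (by exact_mod_cast le_top)),
    (hK.2.iteratedFDeriv (𝕜 := ℝ) l).comp_left
      (g := fun L : ContinuousMultilinearMap ℝ (fun _ : Fin l => E k) ℂ => L u) rfl⟩

theorem Hy.fd (h : Hy m z a) (hK : Ts K) (y : E k) : DifferentiableAt ℝ (cv m z a K) y ∧
    ∀ v, fderiv ℝ (cv m z a K) y v = cv m z a (fun w => fderiv ℝ K w v) y := by
  have c1 : Continuous (fderiv ℝ K) := hK.1.continuous_fderiv (by simp)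
  obtain ⟨c, ρ, h1, h2⟩ := ex c1 (hK.2.fderiv ℝ)
  have h3 : HasFDerivAt (cv m z a K) (∫ x, a x • fderiv ℝ K (y - z x) ∂m) y :=
    hasFDerivAt_integral_of_dominated_of_fderiv_le (F := fun y x => a x • K (y - z x))
      (F' := fun y x => a x • fderiv ℝ K (y - z x)) (ball_mem_nhds y one_pos)
      (Eventually.of_forall (h.am hK.1.continuous)) (h.itg hK.1.continuous hK.2 y) (h.am c1 y)
      (Eventually.of_forall fun x y' hy => le_bd h1 h2 hy x) (h.bd y (ρ + 1) c)
      (Eventually.of_forall fun x y' _ => by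
        have h4 := ((hK.1.differentiable (by simp) (y' - z x)).hasFDerivAt.comp y'
          ((hasFDerivAt_id y').sub_const (z x))).const_smul (a x)
        rw [ContinuousLinearMap.comp_id] at h4
        exact h4)
  refine ⟨h3.differentiableAt, fun v => ?_⟩
  rw [h3.fderiv, ContinuousLinearMap.integral_apply (h.itg c1 (hK.2.fderiv ℝ) y)]
  rfl

theorem Hy.sm (h : Hy m z a) (hK : Ts K) : ContDiff ℝ ∞ (cv m z a K) := by
  have h1 : ∀ (l : ℕ) (K : E k → ℂ), Ts K → ContDiff ℝ l (cv m z a K) := by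
    intro l
    induction l with
    | zero => exact fun K hK => contDiff_zero.2 (continuous_iff_continuousAt.2 fun y =>
        (h.fd hK y).1.continuousAt)
    | succ l ih =>
      intro K hK
      rw [Nat.cast_succ]
      refine contDiff_succ_iff_fderiv_apply.2 ⟨fun y => (h.fd hK y).1, by simp, fun v => ?_⟩
      rw [funext fun y => (h.fd hK y).2 v]
      exact ih _ (hK.d v)
  exact contDiff_infty.2 fun l => h1 l K hK

theorem Hy.it (h : Hy m z a) (hK : Ts K) (l : ℕ) : ∀ (u : Fin l → E k) (y : E k),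
    iteratedFDeriv ℝ l (cv m z a K) y u = cv m z a (fun w => iteratedFDeriv ℝ l K w u) y := by
  have hd : ∀ {f : E k → ℂ}, ContDiff ℝ ∞ f → ∀ (l : ℕ) (u : Fin (l + 1) → E k) (y : E k),
      iteratedFDeriv ℝ (l + 1) f y u =
        fderiv ℝ (fun w => iteratedFDeriv ℝ l f w (Fin.tail u)) y (u 0) := fun hf l u y => by
    rw [iteratedFDeriv_succ_apply_left, fderiv_continuousMultilinear_apply_const_apply
      ((hf.iteratedFDeriv_right (m := 1) (i := l) (by exact_mod_cast le_top)).differentiable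
        (by simp) y)]
  induction l with
  | zero => exact fun u y => rfl
  | succ l ih =>
    intro u y
    rw [hd (h.sm hK), funext (ih (Fin.tail u)), (h.fd (hK.it l _) y).2, funext (hd hK.1 l u)]

theorem Hy.lin (h : Hy m z a) (hK : Ts K) (v v' : E k) (s : ℂ) :
    Ts (fun w => (fderiv ℝ K w v + s * fderiv ℝ K w v') / 2) ∧
    (fun y => (fderiv ℝ (cv m z a K) y v + s * fderiv ℝ (cv m z a K) y v') / 2) =
      cv m z a fun w => (fderiv ℝ K w v + s * fderiv ℝ K w v') / 2 := by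
  refine ⟨⟨((hK.d v).1.add (contDiff_const.mul (hK.d v').1)).div_const _,
    ((hK.d v).2.add (hK.d v').2.mul_left).comp_left (g := fun t => t / 2) (zero_div _)⟩,
    funext fun y => ?_⟩
  rw [(h.fd hK y).2, (h.fd hK y).2, cv, cv, cv, ← integral_const_mul,
    ← integral_add (h.itg (hK.d v).1.continuous (hK.d v).2 y)
      ((h.itg (hK.d v').1.continuous (hK.d v').2 y).const_mul s), ← integral_div]
  refine integral_congr_ae (Eventually.of_forall fun x => ?_)
  simp only [smul_eq_mul]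
  ring

theorem Hy.hs (h : Hy m z a) (hK : Ts K) (y : E k) (i j : Fin k) :
    hess (cv m z a K) y i j = cv m z a (fun w => hess K w i j) y := by
  have e : ∀ f : E k → ℂ, dz j f = fun w =>
      (fderiv ℝ f w (Pi.single j 1) + -I * fderiv ℝ f w (Pi.single j I)) / 2 :=
    fun f => funext fun w => by rw [dz, sub_eq_add_neg, neg_mul]
  obtain ⟨h1, h2⟩ := h.lin hK (Pi.single j 1) (Pi.single j I) (-I)
  rw [← e] at h1 h2
  rw [← e] at h2
  have h3 := congrFun (h.lin h1 (Pi.single i 1) (Pi.single i I) I).2 y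
  rw [← h2] at h3
  exact h3

theorem Hy.nb (h : Hy m z a) (hK : Ts K) (y : E k) (l : ℕ) (c ρ : ℝ)
    (h1 : ∀ w, ‖iteratedFDeriv ℝ l K w‖ ≤ c) (h2 : ∀ w, ρ ≤ nsq w → K w = 0) :
    ‖iteratedFDeriv ℝ l (cv m z a K) y‖ ≤ c * ∫ x in {x | nsq (z x - y) ≤ ρ}, ‖a x‖ ∂m := by
  have c0 : 0 ≤ c := (norm_nonneg _).trans (h1 0)
  refine ContinuousMultilinearMap.opNorm_le_bound
    (mul_nonneg c0 (integral_nonneg fun _ => norm_nonneg _)) fun u => ?_
  have hm : NullMeasurableSet {x | nsq (z x - y) ≤ ρ} m :=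
    h.hz.nullMeasurableSet_preimage (s := {w | nsq (w - y) ≤ ρ})
      (isClosed_le (cont_nsq.comp (by fun_prop)) continuous_const).measurableSet
  have hi : IntegrableOn a {x | nsq (z x - y) ≤ ρ} m :=
    (h.ball y (|ρ| + 1)).mono_set fun x hx => (norm_sub_rev _ _).trans_le (le_nsq hx)
  rw [h.it hK, mul_right_comm, ← integral_const_mul, ← integral_indicator₀ hm]
  refine norm_integral_le_of_norm_le (IntegrableOn.integrable_indicator₀ (hi.norm.const_mul _) hm)
    (Eventually.of_forall fun x => ?_)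
  by_cases hx : x ∈ {x | nsq (z x - y) ≤ ρ}
  · rw [indicator_of_mem hx, norm_smul, mul_comm]
    exact mul_le_mul_of_nonneg_right (ContinuousMultilinearMap.le_of_opNorm_le (h1 _) u)
      (norm_nonneg _)
  · have h3 : ρ < nsq (y - z x) := (not_le.1 hx).trans_eq (Finset.sum_congr rfl fun j _ => by
      rw [← normSq_neg]
      simp)
    have h4 : K =ᶠ[𝓝 (y - z x)] fun _ => 0 :=
      (cont_nsq.continuousAt.eventually (lt_mem_nhds h3)).mono fun w hw => h2 w hw.le
    rw [indicator_of_notMem hx]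
    beta_reduce
    rw [(h4.iteratedFDeriv ℝ l).eq_of_nhds]
    simp

theorem Hy.dt (h : Hy m z a) {r : E k → ℝ} {r' : ℝ → E k → ℝ} (hr : Tst r)
    (hd : ∀ y (e : ℝ), 0 < e → HasDerivAt (fun t => sc r t y) (r' e y) e) (y : E k) {e : ℝ}
    (he : 0 < e) : HasDerivAt (fun t => ∫ x, a x • (sc r t (y - z x) : ℂ) ∂m)
      (∫ x, a x • (r' e (y - z x) : ℂ) ∂m) e := by
  let S : ℝ × E k → ℝ := fun q => sc r q.1 q.2
  have ho : IsOpen {q : ℝ × E k | 0 < q.1} := isOpen_lt continuous_const continuous_fst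
  have hS : ContDiffOn ℝ 1 S {q | 0 < q.1} := fun q hq => by
    have h1 : ContDiffAt ℝ 1 (fun q : ℝ × E k => q.1⁻¹) q := contDiffAt_fst.inv (ne_of_gt hq)
    exact (((contDiffAt_fst.pow _).inv (pow_ne_zero _ (ne_of_gt hq))).mul
      (((hr.sm.of_le (by simp)).contDiffAt).comp q ((ofRealCLM.contDiff.contDiffAt.comp q h1).smul
        contDiffAt_snd))).contDiffWithinAt
  have hD : ContinuousOn (fun q : ℝ × E k => r' q.1 q.2) {q | 0 < q.1} := by
    refine ((hS.continuousOn_fderiv_of_isOpen ho le_rfl).clm_apply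
      (continuousOn_const (c := ((1 : ℝ), (0 : E k))))).congr fun q hq => ?_
    exact (hd q.2 q.1 hq).unique (HasFDerivAt.comp_hasDerivAt (f := fun t => (t, q.2)) q.1
      ((hS.contDiffAt (ho.mem_nhds hq)).differentiableAt one_ne_zero).hasFDerivAt
      ((hasDerivAt_id' q.1).prodMk (hasDerivAt_const _ _)))
  have hc : ∀ {D : ℝ × E k → ℝ}, ContinuousOn D {q | 0 < q.1} → ∀ t, 0 < t →
      Continuous fun w => (D (t, w) : ℂ) := fun hD t ht => continuous_ofReal.comp
    (hD.comp_continuous (continuous_const.prodMk continuous_id) fun _ => ht)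
  obtain ⟨c, ρ, -, h2⟩ := ex hr.sm.continuous hr.cs
  have h3 : ∀ t ∈ Ioo (0 : ℝ) (3 * e), ∀ w : E k, 3 * e * |ρ| < ‖w‖ → sc r t w = 0 :=
    fun t ht w hw => by
      rw [sc, h2, mul_zero]
      rw [norm_smul, norm_real, Real.norm_of_nonneg (inv_pos.2 ht.1).le, lt_inv_mul_iff₀ ht.1]
      nlinarith [le_abs_self ρ, abs_nonneg ρ, ht.1, ht.2]
  have h4 : ∀ t ∈ Ioo (0 : ℝ) (3 * e), ∀ w : E k, 3 * e * |ρ| < ‖w‖ → r' t w = 0 :=
    fun t ht w hw => (hd w t ht.1).unique ((hasDerivAt_const t (0 : ℝ)).congr_of_eventuallyEq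
      (Eventually.mono (Ioo_mem_nhds ht.1 ht.2) fun s hs => h3 s hs w hw))
  obtain ⟨b, hb⟩ := ((isCompact_Icc (a := e / 2) (b := 2 * e)).prod
    (isCompact_closedBall (0 : E k) (3 * e * |ρ|))).exists_bound_of_continuousOn
    (hD.mono fun q hq => lt_of_lt_of_le (half_pos he) hq.1.1)
  have hI : ∀ t ∈ Icc (e / 2) (2 * e), t ∈ Ioo (0 : ℝ) (3 * e) := fun t ht =>
    ⟨by linarith [ht.1], by linarith [ht.2]⟩
  have hN : Icc (e / 2) (2 * e) ∈ 𝓝 e := Icc_mem_nhds (by linarith) (by linarith)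
  refine (hasDerivAt_integral_of_dominated_loc_of_deriv_le
    (F := fun t x => a x • (sc r t (y - z x) : ℂ)) (F' := fun t x => a x • (r' t (y - z x) : ℂ)) hN
    (Eventually.mono hN fun t ht => h.am (hc hS.continuousOn t (hI t ht).1) y)
    (h.itg (hc hS.continuousOn e he) (HasCompactSupport.intro
      (isCompact_closedBall (0 : E k) (3 * e * |ρ|)) fun w hw => ?_) y)
    (h.am (hc hD e he) y) (Eventually.of_forall fun x t ht =>
      le_bd (K := fun w => (r' t w : ℂ)) (c := max b 0) (fun w => ?_) (fun w hw => ?_)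
        (mem_ball_self one_pos) x) (h.bd y (3 * e * |ρ| + 1) _)
    (Eventually.of_forall fun x t ht =>
      (hd _ t (hI t ht).1).ofReal_comp.const_smul (a x))).2
  · exact ofReal_eq_zero.2 (h3 e ⟨he, by linarith⟩ w
      (not_le.1 fun h5 => hw (mem_closedBall_zero_iff.2 h5)))
  · rw [norm_real]
    rcases le_or_gt ‖w‖ (3 * e * |ρ|) with h5 | h5
    · exact (hb (t, w) ⟨ht, mem_closedBall_zero_iff.2 h5⟩).trans (le_max_left _ _)
    · rw [h4 t (hI t ht) w h5, norm_zero]
      exact le_max_right _ _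
  · exact ofReal_eq_zero.2 (h4 t (hI t ht) w hw)

end CNV

open CNV in
theorem bCNV : St_CNV := by
  intro k Ω _ m z a hz ha
  have h : Hy m z a := ⟨hz, ha⟩
  have e : ∀ b : Ω → ℂ, (fun x => b x * a x) = fun x => a x • b x :=
    fun b => funext fun x => mul_comm _ _
  have e1 : ∀ K : E k → ℂ, (fun y => ∫ x, K (y - z x) * a x ∂m) = cv m z a K :=
    fun K => funext fun y => congrArg (integral m) (e _)
  refine ⟨fun K h1 h2 => ?_, fun r r' hr hd y t ht => ?_⟩
  · rw [e1]
    refine ⟨h.sm ⟨h1, h2⟩, fun y => ⟨(h.itg h1.continuous h2 y).congr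
      (Eventually.of_forall fun x => mul_comm _ _), fun v => ?_, fun i j => ?_, h.nb ⟨h1, h2⟩ y⟩⟩
    · exact ((h.fd ⟨h1, h2⟩ y).2 v).trans (congrArg (integral m) (e _).symm)
    · exact (h.hs ⟨h1, h2⟩ y i j).trans (congrArg (integral m) (e _).symm)
  · rw [e, funext fun t => congrArg (integral m) (e fun x => (sc r t (y - z x) : ℂ))]
    exact h.dt hr hd y ht

end Pool.Agent.Lib.FI
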