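import Pool.Agent.Lib.FI.Blue

/-! Project fi: the first order identities. -/

open scoped Classical Topology ContDiff ComplexOrder Matrix ENNReal
open Set MeasureTheory Complex Metric Filter

noncomputable section

namespace Pool.Agent.Lib.FI

open Pool.Agent.Lib.SV (E nsq)
open Pool.Agent.Lib.HS32

namespace G1

variable {n k : ℕ}

theorem cd_c (a : Fin k) : ContDiff ℝ ∞ fun w : E k => w a := contDiff_apply ℝ ℂ a

theorem cd_s (a : Fin k) : ContDiff ℝ ∞ fun w : E k => star (w a) :=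
  contDiff_iff_contDiffAt.2 fun _ => cd_star (cd_c a).contDiffAt

theorem dz_s (a j : Fin k) (y : E k) : dz j (fun w : E k => star (w a)) y = 0 := by
  rw [dz_star (cd_diff (cd_c a).contDiffAt), dzb_coord, star_zero]

theorem dzb_s (a j : Fin k) (y : E k) :
    dzb j (fun w : E k => star (w a)) y = if a = j then 1 else 0 := by
  rw [dzb_star (cd_diff (cd_c a).contDiffAt), dz_coord]
  split_ifs <;> simp

/-- A quadratic function. -/
def qd (B : Mat k) (w : E k) : ℂ := ∑ a, ∑ b, B a b * (star (w a) * w b)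

theorem cd_qd (B : Mat k) : ContDiff ℝ ∞ (qd B) :=
  ContDiff.sum fun a _ => ContDiff.sum fun b _ => contDiff_const.mul ((cd_s a).mul (cd_c b))

theorem hess_qd (B : Mat k) (y : E k) : hess (qd B) y = B := by
  ext i j
  have d : ∀ a b (w : E k), DifferentiableAt ℝ (fun w : E k => star (w a) * w b) w :=
    fun a b w => cd_diff ((cd_s a).mul (cd_c b)).contDiffAt
  have e : dz j (qd B) = fun w => ∑ a, B a j * star (w a) := funext fun w => by
    unfold qd
    rw [dz_sum fun a _ => DifferentiableAt.fun_sum fun b _ => (d a b w).const_mul _]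
    refine Finset.sum_congr rfl fun a _ => ?_
    rw [dz_sum fun b _ => (d a b w).const_mul _]
    simp only [dz_const_mul _ (d a _ w), dz_mul (cd_diff (cd_s a).contDiffAt)
      (cd_diff (cd_c _).contDiffAt), dz_s, dz_coord]
    simp
  rw [hess_apply, e, dzb_sum fun a _ => (cd_diff (cd_s a).contDiffAt).const_mul _]
  simp only [dzb_const_mul _ (cd_diff (cd_s _).contDiffAt), dzb_s]
  simp

theorem qd_re {B : Mat k} (h : B.IsHermitian) (w : E k) : ((qd B w).re : ℂ) = qd B w := by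
  rw [← conj_eq_iff_re, qd, map_sum]
  simp only [map_sum, map_mul]
  rw [Finset.sum_comm]
  refine Finset.sum_congr rfl fun a _ => Finset.sum_congr rfl fun b _ => ?_
  rw [← h.apply a b]
  simp [mul_comm]

/-- The matrix with one row. -/
def row (j : Fin k) (θ : E k → ℂ) (y : E k) : Mat k :=
  Matrix.of fun a i => if a = j then dz i θ y else 0

theorem tr_row (N : Mat k) (j : Fin k) (θ : E k → ℂ) (y : E k) :
    (N * row j θ y).trace = ∑ i, N i j * dz i θ y := by
  simp [Matrix.trace, Matrix.mul_apply, row]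

theorem cut {θ : E k → ℂ} (h : HasCompactSupport θ) : ∃ χ : E k → ℝ, ContDiff ℝ ∞ χ ∧
    HasCompactSupport χ ∧ ∀ y, (χ =ᶠ[𝓝 y] fun _ => 1) ∨ θ =ᶠ[𝓝 y] fun _ => 0 := by
  obtain ⟨R, R0, hR⟩ := h.isCompact.isBounded.subset_ball_lt 0 (0 : E k)
  let f : ContDiffBump (0 : E k) := ⟨R, R + 1, R0, lt_add_one R⟩
  refine ⟨f, f.contDiff, f.hasCompactSupport, fun y => ?_⟩
  by_cases hy : y ∈ ball (0 : E k) R
  · exact Or.inl (f.eventuallyEq_one_of_mem_ball hy)
  · exact Or.inr (notMem_tsupport_iff_eventuallyEq.1 fun e => hy (hR e))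

variable {M : Mf n} [M.Cpt] {H : M.Fam (Mat n)} {p : M.X → ℝ} {z : M.X → E k} {C : ℝ}
  {θ : E k → ℂ}

/-- The Jacobian matrix in the preferred chart. -/
def pj (z : M.X → E k) (x : M.X) : Matrix (Fin k) (Fin n) ℂ := jr (z ∘ (M.ch x).symm) (M.ch x x)

theorem core (hCHR : St_CHR) (hTAM : St_TAM) (hGRO : St_GRO) (hF : Fb H p z C)
    (hθ : ContDiff ℝ ∞ θ) (hc' : HasCompactSupport θ) (j : Fin k) {B : Mat k} (hB : B.IsHermitian)
    (c : Fin (n + 1) → ℝ) (Φ : M.X → ℂ) (hΦ : ∀ x, 0 < p x →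
      ∑ i, c i • (((((i : ℕ) : ℝ) + 1) • M.ev H x + (pj z x)ᴴ * B * pj z x).adjugate *
        ((pj z x)ᴴ * row j θ (z x) * pj z x)).trace = (M.ev H x).det * Φ x) :
    IntegrableOn Φ {x | 0 < p x} (M.mu H) ∧ ∫ x in {x | 0 < p x}, Φ x ∂M.mu H = 0 := by
  obtain ⟨χ, c1, c2, c3⟩ := cut hc'
  have cχ : ContDiff ℝ ∞ fun y => (χ y : ℂ) := ofRealCLM.contDiff.comp c1
  have sχ : HasCompactSupport fun y => (χ y : ℂ) := c2.comp_left (g := ofReal) rfl
  obtain ⟨-, -, t3, -⟩ := hTAM n k M H p z C hF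
  have eb : (fun y => ((χ y * (qd B y).re : ℝ) : ℂ)) = fun y => χ y * qd B y := funext fun y => by
    rw [ofReal_mul, qd_re hB]
  have cb : ContDiff ℝ ∞ fun y => (χ y : ℂ) * qd B y := cχ.mul (cd_qd B)
  have cu : ContDiff ℝ ∞ fun y => (χ y : ℂ) * star (y j) := cχ.mul (cd_s j)
  obtain ⟨b1, b2, -⟩ := t3 _ cb sχ.mul_right
  obtain ⟨u1, u2, u3⟩ := t3 _ cu sχ.mul_right
  obtain ⟨w1, -, w3⟩ := t3 _ hθ hc'
  obtain ⟨K, hK⟩ := hθ.continuous.bounded_above_of_compact_support hc'
  have hs : M.hs (fun x => χ (z x) * (qd B (z x)).re) = hc ((fun y => (χ y : ℂ) * qd B y) ∘ z) := by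
    rw [← eb]; rfl
  have mo : MeasurableSet {x | 0 < p x} :=
    (isOpen_lt continuous_const hF.sp.continuous).measurableSet
  have key : ∀ s : ℝ, IntegrableOn (fun x => ((s • M.ev H x + (pj z x)ᴴ * B * pj z x).adjugate *
      ((pj z x)ᴴ * row j θ (z x) * pj z x)).trace / (M.ev H x).det) {x | 0 < p x} (M.mu H) ∧
      ∫ x in {x | 0 < p x}, ((s • M.ev H x + (pj z x)ᴴ * B * pj z x).adjugate *
        ((pj z x)ᴴ * row j θ (z x) * pj z x)).trace / (M.ev H x).det ∂M.mu H = 0 := fun s => by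
    obtain ⟨g1, -, g3⟩ := hGRO n k M H p z C (s • H) (fun x => χ (z x) * (qd B (z x)).re) _ _ K hF
      (hF.kae.toClo.smul s) (fun e he w hw h0 => by
        have := cd_re (b1 e he w hw h0)
        rw [← eb] at this
        exact this) (hs ▸ b2) u1 u2 u3 w1 w3 fun x _ => hK _
    have pt : ∀ x, 0 < p x → ad H (s • H + M.hs fun x => χ (z x) * (qd B (z x)).re)
        (dc ((fun y => (χ y : ℂ) * star (y j)) ∘ z) (θ ∘ z)) x =
          ((s • M.ev H x + (pj z x)ᴴ * B * pj z x).adjugate *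
            ((pj z x)ᴴ * row j θ (z x) * pj z x)).trace / (M.ev H x).det ∧
        (θ ∘ z) x * ad H (s • H + M.hs fun x => χ (z x) * (qd B (z x)).re)
          (hc ((fun y => (χ y : ℂ) * star (y j)) ∘ z)) x = 0 := fun x hx => by
      obtain ⟨-, -, -, -, k5, k6⟩ := hCHR n k _ _ (hF.hol _ (Mf.ch_mem x) _ (Mf.ch_tgt x)
        (by rwa [Mf.ch_symm]))
      simp only [Function.comp_apply, Mf.ch_symm] at k5 k6
      have a1 := k5 _ _ (cd_diff cu.contDiffAt) (cd_diff hθ.contDiffAt)
      have a2 := k6 _ cu.contDiffAt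
      have a3 := k6 _ cb.contDiffAt
      simp only [hs, ad, Mf.ev, dc, hc, Pi.add_apply, Pi.smul_apply, Function.comp_assoc, a1, a2,
        a3, pj, Function.comp_apply]
      rcases c3 (z x) with h | h
      · have e1 : (fun y => (χ y : ℂ) * star (y j)) =ᶠ[𝓝 (z x)] fun y => star (y j) :=
          h.mono fun y hy => by simp [hy]
        have e2 : (fun y => (χ y : ℂ) * qd B y) =ᶠ[𝓝 (z x)] qd B := h.mono fun y hy => by simp [hy]
        have e3 : hess (fun y : E k => star (y j)) (z x) = 0 := by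
          ext a b
          rw [hess_apply, funext (dz_s j b), dzb_const, Matrix.zero_apply]
        have e4 : dd (fun y : E k => star (y j)) θ (z x) = row j θ (z x) := by
          ext a b
          rw [dd_apply, dzb_s]
          simp [row, eq_comm]
        rw [hess_congr e1, hess_congr e2, dd_congr e1 EventuallyEq.rfl, hess_qd, e3, e4]
        simp
      · have e1 : ∀ i, dz i θ (z x) = 0 := fun i => by rw [dz_congr h, dz_const]
        have e2 : row j θ (z x) = 0 := by ext a b; simp [row, e1]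
        have e3 : dd (fun y => (χ y : ℂ) * star (y j)) θ (z x) = 0 := by ext a b; simp [e1]
        rw [e2, e3, h.self_of_nhds]
        simp
    rw [setIntegral_congr_fun mo fun x hx => (pt x hx).1,
      setIntegral_congr_fun mo fun x hx => (pt x hx).2, integral_zero, add_zero] at g3
    exact ⟨g1.congr_fun (fun x hx => (pt x hx).1) mo, g3⟩
  have e : EqOn (fun x => ∑ i, c i • ((((((i : ℕ) : ℝ) + 1) • M.ev H x +
      (pj z x)ᴴ * B * pj z x).adjugate * ((pj z x)ᴴ * row j θ (z x) * pj z x)).trace /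
        (M.ev H x).det)) Φ {x | 0 < p x} := fun x hx => by
    simp only [← smul_div_assoc, ← Finset.sum_div, hΦ x hx]
    exact mul_div_cancel_left₀ _ (hF.kae.toMet.ev_det x)
  have i := fun i : Fin (n + 1) => (key (((i : ℕ) : ℝ) + 1)).1.smul (c i)
  refine ⟨IntegrableOn.congr_fun (integrable_finsetSum _ fun a _ => i a) e mo, ?_⟩
  rw [← setIntegral_congr_fun mo e]
  exact (integral_finsetSum _ fun a _ => i a).trans (Finset.sum_eq_zero fun a _ =>
    (integral_smul (c a) _).trans (by rw [(key _).2, smul_zero]))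

end G1

open G1 in
theorem bG1 (hLAG : St_LAG) (hLA2 : St_LA2) (hCHR : St_CHR) (hTAM : St_TAM) (hGRO : St_GRO) :
    St_G1 := by
  intro n k M _ H p z C θ hF hθ hc j
  have hz' : ∀ x, hz H z x = pj z x * (M.ev H x)⁻¹ * (pj z x)ᴴ := fun _ => rfl
  have pd := hF.kae.toMet.ev_pos
  refine ⟨?_, fun N hN => ?_⟩
  · obtain ⟨c, h⟩ := hLAG n k hF.k0 hF.kn
    refine (core hCHR hTAM hGRO hF hθ hc j Matrix.isHermitian_one c _ fun x _ => ?_).2
    have := ((pd x).inv.posSemidef.mul_mul_conjTranspose_same (pj z x)).det_nonneg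
    rw [(h _ _ 1 (pd x) Matrix.PosSemidef.one).2.1, Matrix.adjugate_one, tr_row, dn, hz',
      ← eq_re_of_ofReal_le (r := 0) this]
    simp [Matrix.one_apply, mul_comm, mul_left_comm]
  obtain ⟨c, h⟩ := hLA2 n k hF.k0 hF.kn
  have d0 : N⁻¹.det ≠ 0 := hN.inv.det_pos.ne'
  obtain ⟨h1, h2⟩ := core hCHR hTAM hGRO hF hθ hc j hN.inv.isHermitian c
    (fun x => N⁻¹.det * (((hz H z x).adjugate * N).trace * ∑ i, N i j * dz i θ (z x) -
      ∑ i, (N * (hz H z x).adjugate * N) i j * dz i θ (z x))) fun x _ => by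
    rw [h _ _ _ _ (pd x) hN.inv, Matrix.nonsing_inv_nonsing_inv _ (Ne.isUnit (hN.det_pos.ne')),
      tr_row, tr_row, hz', mul_assoc]
  rw [integral_const_mul, mul_eq_zero, or_iff_right d0] at h2
  have h3 := (integrable_const_mul_iff (Ne.isUnit d0) _).1 h1
  by_cases h4 : IntegrableOn (fun x => ∑ i, (N * (hz H z x).adjugate * N) i j * dz i θ (z x))
      {x | 0 < p x} (M.mu H)
  · have h5 := h3.add h4
    rw [show ∀ f g : M.X → ℂ, (fun x => f x - g x) + g = f from
      fun f g => funext fun x => sub_add_cancel _ _] at h5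
    rwa [integral_sub h5 h4, sub_eq_zero] at h2
  · rw [integral_undef h4, integral_undef fun h5 => h4 ?_]
    have h6 := h5.sub h3
    rwa [show ∀ f g : M.X → ℂ, (f - fun x => f x - g x) = g from
      fun f g => funext fun x => sub_sub_cancel _ _] at h6

end Pool.Agent.Lib.FI
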