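import Pool.Agent.Lib.FI.Blue

/-! Project fi, row G3: the current is closed. -/

open scoped Classical Topology ContDiff ComplexOrder Matrix ENNReal
open Set MeasureTheory Complex Metric Filter

set_option linter.unusedVariables false

noncomputable section

namespace Pool.Agent.Lib.FI

open Pool.Agent.Lib.SV (E nsq)
open Pool.Agent.Lib.HS32

namespace G3

variable {k : ℕ}

theorem lin (f : Mat k →ₗ[ℂ] ℂ) (h : ∀ N : Mat k, N.PosDef → f N = 0) (b a : Fin k) :
    f (Matrix.single b a 1) = 0 := by
  have h1 : ∀ x : E k, f (Matrix.vecMulVec x (star x)) = 0 := fun x => by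
    have := h _ (Matrix.PosDef.one.add_posSemidef (Matrix.posSemidef_vecMulVec_self_star x))
    rwa [map_add, h _ Matrix.PosDef.one, zero_add] at this
  have h2 : ∀ x y : E k, (4 : ℂ) • Matrix.vecMulVec x (star y) =
      Matrix.vecMulVec (x + y) (star (x + y)) - Matrix.vecMulVec (x - y) (star (x - y)) +
        I • Matrix.vecMulVec (x + I • y) (star (x + I • y)) -
        I • Matrix.vecMulVec (x - I • y) (star (x - I • y)) := fun x y => by
    ext i j
    simp only [Matrix.smul_apply, Matrix.sub_apply, Matrix.add_apply, Matrix.vecMulVec_apply,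
      Pi.star_apply, Pi.add_apply, Pi.sub_apply, Pi.smul_apply, smul_eq_mul, star_add, star_sub,
      star_mul', Complex.star_def, conj_I]
    linear_combination (2 * x i * (starRingEnd ℂ) (y j) - 2 * y i * (starRingEnd ℂ) (x j)) * I_sq
  have h3 := congrArg f (h2 (Pi.single b 1) (Pi.single a 1))
  simp only [map_sub, map_add, map_smul, h1, mul_zero, sub_zero, add_zero, smul_eq_mul] at h3
  rw [Pi.star_single, star_one] at h3
  rw [Matrix.single_eq_single_vecMulVec_single]
  exact (mul_eq_zero.1 h3).resolve_left (by norm_num)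

theorem pol (D : Fin k → Fin k → Fin k → ℂ) (j : Fin k)
    (h : ∀ N : Mat k, N.PosDef → ∑ a, ∑ b, ∑ i, N b a * N i j * D a b i = 0) (a b i : Fin k)
    (ha : a ≠ j) : D a b i = 0 := by
  let B : Mat k →ₗ[ℂ] Mat k →ₗ[ℂ] ℂ := LinearMap.mk₂ ℂ
    (fun N N' => ∑ a, ∑ b, ∑ i, N b a * N' i j * D a b i)
    (fun _ _ _ => by simp only [Matrix.add_apply, add_mul, Finset.sum_add_distrib])
    (fun _ _ _ => by simp only [Matrix.smul_apply, smul_eq_mul, Finset.mul_sum, mul_assoc])
    (fun _ _ _ => by simp only [Matrix.add_apply, add_mul, mul_add, Finset.sum_add_distrib])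
    (fun _ _ _ => by
      simp only [Matrix.smul_apply, smul_eq_mul, Finset.mul_sum, mul_assoc, mul_left_comm])
  have h1 : ∀ N N' : Mat k, N.PosDef → N'.PosDef → (B + B.flip) N N' = 0 := fun N N' p p' => by
    have e : B (N + N') (N + N') = 0 := h _ (p.add p')
    have e1 : B N N = 0 := h _ p
    have e2 : B N' N' = 0 := h _ p'
    simp only [map_add, LinearMap.add_apply, e1, e2, zero_add, add_zero] at e
    exact (add_comm _ _).trans e
  have h2 := lin ((B + B.flip) (Matrix.single b a 1))
    (fun N' p' => lin ((B + B.flip).flip N') (fun N p => h1 N N' p p') b a) i j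
  simpa [B, Matrix.single, ha, ite_and] using h2

theorem cs_dz {θ : E k → ℂ} (h : HasCompactSupport θ) (j : Fin k) :
    HasCompactSupport (dz j θ) ∧ HasCompactSupport (dzb j θ) :=
  ⟨(h.fderiv ℝ).mono fun y hy e => hy (by simp [dz, e]),
    (h.fderiv ℝ).mono fun y hy e => hy (by simp [dzb, e])⟩

theorem sm_dz {θ : E k → ℂ} (h : ContDiff ℝ ∞ θ) (j : Fin k) :
    ContDiff ℝ ∞ (dz j θ) ∧ ContDiff ℝ ∞ (dzb j θ) :=
  ⟨contDiff_iff_contDiffAt.2 fun _ => cd_dz h.contDiffAt j,
    contDiff_iff_contDiffAt.2 fun _ => cd_dzb h.contDiffAt j⟩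

end G3

theorem bG3 (hG1 : St_G1) (hITG : St_ITG) : St_G3 := by
  intro n k M _ H p z C θ hF hθ i j
  let L : Fin k → Fin k → (E k → ℂ) → ℂ := fun a b f =>
    ∫ x in {x | 0 < p x}, f (z x) * (hz H z x).adjugate a b ∂M.mu H
  have iL : ∀ (f : E k → ℂ), ContDiff ℝ ∞ f → HasCompactSupport f → ∀ a b, Integrable
      (fun x => f (z x) * (hz H z x).adjugate a b) ((M.mu H).restrict {x | 0 < p x}) := by
    intro f h1 h2 a b
    exact ((hITG n k M H p z C (fun _ => 1) f hF continuous_const h1.continuous h2).2 a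
      b).integrable.congr (Eventually.of_forall fun x => by simp only [one_mul])
  have sL : ∀ (f : Fin k → E k → ℂ), (∀ i, ContDiff ℝ ∞ (f i) ∧ HasCompactSupport (f i)) →
      ∀ c : Fin k → Fin k → Fin k → ℂ, ∫ x in {x | 0 < p x},
        ∑ a, ∑ b, ∑ i, c a b i * (f i (z x) * (hz H z x).adjugate a b) ∂M.mu H =
        ∑ a, ∑ b, ∑ i, c a b i * L a b (f i) := by
    intro f hf c
    have i1 := fun a b i => (iL (f i) (hf i).1 (hf i).2 a b).const_mul (c a b i)
    rw [integral_finsetSum _ fun a _ => integrable_finsetSum _ fun b _ =>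
      integrable_finsetSum _ fun i _ => i1 a b i]
    refine Finset.sum_congr rfl fun a _ => ?_
    rw [integral_finsetSum _ fun b _ => integrable_finsetSum _ fun i _ => i1 a b i]
    refine Finset.sum_congr rfl fun b _ => ?_
    rw [integral_finsetSum _ fun i _ => i1 a b i]
    exact Finset.sum_congr rfl fun i _ => integral_const_mul _ _
  have c1 : ∀ (f : E k → ℂ), ContDiff ℝ ∞ f → HasCompactSupport f → ∀ a b i,
      L a b (dz i f) = L a i (dz b f) := by
    intro f h1 h2 a b i
    by_cases hb : b = i
    · rw [hb]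
    obtain ⟨j, hj⟩ : ∃ j, a ≠ j := by
      by_cases h : a = b
      · exact ⟨i, h ▸ hb⟩
      · exact ⟨b, h⟩
    refine sub_eq_zero.1 (G3.pol (fun a b i => L a b (dz i f) - L a i (dz b f)) j
      (fun N hN => ?_) a b i hj)
    have e := (hG1 n k M H p z C f hF h1 h2 j).2 N hN
    have hf := fun i => And.intro (G3.sm_dz h1 i).1 (G3.cs_dz h2 i).1
    have e1 := sL (fun i => dz i f) hf fun a b i => N b a * N i j
    have e2 := sL (fun i => dz i f) hf fun a b i => N i a * N b j
    simp only [mul_sub, Finset.sum_sub_distrib]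
    refine sub_eq_zero.2 (e1.symm.trans (Eq.trans ?_ (e2.trans ?_)))
    · refine Eq.trans (integral_congr_ae (Eventually.of_forall fun x => ?_))
        (e.trans (integral_congr_ae (Eventually.of_forall fun x => ?_)))
      · simp only [Matrix.trace, Matrix.diag_apply, Matrix.mul_apply, Finset.sum_mul]
        simp only [Finset.mul_sum]
        refine Finset.sum_congr rfl fun a _ => Finset.sum_congr rfl fun b _ =>
          Finset.sum_congr rfl fun i _ => by ring
      · simp only [Matrix.mul_apply, Finset.sum_mul]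
        rw [Finset.sum_comm]
        refine Eq.trans (Finset.sum_congr rfl fun b _ => Finset.sum_comm) (Finset.sum_comm.trans ?_)
        refine Finset.sum_congr rfl fun a _ => Finset.sum_congr rfl fun b _ =>
          Finset.sum_congr rfl fun i _ => by ring
    · exact Finset.sum_congr rfl fun a _ => Finset.sum_comm
  have st : ∀ (f : E k → ℂ) a b, L a b (fun y => star (f y)) = star (L b a f) := by
    intro f a b
    refine Eq.trans (integral_congr_ae (Eventually.of_forall fun x => ?_)) integral_conj
    have h : (hz H z x).adjugate.IsHermitian :=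
      (Matrix.isHermitian_mul_mul_conjTranspose _ (hF.kae.toMet.ev_pos x).isHermitian.inv).adjugate
    simp only [← h.apply a b, map_mul]
    rfl
  have c2 : ∀ (f : E k → ℂ), ContDiff ℝ ∞ f → HasCompactSupport f → ∀ a b i,
      L a b (dzb i f) = L i b (dzb a f) := by
    intro f h1 h2 a b i
    have e : ∀ l, dzb l f = fun y => star (dz l (fun w => star (f w)) y) := fun l => funext fun y => by
      rw [dz_star (cd_diff h1.contDiffAt), star_star]
    rw [e, e, st, st, c1 _ (contDiff_iff_contDiffAt.2 fun _ => cd_star h1.contDiffAt)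
      (h2.comp_left (g := star) (star_zero ℂ))]
  set f : E k → ℂ := fun w => (θ w : ℂ) with hf
  have f1 : ContDiff ℝ ∞ f := contDiff_iff_contDiffAt.2 fun _ => cd_ofReal hθ.sm.contDiffAt
  have f2 : HasCompactSupport f := hθ.cs.comp_left (g := fun t : ℝ => (t : ℂ)) ofReal_zero
  have i2 := fun l m => iL (dzb l (dz m f)) (G3.sm_dz (G3.sm_dz f1 m).1 l).2
    (G3.cs_dz (G3.cs_dz f2 m).1 l).2
  have cm : ∀ l m, dzb l (dz m f) = dz m (dzb l f) := fun l m => funext fun y =>
    (dz_dzb f1.contDiffAt m l).symm
  calc _ = ∑ l, L i j (dzb l (dz l f)) := by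
        rw [← integral_finsetSum _ fun l _ => i2 l l i j]
        refine integral_congr_ae (Eventually.of_forall fun x => ?_)
        simp only [Matrix.trace, Matrix.diag_apply, hr, hess, Matrix.of_apply, Finset.mul_sum]
        exact Finset.sum_congr rfl fun l _ => mul_comm _ _
    _ = ∑ l, L l l (dzb i (dz j f)) := Finset.sum_congr rfl fun l _ => by
        rw [cm, c1 _ (G3.sm_dz f1 l).2 (G3.cs_dz f2 l).2, ← cm,
          c2 _ (G3.sm_dz f1 j).1 (G3.cs_dz f2 j).1]
    _ = _ := by
        rw [← integral_finsetSum _ fun l _ => i2 i j l l]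
        refine integral_congr_ae (Eventually.of_forall fun x => ?_)
        simp only [Matrix.trace, Matrix.diag_apply, hr, hess, Matrix.of_apply, Finset.sum_mul]
        exact Finset.sum_congr rfl fun l _ => mul_comm _ _

end Pool.Agent.Lib.FI
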