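import Pool.Agent.Lib.FI.Blue

/-! Project fi, block GOO: almost every point is good, and the fibre integrals converge there. -/

open scoped Classical Topology ContDiff ComplexOrder Matrix ENNReal
open Set MeasureTheory Complex Metric Filter

set_option linter.unusedVariables false

noncomputable section

namespace Pool.Agent.Lib.FI

open Pool.Agent.Lib.SV (E nsq)
open Pool.Agent.Lib.HS32

namespace GOO

theorem null_of {Ω : Type} [MeasurableSpace Ω] (m : Measure Ω) (f : ℕ → Ω → ℝ)
    (hi : ∀ j, Integrable (f j) m) (h0 : ∀ j y, 0 ≤ f j y)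
    (ht : Tendsto (fun j => ∫ y, f j y ∂m) atTop (𝓝 0)) {ε : ℝ} (hε : 0 < ε) :
    ∀ᵐ y ∂m, ∃ j, f j y < ε := by
  have hs : ∀ j, {y | ¬∃ j, f j y < ε} ⊆ {y | ε ≤ f j y} := fun j y hy =>
    not_lt.1 fun h => hy ⟨j, h⟩
  have hf : ∀ j, m {y | ε ≤ f j y} ≠ ⊤ := fun j => ((hi j).measure_ge_lt_top hε).ne
  have h1 : ∀ j, ε * m.real {y | ¬∃ j, f j y < ε} ≤ ∫ y, f j y ∂m := fun j =>
    (mul_le_mul_of_nonneg_left (measureReal_mono (hs j) (hf j)) hε.le).trans
      (mul_meas_ge_le_integral_of_nonneg (Eventually.of_forall (h0 j)) (hi j) ε)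
  have h2 : ε * m.real {y | ¬∃ j, f j y < ε} ≤ 0 := ge_of_tendsto' ht h1
  have h3 : m.real {y | ¬∃ j, f j y < ε} = 0 :=
    le_antisymm (by
      by_contra h
      exact absurd h2 (not_le.2 (mul_pos hε (not_le.1 h)))) measureReal_nonneg
  rw [ae_iff]
  exact (measureReal_eq_zero_iff (ne_top_of_le_ne_top (hf 0) (measure_mono (hs 0)))).1 h3

theorem lim_of {α : Type} (F : Filter α) [NeBot F] (u : α → ℝ)
    (h : ∀ ε : ℝ, 0 < ε → ∃ l, ∀ᶠ a in F, |u a - l| < ε) : ∃ l, Tendsto u F (𝓝 l) := by
  have hc : Cauchy (map u F) := by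
    refine Metric.cauchy_iff.2 ⟨inferInstance, fun ε hε => ?_⟩
    obtain ⟨l, hl⟩ := h (ε / 2) (half_pos hε)
    refine ⟨{t | |t - l| < ε / 2}, hl, fun x hx y hy => ?_⟩
    have h1 := abs_lt.1 (show |x - l| < ε / 2 from hx)
    have h2 := abs_lt.1 (show |y - l| < ε / 2 from hy)
    rw [Real.dist_eq, abs_lt]
    constructor <;> linarith [h1.1, h1.2, h2.1, h2.2]
  exact CompleteSpace.complete hc

theorem nb_pos {k : ℕ} (y : E k) : ∀ᶠ a in nb y, 0 < a.1 :=
  tendsto_fst.eventually (self_mem_nhdsWithin (a := (0 : ℝ)) (s := Ioi 0))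

/-- The cut-off functions. -/
def cj {X : Type} (J : X → ℝ) (j : ℕ) (x : X) : ℝ := Real.smoothTransition (j * J x - 1)

theorem cj_supp {X : Type} [TopologicalSpace X] {J : X → ℝ} (hJ : Continuous J) (j : ℕ) :
    tsupport (cj J j) ⊆ {x | 0 < J x} := by
  have h1 : tsupport (cj J j) ⊆ {x | 1 ≤ (j : ℝ) * J x} := by
    refine closure_minimal (fun x hx => ?_) (isClosed_le continuous_const (hJ.const_mul _))
    by_contra h
    exact hx (Real.smoothTransition.zero_of_nonpos (by
      have : (j : ℝ) * J x < 1 := not_le.1 h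
      linarith))
  refine h1.trans fun x hx => ?_
  by_contra h
  have h2 : (j : ℝ) * J x ≤ 0 := mul_nonpos_of_nonneg_of_nonpos (Nat.cast_nonneg j) (not_lt.1 h)
  have h3 : 1 ≤ (j : ℝ) * J x := hx
  linarith

theorem cj_lim {X : Type} {J : X → ℝ} {x : X} (hx : 0 < J x) :
    ∀ᶠ j in atTop, cj J j x = 1 := by
  have h1 : Tendsto (fun j : ℕ => (j : ℝ) * J x) atTop atTop :=
    tendsto_natCast_atTop_atTop.atTop_mul_const hx
  filter_upwards [h1.eventually_ge_atTop 2] with j hj
  exact Real.smoothTransition.one_of_one_le (by linarith)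

/-- The test functions. -/
def tf {k : ℕ} (R : ℕ) (y : E k) : ℝ := max 0 (R + 1 - ‖y‖)

theorem tf_cont {k : ℕ} (R : ℕ) : Continuous (tf (k := k) R) :=
  continuous_const.max (continuous_const.sub continuous_norm)

theorem tf_cs {k : ℕ} (R : ℕ) : HasCompactSupport (tf (k := k) R) := by
  refine HasCompactSupport.intro (isCompact_closedBall (0 : E k) (R + 1)) fun y hy => ?_
  rw [mem_closedBall_zero_iff, not_le] at hy
  exact max_eq_left (by linarith)

theorem tf_0 {k : ℕ} (R : ℕ) (y : E k) : 0 ≤ tf R y := le_max_left _ _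

theorem tf_1 {k : ℕ} {R : ℕ} {y : E k} (h : ‖y‖ ≤ R) : 1 ≤ tf R y :=
  le_max_of_le_right (by linarith)

end GOO

open GOO

theorem bGOO (hBAS : St_BAS) (hITG : St_ITG) (hSMO : St_SMO) (hCON : St_CON) : St_GOO := by
  intro n k M _ H p z C V r Ψ J hF hV hR hJ
  obtain ⟨hO, hzc, -, hA, -⟩ := hBAS n k M H p z C hF
  obtain ⟨hS, -⟩ := hSMO n k M H p z C V r Ψ hF hV hR
  have hd0 : ∀ x, 0 < p x → 0 ≤ dn H z x := fun x hx => by
    have h1 := Mf.AllOn.ch hA x
    beta_reduce at h1
    rw [Mf.ch_symm] at h1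
    obtain ⟨h2, h3, -⟩ := h1 hx
    rw [← h2] at h3
    exact (Complex.nonneg_iff.1 h3.det_nonneg).1
  refine ⟨?_, fun y hy φ hφ => ?_⟩
  · have hsm : ∀ j, M.Sm (cj J j) := fun j =>
      Mf.Sm.comp (φ := Real.smoothTransition) (f := fun x => (j : ℝ) * J x - 1)
        (fun _ => Real.smoothTransition.contDiffAt) ((hJ.sm.const_mul _).sub (Mf.sm_const _))
    have h01 : ∀ j x, 0 ≤ cj J j x ∧ cj J j x ≤ 1 := fun j x =>
      ⟨Real.smoothTransition.nonneg _, Real.smoothTransition.le_one _⟩
    choose I hIc hIl hIi using fun j => hCON n k M H p z C V r Ψ J (cj J j) hF hV hR hJ (hsm j)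
      (cj_supp hJ.sm.continuous j)
    have hIV : ∀ j y, I j y ≤ V := fun j y => by
      have : NeBot (nb y) := by unfold nb; infer_instance
      refine le_of_tendsto (hIl j y) ?_
      filter_upwards [nb_pos y] with a ha
      obtain ⟨h1, h2⟩ := hS a.1 a.2 ha
      rw [← h1]
      exact (h2 _ _ (hsm j).continuous continuous_const).2 fun x => (h01 j x).2
    have key : ∀ R m : ℕ, ∀ᵐ y : E k, ∃ j, tf R y * (V - I j y) < 1 / ((m : ℝ) + 1) := by
      intro R m
      have hi0 : Integrable (tf (k := k) R) := (tf_cont R).integrable_of_hasCompactSupport (tf_cs R)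
      have hi1 : ∀ j, Integrable fun y => tf R y * I j y := fun j =>
        ((tf_cont R).mul (hIc j)).integrable_of_hasCompactSupport (tf_cs R).mul_right
      have hi2 : ∀ j, Integrable fun y => tf R y * (V - I j y) := fun j =>
        ((tf_cont R).mul (continuous_const.sub (hIc j))).integrable_of_hasCompactSupport
          (tf_cs R).mul_right
      refine null_of volume (fun j y => tf R y * (V - I j y)) hi2
        (fun j y => mul_nonneg (tf_0 R y) (sub_nonneg.2 (hIV j y))) ?_ Nat.one_div_pos_of_nat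
      have hc : Continuous fun y : E k => (tf R y : ℂ) := continuous_ofReal.comp (tf_cont R)
      have hcs : HasCompactSupport fun y : E k => (tf R y : ℂ) :=
        (tf_cs R).comp_left (g := fun t : ℝ => (t : ℂ)) ofReal_zero
      have hig : ∀ φ : M.X → ℝ, Continuous φ →
          IntegrableOn (fun x => φ x * tf R (z x) * dn H z x) {x | 0 < p x} (M.mu H) := by
        intro φ hφ
        have h1 := (hITG n k M H p z C (fun x => (φ x : ℂ)) _ hF (continuous_ofReal.comp hφ) hc hcs).1
        refine (Integrable.re h1).congr (Eventually.of_forall fun x => ?_)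
        simp only [RCLike.re_to_complex, ← ofReal_mul, ofReal_re]
      have hi3 : IntegrableOn (fun x => tf R (z x) * dn H z x) {x | 0 < p x} (M.mu H) := by
        exact Integrable.congr (hig (fun _ => 1) continuous_const)
          (Eventually.of_forall fun x => by simp only [one_mul])
      have hae : ∀ᵐ x ∂(M.mu H).restrict {x | 0 < p x}, 0 < p x := ae_restrict_mem hO.measurableSet
      have hvol : ∫ x in {x | 0 < p x}, tf R (z x) * dn H z x ∂M.mu H = V * ∫ y : E k, tf R y := by
        have h1 := hV.2 (fun y => ENNReal.ofReal (tf R y)) (tf_cont R).measurable.ennreal_ofReal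
        have h2 : 0 ≤ᵐ[(M.mu H).restrict {x | 0 < p x}] fun x => tf R (z x) * dn H z x := by
          filter_upwards [hae] with x hx
          exact mul_nonneg (tf_0 R _) (hd0 x hx)
        have h3 : 0 ≤ᵐ[volume] tf (k := k) R := Eventually.of_forall (tf_0 R)
        rw [← ofReal_integral_eq_lintegral_ofReal hi0 h3, ← ENNReal.ofReal_mul hV.1] at h1
        simp only [← ENNReal.ofReal_mul (tf_0 R _)] at h1
        rw [← ofReal_integral_eq_lintegral_ofReal hi3 h2] at h1
        exact (ENNReal.ofReal_eq_ofReal_iff (integral_nonneg_of_ae h2)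
          (mul_nonneg hV.1 (integral_nonneg_of_ae h3))).1 h1
      have hdc : Tendsto (fun j => ∫ x in {x | 0 < p x}, cj J j x * tf R (z x) * dn H z x ∂M.mu H)
          atTop (𝓝 (∫ x in {x | 0 < p x}, tf R (z x) * dn H z x ∂M.mu H)) := by
        refine tendsto_integral_of_dominated_convergence _
          (fun j => (hig _ (hsm j).continuous).aestronglyMeasurable) hi3 (fun j => ?_) ?_
        · filter_upwards [hae] with x hx
          have h1 := mul_nonneg (tf_0 R (z x)) (hd0 x hx)
          rw [mul_assoc, Real.norm_of_nonneg (mul_nonneg (h01 j x).1 h1)]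
          exact mul_le_of_le_one_left h1 (h01 j x).2
        · filter_upwards [hae] with x hx
          rcases (hd0 x hx).eq_or_lt with h | h
          · simp only [← h, mul_zero]
            exact tendsto_const_nhds
          · refine tendsto_const_nhds.congr' ?_
            filter_upwards [cj_lim ((hJ.pos x).2 ⟨hx, h⟩)] with j hj
            rw [hj, one_mul]
      have h4 := (tendsto_const_nhds (x := V * ∫ y : E k, tf R y)).sub hdc
      rw [hvol, sub_self] at h4
      refine h4.congr fun j => ?_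
      rw [hIi j _ (tf_cont R) (tf_cs R), ← integral_const_mul, ← integral_sub (hi0.const_mul V) (hi1 j)]
      exact integral_congr_ae (Eventually.of_forall fun y => by ring)
    filter_upwards [ae_all_iff.2 fun R => ae_all_iff.2 (key R)] with y hy η hη
    obtain ⟨R, hR⟩ := exists_nat_ge ‖y‖
    obtain ⟨m, hm⟩ := exists_nat_one_div_lt hη
    obtain ⟨j, hj⟩ := hy R m
    have h1 : V - I j y ≤ tf R y * (V - I j y) :=
      le_mul_of_one_le_left (sub_nonneg.2 (hIV j y)) (tf_1 hR)
    refine ⟨cj J j, hsm j, h01 j, cj_supp hJ.sm.continuous j, ?_⟩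
    exact (hIl j y).eventually (eventually_ge_nhds (by linarith))
  · have : NeBot (nb y) := by unfold nb; infer_instance
    obtain ⟨c, hc0, hc⟩ := hφ.exists_bound
    refine lim_of _ _ fun ε hε => ?_
    obtain ⟨ψ, hψ, h01, hsp, hev⟩ := hy (ε / (2 * c)) (by positivity)
    obtain ⟨I, -, hIl, -⟩ := hCON n k M H p z C V r Ψ J (fun x => φ x * ψ x) hF hV hR hJ (hφ.mul hψ)
      (tsupport_mul_subset_right.trans hsp)
    refine ⟨I y, ?_⟩
    filter_upwards [nb_pos y, hev, (hIl y).eventually (ball_mem_nhds (I y) (half_pos hε))]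
      with a ha h1 h2
    obtain ⟨h3, h4⟩ := hS a.1 a.2 ha
    have c1 := hφ.continuous
    have c2 := hψ.continuous
    have c3 : Continuous fun x => φ x * ψ x := c1.mul c2
    have c4 : ∀ s : ℝ, Continuous fun x => φ x * ψ x + s * (fun _ : M.X => (1 : ℝ)) x := fun s =>
      c3.add continuous_const
    have h5 : ∀ s : ℝ, fi H p z r (fun x => (φ x * ψ x + s * (fun _ : M.X => (1 : ℝ)) x) + -s * ψ x)
        a.1 a.2 = fi H p z r (fun x => φ x * ψ x) a.1 a.2 + s * V + -s * fi H p z r ψ a.1 a.2 := by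
      intro s
      rw [(h4 _ _ (c4 s) c2).1, (h4 _ _ c3 continuous_const).1, h3]
    have h6 := (h4 _ _ c1 ((c4 c).add (c2.const_mul (-c)))).2 fun x => by
      have := (abs_le.1 (hc x)).2
      have := (h01 x).2
      simp only [Pi.add_apply]
      nlinarith
    have h7 := (h4 _ _ ((c4 (-c)).add (c2.const_mul (- -c))) c1).2 fun x => by
      have := (abs_le.1 (hc x)).1
      have := (h01 x).2
      simp only [Pi.add_apply]
      nlinarith
    replace h6 := h6.trans_eq (h5 c)
    replace h7 := (h5 (-c)).symm.trans_le h7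
    have h8 : c * (V - fi H p z r ψ a.1 a.2) ≤ ε / 2 := by
      have h9 : c * (ε / (2 * c)) = ε / 2 := by field_simp
      rw [← h9]
      exact mul_le_mul_of_nonneg_left (by linarith) hc0.le
    have h10 := abs_lt.1 (mem_ball_iff_norm.1 h2)
    rw [abs_lt]
    constructor <;> nlinarith [h10.1, h10.2]

end Pool.Agent.Lib.FI
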