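import Pool.Agent.Lib.FI.Blue

/-! The radial kernel. -/

open scoped Classical Topology ContDiff ComplexOrder Matrix ENNReal
open Set MeasureTheory Complex Metric Filter

set_option linter.unusedVariables false

noncomputable section

namespace Pool.Agent.Lib.FI

open Pool.Agent.Lib.SV (E nsq)
open Pool.Agent.Lib.HS32

namespace RAD

variable {k : ℕ}

theorem cdN : ContDiff ℝ ∞ (fun w : E k => nsq w) :=
  ContDiff.sum fun j _ => by
    have h1 : ContDiff ℝ ∞ fun w : E k => (w j).re := reCLM.contDiff.comp (contDiff_apply ℝ ℂ j)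
    have h2 : ContDiff ℝ ∞ fun w : E k => (w j).im := imCLM.contDiff.comp (contDiff_apply ℝ ℂ j)
    exact (h1.mul h1).add (h2.mul h2)

theorem dN (w : E k) : DifferentiableAt ℝ (fun w : E k => nsq w) w := cd_diff cdN.contDiffAt

theorem dco (a : Fin k) (w : E k) : DifferentiableAt ℝ (fun w : E k => w a) w :=
  differentiableAt_apply a w

theorem cN : (fun w : E k => (nsq w : ℂ)) = fun w => ∑ a, w a * star (w a) := by
  funext w
  simp only [nsq, ofReal_sum, star_def, mul_conj]

theorem dzN (j : Fin k) (w : E k) : dz j (fun w : E k => (nsq w : ℂ)) w = star (w j) := by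
  rw [cN, dz_sum fun a _ => (dco a w).fun_mul (diff_star (dco a w))]
  simp only [dz_mul (dco _ w) (diff_star (dco _ w)), dz_star (dco _ w), dz_coord, dzb_coord]
  simp

theorem dzbN (j : Fin k) (w : E k) : dzb j (fun w : E k => (nsq w : ℂ)) w = w j := by
  rw [← star_dz_ofReal (cd_diff (cd_ofReal cdN.contDiffAt)), dzN, star_star]

/-- The trace of the Hessian of a radial function. -/
theorem tr {g g' g'' : ℝ → ℝ} (h1 : ∀ s, HasDerivAt g (g' s) s) (h2 : ∀ s, HasDerivAt g' (g'' s) s)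
    (y : E k) : (hr (fun w => g (nsq w)) y).trace.re = k * g' (nsq y) + nsq y * g'' (nsq y) := by
  have e (j : Fin k) : dz j (fun w : E k => (g (nsq w) : ℂ)) =
      fun w => (g' (nsq w) : ℂ) * star (w j) := funext fun w => by
    rw [dz_comp_real (h1 _) (dN w), dzN]
  have d : DifferentiableAt ℝ (fun w : E k => (g' (nsq w) : ℂ)) y :=
    ofRealCLM.differentiableAt.comp y ((h2 _).differentiableAt.comp y (dN y))
  have e2 (j : Fin k) : hr (fun w => g (nsq w)) y j j =
      ((g' (nsq y) + normSq (y j) * g'' (nsq y) : ℝ) : ℂ) := by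
    rw [hr, hess_apply, e, dzb_mul d (diff_star (dco j y)), dzb_comp_real (h2 _) (dN y), dzbN,
      dzb_star (dco j y), dz_coord, if_pos rfl, star_one, mul_assoc, star_def, mul_conj]
    push_cast
    ring
  simp only [Matrix.trace, Matrix.diag, e2, re_sum, ofReal_re, Finset.sum_add_distrib,
    Finset.sum_const, Finset.card_univ, Fintype.card_fin, nsmul_eq_mul, ← Finset.sum_mul]
  rfl

theorem nsm (a : ℝ) (y : E k) : nsq ((a : ℂ) • y) = a ^ 2 * nsq y := by
  simp only [nsq, Pi.smul_apply, smul_eq_mul, normSq_mul, normSq_ofReal, Finset.mul_sum, sq]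

theorem cs {g : ℝ → ℝ} (h : ∀ s, 1 ≤ s → g s = 0) : HasCompactSupport fun w : E k => g (nsq w) := by
  refine HasCompactSupport.intro (isCompact_closedBall (0 : E k) 1) fun w hw => h _ ?_
  by_contra c
  refine hw (mem_closedBall_zero_iff.2 ((pi_norm_le_iff_of_nonneg zero_le_one).2 fun j => ?_))
  have h1 : normSq (w j) ≤ nsq w :=
    Finset.single_le_sum (f := fun a => normSq (w a)) (fun a _ => normSq_nonneg _) (Finset.mem_univ j)
  rw [normSq_eq_norm_sq] at h1
  nlinarith [norm_nonneg (w j), not_le.1 c]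

/-- The profile. -/
def be (s : ℝ) : ℝ := expNegInvGlue (1 - s)

theorem be_cd : ContDiff ℝ ∞ be := expNegInvGlue.contDiff.comp (contDiff_const.sub contDiff_id)

theorem be_0 (s : ℝ) : 0 ≤ be s := expNegInvGlue.nonneg _

theorem be_z {s : ℝ} (h : 1 ≤ s) : be s = 0 := expNegInvGlue.zero_of_nonpos (by linarith)

theorem be_p {s : ℝ} (h : s < 1) : 0 < be s := expNegInvGlue.pos_of_pos (by linarith)

/-- The primitive of the profile. -/
def ga (s : ℝ) : ℝ := -∫ x in (1 : ℝ)..s, be x

theorem ga_d (s : ℝ) : HasDerivAt ga (-be s) s :=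
  (be_cd.continuous.integral_hasStrictDerivAt 1 s).hasDerivAt.neg

theorem ga_cd : ContDiff ℝ ∞ ga := by
  refine contDiff_infty_iff_deriv.2 ⟨fun s => (ga_d s).differentiableAt, ?_⟩
  rw [show deriv ga = fun s => -be s from funext fun s => (ga_d s).deriv]
  exact be_cd.neg

theorem ga_z {s : ℝ} (h : 1 ≤ s) : ga s = 0 := by
  rw [ga, intervalIntegral.integral_congr (g := fun _ => 0) fun x hx => be_z (by
    rw [uIcc_of_le h] at hx; exact hx.1)]
  simp

theorem ga_0 (s : ℝ) : 0 ≤ ga s := by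
  rcases le_total 1 s with h | h
  · exact (ga_z h).ge
  · rw [ga, ← intervalIntegral.integral_symm]
    exact intervalIntegral.integral_nonneg h fun x _ => be_0 x

end RAD

open RAD in
theorem bRAD : St_RAD := by
  intro k hk
  have hb : ContDiff ℝ ∞ fun w : E k => be (nsq w) := be_cd.comp cdN
  have hg : ContDiff ℝ ∞ fun w : E k => ga (nsq w) := ga_cd.comp cdN
  have hI : 0 < ∫ w : E k, be (nsq w) :=
    hb.continuous.integral_pos_of_hasCompactSupport_nonneg_nonzero (cs fun s => be_z)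
      (fun w => be_0 _) (x := 0) (be_p (by simp [nsq])).ne'
  generalize hc : (∫ w : E k, be (nsq w))⁻¹ = c
  have c0 : 0 < c := hc ▸ inv_pos.2 hI
  refine ⟨fun w => c * be (nsq w), fun w => 2 * c * ga (nsq w),
    ⟨contDiff_const.mul hb, cs (g := fun s => c * be s) fun s h => by rw [be_z h, mul_zero]⟩,
    ⟨contDiff_const.mul hg, cs (g := fun s => 2 * c * ga s) fun s h => by rw [ga_z h, mul_zero]⟩,
    fun y => mul_nonneg c0.le (be_0 _), fun y => mul_nonneg (by positivity) (ga_0 _),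
    fun y h => ⟨by rw [be_z h, mul_zero], by rw [ga_z h, mul_zero]⟩,
    fun y h => mul_pos c0 (be_p h), by rw [integral_const_mul, ← hc, inv_mul_cancel₀ hI.ne'],
    fun y y' h => by rw [h]; exact ⟨rfl, rfl⟩, fun y e he => ?_⟩
  have db (s : ℝ) : HasDerivAt be (deriv be s) s := (be_cd.differentiable (by simp) s).hasDerivAt
  have l (s : ℝ) : HasDerivAt (fun s => e⁻¹ ^ 2 * s) (e⁻¹ ^ 2) s :=
    ((hasDerivAt_id s).const_mul (e⁻¹ ^ 2)).congr_deriv (mul_one _)
  have t := tr (g := fun s => (e ^ (2 * k))⁻¹ * (2 * c * ga (e⁻¹ ^ 2 * s)))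
    (g' := fun s => (e ^ (2 * k))⁻¹ * (2 * c * (-be (e⁻¹ ^ 2 * s) * e⁻¹ ^ 2)))
    (g'' := fun s => (e ^ (2 * k))⁻¹ * (2 * c * (-(deriv be (e⁻¹ ^ 2 * s) * e⁻¹ ^ 2) * e⁻¹ ^ 2)))
    (fun s => (((ga_d _).comp s (l s)).const_mul _).const_mul _)
    (fun s => (((((db _).comp s (l s)).neg).mul_const _).const_mul _).const_mul _) y
  have e1 : sc (fun w : E k => 2 * c * ga (nsq w)) e =
      fun w => (e ^ (2 * k))⁻¹ * (2 * c * ga (e⁻¹ ^ 2 * nsq w)) := funext fun w => by
    rw [sc, nsm]
  have e2 : (fun t => sc (fun w : E k => c * be (nsq w)) t y) =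
      fun t => (t ^ (2 * k))⁻¹ * (c * be (t⁻¹ ^ 2 * nsq y)) := funext fun t => by
    rw [sc, nsm]
  rw [e1, e2, t]
  have d1 := (hasDerivAt_pow (2 * k) e).fun_inv (pow_pos he _).ne'
  have d2 := (((hasDerivAt_inv he.ne').fun_pow 2).mul_const (nsq y))
  have d3 := d1.fun_mul (((db _).comp e d2).const_mul c)
  refine d3.congr_deriv ?_
  obtain ⟨m, rfl⟩ : ∃ m, k = m + 1 := ⟨k - 1, by omega⟩
  rw [show 2 * (m + 1) - 1 = 2 * m + 1 by omega]
  simp only [Function.comp_apply]
  push_cast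
  field_simp
  ring

end Pool.Agent.Lib.FI
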