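import Pool.Agent.Lib.FI.PBlue
import Pool.Agent.Lib.FI.B_CON
import Pool.Agent.Lib.FI.B_RAD

/-! Project fi, row KER: the primitive of the kernel. -/

open scoped Classical Topology ContDiff ComplexOrder Matrix
open Set MeasureTheory Complex Metric Filter

noncomputable section

namespace Pool.Agent.Lib.FI

open Pool.Agent.Lib.SV (E nsq)
open Pool.Agent.Lib.HS32

namespace KER

variable {k : ℕ} {a b : ℝ}

theorem sm {F : Type} [NormedAddCommGroup F] [NormedSpace ℝ F] {G : E k × ℝ → F}
    (hG : ContDiff ℝ ∞ G) : ContDiff ℝ ∞ fun q : E k × ℝ => fderiv ℝ (fun y => G (y, q.2)) q.1 :=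
  ContDiff.fderiv (f := fun (q : E k × ℝ) y => G (y, q.2)) (g := fun q => q.1) (m := ∞)
    (hG.comp (contDiff_snd.prodMk contDiff_fst.snd)) contDiff_fst (by exact_mod_cast le_top)

theorem fd {F : Type} [NormedAddCommGroup F] [NormedSpace ℝ F] [CompleteSpace F] {G : E k × ℝ → F}
    (hG : ContDiff ℝ ∞ G) (x : E k) : HasFDerivAt (fun x => ∫ s in a..b, G (x, s))
      (∫ s in a..b, fderiv ℝ (fun y => G (y, s)) x) x := by
  have hc := (sm hG).continuous
  obtain ⟨C, hC⟩ := ((isCompact_closedBall x 1).prod (isCompact_uIcc (a := a) (b := b))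
    ).exists_bound_of_continuousOn hc.continuousOn
  refine intervalIntegral.hasFDerivAt_integral_of_dominated_of_fderiv_le
    (F' := fun y s => fderiv ℝ (fun y => G (y, s)) y) (bound := fun _ => C)
    (closedBall_mem_nhds x one_pos) ?_ ?_ ?_ ?_ ?_ ?_
  · exact Eventually.of_forall fun y =>
      (hG.continuous.comp (.prodMk_right y)).aestronglyMeasurable
  · exact (hG.continuous.comp (.prodMk_right x)).intervalIntegrable _ _
  · exact (hc.comp (.prodMk_right x)).aestronglyMeasurable
  · exact Eventually.of_forall fun s hs y hy => hC (y, s) ⟨hy, uIoc_subset_uIcc hs⟩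
  · exact intervalIntegrable_const
  · exact Eventually.of_forall fun s _ y _ => ((hG.comp (contDiff_id.prodMk contDiff_const)
      ).differentiable (by simp) y).hasFDerivAt

theorem cd (m : ℕ) : ∀ {F : Type} [NormedAddCommGroup F] [NormedSpace ℝ F] [CompleteSpace F]
    {G : E k × ℝ → F}, ContDiff ℝ ∞ G → ContDiff ℝ m fun x => ∫ s in a..b, G (x, s) := by
  induction m with
  | zero =>
    intro F _ _ _ G hG
    simp only [CharP.cast_eq_zero, contDiff_zero]
    exact continuous_iff_continuousAt.2 fun x => (fd hG x).continuousAt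
  | succ m ih =>
    intro F _ _ _ G hG
    exact contDiff_succ_iff_hasFDerivAt.2 ⟨_, ih (sm hG), fun x => fd hG x⟩

theorem lin {G : E k × ℝ → ℂ} (hG : ContDiff ℝ ∞ G) (v w : E k) (c : ℂ) :
    ContDiff ℝ ∞ (fun q : E k × ℝ => (fderiv ℝ (fun y => G (y, q.2)) q.1 v +
      c * fderiv ℝ (fun y => G (y, q.2)) q.1 w) / 2) ∧ ∀ x,
    (fderiv ℝ (fun x => ∫ s in a..b, G (x, s)) x v + c * fderiv ℝ (fun x => ∫ s in a..b, G (x, s)) x w)
      / 2 = ∫ s in a..b, (fderiv ℝ (fun y => G (y, s)) x v + c * fderiv ℝ (fun y => G (y, s)) x w) / 2 := by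
  have h1 : ∀ u : E k, ContDiff ℝ ∞ fun q : E k × ℝ => fderiv ℝ (fun y => G (y, q.2)) q.1 u :=
    fun u => (sm hG).clm_apply contDiff_const
  refine ⟨((h1 v).add (contDiff_const.mul (h1 w))).div_const _, fun x => ?_⟩
  have h2 : ∀ u, IntervalIntegrable (fun s => fderiv ℝ (fun y => G (y, s)) x u) volume a b :=
    fun u => ((h1 u).continuous.comp (.prodMk_right x)).intervalIntegrable a b
  have h3 : IntervalIntegrable (fun s => fderiv ℝ (fun y => G (y, s)) x) volume a b :=
    ((sm hG).continuous.comp (.prodMk_right x)).intervalIntegrable a b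
  rw [(fd hG x).fderiv, ContinuousLinearMap.intervalIntegral_apply h3,
    ContinuousLinearMap.intervalIntegral_apply h3, intervalIntegral.integral_div,
    intervalIntegral.integral_add (h2 v) ((h2 w).const_mul c), intervalIntegral.integral_const_mul]

theorem hes {G : E k × ℝ → ℂ} (hG : ContDiff ℝ ∞ G) (x : E k) :
    Continuous (fun s => (hess (fun y => G (y, s)) x).trace) ∧
    (hess (fun x => ∫ s in a..b, G (x, s)) x).trace =
      ∫ s in a..b, (hess (fun y => G (y, s)) x).trace := by
  have h : ∀ j, Continuous (fun s => hess (fun y => G (y, s)) x j j) ∧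
      hess (fun x => ∫ s in a..b, G (x, s)) x j j = ∫ s in a..b, hess (fun y => G (y, s)) x j j :=
    fun j => by
      obtain ⟨h1, h2⟩ := lin (a := a) (b := b) hG (Pi.single j 1) (Pi.single j I) (-I)
      simp only [neg_mul, ← sub_eq_add_neg] at h1 h2
      obtain ⟨G', e⟩ : ∃ G' : E k × ℝ → ℂ, ∀ y s, dz j (fun y => G (y, s)) y = G' (y, s) :=
        ⟨fun q => dz j (fun y => G (y, q.2)) q.1, fun _ _ => rfl⟩
      have e1 : ∀ s, dz j (fun y => G (y, s)) = fun y => G' (y, s) := fun s => funext (e · s)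
      have e2 : dz j (fun x => ∫ s in a..b, G (x, s)) = fun x => ∫ s in a..b, G' (x, s) :=
        funext fun y => by
          rw [dz, h2]
          simp only [← e, dz]
      have e3 : ContDiff ℝ ∞ G' := by
        have : G' = fun q => G' (q.1, q.2) := rfl
        rw [this]
        simp only [← e, dz]
        exact h1
      obtain ⟨h3, h4⟩ := lin (a := a) (b := b) e3 (Pi.single j 1) (Pi.single j I) I
      simp only [hess_apply, e1, e2, dzb]
      exact ⟨h3.continuous.comp (.prodMk_right x), h4 x⟩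
  refine ⟨continuous_finsetSum _ fun j _ => (h j).1, ?_⟩
  simp only [Matrix.trace, Matrix.diag]
  rw [intervalIntegral.integral_finsetSum fun j _ => (h j).1.intervalIntegrable _ _]
  exact Finset.sum_congr rfl fun j _ => (h j).2

theorem nle (w : E k) : ‖w‖ ^ 2 ≤ nsq w := by
  have h0 : 0 ≤ nsq w := Finset.sum_nonneg fun _ _ => normSq_nonneg _
  refine (Real.le_sqrt (norm_nonneg _) h0).1 ((pi_norm_le_iff_of_nonneg (Real.sqrt_nonneg _)).2
    fun j => Real.le_sqrt_of_sq_le ?_)
  rw [← normSq_eq_norm_sq]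
  exact Finset.single_le_sum (f := fun j => normSq (w j)) (fun _ _ => normSq_nonneg _)
    (Finset.mem_univ j)

end KER

theorem bKER : St_KER := by
  intro k r Ψ h
  obtain ⟨G, hG⟩ : ∃ G : E k × ℝ → ℝ,
      ∀ w s, G (w, s) = Real.exp s ^ 2 * sc Ψ (Real.exp s) w := 
    ⟨fun q => Real.exp q.2 ^ 2 * sc Ψ (Real.exp q.2) q.1, fun _ _ => rfl⟩
  have e0 := Real.exp_pos
  have gs : ContDiff ℝ ∞ G := by
    have e : G = fun q => Real.exp q.2 ^ 2 * ((Real.exp q.2 ^ (2 * k))⁻¹ *
        Ψ ((Real.exp q.2)⁻¹ • q.1)) := funext fun q => by rw [hG q.1 q.2, sc, Complex.coe_smul]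
    have e1 : ContDiff ℝ ∞ fun q : E k × ℝ => Real.exp q.2 := contDiff_snd.exp
    rw [e]
    exact (e1.pow 2).mul (((e1.pow _).inv fun q => (pow_pos (e0 _) _).ne').mul
      (h.tp.sm.comp ((e1.inv fun q => (e0 _).ne').smul contDiff_fst)))
  have gc : ∀ w, Continuous fun s => G (w, s) := fun w => gs.continuous.comp (.prodMk_right w)
  have g0 : ∀ w s, 0 ≤ G (w, s) := fun w s =>
    hG w s ▸ mul_nonneg (sq_nonneg _) (CON.sc_nn h.p0 (e0 s) w)
  have gz : ∀ w s, Real.exp s ^ 2 ≤ nsq w → G (w, s) = 0 := fun w s hs => by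
    rw [hG, sc, (h.sr _ ?_).2, mul_zero, mul_zero]
    rw [RAD.nsm, inv_pow, inv_mul_eq_div]
    exact (one_le_div (pow_pos (e0 s) 2)).2 hs
  have zr : ∀ a b, 0 < a → 0 < b → ∀ w, a ^ 2 ≤ nsq w → b ^ 2 ≤ nsq w →
      ∀ s ∈ uIcc (Real.log a) (Real.log b), G (w, s) = 0 := fun a b ha hb w h1 h2 s hs => by
    refine gz w s ?_
    rcases le_max_iff.1 hs.2 with k | k
    · exact (pow_le_pow_left₀ (e0 s).le ((Real.le_log_iff_exp_le ha).1 k) 2).trans h1
    · exact (pow_le_pow_left₀ (e0 s).le ((Real.le_log_iff_exp_le hb).1 k) 2).trans h2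
  have z2 : ∀ a b, 0 < a → 0 < b → ∀ w, a ^ 2 ≤ nsq w → b ^ 2 ≤ nsq w →
      ∫ s in Real.log a..Real.log b, G (w, s) = 0 := fun a b ha hb w h1 h2 => by
    rw [intervalIntegral.integral_congr (zr a b ha hb w h1 h2), intervalIntegral.integral_zero]
  have far : ∀ (c : ℝ) (w : E k), 0 ≤ c → w ∉ closedBall 0 c → c ^ 2 ≤ nsq w := fun c w hc hw =>
    (pow_le_pow_left₀ hc (not_le.1 (mt mem_closedBall_zero_iff.2 hw)).le 2).trans (KER.nle w)
  refine ⟨fun a b w => ∫ s in Real.log a..Real.log b, G (w, s), ∫ w, Ψ w,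
    fun a b ha hb => ⟨⟨contDiff_infty.2 fun m => KER.cd m gs,
      .intro (isCompact_closedBall 0 (a + b)) fun w hw => ?_⟩, fun w => ⟨?_, z2 a b ha hb w,
      fun hab => intervalIntegral.integral_nonneg (Real.log_le_log ha hab) fun s _ => g0 w s, ?_,
      intervalIntegral.integral_same, fun t ht => ?_⟩⟩, fun e he e1 => ?_⟩
  · have := far _ w (by positivity) hw
    exact z2 a b ha hb w (by nlinarith) (by nlinarith)
  · obtain ⟨h1, h2⟩ := KER.hes (a := Real.log a) (b := Real.log b) (G := fun q => (G q : ℂ))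
      (ofRealCLM.contDiff.comp gs) w
    have h3 : ∀ s, (hess (fun y => (G (y, s) : ℂ)) w).trace =
        ((Real.exp s * (hr (sc Ψ (Real.exp s)) w).trace.re * Real.exp s : ℝ) : ℂ) := fun s => by
      have c1 := (CON.tst_sc h.tp (e0 s)).sm.contDiffAt (x := w)
      have c2 : star (hr (sc Ψ (Real.exp s)) w).trace = (hr (sc Ψ (Real.exp s)) w).trace := by
        rw [← Matrix.trace_conjTranspose, hr, (hess_herm c1).eq]
      have c3 : ContDiffAt ℝ ∞ (fun y => (sc Ψ (Real.exp s) y : ℂ)) w :=
        ofRealCLM.contDiff.contDiffAt.comp w c1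
      simp only [hG, ofReal_mul]
      rw [hess_const_mul _ c3, Matrix.trace_smul, conj_eq_iff_re.1 c2, smul_eq_mul, hr]
      push_cast
      ring
    simp only [h3] at h1 h2
    rw [intervalIntegral.integral_ofReal, intervalIntegral.integral_eq_sub_of_hasDerivAt
      (f := fun s => sc r (Real.exp s) w)
      (fun s _ => (h.der w _ (e0 s)).comp s (Real.hasDerivAt_exp s))
      ((continuous_re.comp h1).intervalIntegrable _ _), Real.exp_log ha, Real.exp_log hb] at h2
    simpa only [hr, intervalIntegral.integral_ofReal] using h2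
  · have h1 := (intervalIntegral.integral_hasDerivAt_left ((gc w).intervalIntegrable _ (Real.log b))
      ((gc w).stronglyMeasurableAtFilter _ _) (gc w).continuousAt).comp a
      (Real.hasDerivAt_log ha.ne')
    rw [hG, Real.exp_log ha] at h1
    refine h1.congr_deriv ?_
    field_simp
  · beta_reduce
    rw [Real.log_mul ht.ne' ha.ne', Real.log_mul ht.ne' hb.ne',
      ← intervalIntegral.integral_comp_add_left (fun s => G (w, s)), sc,
      ← intervalIntegral.integral_const_mul, ← intervalIntegral.integral_const_mul]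
    refine intervalIntegral.integral_congr fun s _ => ?_
    rw [hG, hG, Real.exp_add, Real.exp_log ht, sc, sc, smul_smul, ← ofReal_mul, ← mul_inv,
      mul_comm (Real.exp s) t, mul_pow, mul_pow, mul_inv]
    ring
  · have l0 : Real.log e ≤ Real.log 1 := Real.log_le_log he e1
    have hi : Integrable (Function.uncurry fun s w => G (w, s))
        ((volume.restrict (uIoc (Real.log e) (Real.log 1))).prod volume) := by
      rw [Measure.restrict_prod_eq_prod_univ]
      refine IntegrableOn.of_forall_sdiff_eq_zero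
        ((gs.continuous.comp continuous_swap).continuousOn.integrableOn_compact
        ((isCompact_uIcc (a := Real.log e) (b := Real.log 1)).prod
          (isCompact_closedBall (0 : E k) 1))) (measurableSet_uIoc.prod .univ) fun q hq => ?_
      have := far 1 q.2 zero_le_one fun k => hq.2 ⟨uIoc_subset_uIcc hq.1.1, k⟩
      exact zr e 1 he one_pos q.2 (by nlinarith) this _ (uIoc_subset_uIcc hq.1.1)
    have p0 : 0 ≤ ∫ w, Ψ w := integral_nonneg h.p0
    rw [← intervalIntegral_integral_swap hi]
    simp only [hG, integral_const_mul, CON.int_sc Ψ (e0 _)]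
    rw [intervalIntegral.integral_mul_const]
    refine mul_le_of_le_one_left p0 ((intervalIntegral.integral_mono_on l0
      ((Real.continuous_exp.pow 2).intervalIntegrable _ _)
      (Real.continuous_exp.intervalIntegrable _ _) fun s hs => ?_).trans ?_)
    · exact pow_le_of_le_one (e0 s).le (Real.exp_le_one_iff.2 (Real.log_one ▸ hs.2)) two_ne_zero
    · rw [integral_exp, Real.exp_log he, Real.exp_log one_pos]
      linarith

end Pool.Agent.Lib.FI
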