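import Pool.Agent.Lib.FI.Blue

/-! Project fi, row MAS: finite mass and the energy of the shells. -/

open scoped Classical Topology ContDiff ComplexOrder Matrix ENNReal
open Set MeasureTheory Complex Metric Filter

set_option linter.unusedSectionVars false

noncomputable section

namespace Pool.Agent.Lib.FI

open Pool.Agent.Lib.SV (E nsq)
open Pool.Agent.Lib.HS32

namespace MAS

theorem fatou {X : Type} [MeasurableSpace X] {μ : Measure X} {S : Set X} (hS : MeasurableSet S)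
    {f : ℕ → X → ℝ} {g : X → ℝ} {c : ℝ} (hm : ∀ m, Measurable (f m))
    (hi : ∀ m, Integrable (f m) μ) (h0 : ∀ m x, 0 ≤ f m x) (hc : ∀ m, ∫ x, f m x ∂μ ≤ c)
    (ht : ∀ x ∈ S, Tendsto (fun m => f m x) atTop (𝓝 (g x))) :
    ∫⁻ x in S, ENNReal.ofReal (g x) ∂μ ≤ ENNReal.ofReal c := by
  rw [setLIntegral_congr_fun hS (g := fun x => liminf (fun m => ENNReal.ofReal (f m x)) atTop)
    fun x hx => (ENNReal.tendsto_ofReal (ht x hx)).liminf_eq.symm]
  refine (lintegral_liminf_le fun m => (hm m).ennreal_ofReal).trans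
    (liminf_le_of_frequently_le' (Frequently.of_forall fun m => ?_))
  refine (setLIntegral_le_lintegral _ _).trans ?_
  rw [← ofReal_integral_eq_lintegral_ofReal (hi m) (ae_of_all _ (h0 m))]
  exact ENNReal.ofReal_le_ofReal (hc m)

variable {n : ℕ}

theorem lg {V : E n → ℝ} {z : E n} {d : ℝ} (hV : ContDiffAt ℝ ∞ V z) (h0 : 0 < V z + d) :
    hess (fun w => (Real.log (V w + d) : ℝ)) z = (V z + d)⁻¹ • hess (fun w => (V w : ℂ)) z -
      ((V z + d) ^ 2)⁻¹ • dd (fun w => (V w : ℂ)) (fun w => (V w : ℂ)) z ∧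
    dd (fun w => (Real.log (V w + d) : ℝ)) (fun w => (Real.log (V w + d) : ℝ)) z =
      ((V z + d) ^ 2)⁻¹ • dd (fun w => (V w : ℂ)) (fun w => (V w : ℂ)) z := by
  have l : ∀ t : ℝ, 0 < t + d → HasDerivAt (fun t => Real.log (t + d)) (t + d)⁻¹ t := fun t h => by
    simpa using ((hasDerivAt_id t).add_const d).log h.ne'
  have h1 := cd_ofReal hV
  constructor <;> ext i j
  · have e : dz j (fun w => (Real.log (V w + d) : ℝ)) =ᶠ[𝓝 z]
        fun w => (((V w + d)⁻¹ : ℝ) : ℂ) * dz j (fun w => (V w : ℂ)) w := by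
      filter_upwards [cd_ev_diff hV, (hV.continuousAt.add continuousAt_const).eventually
        (lt_mem_nhds h0)] with w a b
      exact dz_comp_real (l _ b) a
    have k : HasDerivAt (fun t : ℝ => (t + d)⁻¹) (-((V z + d) ^ 2)⁻¹) (V z) := by
      simpa [neg_div] using ((hasDerivAt_id (V z)).add_const d).fun_inv h0.ne'
    rw [hess_apply, dzb_congr e, dzb_mul (cd_diff (cd_ofReal ((hV.add contDiffAt_const).fun_inv h0.ne')))
      (cd_diff (cd_dz h1 j)), dzb_comp_real k (cd_diff hV)]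
    simp only [Matrix.sub_apply, Matrix.smul_apply, hess_apply, dd_apply, real_smul, ofReal_neg]
    ring
  · rw [dd_apply, dz_comp_real (l _ h0) (cd_diff hV), dzb_comp_real (l _ h0) (cd_diff hV)]
    simp only [Matrix.smul_apply, dd_apply, real_smul, ofReal_inv, ofReal_pow]
    ring

variable {M : Mf n} [M.Cpt] {H : M.Fam (Mat n)} {q : M.X → ℝ} {C : ℝ}

/-- The regularised logarithm. -/
def uu (q : M.X → ℝ) (d : ℝ) (x : M.X) : ℝ := Real.log (q x + d)

theorem lim (hq : M.Sm q) {x : M.X} (h0 : 0 < q x) :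
    Tendsto (fun m : ℕ => uu q (1 / (m + 1)) x) atTop (𝓝 (uu q 0 x)) ∧
    Tendsto (fun m : ℕ => M.ev (C • H + M.hs (uu q (1 / (m + 1)))) x) atTop
      (𝓝 (M.ev (C • H + M.hs (uu q 0)) x)) ∧
    Tendsto (fun m : ℕ => M.ev (M.ds (uu q (1 / (m + 1))) (uu q (1 / (m + 1)))) x) atTop
      (𝓝 (M.ev (M.ds (uu q 0) (uu q 0)) x)) := by
  have k : ∀ d, 0 ≤ d → M.ev (M.hs (uu q d)) x = (q x + d)⁻¹ • M.ev (M.hs q) x -
      ((q x + d) ^ 2)⁻¹ • M.ev (M.ds q q) x ∧
      M.ev (M.ds (uu q d) (uu q d)) x = ((q x + d) ^ 2)⁻¹ • M.ev (M.ds q q) x := fun d hd => by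
    have := lg (d := d) (hq _ (Mf.ch_mem x) _ (Mf.ch_tgt x)) (by
      simpa [Mf.ch_symm] using add_pos_of_pos_of_nonneg h0 hd)
    simp only [Function.comp_apply, Mf.ch_symm] at this
    exact this
  have t : Tendsto (fun m : ℕ => q x + 1 / ((m : ℝ) + 1)) atTop (𝓝 (q x + 0)) :=
    tendsto_one_div_add_atTop_nhds_zero_nat.const_add _
  have p : q x + 0 ≠ 0 := by simpa using h0.ne'
  have d0 : ∀ m : ℕ, (0 : ℝ) ≤ 1 / (m + 1) := fun m => by positivity
  have t1 := (t.inv₀ p).smul_const (M.ev (M.hs q) x)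
  have t2 := ((t.pow 2).inv₀ (pow_ne_zero 2 p)).smul_const (M.ev (M.ds q q) x)
  refine ⟨t.log p, ?_, ?_⟩
  · have := (t1.sub t2).const_add (M.ev (C • H) x)
    simp only [← (k _ (d0 _)).1, ← (k 0 le_rfl).1] at this
    exact this
  · simpa only [← (k _ (d0 _)).2, ← (k 0 le_rfl).2] using t2

theorem ad_re {G A : M.Fam (Mat n)} (hG : M.Met G) (hH : M.Met H) (hA : M.Form A) (x : M.X) :
    (ad H G A x).re = M.dq H G x * M.tr G A x := by
  have a := ((mINV n M G hG).2.1 A hA _ (Mf.ch_mem x) _ (Mf.ch_tgt x)).1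
  have b := ((mINV n M H hH).2.1 G hG.toForm _ (Mf.ch_mem x) _ (Mf.ch_tgt x)).2.1
  rw [Mf.ch_symm] at a b
  have e : ad H G A x = ((M.dq H G x * M.tr G A x : ℝ) : ℂ) := by
    have g : (G (M.ch x) (M.ch x x)).det ≠ 0 := hG.ev_det x
    rw [ofReal_mul, a, b, Matrix.inv_def, Ring.inverse_eq_inv', Matrix.smul_mul, Matrix.trace_smul,
      smul_eq_mul, div_mul_eq_mul_div, mul_inv_cancel_left₀ g]
    rfl
  rw [e, ofReal_re]

variable (hH : M.Kae H) (hq : M.Sm q) (q0 : ∀ x, 0 ≤ q x)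
  (hp : ∀ d : ℝ, 0 < d → M.Le H (C • H + M.hs (uu q d)))
include hH hq q0 hp

omit hH hp in
theorem sm {d : ℝ} (hd : 0 < d) : M.Sm (uu q d) :=
  (hq.add (Mf.sm_const d)).log fun x => (add_pos_of_nonneg_of_pos (q0 x) hd).ne'

theorem kae {d : ℝ} (hd : 0 < d) : M.Kae (C • H + M.hs (uu q d)) :=
  have c := (hH.toClo.smul C).add ((mHES n M).1 _ (sm hq q0 hd))
  { c, hH.toMet.of_le c.toForm (hp d hd) with }

theorem mass {S : Set M.X} (hS : MeasurableSet S) (h : ∀ x ∈ S, 0 < q x) :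
    ∫⁻ x in S, ENNReal.ofReal (M.dq H (C • H + M.hs (uu q 0)) x) ∂M.mu H ≤
      ENNReal.ofReal (∫ x, M.dq H (C • H) x ∂M.mu H) := by
  have k := fun m : ℕ => (kae hH hq q0 hp (d := 1 / (m + 1)) (by positivity)).toMet
  have c := fun m => ((mINV n M H hH.toMet).1 _ (k m).toTen).2.2.2.1.continuous
  refine fatou hS (fun m => (c m).measurable)
    (fun m => (mMU n M H hH.toMet).2.2.2.2.1 ℝ _ (c m))
    (fun m x => (((mINV n M H hH.toMet).2.2.2.2.2.2.2 _ (k m)).1 x).le)
    (fun m => (mCOH n M H _ _ hH.toMet (hH.toClo.smul C) (sm hq q0 (by positivity))).le)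
    fun x hx => ?_
  exact (continuous_re.tendsto _).comp
    (((continuous_id.matrix_det.tendsto _).comp (lim hq (h x hx)).2.1).div_const _)

theorem grn {d L : ℝ} (hd : 0 < d) (hL : 0 < L) :
    ∫ x, M.dq H (C • H + M.hs (uu q d)) x * (5 / (1 + (uu q d x / L) ^ 2) *
      M.gr (C • H + M.hs (uu q d)) (uu q d) (uu q d) x) ∂M.mu H ≤
      10 * n * (1 + |C|) * (∫ x, M.dq H (C • H) x ∂M.mu H) * L := by
  have k := kae hH hq q0 hp hd
  have s := sm hq q0 hd
  have ch := ((mMU n M H hH.toMet).2.2.2.2.2.2 _ k.toMet).2.1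
  obtain ⟨-, fin, -, -, it, -⟩ := mMU n M _ k.toMet
  have v := ch fun _ => 1
  simp only [mul_one, integral_const, smul_eq_mul] at v
  rw [mCOH n M H _ _ hH.toMet (hH.toClo.smul C) s] at v
  have hφ : ∀ x, ContDiffAt ℝ ∞ (fun t => Real.arctan (t / L)) (uu q d x) := fun x =>
    (Real.contDiff_arctan.comp (contDiff_id.div_const L)).contDiffAt
  have w := ((mLAP n M _ _ s s).2.1 _ hφ).1
  obtain ⟨l1, -, -, l2, -⟩ := (mLAP n M _ _ s s).2.2 _ k.toMet
  have g := ((mGRN n M).2 _ _ _ k s w).2.1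
  have sy := fun x => (((mLAP n M _ _ s w).2.2 _ k.toMet).2.2.1 x 0).2.2.2.2.2.1
  have dv : ∀ t, deriv (fun t => Real.arctan (t / L)) t = 1 / (1 + (t / L) ^ 2) * (1 / L) :=
    fun t => (((hasDerivAt_id t).div_const L).arctan).deriv
  simp only [sy, fun x => (l2 _ hφ x).2, dv] at g
  rw [← ch, ← v]
  generalize hG : C • H + M.hs (uu q d) = G at *
  have b : ∀ x, -(Real.arctan (uu q d x / L) * M.lap G (uu q d) x) ≤ 2 * (n * (1 + |C|)) :=
    fun x => by
    have e : M.lap G (uu q d) x = n - C * M.tr G H x := by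
      rw [← k.toMet.tr_self (x := x), ← Mf.tr_smul, ← Mf.tr_sub, Mf.lap]
      congr 1
      rw [← hG, add_sub_cancel_left]
    have t0 : 0 ≤ M.tr G H x := k.toMet.tr_nonneg (fun e he z hz => by
      simpa using (hH.pos e he z hz).posSemidef) x
    have t1 : M.tr G H x ≤ n := (k.toMet.tr_mono (hG ▸ hp d hd) x).trans_eq k.toMet.tr_self
    refine (neg_le_abs _).trans ((abs_mul _ _).trans_le (mul_le_mul (abs_le.2 ⟨?_, ?_⟩) ?_
      (abs_nonneg _) zero_le_two))
    · linarith [Real.neg_pi_div_two_lt_arctan (uu q d x / L), Real.pi_le_four]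
    · linarith [Real.arctan_lt_pi_div_two (uu q d x / L), Real.pi_le_four]
    · rw [e]
      refine (abs_sub _ _).trans ?_
      rw [abs_mul, abs_of_nonneg t0, Nat.abs_cast]
      nlinarith [abs_nonneg C]
  have i := integral_mono (it ℝ _ (w.continuous.mul l1.continuous).neg) (integrable_const _) b
  simp only [Pi.neg_apply, Pi.mul_apply] at i
  rw [integral_neg, g, neg_neg, integral_const, smul_eq_mul] at i
  calc _ = 5 * L * ∫ x, 1 / (1 + (uu q d x / L) ^ 2) * (1 / L) *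
        M.gr G (uu q d) (uu q d) x ∂M.mu G := by
        rw [← integral_const_mul]
        exact integral_congr_ae (ae_of_all _ fun x => by field_simp)
    _ ≤ 5 * L * ((M.mu G).real univ * (2 * (n * (1 + |C|)))) :=
        mul_le_mul_of_nonneg_left i (by positivity)
    _ = _ := by ring

theorem shell {S : Set M.X} (hS : MeasurableSet S) {L : ℝ} (hL : 0 < L)
    (h : ∀ x ∈ S, 0 < q x ∧ |uu q 0 x| ≤ 2 * L) :
    ∫⁻ x in S, ENNReal.ofReal (ad H (C • H + M.hs (uu q 0)) (M.ds (uu q 0) (uu q 0)) x).re ∂M.mu H ≤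
      ENNReal.ofReal (10 * n * (1 + |C|) * (∫ x, M.dq H (C • H) x ∂M.mu H) * L) := by
  have p : ∀ m : ℕ, (0 : ℝ) < 1 / (m + 1) := fun m => by positivity
  have k := fun m : ℕ => (kae hH hq q0 hp (p m)).toMet
  have s := fun m : ℕ => sm hq q0 (p m)
  have l := fun m => (mLAP n M _ _ (s m) (s m)).2.2 _ (k m)
  have c := fun m => ((mINV n M H hH.toMet).1 _ (k m).toTen).2.2.2.1.continuous.mul
    ((continuous_const (y := (5 : ℝ)).div (continuous_const.add
      (((s m).continuous.div_const L).pow 2)) fun x => by positivity : Continuous fun x =>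
        5 / (1 + (uu q (1 / (m + 1)) x / L) ^ 2)).mul (l m).2.1.continuous)
  refine le_trans (setLIntegral_mono' hS fun x hx => ?_) (fatou hS (g := fun x =>
      5 / (1 + (uu q 0 x / L) ^ 2) * (ad H (C • H + M.hs (uu q 0)) (M.ds (uu q 0) (uu q 0)) x).re)
    (fun m => (c m).measurable) (fun m => (mMU n M H hH.toMet).2.2.2.2.1 ℝ _ (c m))
    (fun m x => mul_nonneg (((mINV n M H hH.toMet).2.2.2.2.2.2.2 _ (k m)).1 x).le
      (mul_nonneg (div_nonneg (by norm_num) (add_nonneg zero_le_one (sq_nonneg _)))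
        ((l m).2.2.1 x 0).2.2.2.2.2.2.1))
    (fun m => grn hH hq q0 hp (p m) hL) fun x hx => ?_)
  · rw [ENNReal.ofReal_mul (by positivity)]
    refine le_mul_of_one_le_left' (ENNReal.one_le_ofReal.2 ((one_le_div (by positivity)).2 ?_))
    have : |uu q 0 x / L| ≤ 2 := by rw [abs_div, abs_of_pos hL, div_le_iff₀ hL]; exact (h x hx).2
    nlinarith [sq_abs (uu q 0 x / L), abs_nonneg (uu q 0 x / L)]
  · obtain ⟨t1, t2, t3⟩ := lim (C := C) (H := H) hq (h x hx).1
    have t4 := (continuous_re.tendsto _).comp (((continuous_id.matrix_trace.tendsto _).comp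
      (((continuous_id.matrix_adjugate.tendsto _).comp t2).mul t3)).div_const (M.ev H x).det)
    refine ((tendsto_const_nhds.div (((t1.div_const L).pow 2).const_add 1) (by positivity)).mul
      t4).congr fun m => ?_
    exact (congrArg _ (ad_re (k m) hH.toMet ((mHES n M).2.2.1 _ (s m)).1 x)).trans
      (mul_left_comm _ _ _)

end MAS

theorem bMAS : St_MAS := by
  intro n k M _ H p z C h
  have ns : ∀ v : E k, 0 ≤ nsq v := fun v => Finset.sum_nonneg fun _ _ => normSq_nonneg _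
  have q0 : ∀ {R : ℝ} y x, 0 < R → 0 ≤ qf p z R y x := fun y x r =>
    mul_nonneg (h.p0 x) (add_nonneg r.le (ns _))
  have q1 : ∀ {R : ℝ} y x, 0 < R → 0 < p x → 0 < qf p z R y x := fun y x r a =>
    mul_pos a (add_pos_of_pos_of_nonneg r (ns _))
  have u0 : ∀ q : M.X → ℝ, MAS.uu q 0 = fun x => Real.log (q x) := fun q =>
    funext fun x => congrArg Real.log (add_zero _)
  have o : MeasurableSet {x | 0 < p x} := measurableSet_lt measurable_const h.sp.continuous.measurable
  set V := ∫ x, M.dq H (C • H) x ∂M.mu H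
  have a : (0 : ℝ) ≤ 10 * n * (1 + |C|) := by positivity
  refine ⟨(10 * n * (1 + |C|) + 1) * |V|, by positivity, fun R y r => ?_, fun L l => ?_⟩
  · have := MAS.mass h.kae (h.sq R y) (fun x => q0 y x r) (fun d hd => h.pq R y d r hd) o
      fun x hx => q1 y x r hx
    rw [u0] at this
    exact this.trans (ENNReal.ofReal_le_ofReal (by nlinarith [le_abs_self V, abs_nonneg V]))
  · have m := (h.sq 1 0).continuous.measurable.log
    have := MAS.shell h.kae (h.sq 1 0) (fun x => q0 0 x one_pos) (fun d hd => h.pq 1 0 d one_pos hd)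
      (o.inter ((measurableSet_le measurable_const m).inter (measurableSet_le m measurable_const)))
      (one_pos.trans_le l) fun x hx => ⟨q1 0 x one_pos hx.1, by
        rw [u0]
        exact abs_le.2 ⟨hx.2.1, le_trans hx.2.2 (by linarith : -L ≤ 2 * L)⟩⟩
    rw [u0] at this
    exact this.trans (ENNReal.ofReal_le_ofReal (mul_le_mul_of_nonneg_right
      (by nlinarith [le_abs_self V, abs_nonneg V]) (zero_le_one.trans l)))

end Pool.Agent.Lib.FI
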