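import Pool.Agent.Lib.FI.PBlue

/-! Project fi: series of smooth functions. -/

open scoped Classical Topology ContDiff
open Set Complex Filter

noncomputable section

namespace Pool.Agent.Lib.FI

open Pool.Agent.Lib.SV (E nsq)
open Pool.Agent.Lib.HS32

namespace SER

variable {k : ℕ}

theorem fd_dz {g : E k → ℂ} {z : E k} (h : DifferentiableAt ℝ (fderiv ℝ g) z) (b : Fin k)
    (v : E k) : fderiv ℝ (dz b g) z v =
      (fderiv ℝ (fderiv ℝ g) z v (Pi.single b 1) -
        I * fderiv ℝ (fderiv ℝ g) z v (Pi.single b I)) / 2 := by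
  have h1 := h.hasFDerivAt.clm_apply (hasFDerivAt_const (Pi.single b (1 : ℂ) : E k) z)
  have h2 := h.hasFDerivAt.clm_apply (hasFDerivAt_const (Pi.single b I : E k) z)
  have h3 := (h1.sub (h2.const_mul I)).mul_const (2 : ℂ)⁻¹
  have e : dz b g = fun w => (fderiv ℝ g w (Pi.single b 1) -
      I * fderiv ℝ g w (Pi.single b I)) * (2 : ℂ)⁻¹ := by
    funext w
    simp only [dz, div_eq_mul_inv]
  rw [e]
  have h4 : HasFDerivAt (fun w => (fderiv ℝ g w (Pi.single b 1) -
      I * fderiv ℝ g w (Pi.single b I)) * (2 : ℂ)⁻¹) _ z := h3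
  rw [h4.fderiv]
  simp
  ring

theorem hess_f {g : E k → ℂ} {z : E k} (h : DifferentiableAt ℝ (fderiv ℝ g) z) (a b : Fin k) :
    hess g z a b =
      ((fderiv ℝ (fderiv ℝ g) z (Pi.single a 1) (Pi.single b 1) -
        I * fderiv ℝ (fderiv ℝ g) z (Pi.single a 1) (Pi.single b I)) / 2 +
      I * ((fderiv ℝ (fderiv ℝ g) z (Pi.single a I) (Pi.single b 1) -
        I * fderiv ℝ (fderiv ℝ g) z (Pi.single a I) (Pi.single b I)) / 2)) / 2 := by
  have e : hess g z a b = (fderiv ℝ (dz b g) z (Pi.single a 1) +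
      I * fderiv ℝ (dz b g) z (Pi.single a I)) / 2 := rfl
  rw [e, fd_dz h, fd_dz h]

theorem hs_gen {X F : Type} [NormedAddCommGroup X] [NormedSpace ℝ X] [NormedAddCommGroup F]
    [NormedSpace ℝ F] [CompleteSpace F] {g : ℕ → X → F} {u : ℕ → ℝ} (hu : Summable u)
    (hd : ∀ j, Differentiable ℝ (g j)) (hb : ∀ j y, ‖fderiv ℝ (g j) y‖ ≤ u j) (x : X)
    (h0 : Summable fun j => g j x) (v : X) :
    HasSum (fun j => fderiv ℝ (g j) x v) (fderiv ℝ (fun y => ∑' j, g j y) x v) := by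
  rw [fderiv_tsum_apply hu hd hb h0 x]
  exact (ContinuousLinearMap.apply ℝ F v).hasSum
    (Summable.of_norm_bounded hu fun j => hb j x).hasSum

theorem hs_two {X : Type} [NormedAddCommGroup X] [NormedSpace ℝ X] {f : ℕ → X → ℂ}
    {u w : ℕ → ℝ} (hu : Summable u) (hw : Summable w)
    (hd : ∀ j, Differentiable ℝ (fderiv ℝ (f j))) (hb : ∀ j y, ‖fderiv ℝ (f j) y‖ ≤ u j)
    (hc : ∀ j y, ‖fderiv ℝ (fderiv ℝ (f j)) y‖ ≤ w j) (x p q : X) :
    HasSum (fun j => fderiv ℝ (fderiv ℝ (f j)) x p q)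
      (fderiv ℝ (fun y => ∑' j, fderiv ℝ (f j) y) x p q) :=
  (ContinuousLinearMap.apply ℝ ℂ q).hasSum
    (hs_gen hw hd hc x (Summable.of_norm_bounded hu fun j => hb j x) p)

theorem min_le {x : ℝ} (hx : 0 ≤ x) :
    min 1 x ≤ 3 * (Real.log (1 + 2 * x) - Real.log (1 + x)) := by
  have h1 : 0 < 1 + x := by linarith
  have h2 : 0 < 1 + 2 * x := by linarith
  have h3 := Real.one_sub_inv_le_log_of_pos (div_pos h2 h1)
  rw [Real.log_div h2.ne' h1.ne', inv_div] at h3
  have h4 : 1 - (1 + x) / (1 + 2 * x) = x / (1 + 2 * x) := by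
    field_simp
    ring
  rw [h4] at h3
  have h5 : min 1 x ≤ 3 * (x / (1 + 2 * x)) := by
    rw [← mul_div_assoc, le_div_iff₀ h2]
    rcases le_total 1 x with h | h
    · rw [min_eq_left h]
      linarith
    · rw [min_eq_right h]
      nlinarith
  linarith

theorem norm_sq_le (y : E k) : ‖y‖ ^ 2 ≤ nsq y := by
  have h0 : 0 ≤ nsq y := Finset.sum_nonneg fun j _ => normSq_nonneg _
  have h1 : ‖y‖ ≤ Real.sqrt (nsq y) := by
    refine (pi_norm_le_iff_of_nonneg (Real.sqrt_nonneg _)).2 fun i => ?_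
    refine Real.le_sqrt_of_sq_le ?_
    rw [← Complex.normSq_eq_norm_sq]
    exact Finset.single_le_sum (f := fun j => normSq (y j)) (fun j _ => normSq_nonneg _)
      (Finset.mem_univ i)
  calc ‖y‖ ^ 2 ≤ Real.sqrt (nsq y) ^ 2 := pow_le_pow_left₀ (norm_nonneg _) h1 2
    _ = nsq y := Real.sq_sqrt h0

theorem tele {t : ℝ} (ht : 0 ≤ t) (n : ℕ) :
    ∑ j ∈ Finset.range n, min 1 (t * (1 / 2) ^ j) ≤ 3 * Real.log (1 + 2 * t) := by
  have h1 : ∀ j : ℕ, min 1 (t * (1 / 2 : ℝ) ^ j) ≤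
      3 * Real.log (1 + 2 * (t * (1 / 2) ^ j)) - 3 * Real.log (1 + 2 * (t * (1 / 2) ^ (j + 1))) := by
    intro j
    have h := min_le (x := t * (1 / 2 : ℝ) ^ j) (by positivity)
    have e : 2 * (t * (1 / 2 : ℝ) ^ (j + 1)) = t * (1 / 2) ^ j := by
      rw [pow_succ]
      ring
    rw [e]
    linarith
  have h2 := Finset.sum_le_sum fun j (_ : j ∈ Finset.range n) => h1 j
  rw [Finset.sum_range_sub' (fun j => 3 * Real.log (1 + 2 * (t * (1 / 2 : ℝ) ^ j))) n] at h2
  have h3 : 0 ≤ Real.log (1 + 2 * (t * (1 / 2 : ℝ) ^ n)) := by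
    refine Real.log_nonneg ?_
    have : 0 ≤ t * (1 / 2 : ℝ) ^ n := by positivity
    linarith
  simp only [pow_zero, mul_one] at h2
  linarith

end SER

open SER in
theorem bSER : St_SER := by
  intro k f c hf h0 hb
  have hs : ∀ l, Summable fun j : ℕ => c l * (1 / 2 : ℝ) ^ j := fun l =>
    (summable_geometric_of_lt_one (by norm_num) (by norm_num)).mul_left _
  have hd : ∀ j, Differentiable ℝ (f j) := fun j => (contDiff_infty_iff_fderiv.1 (hf j)).1
  have hc : ∀ j, ContDiff ℝ ∞ (fderiv ℝ (f j)) := fun j => (contDiff_infty_iff_fderiv.1 (hf j)).2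
  have hd2 : ∀ j, Differentiable ℝ (fderiv ℝ (f j)) := fun j =>
    (contDiff_infty_iff_fderiv.1 (hc j)).1
  have hb1 : ∀ j y, ‖fderiv ℝ (f j) y‖ ≤ c 0 * (1 / 2) ^ j := fun j y => by
    rw [← norm_iteratedFDeriv_one]
    exact hb 0 j y
  have hb2 : ∀ j y, ‖fderiv ℝ (fderiv ℝ (f j)) y‖ ≤ c 1 * (1 / 2) ^ j := fun j y => by
    rw [← norm_iteratedFDeriv_one, norm_iteratedFDeriv_fderiv]
    exact hb 1 j y
  have hz : Summable fun j => f j 0 := by
    simp only [h0]
    exact summable_zero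
  have e1 : (fderiv ℝ fun y => ∑' j, f j y) = fun y => ∑' j, fderiv ℝ (f j) y :=
    fderiv_tsum (hs 0) hd hb1 hz
  have hC : ContDiff ℝ ∞ fun y => ∑' j, fderiv ℝ (f j) y := by
    refine contDiff_tsum (N := ⊤) (v := fun l j => c l * (1 / 2) ^ j) hc (fun l _ => hs l) ?_
    intro l j y _
    rw [norm_iteratedFDeriv_fderiv]
    exact hb l j y
  have hF : ContDiff ℝ ∞ fun y => ∑' j, f j y := by
    refine contDiff_infty_iff_fderiv.2 ⟨?_, ?_⟩
    · exact differentiable_tsum (hs 0) (fun j y => (hd j y).hasFDerivAt) hb1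
    · rw [e1]
      exact hC
  refine ⟨hF, ?_, ?_⟩
  · intro y a b
    have hH : ∀ p q, HasSum (fun j => fderiv ℝ (fderiv ℝ (f j)) y p q)
        (fderiv ℝ (fderiv ℝ fun y => ∑' j, f j y) y p q) := by
      intro p q
      rw [e1]
      exact hs_two (hs 0) (hs 1) hd2 hb1 hb2 y p q
    have hD : DifferentiableAt ℝ (fderiv ℝ fun y => ∑' j, f j y) y :=
      (contDiff_infty_iff_fderiv.1 (contDiff_infty_iff_fderiv.1 hF).2).1 y
    rw [hess_f hD]
    simp only [fun j => hess_f (hd2 j y) a b]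
    exact ((((hH _ _).sub ((hH _ _).mul_left I)).div_const 2).add
      ((((hH _ _).sub ((hH _ _).mul_left I)).div_const 2).mul_left I)).div_const 2
  · intro A hA
    have hC0 : 0 ≤ max (max A (c 0)) 0 := le_max_right _ _
    have hCA : A ≤ max (max A (c 0)) 0 := (le_max_left _ _).trans (le_max_left _ _)
    have hCc : c 0 ≤ max (max A (c 0)) 0 := (le_max_right _ _).trans (le_max_left _ _)
    generalize max (max A (c 0)) 0 = C at hC0 hCA hCc
    refine ⟨C * 3, fun y => ?_⟩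
    have ht : 0 ≤ ‖y‖ := norm_nonneg y
    have h1 : ∀ j, ‖f j y‖ ≤ C * min 1 (‖y‖ * (1 / 2) ^ j) := by
      intro j
      rw [mul_min_of_nonneg _ _ hC0]
      refine le_min (by rw [mul_one]; exact (hA j y).trans hCA) ?_
      have h := Convex.norm_image_sub_le_of_norm_fderiv_le (𝕜 := ℝ) (fun x _ => hd j x)
        (fun x _ => hb1 j x) convex_univ (mem_univ 0) (mem_univ y)
      rw [h0, sub_zero, sub_zero] at h
      have hp : 0 ≤ ‖y‖ * (1 / 2 : ℝ) ^ j := by positivity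
      calc ‖f j y‖ ≤ c 0 * (1 / 2) ^ j * ‖y‖ := h
        _ = c 0 * (‖y‖ * (1 / 2) ^ j) := by ring
        _ ≤ _ := mul_le_mul_of_nonneg_right hCc hp
    have h2 : ∀ n, ∑ j ∈ Finset.range n, ‖f j y‖ ≤ C * 3 * Real.log (2 + nsq y) := by
      intro n
      have h3 : Real.log (1 + 2 * ‖y‖) ≤ Real.log (2 + nsq y) := by
        refine Real.log_le_log (by linarith) ?_
        have := norm_sq_le y
        nlinarith [sq_nonneg (‖y‖ - 1)]
      calc ∑ j ∈ Finset.range n, ‖f j y‖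
          ≤ ∑ j ∈ Finset.range n, C * min 1 (‖y‖ * (1 / 2) ^ j) :=
            Finset.sum_le_sum fun j _ => h1 j
        _ = C * ∑ j ∈ Finset.range n, min 1 (‖y‖ * (1 / 2) ^ j) := by rw [Finset.mul_sum]
        _ ≤ C * (3 * Real.log (2 + nsq y)) :=
            mul_le_mul_of_nonneg_left ((tele ht n).trans (by linarith)) hC0
        _ = _ := by ring
    exact (norm_tsum_le_tsum_norm (summable_of_sum_range_le (fun j => norm_nonneg _) h2)).trans
      (Real.tsum_le_of_sum_range_le (fun j => norm_nonneg _) h2)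

end Pool.Agent.Lib.FI
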