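import Pool.Agent.Lib.FI.Blue

/-! Project fi, row TAM: tame functions. -/

open scoped Classical Topology ContDiff ComplexOrder Matrix
open Set Complex Filter

noncomputable section

namespace Pool.Agent.Lib.FI

open Pool.Agent.Lib.SV (E nsq)
open Pool.Agent.Lib.HS32

namespace TAM

variable {n k : ℕ}

theorem nq_le {A B : Mat n} (h : (B - A).PosSemidef) (v : E n) : nq A v ≤ nq B v := by
  have := (Complex.nonneg_iff.1 (h.dotProduct_mulVec_nonneg v)).1
  rw [Matrix.sub_mulVec, dotProduct_sub, sub_re] at this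
  exact sub_nonneg.1 this

theorem nq_nn {A : Mat n} (h : A.PosSemidef) (v : E n) : 0 ≤ nq A v :=
  (Complex.nonneg_iff.1 (h.dotProduct_mulVec_nonneg v)).1

theorem nq_rs (c : ℝ) (A : Mat n) (v : E n) : nq (c • A) v = c * nq A v := by
  simp only [nq, Matrix.smul_mulVec, dotProduct_smul, smul_re, smul_eq_mul]

theorem nq_add (A B : Mat n) (v : E n) : nq (A + B) v = nq A v + nq B v := by
  simp only [nq, Matrix.add_mulVec, dotProduct_add, add_re]

theorem nq_ct (A : Mat n) (v : E n) : nq Aᴴ v = nq A v := by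
  simp only [nq, dotProduct, Matrix.mulVec, Matrix.conjTranspose_apply, Finset.mul_sum, re_sum]
  rw [Finset.sum_comm]
  refine Finset.sum_congr rfl fun i _ => Finset.sum_congr rfl fun j _ => ?_
  simp only [Pi.star_apply, star_def, mul_re, mul_im, conj_re, conj_im]
  ring

theorem nq_one (v : E n) : nq 1 v = nsq v := by
  simp [nq, nsq, dotProduct, normSq_apply]

theorem nsq_nn (v : E n) : 0 ≤ nsq v := Finset.sum_nonneg fun _ _ => normSq_nonneg _

theorem sq_le (v : E n) : ‖v‖ * ‖v‖ ≤ nsq v := by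
  rw [← sq, ← Real.le_sqrt (norm_nonneg _) (nsq_nn v), pi_norm_le_iff_of_nonneg (Real.sqrt_nonneg _)]
  intro i
  rw [Real.le_sqrt (norm_nonneg _) (nsq_nn v), Complex.sq_norm]
  exact Finset.single_le_sum (f := fun i => normSq (v i)) (fun _ _ => normSq_nonneg _)
    (Finset.mem_univ i)

theorem pull (J : Matrix (Fin k) (Fin n) ℂ) (A : Mat k) (v : E n) :
    star v ⬝ᵥ (Jᴴ * A * J) *ᵥ v = star (J *ᵥ v) ⬝ᵥ A *ᵥ J *ᵥ v := by
  simp only [Matrix.star_mulVec, ← Matrix.mulVec_mulVec, Matrix.dotProduct_mulVec,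
    Matrix.vecMul_vecMul]

theorem pull_nq (J : Matrix (Fin k) (Fin n) ℂ) (A : Mat k) (v : E n) :
    nq (Jᴴ * A * J) v = nq A (J *ᵥ v) := congrArg re (pull J A v)

theorem par (a b : E k) : nsq (a - b) + nsq (a + b) = 2 * nsq a + 2 * nsq b := by
  simp only [nsq, ← Finset.sum_add_distrib, Finset.mul_sum, Pi.add_apply, Pi.sub_apply,
    normSq_apply, add_re, add_im, sub_re, sub_im]
  exact Finset.sum_congr rfl fun i _ => by ring

theorem cs (hFS : St_FS) (b a : E k) : normSq (star b ⬝ᵥ a) ≤ nsq b * nsq a := by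
  obtain ⟨-, -, -, h4, -, h6⟩ := hFS k 1 0 b one_pos
  have := nq_le h4 a
  have h0 := nsq_nn b
  rw [h6, nq_rs, nq_one, sub_zero, div_mul_eq_mul_div, div_le_div_iff_of_pos_right (by positivity)]
    at this
  linarith

/-- The form of Fubini and Study. -/
abbrev fs (y : E k) : Mat k := hr (fun y => Real.log (1 + nsq y)) y

theorem fs_eq (hFS : St_FS) (y a : E k) :
    nq (fs y) a = ((1 + nsq y) * nsq a - normSq (star y ⬝ᵥ a)) / (1 + nsq y) ^ 2 := by
  simpa only [sub_zero] using (hFS k 1 0 y one_pos).2.2.2.2.2 a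

theorem cpt (hFS : St_FS) {A : E k → Mat k} {K : Set (E k)} (hK : IsCompact K)
    (hA : ∀ y, SmM A y) (h0 : ∀ y ∉ K, A y = 0) :
    ∃ c, 0 ≤ c ∧ ∀ y a, ‖star a ⬝ᵥ A y *ᵥ a‖ ≤ c * nq (fs y) a := by
  have cn : Continuous (nsq : E k → ℝ) := continuous_finsetSum _ fun i _ => by fun_prop
  obtain ⟨C, C0, hC⟩ := BBD.up (f := fun y => BBD.sn (A y) * (1 + nsq y) ^ 2) hK fun y _ =>
    (BBD.sn_cont (hA y)).mul (by fun_prop)
  refine ⟨C, C0.le, fun y a => ?_⟩
  have h1 := nsq_nn y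
  have h2 : nsq a / (1 + nsq y) ^ 2 ≤ nq (fs y) a := by
    rw [fs_eq hFS]
    gcongr
    linarith [cs hFS y a]
  have h3 : 0 ≤ nsq a / (1 + nsq y) ^ 2 := div_nonneg (nsq_nn a) (by positivity)
  by_cases hy : y ∈ K
  · calc _ ≤ BBD.sn (A y) * nsq a := (BBD.sesq _ a a).trans
          (mul_le_mul_of_nonneg_left (sq_le a) (BBD.sn_nonneg _))
      _ = BBD.sn (A y) * (1 + nsq y) ^ 2 * (nsq a / (1 + nsq y) ^ 2) := by field_simp
      _ ≤ _ := mul_le_mul (hC y hy) h2 h3 C0.le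
  · rw [h0 y hy, Matrix.zero_mulVec, dotProduct_zero, norm_zero]
    exact mul_nonneg C0.le (h3.trans h2)

theorem lg (hFS : St_FS) {R : ℝ} (hR : 0 < R) (y : E k) : ∃ c, 0 ≤ c ∧ ∀ w a,
    ‖star a ⬝ᵥ hr (fun w => Real.log (R + nsq (w - y))) w *ᵥ a‖ ≤ c * nq (fs w) a := by
  have y0 := nsq_nn y
  refine ⟨(R + 2 * nsq y + 2) * ((1 + 2 * nsq y) / R + 2) ^ 2, by positivity, fun w a => ?_⟩
  obtain ⟨-, h2, -, -, -, h6⟩ := hFS k R y w hR
  rw [← Complex.re_eq_norm.2 (h2.posSemidef.dotProduct_mulVec_nonneg a), ← nq, h6, fs_eq hFS]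
  have t0 := nsq_nn (w - y)
  have s0 := nsq_nn w
  have a0 := nsq_nn a
  have p1 := par w y
  have p2 := par (w - y) y
  have p3 : normSq (star (w - y) ⬝ᵥ a) + normSq (star (w + y) ⬝ᵥ a) =
      2 * normSq (star w ⬝ᵥ a) + 2 * normSq (star y ⬝ᵥ a) := by
    simp only [star_sub, star_add, sub_dotProduct, add_dotProduct, normSq_apply, add_re, add_im,
      sub_re, sub_im]
    ring
  have c1 := cs hFS (w + y) a
  have c2 := cs hFS w a
  have c3 := cs hFS (w - y) a
  have e1 : (R + nsq (w - y)) * nsq a - normSq (star (w - y) ⬝ᵥ a) ≤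
      (R + 2 * nsq y + 2) * ((1 + nsq w) * nsq a - normSq (star w ⬝ᵥ a)) := by
    have := congrArg (· * nsq a) p1
    nlinarith [normSq_nonneg (star y ⬝ᵥ a), mul_nonneg (add_nonneg hR.le (by linarith :
      0 ≤ 2 * nsq y)) (sub_nonneg.2 c2)]
  have e2 : 1 + nsq w ≤ ((1 + 2 * nsq y) / R + 2) * (R + nsq (w - y)) := by
    rw [sub_add_cancel] at p2
    have : (1 + 2 * nsq y) / R * R = 1 + 2 * nsq y := div_mul_cancel₀ _ hR.ne'
    nlinarith [nsq_nn (w - y - y), mul_nonneg (by positivity : 0 ≤ (1 + 2 * nsq y) / R) t0]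
  have e3 : 0 ≤ (1 + nsq w) * nsq a - normSq (star w ⬝ᵥ a) := by nlinarith
  rw [← mul_div_assoc, div_le_div_iff₀ (by positivity) (by positivity)]
  calc _ ≤ (R + 2 * nsq y + 2) * ((1 + nsq w) * nsq a - normSq (star w ⬝ᵥ a)) *
        (((1 + 2 * nsq y) / R + 2) * (R + nsq (w - y))) ^ 2 := by gcongr
    _ = _ := by ring

variable {M : Mf n} {H T G : M.Fam (Mat n)} {p : M.X → ℝ} {u w : M.X → ℂ}

theorem re_bd [M.Cpt] (hH : M.Met H) (hT : M.Ten T) :
    ∃ c, 0 ≤ c ∧ M.All fun e w => ∀ v, |nq (T e w) v| ≤ c * nq (H e w) v := by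
  obtain ⟨C, C0, h1, h2⟩ := (mBD n M H hH).1 _ ⟨hT.add hT.ct, fun e _ w _ =>
    Matrix.isHermitian_add_transpose_self (T e w)⟩
  refine ⟨C / 2, by positivity, fun e he w hw v => ?_⟩
  have a := nq_le (h1 e he w hw) v
  have b := nq_le (h2 e he w hw) v
  simp only [Pi.add_apply, Pi.neg_apply, Pi.smul_apply, ← neg_smul, nq_rs, nq_add, nq_ct] at a b
  exact abs_le.2 ⟨by linarith, by linarith⟩

theorem ten_bd [M.Cpt] (hH : M.Met H) (hT : M.Ten T) :
    ∃ c, 0 ≤ c ∧ M.All fun e w => ∀ v, ‖star v ⬝ᵥ T e w *ᵥ v‖ ≤ c * nq (H e w) v := by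
  obtain ⟨c, c0, h⟩ := re_bd hH hT
  obtain ⟨c', c0', h'⟩ := re_bd hH (hT.csmul (Mf.sm_const I))
  refine ⟨c + c', add_nonneg c0 c0', fun e he w hw v => (norm_le_abs_re_add_abs_im _).trans ?_⟩
  have a := h e he w hw v
  have b := h' e he w hw v
  rw [nq, Matrix.smul_mulVec, dotProduct_smul, smul_eq_mul, I_mul_re, abs_neg] at b
  rw [add_mul]
  exact add_le_add a b

theorem tens (hu : M.Sm u) (hw : M.Sm w) : M.Ten (hc u) ∧ M.Ten (dc u w) := by
  have k : M.Ov fun e e' x => hc u e' (e' x) = (M.J e e' x)ᴴ * hc u e (e x) * M.J e e' x ∧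
      dc u w e' (e' x) = (M.J e e' x)ᴴ * dc u w e (e x) * M.J e e' x := fun e he e' he' x hx hx' => by
    obtain ⟨h1, -, -, h4, -⟩ := (mTR n M).2.1 e he e' he' x hx hx'
    obtain ⟨-, -, -, -, -, -, -, -, -, -, c11, c12⟩ := mCHN n _ _ h1
    have q : (e ∘ e'.symm) (e' x) = e x := by simp only [Function.comp_apply, e'.left_inv hx']
    have ev : ∀ u : M.X → ℂ, u ∘ e'.symm =ᶠ[𝓝 (e' x)] (u ∘ e.symm) ∘ (e ∘ e'.symm) := fun u => by
      filter_upwards [h4] with w hw
      simp only [Function.comp_apply, hw.2.2.2.2.1]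
    have s : ∀ u : M.X → ℂ, M.Sm u → ContDiffAt ℝ ∞ (u ∘ e.symm) ((e ∘ e'.symm) (e' x)) :=
      fun u hu => by rw [q]; exact hu e he _ (e.map_source hx)
    rw [hc, dc, hess_congr (ev u), dd_congr (ev u) (ev w), c12 _ (s u hu),
      c11 _ _ (cd_diff (s u hu)) (cd_diff (s w hw)), q]
    exact ⟨rfl, rfl⟩
  exact ⟨⟨fun e he z hz => smM_hess (hu e he z hz), fun e he e' he' x hx hx' =>
    (k e he e' he' x hx hx').1⟩, fun e he z hz => smM_dd (hu e he z hz) (hw e he z hz),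
    fun e he e' he' x hx hx' => (k e he e' he' x hx hx').2⟩

theorem gb_of (hG : Ao M p fun e w => (G e w).PosDef) (hu : So p u)
    (h1 : Mb p G (dc (fun x => star (u x)) u)) (h2 : Mb p G (dc u fun x => star (u x))) :
    Gb p G u := by
  obtain ⟨c, c0, h1⟩ := h1
  obtain ⟨c', c0', h2⟩ := h2
  refine ⟨c + c', add_nonneg c0 c0', fun e he w hw hp v => ?_⟩
  have d := cd_diff (hu e he w hw hp)
  have g := nq_nn (hG e he w hw hp).posSemidef v
  have e1 : star v ⬝ᵥ dc (fun x => star (u x)) u e w *ᵥ v =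
      star (∑ j, v j * dz j (u ∘ e.symm) w) * ∑ j, v j * dz j (u ∘ e.symm) w := by
    rw [star_sum, Finset.sum_mul_sum]
    simp only [dotProduct, Matrix.mulVec, Finset.mul_sum, star_mul', ← dzb_star d]
    exact Finset.sum_congr rfl fun i _ => Finset.sum_congr rfl fun j _ => by
      rw [dc, dd_apply, Pi.star_apply, mul_assoc, mul_comm (v j), mul_assoc]; rfl
  have e2 : star v ⬝ᵥ dc u (fun x => star (u x)) e w *ᵥ v =
      (∑ j, star (v j) * dzb j (u ∘ e.symm) w) * star (∑ j, star (v j) * dzb j (u ∘ e.symm) w) := by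
    rw [star_sum, Finset.sum_mul_sum]
    simp only [dotProduct, Matrix.mulVec, Finset.mul_sum, star_mul', star_star, ← dz_star d]
    exact Finset.sum_congr rfl fun i _ => Finset.sum_congr rfl fun j _ => by
      rw [dc, dd_apply, Pi.star_apply, mul_assoc, mul_comm (v j), mul_assoc]; rfl
  have a := h1 e he w hw hp v
  have b := h2 e he w hw hp v
  rw [e1, norm_mul, norm_star, ← sq] at a
  rw [e2, norm_mul, norm_star, ← sq] at b
  constructor <;> nlinarith [mul_nonneg c0 g, mul_nonneg c0' g]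

end TAM

open TAM in
theorem bTAM (hCHR : St_CHR) (hFS : St_FS) (hBAS : St_BAS) : St_TAM := by
  intro n k M _ H p z C hF
  obtain ⟨-, -, -, b, -⟩ := hBAS n k M H p z C hF
  have hH := hF.kae.toMet
  have gp : Ao M p fun e w => (g0 H p z C e w).PosDef := fun e he w hw hp =>
    (b e he w hw hp).2.2.2.1
  have ge : Ao M p fun e w => ∀ v, nq (H e w) v ≤ nq (g0 H p z C e w) v ∧
      nq (fs (z (e.symm w))) (jr (z ∘ e.symm) w *ᵥ v) ≤ nq (g0 H p z C e w) v :=
    fun e he w hw hp v => by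
      have a := (b e he w hw hp).2.2.1
      rw [sub_sub] at a
      have a1 := nq_le a v
      rw [nq_add, pull_nq] at a1
      have a2 := nq_nn (hH.pos e he w hw).posSemidef v
      have a3 : 0 ≤ nq (fs (z (e.symm w))) (jr (z ∘ e.symm) w *ᵥ v) := by
        simpa only [sub_zero] using nq_nn (hFS k 1 0 (z (e.symm w)) one_pos).2.1.posSemidef _
      constructor <;> linarith
  have t : ∀ T, M.Ten T → Mb p (g0 H p z C) T := fun T hT => by
    obtain ⟨c, c0, h⟩ := ten_bd hH hT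
    exact ⟨c, c0, fun e he w hw hp v =>
      (h e he w hw v).trans (mul_le_mul_of_nonneg_left (ge e he w hw hp v).1 c0)⟩
  have pb : ∀ (A : E k → Mat k) (T : M.Fam (Mat n)),
      (∃ c, 0 ≤ c ∧ ∀ y a, ‖star a ⬝ᵥ A y *ᵥ a‖ ≤ c * nq (fs y) a) →
      (Ao M p fun e w => T e w = (jr (z ∘ e.symm) w)ᴴ * A (z (e.symm w)) * jr (z ∘ e.symm) w) →
      Mb p (g0 H p z C) T := fun A T ⟨c, c0, h⟩ hT => ⟨c, c0, fun e he w hw hp v => by
    rw [hT e he w hw hp, pull]
    exact (h _ _).trans (mul_le_mul_of_nonneg_left (ge e he w hw hp v).2 c0)⟩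
  have ch := fun e he w hw hp => hCHR n k _ w (hF.hol e he w hw hp)
  refine ⟨t, fun u hu => ?_, fun θ hθ hK => ?_, fun R y hR => ⟨fun e he w hw hp => ?_,
    pb _ _ (lg hFS hR y) fun e he w hw hp => ?_⟩⟩
  · have su : M.Sm fun x => star (u x) := fun e he w hw => cd_star (hu e he w hw)
    have so : So p u := fun e he w hw _ => hu e he w hw
    exact ⟨so, t _ (tens hu hu).1, gb_of gp so (t _ (tens su hu).2) (t _ (tens hu su).2)⟩
  · have so : So p (θ ∘ z) := fun e he w hw hp => hθ.contDiffAt.comp w (ch e he w hw hp).1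
    have z0 := fun y => (notMem_tsupport_iff_eventuallyEq (f := θ) (x := y)).1
    have dm : ∀ f g : E k → ℂ, (∀ y, ContDiffAt ℝ ∞ f y) → (∀ y, ContDiffAt ℝ ∞ g y) →
        (∀ y ∉ tsupport θ, dd f g y = 0) → Mb p (g0 H p z C) (dc (f ∘ z) (g ∘ z)) :=
      fun f g hf hg h0 => pb (dd f g) _ (cpt hFS hK (fun y => smM_dd (hf y) (hg y)) h0)
        fun e he w hw hp => (ch e he w hw hp).2.2.2.2.1 f g (cd_diff (hf _)) (cd_diff (hg _))
    have m1 := dm (fun y => star (θ y)) θ (fun y => cd_star hθ.contDiffAt)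
      (fun y => hθ.contDiffAt) fun y hy => by
        ext i j
        rw [dd_apply, (dz_congr (z0 y hy)).trans (dz_const 0), mul_zero, Matrix.zero_apply]
    have m2 := dm θ (fun y => star (θ y)) (fun y => hθ.contDiffAt)
      (fun y => cd_star hθ.contDiffAt) fun y hy => by
        ext i j
        rw [dd_apply, (dzb_congr (z0 y hy)).trans (dzb_const 0), zero_mul, Matrix.zero_apply]
    exact ⟨so, pb (hess θ) _ (cpt hFS hK (fun y => smM_hess hθ.contDiffAt) fun y hy =>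
      (hess_congr (z0 y hy)).trans (hess_const 0)) fun e he w hw hp =>
        (ch e he w hw hp).2.2.2.2.2 θ hθ.contDiffAt, gb_of gp so m1 m2⟩
  · exact (hFS k R y _ hR).1.comp w (ch e he w hw hp).1
  · exact (ch e he w hw hp).2.2.2.2.2 (fun w => (Real.log (R + nsq (w - y)) : ℝ))
      (cd_ofReal (hFS k R y _ hR).1)

end Pool.Agent.Lib.FI
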