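import Pool.Agent.Lib.FI.Blue

/-! Project fi: the plurisubharmonic function that detects the bad points. -/

open scoped Classical Topology ContDiff ComplexOrder Matrix ENNReal
open Set MeasureTheory Complex Metric Filter

noncomputable section

namespace Pool.Agent.Lib.FI

open Pool.Agent.Lib.SV (E nsq)
open Pool.Agent.Lib.HS32

namespace UPS

variable {k : ℕ}

theorem tst {r : E k → ℝ} (h : Tst r) {e : ℝ} (he : 0 < e) (y : E k) :
    Tst fun w => sc r e (y - w) := by
  refine ⟨contDiff_const.mul (h.sm.comp ((contDiff_const.sub contDiff_id).const_smul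
    ((e⁻¹ : ℝ) : ℂ))), HasCompactSupport.mul_left (f := fun _ => (e ^ (2 * k))⁻¹) ?_⟩
  exact h.cs.comp_homeomorph ((Homeomorph.subLeft y).trans (Homeomorph.smulOfNeZero
    ((e⁻¹ : ℝ) : ℂ) (ofReal_ne_zero.2 (inv_ne_zero he.ne'))))

theorem sc0 {r : E k → ℝ} (h : ∀ y, 0 ≤ r y) {e : ℝ} (he : 0 < e) (y : E k) : 0 ≤ sc r e y :=
  mul_nonneg (by positivity) (h _)

theorem psd {T : Mat k} (h : T.IsHermitian)
    (h' : ∀ N : Mat k, N.PosSemidef → 0 ≤ (N * T).trace.re) : T.PosSemidef := by
  refine .of_dotProduct_mulVec_nonneg h fun x => ?_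
  have e : (Matrix.vecMulVec x (star x) * T).trace = star x ⬝ᵥ T *ᵥ x := by
    rw [Matrix.vecMulVec_mul, Matrix.trace_vecMulVec, dotProduct_comm, Matrix.dotProduct_mulVec]
  refine Complex.le_def.2 ⟨?_, (h.im_star_dotProduct_mulVec_self x).symm⟩
  rw [← e]
  exact h' _ (Matrix.posSemidef_vecMulVec_self_star x)

theorem tri {Y : Type} [MeasurableSpace Y] {μ : Measure Y} {a : Y → ℝ} {A : Y → Mat k}
    (h : ∀ i j, Integrable (fun x => (a x : ℂ) * A x i j) μ) (N : Mat k) :
    (N * Matrix.of fun i j => ∫ x, (a x : ℂ) * A x i j ∂μ).trace.re =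
      ∫ x, a x * (N * A x).trace.re ∂μ := by
  have e : ∀ x, a x * (N * A x).trace.re = (∑ i, ∑ j, N i j * ((a x : ℂ) * A x j i)).re := fun x => by
    rw [← re_ofReal_mul]
    simp only [Matrix.trace, Matrix.diag, Matrix.mul_apply, Finset.mul_sum, mul_left_comm]
  have i1 : ∀ i, Integrable (fun x => ∑ j, N i j * ((a x : ℂ) * A x j i)) μ := fun i =>
    integrable_finsetSum _ fun j _ => (h j i).const_mul _
  have e2 := integral_re (integrable_finsetSum Finset.univ fun i _ => i1 i)
  simp only [e]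
  refine Eq.trans ?_ e2.symm
  rw [integral_finsetSum _ fun i _ => i1 i]
  simp only [Matrix.trace, Matrix.diag, Matrix.mul_apply, Matrix.of_apply, RCLike.re_to_complex]
  refine congrArg _ (Finset.sum_congr rfl fun i _ => ?_)
  rw [integral_finsetSum _ fun j _ => (h j i).const_mul _]
  simp only [integral_const_mul]

end UPS

open UPS in
theorem bUPS (hITG : St_ITG) (hG2 : St_G2) (hSMO : St_SMO) (hPOT : St_POT) (hCON : St_CON) :
    St_UPS := by
  intro n k M _ H p z C V r Ψ J hF hV hR hJ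
  obtain ⟨v, hv, -, dv⟩ := hPOT n k M H p z C r Ψ hF hR
  obtain ⟨s1, s2⟩ := hSMO n k M H p z C V r Ψ hF hV hR
  have jp : ∀ d : ℝ, 0 < d → ∀ x, 0 < J x + d := fun d hd x => add_pos_of_nonneg_of_pos (hJ.j0 x) hd
  have sl : ∀ d : ℝ, 0 < d → M.Sm fun x => Real.log (J x + d) := fun d hd =>
    (hJ.sm.add (Mf.sm_const d)).log fun x => (jp d hd x).ne'
  have g2 : ∀ d : ℝ, 0 < d → ∀ (θ : E k → ℝ) (N : Mat k), Tst θ → (∀ y, 0 ≤ θ y) → N.PosSemidef →
      0 ≤ ∫ x in {x | 0 < p x}, Real.log (J x + d) * (N * hr θ (z x)).trace.re * dn H z x ∂M.mu H +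
        max C 0 * (n - k + 1 : ℕ) * ∫ x in {x | 0 < p x},
          θ (z x) * (N * (hz H z x).adjugate).trace.re ∂M.mu H := fun d hd θ N t1 t2 t3 => by
    have := hG2 n k M H p z C (max C 0) _ θ N univ hF (sl d hd) (le_max_right _ _)
      ((hJ.psh d hd).trans ((hF.kae.toMet.le_smul (le_max_left _ _)).add (Mf.Le.refl _)))
      isClosed_univ (subset_univ _) t1 t2 t3
    rw [inter_univ] at this
    linarith
  have c0 : 0 ≤ max C 0 * ((n - k + 1 : ℕ) : ℝ) := by positivity
  obtain ⟨x0, hx0⟩ := (sl 1 one_pos).exists_max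
  set B := Real.log (J x0 + 1)
  have B0 : 0 ≤ B := Real.log_nonneg (le_add_of_nonneg_left (hJ.j0 x0))
  have cst : ∀ (a e : ℝ) y, 0 < e → fi H p z r (fun _ => a) e y = a * V := fun a e y he => by
    rw [← (s1 e y he).1]
    simp only [fi, one_mul, mul_assoc, integral_const_mul]
  refine ⟨v, _, fun d e y => fi H p z r (fun x => Real.log (J x + d)) e y +
    max C 0 * (n - k + 1 : ℕ) * v e y, hv, c0, fun _ _ _ => rfl, fun d e hd he => ?_,
    fun d d' e e' y hd dd he ee => ?_, ?_, fun y hy A => ?_⟩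
  · obtain ⟨a1, a2⟩ := s2 _ (sl d hd).continuous e he
    obtain ⟨b1, b2⟩ := hv.sm e he
    have a3 := a1.add (contDiff_const.mul b1 : ContDiff ℝ ∞ fun y =>
      max C 0 * ((n - k + 1 : ℕ) : ℝ) * v e y)
    refine ⟨a3, fun y => psd (hess_herm a3.contDiffAt) fun N hN => ?_⟩
    have t := tst hR.tr he y
    have e1 : hr (fun y => fi H p z r (fun x => Real.log (J x + d)) e y +
        max C 0 * (n - k + 1 : ℕ) * v e y) y = hr (fi H p z r (fun x => Real.log (J x + d)) e) y +
        ((max C 0 * (n - k + 1 : ℕ) : ℝ) : ℂ) • hr (v e) y := by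
      rw [hr, hr, hr, ← hess_const_mul _ (cd_ofReal b1.contDiffAt), ← hess_add
        (cd_ofReal a1.contDiffAt) (contDiffAt_const.mul (cd_ofReal b1.contDiffAt))]
      simp only [ofReal_add, ofReal_mul]
    have i1 : ∀ i j, Integrable (fun x => (sc r e (y - z x) : ℂ) * (hz H z x).adjugate i j)
        ((M.mu H).restrict {x | 0 < p x}) := fun i j =>
      ((hITG n k M H p z C (fun _ => 1) (fun w => (sc r e (y - w) : ℂ)) hF continuous_const
        (continuous_ofReal.comp t.sm.continuous) (t.cs.comp_left ofReal_zero)).2 i j).integrable.congr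
        (Eventually.of_forall fun x => by simp only [one_mul])
    rw [e1, Matrix.mul_add, Matrix.mul_smul, Matrix.trace_add, Matrix.trace_smul, add_re,
      smul_eq_mul, re_ofReal_mul, (a2 y).1, b2, ft, tri i1]
    exact g2 d hd _ N t (fun w => sc0 hR.r0 he _) hN
  · have h1 := ((s1 e y he).2 _ _ (sl d hd).continuous (sl d' (hd.trans_le dd)).continuous).2
      fun x => Real.log_le_log (jp d hd x) (add_le_add_right dd _)
    have hd' := hd.trans_le dd
    have der := fun t (ht : t ∈ Ioi (0 : ℝ)) => (((s2 _ (sl d' hd').continuous t ht).2 y).2).add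
      ((dv t y ht).const_mul (max C 0 * ((n - k + 1 : ℕ) : ℝ)))
    have h2 := monotoneOn_of_hasDerivWithinAt_nonneg (convex_Ioi (0 : ℝ))
      (fun t ht => (der t ht).continuousAt.continuousWithinAt)
      (fun t ht => (der t (interior_subset ht)).hasDerivWithinAt) (fun t ht => by
        have ht' : 0 < t := interior_subset ht
        have := mul_nonneg ht'.le (g2 d' hd' _ 1 (tst hR.tp ht' y) (fun w => sc0 hR.p0 ht' _)
          Matrix.PosSemidef.one)
        simp only [Matrix.one_mul] at this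
        linarith) he (he.trans_le ee) ee
    exact (add_le_add_left h1 _).trans h2
  · obtain ⟨c, hc⟩ := hv.up
    refine ⟨B * V / Real.log 2 + max C 0 * (n - k + 1 : ℕ) * c, fun y => ?_⟩
    have h1 := (((s1 1 y one_pos).2 _ _ (sl 1 one_pos).continuous continuous_const).2 hx0).trans_eq
      (cst B 1 y one_pos)
    have l2 : 0 < Real.log 2 := Real.log_pos one_lt_two
    have h2 : Real.log 2 ≤ Real.log (2 + nsq y) := Real.log_le_log two_pos
      (le_add_of_nonneg_right (Finset.sum_nonneg fun _ _ => normSq_nonneg _))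
    have h3 := mul_le_mul_of_nonneg_left h2 (div_nonneg (mul_nonneg B0 hV.1) l2.le)
    rw [div_mul_cancel₀ _ l2.ne'] at h3
    have h4 := mul_le_mul_of_nonneg_left (hc y) c0
    beta_reduce
    linarith
  · simp only [Good, not_forall, not_exists, not_and] at hy
    obtain ⟨η, η0, hη⟩ := hy
    obtain ⟨L, L0, hL⟩ : ∃ L : ℝ, 0 ≤ L ∧
        B * V - L * (η / 2) + max C 0 * (n - k + 1 : ℕ) * v 1 y ≤ A := by
      refine ⟨max 0 ((B * V + max C 0 * (n - k + 1 : ℕ) * v 1 y - A) / (η / 2)),
        le_max_left _ _, ?_⟩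
      have := (div_le_iff₀ (half_pos η0)).1 (le_max_right 0
        ((B * V + max C 0 * (n - k + 1 : ℕ) * v 1 y - A) / (η / 2)))
      linarith
    obtain ⟨δ, δ0, δ1, δ2⟩ : ∃ δ : ℝ, 0 < δ ∧ δ ≤ 1 ∧ 2 * δ ≤ Real.exp (B - L) :=
      ⟨min 1 (Real.exp (B - L) / 2), lt_min one_pos (half_pos (Real.exp_pos _)), min_le_left _ _,
        by linarith [min_le_right 1 (Real.exp (B - L) / 2)]⟩
    have sφ : M.Sm fun x => Real.smoothTransition (2 * J x * δ⁻¹ - 1) :=
      (((hJ.sm.const_mul 2).mul (Mf.sm_const δ⁻¹)).sub (Mf.sm_const 1)).comp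
        fun _ => Real.smoothTransition.contDiffAt
    have tφ : tsupport (fun x => Real.smoothTransition (2 * J x * δ⁻¹ - 1)) ⊆ {x | 0 < J x} := by
      refine (closure_minimal (t := {x | δ / 2 ≤ J x}) (fun x hx => ?_)
        (isClosed_le continuous_const hJ.sm.continuous)).trans fun x hx => (half_pos δ0).trans_le hx
      by_contra h
      refine hx (Real.smoothTransition.zero_of_nonpos (sub_nonpos.2 ?_))
      rw [← div_eq_mul_inv, div_le_one δ0]
      linarith [show J x < δ / 2 from not_le.1 h]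
    obtain ⟨I, -, hI, -⟩ := hCON n k M H p z C V r Ψ J _ hF hV hR hJ sφ tφ
    have h1 : I y ≤ V - η := le_of_not_gt fun h => hη _ sφ (fun x =>
      ⟨Real.smoothTransition.nonneg _, Real.smoothTransition.le_one _⟩) tφ
      (((hI y).eventually (lt_mem_nhds h)).mono fun a ha => ha.le)
    have h2 : Tendsto (fun e : ℝ => (e, y)) (𝓝[>] 0) (nb y) := tendsto_id.prodMk tendsto_const_nhds
    obtain ⟨e, h3, he⟩ := ((((hI y).comp h2).eventually (gt_mem_nhds
      (show I y < V - η / 2 by linarith))).and (Ioc_mem_nhdsGT one_pos)).exists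
    refine ⟨δ, e, δ0, he.1, ?_⟩
    have h4 := ((s1 e y he.1).2 (fun _ => B - L) _ continuous_const sφ.continuous).1 L
    have h5 := ((s1 e y he.1).2 _ (fun x => B - L + L * Real.smoothTransition (2 * J x * δ⁻¹ - 1))
      (sl δ δ0).continuous (continuous_const.add (continuous_const.mul sφ.continuous))).2 fun x => by
      by_cases h : δ ≤ J x
      · have h0 : 1 ≤ 2 * J x * δ⁻¹ - 1 := by
          rw [le_sub_iff_add_le, ← div_eq_mul_inv, le_div_iff₀ δ0]
          linarith
        rw [Real.smoothTransition.one_of_one_le h0, mul_one, sub_add_cancel]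
        exact (Real.log_le_log (jp δ δ0 x) (add_le_add_right δ1 _)).trans (hx0 x)
      · exact ((Real.log_le_iff_le_exp (jp δ δ0 x)).2 (by linarith [not_le.1 h])).trans
          (le_add_of_nonneg_right (mul_nonneg L0 (Real.smoothTransition.nonneg _)))
    rw [h4, cst _ e y he.1] at h5
    have h6 := mul_le_mul_of_nonneg_left (le_of_lt h3) L0
    have h7 := mul_le_mul_of_nonneg_left (hv.mono e 1 y he.1 he.2) c0
    simp only [Function.comp] at h6
    beta_reduce
    linarith

end Pool.Agent.Lib.FI
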