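import Pool.Agent.Lib.FI.B_SMO
import Pool.Agent.Lib.FI.B_CNV

/-! Project fi, row VOL: the push-forward of the density is invariant under translations. -/

open scoped Classical Topology ContDiff ComplexOrder Matrix ENNReal Manifold
open Set MeasureTheory Complex Metric Filter

noncomputable section

namespace Pool.Agent.Lib.FI

open Pool.Agent.Lib.SV (E nsq)
open Pool.Agent.Lib.HS32

namespace VOL

variable {k : ℕ}

theorem le_open {ν ν' : Measure (E k)} [IsFiniteMeasureOnCompacts ν] [IsFiniteMeasureOnCompacts ν']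
    (h : ∀ θ, Tst θ → ∫ y, θ y ∂ν = ∫ y, θ y ∂ν') {U : Set (E k)} (hU : IsOpen U) : ν U ≤ ν' U := by
  rw [hU.measure_eq_iSup_isCompact ν]
  refine iSup₂_le fun K hK => iSup_le fun cK => ?_
  obtain ⟨L, cL, h1, h2⟩ := exists_compact_between cK hU hK
  obtain ⟨f, f0, f1, f2⟩ := exists_contMDiffMap_zero_one_of_isClosed 𝓘(ℝ, E k) (n := ⊤)
    isOpen_interior.isClosed_compl cK.isClosed (disjoint_compl_left_iff_subset.2 h1)
  have z0 : ∀ y ∉ L, f y = 0 := fun y hy => f0 fun c => hy (interior_subset c)
  have t : Tst f := ⟨f.contMDiff.contDiff, .intro cL z0⟩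
  have i : ∀ (μ : Measure (E k)) [IsFiniteMeasureOnCompacts μ],
      ENNReal.ofReal (∫ y, f y ∂μ) = ∫⁻ y, ENNReal.ofReal (f y) ∂μ := fun μ _ =>
    ofReal_integral_eq_lintegral_ofReal (t.sm.continuous.integrable_of_hasCompactSupport t.cs)
      (.of_forall fun y => (f2 y).1)
  rw [← lintegral_indicator_one cK.measurableSet, ← lintegral_indicator_one hU.measurableSet]
  refine (lintegral_mono fun y => ?_).trans
    (((i ν).symm.trans ((congrArg _ (h f t)).trans (i ν'))).trans_le (lintegral_mono fun y => ?_))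
  · by_cases hy : y ∈ K
    · simp [hy, f1 hy]
    · simp [hy]
  · by_cases hy : y ∈ U
    · simpa [hy] using (f2 y).2
    · simp [z0 y fun c => hy (h2 c)]

theorem ext {ν ν' : Measure (E k)} [IsFiniteMeasureOnCompacts ν] [IsFiniteMeasureOnCompacts ν']
    (h : ∀ θ, Tst θ → ∫ y, θ y ∂ν = ∫ y, θ y ∂ν') : ν = ν' :=
  Measure.OuterRegular.ext_isOpen fun _ hU =>
    (le_open h hU).antisymm (le_open (fun θ t => (h θ t).symm) hU)

end VOL

theorem bVOL (hB : St_BAS) (hI : St_ITG) (hG : St_G1) : St_VOL := by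
  intro n k M _ H p z C hF
  obtain ⟨hO, hz0, hh, hA, -⟩ := hB n k M H p z C hF
  set m := (M.mu H).restrict {x | 0 < p x}
  have zm : AEMeasurable z m := hz0.aemeasurable hO.measurableSet
  have d0 : ∀ᵐ x ∂m, 0 ≤ dn H z x := (ae_restrict_mem hO.measurableSet).mono fun x hx => by
    obtain ⟨e, he, h1⟩ := M.cov x
    have h2 := hA e he _ (e.map_source h1) (by rwa [e.left_inv h1])
    have h3 := h2.1
    rw [e.left_inv h1] at h3
    rw [dn, h3]
    exact (le_def.1 h2.2.1.det_nonneg).1
  have dc : ContinuousOn (dn H z) {x | 0 < p x} := continuous_re.comp_continuousOn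
    ((continuous_id.matrix_det).comp_continuousOn
      (continuousOn_pi.2 fun i => continuousOn_pi.2 fun j => hh i j))
  have dm : AEMeasurable (fun x => ENNReal.ofReal (dn H z x)) m :=
    (dc.aemeasurable hO.measurableSet).ennreal_ofReal
  have iC : ∀ {θ : E k → ℂ}, Continuous θ → HasCompactSupport θ →
      Integrable (fun x => θ (z x) * (dn H z x : ℂ)) m := fun {θ} a b =>
    Integrable.congr (hI n k M H p z C 1 θ hF continuous_const a b).1 (.of_forall fun x => by simp)
  have iR : ∀ R : ℝ, IntegrableOn (fun x => (dn H z x : ℂ)) {x | nsq (z x) ≤ R} m := fun R => by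
    obtain ⟨θ, t1, t2, t3⟩ := SMO.bump (k := k) R
    have mm : NullMeasurableSet {x | nsq (z x) ≤ R} m :=
      nullMeasurableSet_le ((show Continuous (nsq : E k → ℝ) by
        unfold nsq; fun_prop).measurable.comp_aemeasurable zm) aemeasurable_const
    exact Integrable.congr (iC t1 t2).restrict
      ((ae_restrict_mem₀ mm).mono fun x hx => by simp only [t3 _ hx, one_mul])
  have zw : AEMeasurable z (m.withDensity fun x => ENNReal.ofReal (dn H z x)) :=
    zm.mono_ac (withDensity_absolutelyContinuous _ _)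
  set ν := (m.withDensity fun x => ENNReal.ofReal (dn H z x)).map z
  have li : ∀ θ : E k → ℝ≥0∞, Measurable θ →
      ∫⁻ y, θ y ∂ν = ∫⁻ x, θ (z x) * ENNReal.ofReal (dn H z x) ∂m := fun θ hθ => by
    rw [lintegral_map' hθ.aemeasurable zw,
      lintegral_withDensity_eq_lintegral_mul₀ (g := fun x => θ (z x)) dm (hθ.comp_aemeasurable zm)]
    simp only [Pi.mul_apply, mul_comm]
  have ri : ∀ θ : E k → ℝ, Continuous θ →
      ((∫ y, θ y ∂ν : ℝ) : ℂ) = ∫ x, (θ (z x) : ℂ) * (dn H z x : ℂ) ∂m := fun θ hθ => by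
    rw [integral_map zw hθ.aestronglyMeasurable, integral_withDensity_eq_integral_toReal_smul₀ dm
      (.of_forall fun _ => ENNReal.ofReal_lt_top), ← integral_complex_ofReal]
    refine integral_congr_ae (d0.mono fun x hx => ?_)
    simp [ENNReal.toReal_ofReal hx, mul_comm]
  have fin : IsFiniteMeasureOnCompacts ν := ⟨fun K hK => by
    obtain ⟨f, f1, -, f2, f3⟩ := exists_continuous_one_zero_of_isCompact hK isClosed_empty
      (disjoint_empty _)
    have := (iC (θ := fun y => (f y : ℂ)) (by fun_prop)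
      (f2.comp_left (g := fun t : ℝ => (t : ℂ)) rfl)).2
    rw [← lintegral_indicator_one hK.measurableSet,
      li _ (measurable_one.indicator hK.measurableSet)]
    refine lt_of_le_of_lt (lintegral_mono fun x => ?_) this
    by_cases hx : z x ∈ K
    · simp only [indicator_of_mem hx, f1 hx, Pi.one_apply, one_mul, ofReal_one, ← ofReal_norm,
        norm_real]
      exact ENNReal.ofReal_le_ofReal (le_abs_self _)
    · simp [hx]⟩
  have inv : ν.IsAddLeftInvariant := ⟨fun g => by
    have : IsFiniteMeasureOnCompacts (ν.map (g + ·)) :=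
      Measure.IsFiniteMeasureOnCompacts.map ν (Homeomorph.addLeft g)
    refine VOL.ext fun θ t => ofReal_injective ?_
    have tc := t.sm.continuous
    rw [integral_map (by fun_prop) tc.aestronglyMeasurable, ri _ (by fun_prop), ri _ tc]
    have s1 : ContDiff ℝ ∞ fun w => (θ (-w) : ℂ) := ofRealCLM.contDiff.comp (t.sm.comp contDiff_neg)
    have s2 : HasCompactSupport fun w => (θ (-w) : ℂ) :=
      (t.cs.comp_homeomorph (Homeomorph.neg _)).comp_left (g := fun t : ℝ => (t : ℂ)) rfl
    obtain ⟨a1, a2⟩ := (bCNV k M.X m z _ zm iR).1 _ s1 s2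
    have := is_const_of_fderiv_eq_zero (a1.differentiable (by simp)) (fun y => ?_) (-g) 0
    · simpa [add_comm] using this
    ext1 v
    let u : E k → ℝ := fun w => θ (-(y - w))
    have u0 : ContDiff ℝ ∞ u := t.sm.comp (by fun_prop)
    have u1 : ContDiff ℝ ∞ fun w => (u w : ℂ) := ofRealCLM.contDiff.comp u0
    have u2 : HasCompactSupport fun w => (u w : ℂ) := s2.comp_homeomorph (Homeomorph.subLeft y)
    have e1 : ∀ w, fderiv ℝ (fun w => (θ (-w) : ℂ)) (y - w) v = ∑ j,
        (-v j * dz j (fun w => (u w : ℂ)) w + -star (v j) * star (dz j (fun w => (u w : ℂ)) w)) :=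
      fun w => by
        have := ((s1.differentiable (by simp) (y - w)).hasFDerivAt.comp w
          ((hasFDerivAt_id w).const_sub y)).fderiv
        have e2 := congrArg (· (-v)) this
        simp only [ContinuousLinearMap.comp_apply, _root_.neg_apply,
          ContinuousLinearMap.id_apply, neg_neg] at e2
        rw [← e2]
        refine (fderiv_eq_sum _ _ _).trans (Finset.sum_congr rfl fun j _ => ?_)
        rw [star_dz_ofReal (u1.differentiable (by simp) w)]
        simp only [Pi.neg_apply, star_neg]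
        exact congrArg₂ (· + ·) (mul_comm _ _) (mul_comm _ _)
    have i1 : ∀ j, Integrable (fun x => dz j (fun w => (u w : ℂ)) (z x) * (dn H z x : ℂ)) m :=
      fun j => iC (continuous_iff_continuousAt.2 fun w => (cd_dz u1.contDiffAt j).continuousAt)
        (((u2.fderiv_apply ℝ _).sub (u2.fderiv_apply ℝ _).mul_left).mul_right)
    have i2 : ∀ j x, star (dz j (fun w => (u w : ℂ)) (z x)) * (dn H z x : ℂ) =
        (starRingEnd ℂ) (dz j (fun w => (u w : ℂ)) (z x) * (dn H z x : ℂ)) := fun j x => by simp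
    have i3 : ∀ j, Integrable (fun x => (starRingEnd ℂ)
        (dz j (fun w => (u w : ℂ)) (z x) * (dn H z x : ℂ))) m :=
      fun j => (conjCLE : ℂ →L[ℝ] ℂ).integrable_comp (i1 j)
    rw [(a2 y).2.1 v]
    simp only [e1, Finset.sum_mul, add_mul, mul_assoc, i2]
    refine (integral_finsetSum _ fun j _ =>
      ((i1 j).const_mul _).fun_add ((i3 j).const_mul _)).trans (Finset.sum_eq_zero fun j _ => ?_)
    rw [integral_add ((i1 j).const_mul _) ((i3 j).const_mul _), integral_const_mul,
      integral_const_mul, integral_conj, (hG n k M H p z C _ hF u1 u2 j).1]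
    simp⟩
  refine ⟨Measure.addHaarScalarFactor ν volume, NNReal.coe_nonneg _, fun θ hθ => ?_⟩
  rw [← li θ hθ, ENNReal.ofReal_coe_nnreal]
  conv_lhs => rw [Measure.isAddLeftInvariant_eq_smul ν volume]
  rw [lintegral_smul_measure]
  rfl

end Pool.Agent.Lib.FI
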