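import Pool.Agent.Lib.FI.PBlue

/-! The inequality of Young. -/

open scoped Classical Topology ContDiff ComplexOrder Matrix ENNReal
open Set MeasureTheory Complex Metric Filter

noncomputable section

namespace Pool.Agent.Lib.FI

open Pool.Agent.Lib.SV (E nsq)

namespace YNG

variable {k : ℕ}

theorem tri90 (a b : E k) : nsq a ≤ 2 * nsq b + 2 * nsq (b - a) := by
  simp only [nsq, Finset.mul_sum, ← Finset.sum_add_distrib]
  refine Finset.sum_le_sum fun j _ => ?_
  simp only [normSq_apply, Pi.sub_apply, sub_re, sub_im]
  nlinarith [sq_nonneg (2 * (b j).re - (a j).re), sq_nonneg (2 * (b j).im - (a j).im)]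

theorem big90 {w : E k} (h : w ∉ closedBall (0 : E k) 1) : 1 ≤ nsq w := by
  rw [mem_closedBall_zero_iff, pi_norm_le_iff_of_nonneg zero_le_one] at h
  obtain ⟨j, hj⟩ := not_forall.1 h
  refine le_trans ?_ (Finset.single_le_sum (f := fun j => normSq (w j))
    (fun j _ => normSq_nonneg _) (Finset.mem_univ j))
  rw [normSq_eq_norm_sq]
  nlinarith [not_le.1 hj]

end YNG

open YNG in
theorem bYNG : St_YNG := by
  intro k Ω _ m _ z s K R A hz hs h0 hi hK K0 K1 hA
  set T := {x | nsq (z x) ≤ 2 * R + 2}
  have iK : Integrable K := hK.integrable_of_hasCompactSupport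
    (HasCompactSupport.intro (isCompact_closedBall 0 1) fun w hw => K1 w (big90 hw))
  have h0' : ∀ᵐ x ∂m.restrict T, 0 ≤ s x := ae_restrict_of_ae h0
  have e : ∀ x, ∫ y, K (y - z x) * s x = (∫ w, K w) * s x := fun x => by
    rw [integral_mul_const, integral_sub_right_eq_self K (z x)]
  have iF : Integrable (Function.uncurry fun (y : E k) (x : Ω) => K (y - z x) * s x)
      (volume.prod (m.restrict T)) := by
    refine (integrable_prod_iff' ((hK.measurable.comp_aemeasurable (measurable_fst.aemeasurable.sub
      hz.restrict.comp_snd)).mul hs.restrict.comp_snd).aestronglyMeasurable).2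
      ⟨Eventually.of_forall fun x => (iK.comp_sub_right (z x)).mul_const (s x), ?_⟩
    refine (hi.const_mul (∫ w, K w)).congr (h0'.mono fun x hx => (e x).symm.trans ?_)
    exact integral_congr_ae (Eventually.of_forall fun y =>
      (Real.norm_of_nonneg (mul_nonneg (K0 _) hx)).symm)
  have c : Continuous fun y : E k => nsq y :=
    continuous_finsetSum _ fun j _ => continuous_normSq.comp (continuous_apply j)
  calc ∫ y in {y | nsq y ≤ R}, ∫ x, K (y - z x) * s x ∂m
      = ∫ y in {y | nsq y ≤ R}, ∫ x in T, K (y - z x) * s x ∂m := by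
        refine setIntegral_congr_fun (isClosed_le c continuous_const).measurableSet fun y hy => ?_
        refine (setIntegral_eq_integral_of_forall_compl_eq_zero fun x hx => ?_).symm
        have a : nsq y ≤ R := hy
        have b : 2 * R + 2 < nsq (z x) := not_le.1 hx
        rw [K1 _ (by linarith [tri90 (z x) y]), zero_mul]
    _ ≤ ∫ y, ∫ x in T, K (y - z x) * s x ∂m := setIntegral_le_integral iF.integral_prod_left
        (Eventually.of_forall fun y => integral_nonneg_of_ae
          (h0'.mono fun x hx => mul_nonneg (K0 _) hx))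
    _ = (∫ w, K w) * ∫ x in T, s x ∂m := by
        rw [integral_integral_swap iF, ← integral_const_mul]
        exact integral_congr_ae (Eventually.of_forall e)
    _ ≤ _ := mul_le_mul_of_nonneg_right hA (integral_nonneg_of_ae h0')

end Pool.Agent.Lib.FI
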