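import Pool.Agent.Lib.FI.B_ADJ
import Pool.Agent.Lib.FI.B_BAL
import Pool.Agent.Lib.FI.B_BAS
import Pool.Agent.Lib.FI.B_CHR
import Pool.Agent.Lib.FI.B_CNV
import Pool.Agent.Lib.FI.B_CON
import Pool.Agent.Lib.FI.B_FS
import Pool.Agent.Lib.FI.B_G1
import Pool.Agent.Lib.FI.B_G2
import Pool.Agent.Lib.FI.B_G3
import Pool.Agent.Lib.FI.B_GOO
import Pool.Agent.Lib.FI.B_GRO
import Pool.Agent.Lib.FI.B_ITG
import Pool.Agent.Lib.FI.B_KER
import Pool.Agent.Lib.FI.B_LA2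
import Pool.Agent.Lib.FI.B_LAG
import Pool.Agent.Lib.FI.B_MAS
import Pool.Agent.Lib.FI.B_POT
import Pool.Agent.Lib.FI.B_RAD
import Pool.Agent.Lib.FI.B_SER
import Pool.Agent.Lib.FI.B_SMO
import Pool.Agent.Lib.FI.B_SYL
import Pool.Agent.Lib.FI.B_TAM
import Pool.Agent.Lib.FI.B_UPS
import Pool.Agent.Lib.FI.B_VOL
import Pool.Agent.Lib.FI.B_YNG

/-! Fibre integrals: all rows without hypotheses. -/

namespace Pool.Agent.Lib.FI

theorem aBAS : St_BAS := bBAS bCHR bFS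

theorem aLAG : St_LAG := bLAG bSYL

theorem aLA2 : St_LA2 := bLA2 bSYL

theorem aTAM : St_TAM := bTAM bCHR bFS aBAS

theorem aBAL : St_BAL := bBAL bSYL bCHR bFS aBAS bMAS

theorem aITG : St_ITG := bITG aBAS aBAL

theorem aGRO : St_GRO := bGRO bADJ aBAS aTAM bMAS

theorem aG1 : St_G1 := bG1 aLAG aLA2 bCHR aTAM aGRO

theorem aG2 : St_G2 := bG2 aLAG bCHR aTAM aGRO aITG

theorem aG3 : St_G3 := bG3 aG1 aITG

theorem aVOL : St_VOL := bVOL aBAS aITG aG1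

theorem aSMO : St_SMO := bSMO aBAS aITG bCNV

theorem aCON : St_CON := bCON aBAS aG2 aSMO

theorem aGOO : St_GOO := bGOO aBAS aITG aSMO aCON

theorem aPOT : St_POT := bPOT aBAS aBAL aITG bCNV aG3 bKER bSER bYNG

theorem aUPS : St_UPS := bUPS aITG aG2 aSMO aPOT aCON

end Pool.Agent.Lib.FI
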