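import Pool.Agent.Lib.FI.Blue
import Pool.Agent.Lib.HS76.Diag

/-! Project fi, row `ADJ`: the adjugate of a bounded Hermitian matrix. -/

open scoped ComplexOrder Matrix
open Complex Matrix

noncomputable section

namespace Pool.Agent.Lib.FI

open Pool.Agent.Lib.HS32

namespace ADJ

variable {n : ℕ}

theorem cj (W G A : Mat n) : ((Wᴴ * G * W).adjugate * (Wᴴ * A * W)).trace =
    (normSq W.det : ℝ) * (G.adjugate * A).trace := by
  rw [adjugate_mul_distrib, adjugate_mul_distrib, ← Matrix.mul_assoc, trace_mul_comm,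
    Matrix.mul_assoc W.adjugate, ← Matrix.mul_assoc W, mul_adjugate, Matrix.mul_assoc G.adjugate,
    ← Matrix.mul_assoc Wᴴ.adjugate, adjugate_mul, det_conjTranspose, normSq_eq_conj_mul_self]
  simp only [Matrix.smul_mul, Matrix.mul_smul, Matrix.one_mul, trace_smul, smul_eq_mul,
    RCLike.star_def]
  ring

theorem ent (W A : Mat n) (i : Fin n) :
    (Wᴴ * A * W) i i = star (fun j => W j i) ⬝ᵥ A *ᵥ fun j => W j i := by
  rw [Matrix.mul_assoc]
  rfl

end ADJ

theorem bADJ : St_ADJ := by
  intro n G₀ G A A' c h0 hG hc h1 _ h2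
  obtain ⟨W, lam, w1, w2⟩ := HS76.simul_diag h0 hG
  have d : 0 < normSq W.det := normSq_pos.2 fun h => by
    have := congrArg det w1
    simp [h] at this
  have l : ∀ i, ‖(lam i : ℂ)‖ ≤ c := fun i => by
    have := h1 fun j => W j i
    rw [nq, ← ADJ.ent, ← ADJ.ent, w1, w2] at this
    simpa using this
  have e1 := ADJ.cj W G A
  have e2 := congrArg re (ADJ.cj W G₀ A')
  rw [w1, adjugate_one, Matrix.one_mul, re_ofReal_mul] at e2
  rw [w2, adjugate_diagonal] at e1
  refine le_of_mul_le_mul_left ?_ d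
  rw [mul_left_comm, ← e2, ← Real.norm_of_nonneg d.le, ← norm_real, ← norm_mul, ← e1, trace, trace,
    re_sum, Finset.mul_sum]
  refine norm_sum_le_of_le _ fun i _ => ?_
  rw [diag_apply, diag_apply, diagonal_mul, norm_mul, ADJ.ent, ADJ.ent, norm_prod]
  refine mul_le_mul ((Finset.prod_le_prod (fun _ _ => norm_nonneg _) fun j _ => l j).trans_eq ?_)
    (h2 _) (norm_nonneg _) (pow_nonneg hc _)
  simp

end Pool.Agent.Lib.FI
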