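import Pool.Agent.Lib.FI.Blue
import Pool.Agent.Lib.RAA.T_TOP

/-! Project fi: the second coefficient of the adjugate. -/

open scoped Classical ComplexOrder Matrix Polynomial
open Matrix Polynomial

noncomputable section

namespace Pool.Agent.Lib.FI

open Pool.Agent.Lib.HS32 Pool.Agent.Lib.RAA Pool.Agent.Lib.RAA.TTop

namespace LA2

theorem co {k : ℕ} (B Z Θ : Mat k) (hB : B.det ≠ 0) : (tq (B * Z) 1 (Θ * Z)).coeff 1 =
    B.det * ((Z.adjugate * B⁻¹).trace * (B⁻¹ * Θ).trace - (B⁻¹ * Z.adjugate * B⁻¹ * Θ).trace) := by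
  have e : tq (B * Z) 1 (Θ * Z) =
      (pm (B * Z) 1).det * C (B⁻¹ * Θ).trace - X * tq (B * Z) 1 (Θ * B⁻¹) :=
    Polynomial.funext fun s => by
      have z : Θ * Z = Θ * B⁻¹ * (B * Z + s • 1) - s • (Θ * B⁻¹) := by
        rw [Matrix.mul_add, Matrix.mul_smul, Matrix.mul_one, add_sub_cancel_right, Matrix.mul_assoc,
          nonsing_inv_mul_cancel_left _ _ hB.isUnit]
      rw [eval_sub, eval_mul, eval_mul, eval_C, eval_X, tq_eval, tq_eval, det_eval, z,
        Matrix.mul_sub, trace_sub, Matrix.mul_smul, trace_smul, ← Matrix.mul_assoc, trace_mul_comm,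
        ← Matrix.mul_assoc, mul_adjugate, Matrix.smul_mul, Matrix.one_mul, trace_smul,
        trace_mul_comm Θ, smul_eq_mul, smul_eq_mul]
  have a : B.adjugate = B.det • B⁻¹ := by
    rw [inv_def, smul_smul, Ring.mul_inverse_cancel _ hB.isUnit, one_smul]
  rw [e, coeff_sub, coeff_mul_C, coeff_X_mul, coeff_zero_eq_eval_zero, tq_eval, ← cd, cd_one,
    zero_smul, add_zero, Matrix.mul_one, adjugate_mul_distrib, a, Matrix.mul_smul, Matrix.smul_mul,
    trace_smul, trace_smul, ← Matrix.mul_assoc, trace_mul_comm _ B⁻¹, trace_mul_comm _ B⁻¹,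
    trace_mul_comm B⁻¹ Z.adjugate, smul_eq_mul, smul_eq_mul, mul_sub, mul_assoc]
  simp only [Matrix.mul_assoc]

end LA2

theorem bLA2 (hSYL : St_SYL) : St_LA2 := by
  intro n k h0 hk
  obtain ⟨c, hc⟩ := quad n (fun l => ((l : ℕ) : ℝ) + 1)
    (fun a b h => Fin.ext (Nat.cast_injective (R := ℝ) (add_right_cancel h)))
    fun l => if l = ⟨n - k + 1, by omega⟩ then 1 else 0
  refine ⟨c, fun A P B Θ hA hB => ?_⟩
  have h := hc (tq (B * (P * A⁻¹ * Pᴴ)) 1 (Θ * (P * A⁻¹ * Pᴴ)) * C A.det * X ^ (n - k))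
    (natDegree_mul_le.trans (by
      have := (natDegree_mul_C_le _ A.det).trans (tq_deg (B * (P * A⁻¹ * Pᴴ)) 1 (Θ * (P * A⁻¹ * Pᴴ)))
      rw [natDegree_X_pow]
      omega))
  simp only [apply_ite Complex.ofReal, Complex.ofReal_one, Complex.ofReal_zero, ite_mul, one_mul,
    zero_mul, Finset.sum_ite_eq', Finset.mem_univ, if_true] at h
  rw [add_comm (n - k), coeff_mul_X_pow, coeff_mul_C, LA2.co _ _ _ hB.det_pos.ne',
    mul_comm _ A.det, ← mul_assoc] at h
  refine (Finset.sum_congr rfl fun i _ => congrArg (c i • ·) ?_).trans h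
  rw [rs, (hSYL n k A P B Θ _ hk hA.det_pos.ne').2, eval_mul, eval_mul, eval_C, eval_pow, eval_X,
    tq_eval, add_comm (B * _)]
  ring

end Pool.Agent.Lib.FI
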