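import Pool.Agent.Lib.HS32.MAll
import Pool.Agent.Lib.SV.Defs

/-! Project fi: fibre integrals for a meromorphic map. Blueprint. -/

open scoped Classical Topology ContDiff ComplexOrder Matrix ENNReal
open Set MeasureTheory Complex Metric Filter

set_option linter.unusedVariables false

noncomputable section

namespace Pool.Agent.Lib.FI

open Pool.Agent.Lib.SV (E nsq)
open Pool.Agent.Lib.HS32

/-! ### Definitions -/

section defs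

variable {n k : ℕ}

/-- The rectangular Jacobian matrix. -/
def jr (ψ : E n → E k) (w : E n) : Matrix (Fin k) (Fin n) ℂ :=
  Matrix.of fun i j => fderiv ℂ ψ w (Pi.single j 1) i

/-- The complex Hessian of a real function. -/
def hr (f : E k → ℝ) (y : E k) : Mat k := hess (fun w => (f w : ℂ)) y

/-- A smooth function with compact support. -/
structure Tst (θ : E k → ℝ) : Prop where
  sm : ContDiff ℝ ∞ θ
  cs : HasCompactSupport θ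

/-- Rescaling. -/
def sc (r : E k → ℝ) (e : ℝ) (y : E k) : ℝ := (e ^ (2 * k))⁻¹ * r (((e⁻¹ : ℝ) : ℂ) • y)

/-- A radial kernel `r` and its companion `Ψ`. -/
structure Rad (r Ψ : E k → ℝ) : Prop where
  tr : Tst r
  tp : Tst Ψ
  r0 : ∀ y, 0 ≤ r y
  p0 : ∀ y, 0 ≤ Ψ y
  sr : ∀ y, 1 ≤ nsq y → r y = 0 ∧ Ψ y = 0
  pos : ∀ y, nsq y < 1 → 0 < r y
  one : ∫ y, r y = 1
  rad : ∀ y y', nsq y = nsq y' → r y = r y' ∧ Ψ y = Ψ y'
  der : ∀ y (e : ℝ), 0 < e → HasDerivAt (fun t => sc r t y) (e * (hr (sc Ψ e) y).trace.re) e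

variable {M : Mf n}

/-- The auxiliary functions. -/
def qf (p : M.X → ℝ) (z : M.X → E k) (R : ℝ) (y : E k) (x : M.X) : ℝ := p x * (R + nsq (z x - y))

/-- A property on the open set where `p` is positive, read in the charts. -/
abbrev Ao (M : Mf n) (p : M.X → ℝ) (P : M.Ch → E n → Prop) : Prop :=
  M.All fun e w => 0 < p (e.symm w) → P e w

/-- A meromorphic map with controlled poles. -/
structure Fb (H : M.Fam (Mat n)) (p : M.X → ℝ) (z : M.X → E k) (C : ℝ) : Prop where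
  kae : M.Kae H
  k0 : 0 < k
  kn : k ≤ n
  sp : M.Sm p
  p0 : ∀ x, 0 ≤ p x
  hol : Ao M p fun e w => HolN (z ∘ e.symm) w
  sq : ∀ R y, M.Sm (qf p z R y)
  pp : ∀ d : ℝ, 0 < d → M.Le H (C • H + M.hs fun x => Real.log (p x + d))
  pq : ∀ (R : ℝ) (y : E k) (d : ℝ), 0 < R → 0 < d →
    M.Le H (C • H + M.hs fun x => Real.log (qf p z R y x + d))

/-- The reference form on the open set. -/
def g0 (H : M.Fam (Mat n)) (p : M.X → ℝ) (z : M.X → E k) (C : ℝ) : M.Fam (Mat n) :=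
  C • H + M.hs fun x => Real.log (qf p z 1 0 x)

/-- The Gram matrix of the differentials, in the charts. -/
def hzc (H : M.Fam (Mat n)) (z : M.X → E k) : M.Fam (Mat k) :=
  fun e w => jr (z ∘ e.symm) w * (H e w)⁻¹ * (jr (z ∘ e.symm) w)ᴴ

/-- The Gram matrix of the differentials. -/
def hz (H : M.Fam (Mat n)) (z : M.X → E k) (x : M.X) : Mat k := M.ev (hzc H z) x

/-- The density. -/
def dn (H : M.Fam (Mat n)) (z : M.X → E k) (x : M.X) : ℝ := (hz H z x).det.re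

/-- The density of `A ∧ G ^ (n - 1)`. -/
def ad (H G A : M.Fam (Mat n)) (x : M.X) : ℂ :=
  M.ev (fun e w => ((G e w).adjugate * A e w).trace / (H e w).det) x

/-- Complex Hessian of a complex function. -/
def hc (u : M.X → ℂ) : M.Fam (Mat n) := fun e => hess (u ∘ e.symm)

/-- Product of derivatives of complex functions. -/
def dc (u w : M.X → ℂ) : M.Fam (Mat n) := fun e => dd (u ∘ e.symm) (w ∘ e.symm)

/-- Smooth on the open set. -/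
def So {F : Type} [NormedAddCommGroup F] [NormedSpace ℝ F] (p : M.X → ℝ) (f : M.X → F) : Prop :=
  Ao M p fun e w => ContDiffAt ℝ ∞ (f ∘ e.symm) w

/-- The matrix field `A` is bounded by `G` on the open set. -/
def Mb (p : M.X → ℝ) (G A : M.Fam (Mat n)) : Prop :=
  ∃ c : ℝ, 0 ≤ c ∧ Ao M p fun e w => ∀ v, ‖star v ⬝ᵥ A e w *ᵥ v‖ ≤ c * nq (G e w) v

/-- The gradient of `u` is bounded by `G` on the open set. -/
def Gb (p : M.X → ℝ) (G : M.Fam (Mat n)) (u : M.X → ℂ) : Prop :=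
  ∃ c : ℝ, 0 ≤ c ∧ Ao M p fun e w => ∀ v : E n,
    ‖∑ j, v j * dz j (u ∘ e.symm) w‖ ^ 2 ≤ c * nq (G e w) v ∧
    ‖∑ j, star (v j) * dzb j (u ∘ e.symm) w‖ ^ 2 ≤ c * nq (G e w) v

/-- The smoothed fibre integral. -/
def fi (H : M.Fam (Mat n)) (p : M.X → ℝ) (z : M.X → E k) (r : E k → ℝ) (φ : M.X → ℝ) (e : ℝ)
    (y : E k) : ℝ := ∫ x in {x | 0 < p x}, φ x * sc r e (y - z x) * dn H z x ∂M.mu H

/-- The smoothed current. -/
def ft (H : M.Fam (Mat n)) (p : M.X → ℝ) (z : M.X → E k) (r : E k → ℝ) (e : ℝ) (y : E k) : Mat k :=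
  Matrix.of fun i j => ∫ x in {x | 0 < p x},
    (sc r e (y - z x) : ℂ) * (hz H z x).adjugate i j ∂M.mu H

/-- The push-forward of the density is `V` times the Lebesgue measure. -/
def Vol (H : M.Fam (Mat n)) (p : M.X → ℝ) (z : M.X → E k) (V : ℝ) : Prop :=
  0 ≤ V ∧ ∀ θ : E k → ℝ≥0∞, Measurable θ →
    ∫⁻ x in {x | 0 < p x}, θ (z x) * ENNReal.ofReal (dn H z x) ∂M.mu H =
      ENNReal.ofReal V * ∫⁻ y, θ y

/-- The norm of the Jacobian tensor. -/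
structure Jc (H : M.Fam (Mat n)) (p : M.X → ℝ) (z : M.X → E k) (J : M.X → ℝ) (C : ℝ) : Prop where
  sm : M.Sm J
  j0 : ∀ x, 0 ≤ J x
  pos : ∀ x, 0 < J x ↔ 0 < p x ∧ 0 < dn H z x
  psh : ∀ d : ℝ, 0 < d → M.Le 0 (C • H + M.hs fun x => Real.log (J x + d))

/-- The filter of the pairs `(e, y')` that tend to `(0, y)`. -/
def nb (y : E k) : Filter (ℝ × E k) := 𝓝[>] 0 ×ˢ 𝓝 y

/-- No mass escapes to the zero set of `J` at the point `y`. -/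
def Good (H : M.Fam (Mat n)) (p : M.X → ℝ) (z : M.X → E k) (r : E k → ℝ) (J : M.X → ℝ) (V : ℝ)
    (y : E k) : Prop := ∀ η : ℝ, 0 < η → ∃ φ : M.X → ℝ, M.Sm φ ∧ (∀ x, 0 ≤ φ x ∧ φ x ≤ 1) ∧
      tsupport φ ⊆ {x | 0 < J x} ∧ ∀ᶠ a in nb y, V - η ≤ fi H p z r φ a.1 a.2

/-- The potential of the current. -/
structure Pot (T : ℝ → E k → Mat k) (v : ℝ → E k → ℝ) : Prop where
  sm : ∀ e, 0 < e → ContDiff ℝ ∞ (v e) ∧ ∀ y, hr (v e) y = T e y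
  mono : ∀ e e' y, 0 < e → e ≤ e' → v e y ≤ v e' y
  up : ∃ c : ℝ, ∀ y, v 1 y ≤ c * Real.log (2 + nsq y)
  lo : ∀ R : ℝ, ∃ c : ℝ, ∀ e, 0 < e → e ≤ 1 → -c ≤ ∫ y in {y | nsq y ≤ R}, v e y

end defs

/-! ### Algebra -/

/-- The adjugate of a bounded Hermitian matrix. -/
def St_ADJ : Prop := ∀ (n : ℕ) (G₀ G A A' : Mat n) (c : ℝ), G₀.PosDef → G.IsHermitian → 0 ≤ c →
  (∀ v, ‖star v ⬝ᵥ G *ᵥ v‖ ≤ c * nq G₀ v) → A'.IsHermitian →
  (∀ v, ‖star v ⬝ᵥ A *ᵥ v‖ ≤ nq A' v) →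
  ‖(G.adjugate * A).trace‖ ≤ c ^ (n - 1) * (G₀.adjugate * A').trace.re

/-- The identities of Sylvester. -/
def St_SYL : Prop := ∀ (n k : ℕ) (A : Mat n) (P : Matrix (Fin k) (Fin n) ℂ) (B Θ : Mat k) (s : ℂ),
  k ≤ n → A.det ≠ 0 →
  (s • A + Pᴴ * B * P).det = s ^ (n - k) * A.det * (s • (1 : Mat k) + B * (P * A⁻¹ * Pᴴ)).det ∧
  ((s • A + Pᴴ * B * P).adjugate * (Pᴴ * Θ * P)).trace = s ^ (n - k) * A.det *
    ((s • (1 : Mat k) + B * (P * A⁻¹ * Pᴴ)).adjugate * (Θ * (P * A⁻¹ * Pᴴ))).trace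

/-- The coefficient of `s ^ (n - k)` in the adjugate. -/
def St_LAG : Prop := ∀ n k : ℕ, 0 < k → k ≤ n → ∃ c : Fin (n + 1) → ℝ,
  ∀ (A : Mat n) (P : Matrix (Fin k) (Fin n) ℂ) (B : Mat k), A.PosDef → B.PosSemidef →
    (∑ i, c i • ((((i : ℕ) : ℝ) + 1) • A + Pᴴ * B * P).adjugate).PosSemidef ∧
    (∀ Θ : Mat k, ∑ i, c i • (((((i : ℕ) : ℝ) + 1) • A + Pᴴ * B * P).adjugate * (Pᴴ * Θ * P)).trace =
      A.det * (P * A⁻¹ * Pᴴ).det * (B.adjugate * Θ).trace) ∧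
    ∑ i, c i • (((((i : ℕ) : ℝ) + 1) • A + Pᴴ * B * P).adjugate * A).trace =
      ((n - k + 1 : ℕ) : ℂ) * A.det * (B.adjugate * (P * A⁻¹ * Pᴴ).adjugate).trace

/-- The coefficient of `s ^ (n - k + 1)`. -/
def St_LA2 : Prop := ∀ n k : ℕ, 0 < k → k ≤ n → ∃ c : Fin (n + 1) → ℝ,
  ∀ (A : Mat n) (P : Matrix (Fin k) (Fin n) ℂ) (B Θ : Mat k), A.PosDef → B.PosDef →
    ∑ i, c i • (((((i : ℕ) : ℝ) + 1) • A + Pᴴ * B * P).adjugate * (Pᴴ * Θ * P)).trace =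
      A.det * B.det * (((P * A⁻¹ * Pᴴ).adjugate * B⁻¹).trace * (B⁻¹ * Θ).trace -
        (B⁻¹ * (P * A⁻¹ * Pᴴ).adjugate * B⁻¹ * Θ).trace)

/-! ### Calculus -/

/-- Chain rule for a holomorphic map between spaces of different dimensions. -/
def St_CHR : Prop := ∀ (n k : ℕ) (ψ : E n → E k) (w : E n), HolN ψ w →
  ContDiffAt ℝ ∞ ψ w ∧ (∀ i j, HolN (fun w' => jr ψ w' i j) w) ∧
  (∀ φ : E n → E n, ∀ w', HolN φ w' → φ w' = w → jr (ψ ∘ φ) w' = jr ψ w * jm φ w') ∧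
  (∀ f : E k → ℂ, DifferentiableAt ℝ f (ψ w) → ∀ j,
    dz j (f ∘ ψ) w = ∑ a, dz a f (ψ w) * jr ψ w a j ∧
    dzb j (f ∘ ψ) w = ∑ a, dzb a f (ψ w) * star (jr ψ w a j)) ∧
  (∀ f g : E k → ℂ, DifferentiableAt ℝ f (ψ w) → DifferentiableAt ℝ g (ψ w) →
    dd (f ∘ ψ) (g ∘ ψ) w = (jr ψ w)ᴴ * dd f g (ψ w) * jr ψ w) ∧
  ∀ f : E k → ℂ, ContDiffAt ℝ ∞ f (ψ w) → hess (f ∘ ψ) w = (jr ψ w)ᴴ * hess f (ψ w) * jr ψ w

/-- The form of Fubini and Study. -/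
def St_FS : Prop := ∀ (k : ℕ) (R : ℝ) (y w : E k), 0 < R →
  ContDiffAt ℝ ∞ (fun w => Real.log (R + nsq (w - y))) w ∧
  (hr (fun w => Real.log (R + nsq (w - y))) w).PosDef ∧
  (hr (fun w => Real.log (R + nsq (w - y))) w).det = (R / (R + nsq (w - y)) ^ (k + 1) : ℝ) ∧
  (hr (fun w => Real.log (R + nsq (w - y))) w -
    (R / (R + nsq (w - y)) ^ 2) • (1 : Mat k)).PosSemidef ∧
  ((R + nsq (w - y))⁻¹ • (1 : Mat k) - hr (fun w => Real.log (R + nsq (w - y))) w).PosSemidef ∧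
  ∀ v, nq (hr (fun w => Real.log (R + nsq (w - y))) w) v =
    ((R + nsq (w - y)) * nsq v - normSq (star (w - y) ⬝ᵥ v)) / (R + nsq (w - y)) ^ 2

/-- The kernel exists. -/
def St_RAD : Prop := ∀ k : ℕ, 0 < k → ∃ r Ψ : E k → ℝ, Rad r Ψ

/-- Convolution of a test function with a locally finite density. -/
def St_CNV : Prop := ∀ (k : ℕ) (Ω : Type) [MeasurableSpace Ω] (m : Measure Ω) (z : Ω → E k)
  (a : Ω → ℂ), AEMeasurable z m → (∀ R : ℝ, IntegrableOn a {x | nsq (z x) ≤ R} m) →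
  (∀ K : E k → ℂ, ContDiff ℝ ∞ K → HasCompactSupport K →
    ContDiff ℝ ∞ (fun y => ∫ x, K (y - z x) * a x ∂m) ∧ ∀ y,
      Integrable (fun x => K (y - z x) * a x) m ∧
      (∀ v, fderiv ℝ (fun y => ∫ x, K (y - z x) * a x ∂m) y v =
        ∫ x, fderiv ℝ K (y - z x) v * a x ∂m) ∧
      (∀ i j, hess (fun y => ∫ x, K (y - z x) * a x ∂m) y i j =
        ∫ x, hess K (y - z x) i j * a x ∂m) ∧
      ∀ (l : ℕ) (c ρ : ℝ), (∀ w, ‖iteratedFDeriv ℝ l K w‖ ≤ c) → (∀ w, ρ ≤ nsq w → K w = 0) →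
        ‖iteratedFDeriv ℝ l (fun y => ∫ x, K (y - z x) * a x ∂m) y‖ ≤
          c * ∫ x in {x | nsq (z x - y) ≤ ρ}, ‖a x‖ ∂m) ∧
  ∀ (r : E k → ℝ) (r' : ℝ → E k → ℝ), Tst r →
    (∀ y (e : ℝ), 0 < e → HasDerivAt (fun t => sc r t y) (r' e y) e) → ∀ y (e : ℝ), 0 < e →
      HasDerivAt (fun t => ∫ x, (sc r t (y - z x) : ℂ) * a x ∂m)
        (∫ x, (r' e (y - z x) : ℂ) * a x ∂m) e

/-! ### The open set -/

/-- Basic properties. -/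
def St_BAS : Prop := ∀ (n k : ℕ) (M : Mf n) [M.Cpt] (H : M.Fam (Mat n)) (p : M.X → ℝ)
  (z : M.X → E k) (C : ℝ), Fb H p z C → IsOpen {x | 0 < p x} ∧ ContinuousOn z {x | 0 < p x} ∧
  (∀ i j, ContinuousOn (fun x => hz H z x i j) {x | 0 < p x}) ∧
  (Ao M p fun e w => hz H z (e.symm w) = hzc H z e w ∧ (hzc H z e w).PosSemidef ∧
    (g0 H p z C e w - H e w - (jr (z ∘ e.symm) w)ᴴ *
      hr (fun y => Real.log (1 + nsq y)) (z (e.symm w)) * jr (z ∘ e.symm) w).PosSemidef ∧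
    (g0 H p z C e w).PosDef ∧ SmM (g0 H p z C e) w) ∧
  ∀ G A : M.Fam (Mat n),
    (M.Ov fun e e' x => 0 < p x → G e' (e' x) = (M.J e e' x)ᴴ * G e (e x) * M.J e e' x ∧
      A e' (e' x) = (M.J e e' x)ᴴ * A e (e x) * M.J e e' x) →
    (Ao M p fun e w => ad H G A (e.symm w) = ((G e w).adjugate * A e w).trace / (H e w).det) ∧
    ((Ao M p fun e w => SmM (G e) w ∧ SmM (A e) w) → ContinuousOn (ad H G A) {x | 0 < p x})

/-- Tame functions. -/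
def St_TAM : Prop := ∀ (n k : ℕ) (M : Mf n) [M.Cpt] (H : M.Fam (Mat n)) (p : M.X → ℝ)
  (z : M.X → E k) (C : ℝ), Fb H p z C →
  (∀ T, M.Ten T → Mb p (g0 H p z C) T) ∧
  (∀ u : M.X → ℂ, M.Sm u → So p u ∧ Mb p (g0 H p z C) (hc u) ∧ Gb p (g0 H p z C) u) ∧
  (∀ θ : E k → ℂ, ContDiff ℝ ∞ θ → HasCompactSupport θ → So p (θ ∘ z) ∧
    Mb p (g0 H p z C) (hc (θ ∘ z)) ∧ Gb p (g0 H p z C) (θ ∘ z)) ∧
  ∀ (R : ℝ) (y : E k), 0 < R → So p (fun x => Real.log (R + nsq (z x - y))) ∧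
    Mb p (g0 H p z C) (M.hs fun x => Real.log (R + nsq (z x - y)))

/-- Finite mass and the energy of the shells. -/
def St_MAS : Prop := ∀ (n k : ℕ) (M : Mf n) [M.Cpt] (H : M.Fam (Mat n)) (p : M.X → ℝ)
  (z : M.X → E k) (C : ℝ), Fb H p z C → ∃ c : ℝ, 0 ≤ c ∧
  (∀ (R : ℝ) (y : E k), 0 < R → ∫⁻ x in {x | 0 < p x}, ENNReal.ofReal
    (M.dq H (C • H + M.hs fun x => Real.log (qf p z R y x)) x) ∂M.mu H ≤ ENNReal.ofReal c) ∧
  ∀ L : ℝ, 1 ≤ L → ∫⁻ x in {x | 0 < p x ∧ -(2 * L) ≤ Real.log (qf p z 1 0 x) ∧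
      Real.log (qf p z 1 0 x) ≤ -L}, ENNReal.ofReal (ad H (g0 H p z C)
        (M.ds (fun x => Real.log (qf p z 1 0 x)) fun x => Real.log (qf p z 1 0 x)) x).re ∂M.mu H ≤
    ENNReal.ofReal (c * L)

/-- The formula of Green on the open set. -/
def St_GRO : Prop := ∀ (n k : ℕ) (M : Mf n) [M.Cpt] (H : M.Fam (Mat n)) (p : M.X → ℝ)
  (z : M.X → E k) (C : ℝ) (T : M.Fam (Mat n)) (b : M.X → ℝ) (u w : M.X → ℂ) (c : ℝ), Fb H p z C →
  M.Clo T → So p b → Mb p (g0 H p z C) (M.hs b) → So p u → Mb p (g0 H p z C) (hc u) →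
  Gb p (g0 H p z C) u → So p w → Gb p (g0 H p z C) w → (∀ x, 0 < p x → ‖w x‖ ≤ c) →
  IntegrableOn (ad H (T + M.hs b) (dc u w)) {x | 0 < p x} (M.mu H) ∧
  IntegrableOn (fun x => w x * ad H (T + M.hs b) (hc u) x) {x | 0 < p x} (M.mu H) ∧
  ∫ x in {x | 0 < p x}, ad H (T + M.hs b) (dc u w) x ∂M.mu H +
    ∫ x in {x | 0 < p x}, w x * ad H (T + M.hs b) (hc u) x ∂M.mu H = 0

/-- The mass of the balls. -/
def St_BAL : Prop := ∀ (n k : ℕ) (M : Mf n) [M.Cpt] (H : M.Fam (Mat n)) (p : M.X → ℝ)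
  (z : M.X → E k) (C : ℝ), Fb H p z C → ∃ c : ℝ, 0 ≤ c ∧ ∀ (y : E k) (R : ℝ), 0 < R →
  ∫⁻ x in {x | 0 < p x ∧ nsq (z x - y) ≤ R}, ENNReal.ofReal (dn H z x) ∂M.mu H ≤
    ENNReal.ofReal (c * R ^ k) ∧
  ∫⁻ x in {x | 0 < p x ∧ nsq (z x - y) ≤ R},
    ENNReal.ofReal (hz H z x).adjugate.trace.re ∂M.mu H ≤ ENNReal.ofReal (c * R ^ (k - 1))

/-- Integrability against test functions. -/
def St_ITG : Prop := ∀ (n k : ℕ) (M : Mf n) [M.Cpt] (H : M.Fam (Mat n)) (p : M.X → ℝ)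
  (z : M.X → E k) (C : ℝ) (φ : M.X → ℂ) (θ : E k → ℂ), Fb H p z C → Continuous φ → Continuous θ →
  HasCompactSupport θ →
  IntegrableOn (fun x => φ x * θ (z x) * dn H z x) {x | 0 < p x} (M.mu H) ∧
  ∀ i j, IntegrableOn (fun x => φ x * θ (z x) * (hz H z x).adjugate i j) {x | 0 < p x} (M.mu H)

/-- First order identities. -/
def St_G1 : Prop := ∀ (n k : ℕ) (M : Mf n) [M.Cpt] (H : M.Fam (Mat n)) (p : M.X → ℝ)
  (z : M.X → E k) (C : ℝ) (θ : E k → ℂ), Fb H p z C → ContDiff ℝ ∞ θ → HasCompactSupport θ → ∀ j,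
  ∫ x in {x | 0 < p x}, dz j θ (z x) * dn H z x ∂M.mu H = 0 ∧
  ∀ N : Mat k, N.PosDef →
    ∫ x in {x | 0 < p x}, ((hz H z x).adjugate * N).trace * ∑ i, N i j * dz i θ (z x) ∂M.mu H =
      ∫ x in {x | 0 < p x}, ∑ i, (N * (hz H z x).adjugate * N) i j * dz i θ (z x) ∂M.mu H

/-- The second order inequality. -/
def St_G2 : Prop := ∀ (n k : ℕ) (M : Mf n) [M.Cpt] (H : M.Fam (Mat n)) (p : M.X → ℝ)
  (z : M.X → E k) (C c : ℝ) (φ : M.X → ℝ) (θ : E k → ℝ) (N : Mat k) (S : Set M.X), Fb H p z C →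
  M.Sm φ → 0 ≤ c → M.Le 0 (c • H + M.hs φ) → IsClosed S → tsupport φ ⊆ S → Tst θ →
  (∀ y, 0 ≤ θ y) → N.PosSemidef →
  -(c * (n - k + 1 : ℕ) * ∫ x in {x | 0 < p x} ∩ S,
      θ (z x) * (N * (hz H z x).adjugate).trace.re ∂M.mu H) ≤
    ∫ x in {x | 0 < p x}, φ x * (N * hr θ (z x)).trace.re * dn H z x ∂M.mu H

/-- The current is closed. -/
def St_G3 : Prop := ∀ (n k : ℕ) (M : Mf n) [M.Cpt] (H : M.Fam (Mat n)) (p : M.X → ℝ)
  (z : M.X → E k) (C : ℝ) (θ : E k → ℝ), Fb H p z C → Tst θ → ∀ i j,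
  ∫ x in {x | 0 < p x}, (hz H z x).adjugate i j * (hr θ (z x)).trace ∂M.mu H =
    ∫ x in {x | 0 < p x}, (hz H z x).adjugate.trace * hr θ (z x) i j ∂M.mu H

/-- The push-forward of the density. -/
def St_VOL : Prop := ∀ (n k : ℕ) (M : Mf n) [M.Cpt] (H : M.Fam (Mat n)) (p : M.X → ℝ)
  (z : M.X → E k) (C : ℝ), Fb H p z C → ∃ V, Vol H p z V

/-- The smoothed fibre integrals. -/
def St_SMO : Prop := ∀ (n k : ℕ) (M : Mf n) [M.Cpt] (H : M.Fam (Mat n)) (p : M.X → ℝ)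
  (z : M.X → E k) (C V : ℝ) (r Ψ : E k → ℝ), Fb H p z C → Vol H p z V → Rad r Ψ →
  (∀ e y, 0 < e → fi H p z r (fun _ => 1) e y = V ∧
    (∀ φ ψ : M.X → ℝ, Continuous φ → Continuous ψ → (∀ a : ℝ, fi H p z r (fun x => φ x + a * ψ x) e y =
      fi H p z r φ e y + a * fi H p z r ψ e y) ∧
      ((∀ x, φ x ≤ ψ x) → fi H p z r φ e y ≤ fi H p z r ψ e y))) ∧
  ∀ φ : M.X → ℝ, Continuous φ → ∀ e, 0 < e → ContDiff ℝ ∞ (fi H p z r φ e) ∧ ∀ y,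
    (∀ N : Mat k, (N * hr (fi H p z r φ e) y).trace.re = ∫ x in {x | 0 < p x},
      φ x * (N * hr (fun w => sc r e (y - w)) (z x)).trace.re * dn H z x ∂M.mu H) ∧
    HasDerivAt (fun t => fi H p z r φ t y) (e * ∫ x in {x | 0 < p x},
      φ x * (hr (fun w => sc Ψ e (y - w)) (z x)).trace.re * dn H z x ∂M.mu H) e

/-- The potential. -/
def St_POT : Prop := ∀ (n k : ℕ) (M : Mf n) [M.Cpt] (H : M.Fam (Mat n)) (p : M.X → ℝ)
  (z : M.X → E k) (C : ℝ) (r Ψ : E k → ℝ), Fb H p z C → Rad r Ψ → ∃ v, Pot (ft H p z r) v ∧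
    (∀ e y, 0 < e → (ft H p z r e y).PosSemidef) ∧
    ∀ e y, 0 < e → HasDerivAt (fun t => v t y) (e * ∫ x in {x | 0 < p x},
      sc Ψ e (y - z x) * (hz H z x).adjugate.trace.re ∂M.mu H) e

/-- Continuity of the fibre integrals away from the critical set. -/
def St_CON : Prop := ∀ (n k : ℕ) (M : Mf n) [M.Cpt] (H : M.Fam (Mat n)) (p : M.X → ℝ)
  (z : M.X → E k) (C V : ℝ) (r Ψ : E k → ℝ) (J φ : M.X → ℝ), Fb H p z C → Vol H p z V → Rad r Ψ →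
  Jc H p z J C → M.Sm φ → tsupport φ ⊆ {x | 0 < J x} →
  ∃ I : E k → ℝ, Continuous I ∧ (∀ y, Tendsto (fun a : ℝ × E k => fi H p z r φ a.1 a.2) (nb y) (𝓝 (I y))) ∧
    ∀ θ : E k → ℝ, Continuous θ → HasCompactSupport θ →
      ∫ x in {x | 0 < p x}, φ x * θ (z x) * dn H z x ∂M.mu H = ∫ y, θ y * I y

/-- Good points. -/
def St_GOO : Prop := ∀ (n k : ℕ) (M : Mf n) [M.Cpt] (H : M.Fam (Mat n)) (p : M.X → ℝ)
  (z : M.X → E k) (C V : ℝ) (r Ψ : E k → ℝ) (J : M.X → ℝ), Fb H p z C → Vol H p z V → Rad r Ψ →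
  Jc H p z J C → (∀ᵐ y, Good H p z r J V y) ∧ ∀ y, Good H p z r J V y → ∀ φ : M.X → ℝ, M.Sm φ →
    ∃ l, Tendsto (fun a : ℝ × E k => fi H p z r φ a.1 a.2) (nb y) (𝓝 l)

/-- The plurisubharmonic function that detects the bad points. -/
def St_UPS : Prop := ∀ (n k : ℕ) (M : Mf n) [M.Cpt] (H : M.Fam (Mat n)) (p : M.X → ℝ)
  (z : M.X → E k) (C V : ℝ) (r Ψ : E k → ℝ) (J : M.X → ℝ), Fb H p z C → Vol H p z V → Rad r Ψ →
  Jc H p z J C → ∃ (v : ℝ → E k → ℝ) (c : ℝ) (U : ℝ → ℝ → E k → ℝ), Pot (ft H p z r) v ∧ 0 ≤ c ∧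
    (∀ d e y, U d e y = fi H p z r (fun x => Real.log (J x + d)) e y + c * v e y) ∧
    (∀ d e, 0 < d → 0 < e → ContDiff ℝ ∞ (U d e) ∧ ∀ y, (hr (U d e) y).PosSemidef) ∧
    (∀ d d' e e' y, 0 < d → d ≤ d' → 0 < e → e ≤ e' → U d e y ≤ U d' e' y) ∧
    (∃ c' : ℝ, ∀ y, U 1 1 y ≤ c' * Real.log (2 + nsq y)) ∧
    ∀ y, ¬Good H p z r J V y → ∀ A : ℝ, ∃ d e, 0 < d ∧ 0 < e ∧ U d e y ≤ A

end Pool.Agent.Lib.FI
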