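import Pool.Agent.Lib.FI.Blue

/-! Project fi: the parts of the row on the potential. -/

open scoped Classical Topology ContDiff ComplexOrder Matrix ENNReal
open Set MeasureTheory Complex Metric Filter

noncomputable section

namespace Pool.Agent.Lib.FI

open Pool.Agent.Lib.SV (E nsq)
open Pool.Agent.Lib.HS32

/-- The primitive of the kernel. -/
def St_KER : Prop := ∀ (k : ℕ) (r Ψ : E k → ℝ), Rad r Ψ → ∃ (Λ : ℝ → ℝ → E k → ℝ) (A : ℝ),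
  (∀ a b, 0 < a → 0 < b → Tst (Λ a b) ∧ ∀ w,
    (hr (Λ a b) w).trace = ((sc r b w - sc r a w : ℝ) : ℂ) ∧
    (a ^ 2 ≤ nsq w → b ^ 2 ≤ nsq w → Λ a b w = 0) ∧ (a ≤ b → 0 ≤ Λ a b w) ∧
    HasDerivAt (fun t => Λ t b w) (-(a * sc Ψ a w)) a ∧ Λ a a w = 0 ∧
    ∀ t, 0 < t → Λ (t * a) (t * b) w = t ^ 2 * sc (Λ a b) t w) ∧
  ∀ e, 0 < e → e ≤ 1 → ∫ w, Λ e 1 w ≤ A

/-- Series of smooth functions. -/
def St_SER : Prop := ∀ (k : ℕ) (f : ℕ → E k → ℂ) (c : ℕ → ℝ), (∀ j, ContDiff ℝ ∞ (f j)) →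
  (∀ j, f j 0 = 0) → (∀ l j y, ‖iteratedFDeriv ℝ (l + 1) (f j) y‖ ≤ c l * (1 / 2) ^ j) →
  ContDiff ℝ ∞ (fun y => ∑' j, f j y) ∧
  (∀ y a b, HasSum (fun j => hess (f j) y a b) (hess (fun y => ∑' j, f j y) y a b)) ∧
  ∀ A : ℝ, (∀ j y, ‖f j y‖ ≤ A) → ∃ c' : ℝ, ∀ y, ‖∑' j, f j y‖ ≤ c' * Real.log (2 + nsq y)

/-- The inequality of Young. -/
def St_YNG : Prop := ∀ (k : ℕ) (Ω : Type) [MeasurableSpace Ω] (m : Measure Ω) [SFinite m]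
  (z : Ω → E k) (s : Ω → ℝ) (K : E k → ℝ) (R A : ℝ), AEMeasurable z m → AEMeasurable s m →
  (∀ᵐ x ∂m, 0 ≤ s x) → IntegrableOn s {x | nsq (z x) ≤ 2 * R + 2} m → Continuous K →
  (∀ w, 0 ≤ K w) → (∀ w, 1 ≤ nsq w → K w = 0) → ∫ w, K w ≤ A →
  ∫ y in {y | nsq y ≤ R}, ∫ x, K (y - z x) * s x ∂m ≤ A * ∫ x in {x | nsq (z x) ≤ 2 * R + 2}, s x ∂m

end Pool.Agent.Lib.FI
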